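import Mathlib
import Pool.Agent.H819.HN.PotSum

/-!
# One-forms given by covectors, and the operator `- d (dφ ∘ A)`
-/

set_option autoImplicit false

open Set Filter Topology MeasureTheory Metric
open scoped ContDiff ENNReal NNReal

noncomputable section

namespace Pool.Agent.H819.EM

variable {d : ℕ}

/-- a covector as an alternating map in one variable -/
def one : (EuclideanSpace ℝ (Fin d) →L[ℝ] ℝ) ≃ₗᵢ[ℝ] (EuclideanSpace ℝ (Fin d)) [⋀^Fin 1]→L[ℝ] ℝ :=
  ContinuousAlternatingMap.ofSubsingletonLIE (0 : Fin 1)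

theorem one_apply (g : EuclideanSpace ℝ (Fin d) →L[ℝ] ℝ) (u : EuclideanSpace ℝ (Fin d)) :
    one g ![u] = g u := rfl

theorem extDeriv_eq {b : EuclideanSpace ℝ (Fin d) → (EuclideanSpace ℝ (Fin d)) [⋀^Fin 1]→L[ℝ] ℝ}
    {z : EuclideanSpace ℝ (Fin d)} (hb : DifferentiableAt ℝ b z)
    (u v : EuclideanSpace ℝ (Fin d)) :
    extDeriv b z ![u, v] = fderiv ℝ b z u ![v] - fderiv ℝ b z v ![u] := HN.ps_ext hb u v

/-- the exterior derivative of a one-form given by covectors -/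
theorem extDeriv_one {g : EuclideanSpace ℝ (Fin d) → EuclideanSpace ℝ (Fin d) →L[ℝ] ℝ}
    {z : EuclideanSpace ℝ (Fin d)} (hg : DifferentiableAt ℝ g z)
    (u v : EuclideanSpace ℝ (Fin d)) :
    extDeriv (fun z => one (g z)) z ![u, v] = fderiv ℝ g z u v - fderiv ℝ g z v u := by
  have h1 : HasFDerivAt (fun z => one (g z))
      ((one (d := d)).toContinuousLinearEquiv.toContinuousLinearMap.comp (fderiv ℝ g z)) z :=
    (one (d := d)).toContinuousLinearEquiv.toContinuousLinearMap.hasFDerivAt.comp z hg.hasFDerivAt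
  rw [extDeriv_eq h1.differentiableAt, h1.fderiv]
  rfl

/-- the one-form `- dφ ∘ A` -/
def bf (A : EuclideanSpace ℝ (Fin d) → EuclideanSpace ℝ (Fin d) →L[ℝ] EuclideanSpace ℝ (Fin d))
    (φ : EuclideanSpace ℝ (Fin d) → ℝ) (z : EuclideanSpace ℝ (Fin d)) :
    (EuclideanSpace ℝ (Fin d)) [⋀^Fin 1]→L[ℝ] ℝ :=
  one (-(fderiv ℝ φ z).comp (A z))

theorem bf_apply (A : EuclideanSpace ℝ (Fin d) → EuclideanSpace ℝ (Fin d) →L[ℝ]
    EuclideanSpace ℝ (Fin d)) (φ : EuclideanSpace ℝ (Fin d) → ℝ)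
    (z u : EuclideanSpace ℝ (Fin d)) : bf A φ z ![u] = -fderiv ℝ φ z (A z u) := rfl

/-- the quadratic form `(- d (dφ ∘ A)) (u, A u)`: it is `D²φ(u, u) + D²φ(A u, A u)` and a term with
the first derivatives of `A` and `φ` -/
def LA (A : EuclideanSpace ℝ (Fin d) → EuclideanSpace ℝ (Fin d) →L[ℝ] EuclideanSpace ℝ (Fin d))
    (φ : EuclideanSpace ℝ (Fin d) → ℝ) (z u : EuclideanSpace ℝ (Fin d)) : ℝ :=
  fderiv ℝ (fderiv ℝ φ) z u u + fderiv ℝ (fderiv ℝ φ) z (A z u) (A z u) +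
    fderiv ℝ φ z (fderiv ℝ A z (A z u) u - fderiv ℝ A z u (A z u))

theorem extDeriv_bf {A : EuclideanSpace ℝ (Fin d) → EuclideanSpace ℝ (Fin d) →L[ℝ]
    EuclideanSpace ℝ (Fin d)} {φ : EuclideanSpace ℝ (Fin d) → ℝ}
    {z : EuclideanSpace ℝ (Fin d)} (hA : DifferentiableAt ℝ A z)
    (hφ : DifferentiableAt ℝ (fderiv ℝ φ) z) (hA2 : ∀ u, A z (A z u) = -u)
    (u : EuclideanSpace ℝ (Fin d)) : extDeriv (bf A φ) z ![u, A z u] = LA A φ z u := by
  have h1 : HasFDerivAt (fun z => -(fderiv ℝ φ z).comp (A z))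
      (-((ContinuousLinearMap.compL ℝ _ _ _ (fderiv ℝ φ z)).comp (fderiv ℝ A z) +
        ((ContinuousLinearMap.compL ℝ _ _ _).flip (A z)).comp
          (fderiv ℝ (fderiv ℝ φ) z))) z :=
    (hφ.hasFDerivAt.clm_comp hA.hasFDerivAt).neg
  have h2 : extDeriv (bf A φ) z ![u, A z u] = _ := extDeriv_one h1.differentiableAt u (A z u)
  rw [h2, h1.fderiv]
  unfold LA
  have h3 := hA2 u
  simp only [neg_apply, add_apply,
    ContinuousLinearMap.comp_apply, ContinuousLinearMap.compL_apply,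
    ContinuousLinearMap.flip_apply, map_sub, h3, map_neg]
  ring

end Pool.Agent.H819.EM
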