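import Mathlib
import Pool.Agent.H819.EM.Def

/-!
# Local closed structure measures: definitions

A finite measure `ν` on `E d × E d`, with bounded second component, stands for the functional
`s ↦ ∫ s(z)(u, A(z) u) dν(z, u)` on two-forms.
-/

set_option autoImplicit false

open Set Filter Topology MeasureTheory Metric
open scoped ContDiff ENNReal NNReal

noncomputable section

namespace Pool.Agent.H819.EM

open Pool.Agent.Y501.SY (E)

variable {d : ℕ}

/-- smooth one-forms with compact support in `U` -/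
structure Test (U : Set (E d)) (b : E d → (E d) [⋀^Fin 1]→L[ℝ] ℝ) : Prop where
  smooth : ContDiff ℝ ∞ b
  comp : HasCompactSupport b
  supp : tsupport b ⊆ U

/-- the part of `ν` over `Y` annihilates the exterior derivatives of the one-forms with compact
support in `U` -/
def ClosedOn (U : Set (E d)) (A : E d → E d →L[ℝ] E d) (ν : Measure (E d × E d))
    (Y : Set (E d)) : Prop :=
  ∀ b, Test U b → ∫ q in {q : E d × E d | q.1 ∈ Y}, extDeriv b q.1 ![q.2, A q.1 q.2] ∂ν = 0

/-- the estimate for the functions `w = log (ρ + ε²)`: `LA A w z v ≥ - C₁ (‖v‖² + ‖v‖ |∂w|)` with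
`|∂w|² = Dw(v)² + Dw(A v)²`, uniformly in `ε ∈ (0, 1]` -/
def LogEst (A : E d → E d →L[ℝ] E d) (ρ : E d → ℝ) (U : Set (E d)) (C₁ : ℝ) : Prop :=
  ∀ z ∈ U, ∀ ε : ℝ, 0 < ε → ε ≤ 1 → ∀ v : E d,
    -(C₁ * (‖v‖ ^ 2 + ‖v‖ * Real.sqrt (fderiv ℝ (fun z => Real.log (ρ z + ε ^ 2)) z v ^ 2 +
      fderiv ℝ (fun z => Real.log (ρ z + ε ^ 2)) z (A z v) ^ 2))) ≤
    LA A (fun z => Real.log (ρ z + ε ^ 2)) z v

end Pool.Agent.H819.EM
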