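import Mathlib
import Pool.Agent.H819.EM.Loc

/-!
# Adapted defining functions of pseudoholomorphic submanifolds
-/

set_option autoImplicit false

open Set Filter Topology MeasureTheory Metric
open scoped ContDiff ENNReal NNReal

noncomputable section

namespace Pool.Agent.H819.EM

open Pool.Agent.Y501.SY (E)

variable {d k : ℕ}

/-- **Adapted defining functions.**  Near a point of a zero set `{h₀ = 0}` whose tangent spaces are
`A`-invariant there is a defining function `h` with values in `(ℝ^k, T)`, `T² = -1`, which is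
pseudoholomorphic at the points of the zero set.

Proof.  Shrink `U` so that `D(z) = fderiv ℝ h₀ z` is surjective on it (surjectivity is an open
condition: `D(z) D(z)^*` is invertible at `p`, and invertibility is open, e.g. `ContinuousLinearEquiv.nhds`,
`Ring.inverse`).  Let `D^*` be the adjoint, `R(z) = D^* (D D^*)⁻¹` (smooth in `z`:
`contDiffAt_map_inverse` / `ContDiffAt.inverse`), `D R = 1`, and `B(z) = D(z) A(z) R(z)`, a smooth
family of endomorphisms of `E k`.  At a point `z` with `h₀ z = 0`: for every `u` the vector `R D u - u`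
is in `ker D`, so `D A (R D u - u) = 0`, i.e. `B D = D A`; and `B² D = B D A = D A A = - D`, so
`B² = -1` since `D` is surjective.  Put `T = B(p)`, `G(z) = (1 - T B(z)) / 2`, so `G(p) = 1`; `G(z)` is
invertible on a neighbourhood `V` of `p`.  Let `h z = G(z) (h₀ z)`.  Then `h z = 0 ↔ h₀ z = 0` on `V`, and
where `h₀ z = 0`: `fderiv ℝ h z u = G(z) (D(z) u)` (the derivative of `G` is applied to `h₀ z = 0`), so
`Dh (A u) = G D A u = G B D u` and `T Dh u = T G D u`; and `G B = (B - T B²) / 2 = (B + T) / 2`,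
`T G = (T - T² B) / 2 = (T + B) / 2` are equal.  Finally `fderiv ℝ h p = D(p)` is surjective.  -/
theorem exists_adapted {U : Set (E d)} (hU : IsOpen U) {A : E d → E d →L[ℝ] E d}
    (hA : ContDiffOn ℝ ∞ A U) (hA2 : ∀ z ∈ U, ∀ u, A z (A z u) = -u) {h₀ : E d → E k}
    (hh : ContDiffOn ℝ ∞ h₀ U) {p : E d} (hp : p ∈ U) (hp0 : h₀ p = 0)
    (hs : Function.Surjective (fderiv ℝ h₀ p))
    (hJ : ∀ z ∈ U, h₀ z = 0 → ∀ u, fderiv ℝ h₀ z u = 0 → fderiv ℝ h₀ z (A z u) = 0) :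
    ∃ (V : Set (E d)) (T : E k →L[ℝ] E k) (h : E d → E k), IsOpen V ∧ p ∈ V ∧ V ⊆ U ∧
      (∀ n, T (T n) = -n) ∧ ContDiffOn ℝ ∞ h V ∧ (∀ z ∈ V, h z = 0 ↔ h₀ z = 0) ∧
      Function.Surjective (fderiv ℝ h p) ∧
      ∀ z ∈ V, h z = 0 → ∀ u, fderiv ℝ h z (A z u) = T (fderiv ℝ h z u) := by
  have hDs : ContDiffOn ℝ ∞ (fderiv ℝ h₀) U := hh.fderiv_of_isOpen hU (by simp)
  -- a right inverse at `p`
  obtain ⟨R₀, hR₀⟩ : ∃ R₀ : E k →L[ℝ] E d, ∀ n, fderiv ℝ h₀ p (R₀ n) = n := by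
    obtain ⟨g, hg⟩ := LinearMap.exists_rightInverse_of_surjective (fderiv ℝ h₀ p : E d →ₗ[ℝ] E k)
      (LinearMap.range_eq_top.mpr hs)
    refine ⟨LinearMap.toContinuousLinearMap g, fun n => ?_⟩
    exact LinearMap.congr_fun hg n
  -- the family `M z = D z R₀`
  obtain ⟨M, hM⟩ : ∃ M : E d → (E k →L[ℝ] E k), M = fun z => (fderiv ℝ h₀ z).comp R₀ := ⟨_, rfl⟩
  have hMz : ∀ z n, M z n = fderiv ℝ h₀ z (R₀ n) := fun z n => by rw [hM]; rfl
  have hMs : ContDiffOn ℝ ∞ M U := by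
    rw [hM]
    exact hDs.clm_comp contDiffOn_const
  have hMp : M p = 1 := by
    ext1 n
    rw [hMz, hR₀]
    rfl
  obtain ⟨V₁, hV₁⟩ : ∃ V₁ : Set (E d), V₁ = U ∩ M ⁻¹' {x | IsUnit x} := ⟨_, rfl⟩
  have hV₁o : IsOpen V₁ := by
    rw [hV₁]
    exact hMs.continuousOn.isOpen_inter_preimage hU Units.isOpen
  have hV₁U : V₁ ⊆ U := by
    rw [hV₁]
    exact inter_subset_left
  have hpV₁ : p ∈ V₁ := by
    rw [hV₁]
    refine ⟨hp, ?_⟩
    show IsUnit (M p)
    rw [hMp]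
    exact isUnit_one
  have hMu : ∀ z ∈ V₁, IsUnit (M z) := fun z hz => by
    rw [hV₁] at hz
    exact hz.2
  -- the inverse
  have hNs : ContDiffOn ℝ ∞ (fun z => Ring.inverse (M z)) V₁ := by
    intro z hz
    obtain ⟨w, hw⟩ := hMu z hz
    have h1 : ContDiffAt ℝ ∞ (Ring.inverse : (E k →L[ℝ] E k) → (E k →L[ℝ] E k)) (M z) := by
      rw [← hw]
      exact contDiffAt_ringInverse ℝ w
    exact h1.comp_contDiffWithinAt z ((hMs z (hV₁U hz)).mono hV₁U)
  have hRD : ∀ z ∈ V₁, ∀ n, fderiv ℝ h₀ z (R₀ (Ring.inverse (M z) n)) = n := by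
    intro z hz n
    rw [← hMz]
    have h1 := Ring.mul_inverse_cancel (M z) (hMu z hz)
    exact congrArg (fun L : E k →L[ℝ] E k => L n) h1
  -- the family `B`
  obtain ⟨B, hB⟩ : ∃ B : E d → (E k →L[ℝ] E k),
      B = fun z => (fderiv ℝ h₀ z).comp ((A z).comp (R₀.comp (Ring.inverse (M z)))) := ⟨_, rfl⟩
  have hBz : ∀ z n, B z n = fderiv ℝ h₀ z (A z (R₀ (Ring.inverse (M z) n))) := fun z n => by
    rw [hB]
    rfl
  have hBs : ContDiffOn ℝ ∞ B V₁ := by
    rw [hB]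
    exact (hDs.mono hV₁U).clm_comp ((hA.mono hV₁U).clm_comp (contDiffOn_const.clm_comp hNs))
  have hBD : ∀ z ∈ V₁, h₀ z = 0 → ∀ u, B z (fderiv ℝ h₀ z u) = fderiv ℝ h₀ z (A z u) := by
    intro z hz h0 u
    have h1 : fderiv ℝ h₀ z (R₀ (Ring.inverse (M z) (fderiv ℝ h₀ z u)) - u) = 0 := by
      rw [map_sub, hRD z hz, sub_self]
    have h2 := hJ z (hV₁U hz) h0 _ h1
    rw [map_sub, map_sub, sub_eq_zero] at h2
    rw [hBz]
    exact h2
  have hBB : ∀ z ∈ V₁, h₀ z = 0 → ∀ n, B z (B z n) = -n := by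
    intro z hz h0 n
    have h1 := hRD z hz n
    have h2 : B z (B z (fderiv ℝ h₀ z (R₀ (Ring.inverse (M z) n)))) =
        -(fderiv ℝ h₀ z (R₀ (Ring.inverse (M z) n))) := by
      rw [hBD z hz h0, hBD z hz h0, hA2 z (hV₁U hz), map_neg]
    rwa [h1] at h2
  have hT : ∀ n, B p (B p n) = -n := hBB p hpV₁ hp0
  obtain ⟨T, hTB⟩ : ∃ T : E k →L[ℝ] E k, T = B p := ⟨_, rfl⟩
  rw [← hTB] at hT
  -- the family `G`
  obtain ⟨G, hG⟩ : ∃ G : E d → (E k →L[ℝ] E k), G = fun z => (1 / 2 : ℝ) • (1 - T.comp (B z)) := ⟨_, rfl⟩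
  have hGz : ∀ z n, G z n = (1 / 2 : ℝ) • (n - T (B z n)) := fun z n => by
    rw [hG]
    rfl
  have hGs : ContDiffOn ℝ ∞ G V₁ := by
    rw [hG]
    exact (contDiffOn_const.sub (contDiffOn_const.clm_comp hBs)).const_smul (1 / 2 : ℝ)
  have hGp : G p = 1 := by
    ext1 n
    rw [hGz, ← hTB, hT, sub_neg_eq_add, ← two_smul ℝ n, smul_smul]
    norm_num
  obtain ⟨V, hV⟩ : ∃ V : Set (E d), V = V₁ ∩ G ⁻¹' {x | IsUnit x} := ⟨_, rfl⟩
  have hVo : IsOpen V := by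
    rw [hV]
    exact hGs.continuousOn.isOpen_inter_preimage hV₁o Units.isOpen
  have hVV₁ : V ⊆ V₁ := by
    rw [hV]
    exact inter_subset_left
  have hpV : p ∈ V := by
    rw [hV]
    refine ⟨hpV₁, ?_⟩
    show IsUnit (G p)
    rw [hGp]
    exact isUnit_one
  have hG0 : ∀ z ∈ V, ∀ n, G z n = 0 → n = 0 := by
    intro z hz n hn
    have hu : IsUnit (G z) := by
      rw [hV] at hz
      exact hz.2
    have h1 := Ring.inverse_mul_cancel (G z) hu
    have h2 : (Ring.inverse (G z) * G z) n = n := by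
      rw [h1]
      rfl
    rw [← h2]
    show Ring.inverse (G z) (G z n) = 0
    rw [hn, map_zero]
  have hfd : ∀ z ∈ V, h₀ z = 0 → ∀ u, fderiv ℝ (fun z => G z (h₀ z)) z u = G z (fderiv ℝ h₀ z u) := by
    intro z hz h0 u
    have h1 : HasFDerivAt G (fderiv ℝ G z) z :=
      ((hGs.contDiffAt (hV₁o.mem_nhds (hVV₁ hz))).differentiableAt (by simp)).hasFDerivAt
    have h2 : HasFDerivAt h₀ (fderiv ℝ h₀ z) z :=
      ((hh.contDiffAt (hU.mem_nhds (hV₁U (hVV₁ hz)))).differentiableAt (by simp)).hasFDerivAt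
    have h3 := h1.clm_apply h2
    rw [h3.fderiv, h0]
    simp
  refine ⟨V, T, fun z => G z (h₀ z), hVo, hpV, hVV₁.trans hV₁U, hT, ?_, ?_, ?_, ?_⟩
  · exact (hGs.mono hVV₁).clm_apply (hh.mono (hVV₁.trans hV₁U))
  · intro z hz
    constructor
    · exact fun h => hG0 z hz _ h
    · intro h
      show G z (h₀ z) = 0
      rw [h, map_zero]
  · intro n
    obtain ⟨u, hu⟩ := hs n
    refine ⟨u, ?_⟩
    rw [hfd p hpV hp0, hGp, hu]
    rfl
  · intro z hz h0' u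
    have h0 : h₀ z = 0 := hG0 z hz _ h0'
    rw [hfd z hz h0, hfd z hz h0, ← hBD z (hVV₁ hz) h0, hGz, hGz, hBB z (hVV₁ hz) h0, map_smul, map_sub,
      hT, map_neg, sub_neg_eq_add, sub_neg_eq_add, add_comm]

end Pool.Agent.H819.EM
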