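import Mathlib
import Pool.Agent.H819.LN.Glob
import Pool.Agent.H819.LN.Asm

/-!
# The global estimate with different lower bounds on the pieces
-/

set_option autoImplicit false

open Set Filter Topology MeasureTheory Metric
open scoped Manifold ContDiff ENNReal NNReal

noncomputable section

namespace Pool.Agent.H819.EM

open Pool.Agent.Y501.SY
open Pool.Agent.H819.LN
open Pool.Agent.H819.LG (slice1 slice2 avg avg_prob GoodAt InClass avg_convex pb_congr pb_comp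
  pb_pull mdiff_symm mdiff_chart smooth_chart Represents approx)

variable {d : ℕ} {X : Type} [TopologicalSpace X] [ChartedSpace (E d) X] {ι : Type} [Fintype ι]
  [DecidableEq ι] [IsManifold (𝓡 d) ∞ X]

theorem norm_ev2_le (f : (E d) [⋀^Fin 2]→L[ℝ] ℝ) (u v : E d) : |f ![u, v]| ≤ ‖f‖ * ‖u‖ * ‖v‖ := by
  have h := f.le_opNorm ![u, v]
  rw [Fin.prod_univ_two] at h
  simpa [mul_assoc] using h

omit [DecidableEq ι] [IsManifold (𝓡 d) ∞ X] in
/-- the values of a bounded form -/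
theorem val_le (c : ι → Sh d X) (x₀ : X) {g : E d → (E d) [⋀^Fin 2]→L[ℝ] ℝ}
    {A : E d → (E d →L[ℝ] E d)} {z u : E d} {y : ι → E d} {G M : ℝ} (hG0 : 0 ≤ G)
    (hG : ‖g (Psi c x₀ (y, z))‖ ≤ G) (hM : ‖A z‖ ≤ M) (hu : ‖u‖ = 1)
    (hD : ‖fderiv ℝ (fun z' => Psi c x₀ (y, z')) z - ContinuousLinearMap.id ℝ (E d)‖ ≤ 1 / 2) :
    |val c x₀ g A z u y| ≤ 3 * M * G := by
  set D := fderiv ℝ (fun z' => Psi c x₀ (y, z')) z with hDdef
  have hM0 : 0 ≤ M := (norm_nonneg _).trans hM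
  have hDn : ∀ v : E d, ‖D v‖ ≤ 3 / 2 * ‖v‖ := by
    intro v
    have h1 : D v = (D - ContinuousLinearMap.id ℝ (E d)) v + v := by simp
    rw [h1]
    refine (norm_add_le _ _).trans ?_
    have h2 := (D - ContinuousLinearMap.id ℝ (E d)).le_opNorm v
    nlinarith [norm_nonneg v]
  have h1 : ‖A z u‖ ≤ M := by
    have := (A z).le_opNorm u
    rw [hu, mul_one] at this
    exact this.trans hM
  have h2 : ‖D u‖ ≤ 3 / 2 := by
    have := hDn u
    rwa [hu, mul_one] at this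
  have h3 : ‖D (A z u)‖ ≤ 3 / 2 * M := (hDn _).trans (by gcongr)
  unfold val
  rw [← hDdef]
  refine (norm_ev2_le _ _ _).trans ?_
  calc ‖g (Psi c x₀ (y, z))‖ * ‖D u‖ * ‖D (A z u)‖ ≤ G * (3 / 2) * (3 / 2 * M) := by
        gcongr
    _ ≤ 3 * M * G := by nlinarith [mul_nonneg hM0 hG0]

theorem glob3 [T2Space X] (c : ι → Sh d X) {R : ℝ} (hR : ∀ i, R ≤ (c i).R)
    {κ : Type} [Finite κ] (a : κ → ι) (K N : κ → Set (E d)) (hK : ∀ k, IsCompact (K k))
    (hN : ∀ k, IsCompact (N k)) (hNt : ∀ k, N k ⊆ (c (a k)).e.target) {J : End d X}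
    (hJ : ∀ k, ContinuousOn (inChart J (c (a k)).x₀) (N k)) {C M c₀ : κ → ℝ}
    (hC : ∀ k, 0 ≤ C k) (hM1 : ∀ k, 1 ≤ M k) (hM : ∀ k, ∀ z ∈ N k, ‖inChart J (c (a k)).x₀ z‖ ≤ M k)
    (hc₀ : ∀ k, 0 < c₀ k) {θ : Form d X 2} (g : κ → E d → (E d) [⋀^Fin 2]→L[ℝ] ℝ)
    (hg : ∀ k, ContinuousOn (g k) (N k)) (G : κ → ℝ) (hG0 : ∀ k, 0 ≤ G k)
    (hG : ∀ k, ∀ z ∈ N k, ‖g k z‖ ≤ G k)
    (hθ : ∀ k, AEStronglyMeasurable (fun z => pb (c (a k)).e.symm θ z + g k z)
      (volume.restrict (N k)))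
    (hgood : ∀ k, ∀ᵐ z ∂(volume.restrict (N k)),
      GoodAt (fun z => pb (c (a k)).e.symm θ z + g k z) (inChart J (c (a k)).x₀) (C k) (c₀ k) z)
    {r : ℝ} (hr : 0 < r) (hrR : r < R) (ρ e : κ → ℝ)
    (hP : ∀ k, PieceAt c R (a k) (K k) (N k) (inChart J (c (a k)).x₀)
      (fun z => pb (c (a k)).e.symm θ z + g k z) (C k) (M k) (c₀ k) r (ρ k) (e k)) :
    ∃ δ : ℝ, 0 < δ ∧ ∀ w : Form d X 2, IsSmooth w → IsClosedForm w →
      (∀ k, ∫⁻ z in N k, ‖pb (c (a k)).e.symm w z - pb (c (a k)).e.symm θ z‖ₑ ≤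
        ENNReal.ofReal δ) →
      ∃ σ : Form d X 2, InClass w σ ∧ ∀ k, ∀ z ∈ K k, ∀ u : E d, ‖u‖ = 1 →
        c₀ k / 32 - 3 * M k * G k ≤
          pb (c (a k)).e.symm σ z ![u, inChart J (c (a k)).x₀ z u] := by
  classical
  have hKN : ∀ k, K k ⊆ N k := fun k z hz => (hP k).ball z hz (mem_closedBall_self (hP k).pos)
  have hKt : ∀ k, K k ⊆ (c (a k)).e.target := fun k => (hKN k).trans (hNt k)
  have hδ := fun k => local_avg2 hR (hN k) (hC k) (hM1 k) (hJ k) (hM k) (hθ k) (hc₀ k) (hgood k)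
    hr (hP k)
  choose δ hδ hδ' using hδ
  obtain ⟨δ₀, hδ₀, hδ₀'⟩ := exists_pos_le' δ hδ
  obtain ⟨cm, hcm, hcm'⟩ := exists_pos_le' c₀ hc₀
  refine ⟨δ₀, hδ₀, ?_⟩
  intro w hw hwc hwθ
  set bd : κ → ℝ := fun k => c₀ k / 32 - 3 * M k * G k with hbd
  -- the compact space
  have hScomp : ∀ i, CompactSpace (K i ×ˢ sphere (0 : E d) 1 : Set (E d × E d)) := fun i =>
    isCompact_iff_compactSpace.1 ((hK i).prod (isCompact_sphere 0 1))
  set S := Σ i : κ, (K i ×ˢ sphere (0 : E d) 1 : Set (E d × E d)) with hS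
  set 𝒜 : Set C(S, ℝ) := {g | ∃ σ : Form d X 2, InClass w σ ∧ ∀ (i : κ)
    (q : (K i ×ˢ sphere (0 : E d) 1 : Set (E d × E d))), g ⟨i, q⟩ =
      pb (c (a i)).e.symm σ q.1.1 ![q.1.2, inChart J (c (a i)).x₀ q.1.1 q.1.2] - bd i} with h𝒜
  have hconv : Convex ℝ 𝒜 := by
    rintro g₁ ⟨σ₁, h₁, e₁⟩ g₂ ⟨σ₂, h₂, e₂⟩ a' b' ha hb hab
    refine ⟨a' • σ₁ + b' • σ₂, h₁.comb h₂ hab, fun i q => ?_⟩
    show a' • g₁ ⟨i, q⟩ + b' • g₂ ⟨i, q⟩ = _
    rw [e₁, e₂]
    have h3 : pb (c (a i)).e.symm (a' • σ₁ + b' • σ₂) q.1.1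
        ![q.1.2, inChart J (c (a i)).x₀ q.1.1 q.1.2] =
        a' * pb (c (a i)).e.symm σ₁ q.1.1 ![q.1.2, inChart J (c (a i)).x₀ q.1.1 q.1.2] +
        b' * pb (c (a i)).e.symm σ₂ q.1.1 ![q.1.2, inChart J (c (a i)).x₀ q.1.1 q.1.2] := rfl
    rw [h3, smul_eq_mul, smul_eq_mul]
    have h4 : b' = 1 - a' := by linarith
    rw [h4]
    ring
  set F : (ι → E d) × S → ℝ := fun q => val c (c (a q.2.1)).x₀ (pb (c (a q.2.1)).e.symm w)
    (inChart J (c (a q.2.1)).x₀) q.2.2.1.1 q.2.2.1.2 q.1 - bd q.2.1 with hF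
  have hmemN : ∀ (k : κ) (y : ι → E d), ‖y‖ ≤ r → ∀ z ∈ K k,
      Psi c (c (a k)).x₀ (y, z) ∈ N k := by
    intro k y hy z hz
    refine (hP k).ball z hz ?_
    rw [mem_closedBall, dist_eq_norm]
    exact (hP k).near y hy z hz
  -- continuity of the values
  have hvalc : ∀ (i : κ) (t : E d → (E d) [⋀^Fin 2]→L[ℝ] ℝ), ContinuousOn t (N i) →
      ContinuousOn (fun q : (ι → E d) × E d × E d => val c (c (a i)).x₀ t
        (inChart J (c (a i)).x₀) q.2.1 q.2.2 q.1) {q | ‖q.1‖ ≤ r ∧ q.2.1 ∈ K i} := by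
    intro i t ht
    refine continuousOn_val c hR (c (a i)).x₀ ht (hJ i) ?_
    rintro q ⟨hq1, hq2⟩
    exact ⟨(hP i).dom q.1 hq1 q.2.1 hq2, hmemN i q.1 hq1 q.2.1 hq2, hKN i hq2⟩
  have hwN : ∀ i, ContinuousOn (pb (c (a i)).e.symm w) (N i) := fun i =>
    (smooth_chart hw (c (a i)).x₀).continuousOn.mono (hNt i)
  have hFc : ContinuousOn F (closedBall 0 r ×ˢ univ) := by
    have hpiece : ∀ i : κ, ContinuousOn
        (fun q : (ι → E d) × (K i ×ˢ sphere (0 : E d) 1 : Set (E d × E d)) =>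
          F (q.1, ⟨i, q.2⟩)) (closedBall 0 r ×ˢ univ) := by
      intro i
      have hv := (hvalc i _ (hwN i)).comp (f := fun q : (ι → E d) × (K i ×ˢ sphere (0 : E d) 1 :
        Set (E d × E d)) => (q.1, q.2.1.1, q.2.1.2)) (s := closedBall 0 r ×ˢ univ)
        (by fun_prop) (by
          rintro q ⟨hq, -⟩
          exact ⟨by simpa using hq, q.2.2.1⟩)
      exact hv.sub (continuousOn_const (c := bd i))
    rintro ⟨y, ⟨i, s⟩⟩ ⟨hy, -⟩
    have h1 := (hpiece i) (y, s) ⟨hy, mem_univ _⟩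
    -- neighbourhoods in the sigma type
    have h2 : 𝓝[closedBall (0 : ι → E d) r ×ˢ univ] ((y, ⟨i, s⟩) : (ι → E d) × S) =
        Filter.map (fun q : (ι → E d) × (K i ×ˢ sphere (0 : E d) 1 : Set (E d × E d)) =>
          ((q.1, ⟨i, q.2⟩) : (ι → E d) × S))
          (𝓝[closedBall (0 : ι → E d) r ×ˢ univ] (y, s)) := by
      rw [nhdsWithin_prod_eq, nhdsWithin_prod_eq, nhdsWithin_univ, nhdsWithin_univ,
        Sigma.nhds_mk, Filter.prod_map_right]
      rfl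
    unfold ContinuousWithinAt
    rw [h2, Filter.tendsto_map'_iff]
    exact h1
  have hmem : ∀ y ∈ closedBall (0 : ι → E d) r, ∃ g ∈ 𝒜, ∀ s, g s = F (y, s) := by
    intro y hy
    have hy' : ‖y‖ ≤ r := by simpa using hy
    have hgc : Continuous (fun s : S => F (y, s)) := by
      have h2 : Continuous (fun s : S => ((y, s) : (ι → E d) × S)) := by fun_prop
      exact hFc.comp_continuous h2 fun s => ⟨hy, mem_univ _⟩
    refine ⟨⟨_, hgc⟩, ⟨pull (d := d) (Fam c y) w, ?_, ?_⟩, fun s => rfl⟩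
    · exact fam_class c hR (Finset.univ (α := ι)).toList (hy'.trans_lt hrR) w hw hwc
    · intro i q
      show val c (c (a i)).x₀ (pb (c (a i)).e.symm w) (inChart J (c (a i)).x₀) q.1.1 q.1.2 y -
        bd i = _
      rw [val_eq c hR (c (a i)).x₀ J w ((hP i).dom y hy' q.1.1 q.2.1) q.1.2]
  have hprob := avg_prob (volume : Measure (ι → E d)) hr
  have hae : ∀ᵐ y ∂(avg (volume : Measure (ι → E d)) r), y ∈ closedBall (0 : ι → E d) r := by
    rw [avg]
    refine Measure.ae_smul_measure ?_ _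
    exact ae_restrict_mem measurableSet_closedBall
  -- integrability of the values
  have hint : ∀ (i : κ) (t : E d → (E d) [⋀^Fin 2]→L[ℝ] ℝ), ContinuousOn t (N i) →
      ∀ z ∈ K i, ∀ u : E d, Integrable (fun y => val c (c (a i)).x₀ t
        (inChart J (c (a i)).x₀) z u y) (avg (volume : Measure (ι → E d)) r) := by
    intro i t ht z hz u
    rw [avg]
    refine Integrable.smul_measure ?_ ?_
    · have h1 : ContinuousOn (fun y : ι → E d => val c (c (a i)).x₀ t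
          (inChart J (c (a i)).x₀) z u y) (closedBall 0 r) := by
        refine (hvalc i t ht).comp (f := fun y : ι → E d => (y, z, u)) (by fun_prop) ?_
        intro y hy
        exact ⟨by simpa using hy, hz⟩
      exact h1.integrableOn_compact (isCompact_closedBall _ _)
    · exact ENNReal.inv_ne_top.2 (measure_closedBall_pos _ _ hr).ne'
  obtain ⟨g', ⟨σ, hσ, hg'⟩, hpos⟩ := avg_convex (volume : Measure (ι → E d)) hr hFc hconv hmem
    (a := cm / 32) (by positivity) (by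
      rintro ⟨i, q⟩
      have hq2 : ‖q.1.2‖ = 1 := by simpa using q.2.2
      have h1 := hδ' i (fun z => pb (c (a i)).e.symm w z + g i z) ((hwN i).add (hg i)) (by
        refine le_trans (le_of_eq ?_) ((hwθ i).trans (ENNReal.ofReal_le_ofReal (hδ₀' i)))
        congr 1
        funext z
        congr 1
        abel) q.1.1 q.2.1 q.1.2 hq2
      have h2 : ∀ y, val c (c (a i)).x₀ (fun z => pb (c (a i)).e.symm w z + g i z)
          (inChart J (c (a i)).x₀) q.1.1 q.1.2 y =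
          val c (c (a i)).x₀ (pb (c (a i)).e.symm w) (inChart J (c (a i)).x₀) q.1.1 q.1.2 y +
          val c (c (a i)).x₀ (g i) (inChart J (c (a i)).x₀) q.1.1 q.1.2 y := fun y => rfl
      simp only [h2] at h1
      rw [integral_add (hint i _ (hwN i) _ q.2.1 _) (hint i _ (hg i) _ q.2.1 _)] at h1
      have h3 : ∫ y, val c (c (a i)).x₀ (g i) (inChart J (c (a i)).x₀) q.1.1 q.1.2 y
          ∂(avg (volume : Measure (ι → E d)) r) ≤ 3 * M i * G i := by
        have h4 : ∫ y, val c (c (a i)).x₀ (g i) (inChart J (c (a i)).x₀) q.1.1 q.1.2 y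
            ∂(avg (volume : Measure (ι → E d)) r) ≤
            ∫ _, 3 * M i * G i ∂(avg (volume : Measure (ι → E d)) r) := by
          refine integral_mono_ae (hint i _ (hg i) _ q.2.1 _) (integrable_const _) ?_
          filter_upwards [hae] with y hy
          have hy' : ‖y‖ ≤ r := by simpa using hy
          exact (le_abs_self _).trans (val_le c _ (hG0 i) (hG i _ (hmemN i y hy' _ q.2.1))
            (hM i _ (hKN i q.2.1)) hq2 ((hP i).dz y hy' _ q.2.1))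
        refine h4.trans (le_of_eq ?_)
        rw [integral_const]
        simp
      have h5 : ∫ y, F (y, ⟨i, q⟩) ∂(avg (volume : Measure (ι → E d)) r) =
          (∫ y, val c (c (a i)).x₀ (pb (c (a i)).e.symm w) (inChart J (c (a i)).x₀) q.1.1 q.1.2 y
            ∂(avg (volume : Measure (ι → E d)) r)) - bd i := by
        show ∫ y, (val c (c (a i)).x₀ (pb (c (a i)).e.symm w) (inChart J (c (a i)).x₀)
          q.1.1 q.1.2 y - bd i) ∂(avg (volume : Measure (ι → E d)) r) = _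
        rw [integral_sub (hint i _ (hwN i) _ q.2.1 _) (integrable_const _), integral_const]
        simp
      rw [h5]
      have h6 := hcm' i
      have h7 : bd i = c₀ i / 32 - 3 * M i * G i := rfl
      rw [h7]
      linarith)
  refine ⟨σ, hσ, fun k z hz u hu => ?_⟩
  have h1 := hpos ⟨k, ⟨(z, u), ⟨hz, by simpa using hu⟩⟩⟩
  rw [hg'] at h1
  have h2 : bd k = c₀ k / 32 - 3 * M k * G k := rfl
  rw [← h2]
  linarith

/-- **Averaged forms** with different lower bounds on the pieces -/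
theorem assemble3 [T2Space X] [CompactSpace X] (c : ι → Sh d X) {R : ℝ} (hR0 : 0 < R)
    (hR : ∀ i, R ≤ (c i).R)
    {κ : Type} [Finite κ] (a : κ → ι) (K N : κ → Set (E d)) (hK : ∀ k, IsCompact (K k))
    (hN : ∀ k, IsCompact (N k)) (hNt : ∀ k, N k ⊆ (c (a k)).e.target) {J : End d X}
    (hJ : ∀ x₀, ContinuousOn (inChart J x₀) (chartAt (E d) x₀).target)
    {σ₀ θ : Form d X 2} (hσ : IsSmooth σ₀) (hcl : IsClosedForm σ₀) (hrep : Represents σ₀ θ)
    (g : κ → E d → (E d) [⋀^Fin 2]→L[ℝ] ℝ)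
    (hg : ∀ k, ContinuousOn (g k) (N k)) (G : κ → ℝ) (hG0 : ∀ k, 0 ≤ G k)
    (hG : ∀ k, ∀ z ∈ N k, ‖g k z‖ ≤ G k) (M C c₀ : κ → ℝ) (hM1 : ∀ k, 1 ≤ M k)
    (hC : ∀ k, 0 ≤ C k) (hc₀ : ∀ k, 0 < c₀ k)
    (hM : ∀ k, ∀ z ∈ N k, ‖inChart J (c (a k)).x₀ z‖ ≤ M k)
    (hgood : ∀ k, ∀ᵐ z ∂(volume.restrict (N k)),
      GoodAt (fun z => pb (c (a k)).e.symm θ z + g k z) (inChart J (c (a k)).x₀) (C k) (c₀ k) z)
    (hP : ∀ k, ∃ r₀ : ℝ, 0 < r₀ ∧ ∀ r : ℝ, 0 < r → r ≤ r₀ → ∃ ρ e : ℝ,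
        PieceAt c R (a k) (K k) (N k) (inChart J (c (a k)).x₀)
          (fun z => pb (c (a k)).e.symm θ z + g k z) (C k) (M k) (c₀ k) r ρ e) :
    ∃ σ : Form d X 2, InClass σ₀ σ ∧ ∀ k, ∀ z ∈ K k, ∀ u : E d, ‖u‖ = 1 →
        c₀ k / 32 - 3 * M k * G k ≤
          pb (c (a k)).e.symm σ z ![u, inChart J (c (a k)).x₀ z u] := by
  obtain ⟨α, hα⟩ := hrep
  choose r₀ hr₀ hP using hP
  obtain ⟨r₁, hr₁, hr₁'⟩ := exists_pos_le' r₀ hr₀
  set r : ℝ := min r₁ (R / 2) with hrdef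
  have hr : 0 < r := by positivity
  have hrR : r < R := (min_le_right _ _).trans_lt (by linarith)
  choose ρ e hP using fun k => hP k r hr ((min_le_left _ _).trans (hr₁' k))
  have hadd : σ₀ + (θ - σ₀) = θ := by abel
  have hθ : ∀ k, AEStronglyMeasurable (fun z => pb (c (a k)).e.symm θ z + g k z)
      (volume.restrict (N k)) := by
    intro k
    have m1 : AEStronglyMeasurable (pb (c (a k)).e.symm σ₀) (volume.restrict (N k)) :=
      ((smooth_chart hσ (c (a k)).x₀).continuousOn.mono (hNt k)).aestronglyMeasurable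
        (hN k).measurableSet
    have m2 := ((hα.int2 (c (a k)).x₀).integrableOn_compact_subset (hNt k)
      (hN k)).aestronglyMeasurable
    have m3 := m1.add m2
    have e1 : pb (c (a k)).e.symm θ = pb (c (a k)).e.symm σ₀ + pb (c (a k)).e.symm (θ - σ₀) := by
      rw [← pb_add, hadd]
    rw [e1]
    exact m3.add ((hg k).aestronglyMeasurable (hN k).measurableSet)
  obtain ⟨δ, hδ, hglob⟩ := glob3 c hR a K N hK hN hNt
    (fun k => (hJ (c (a k)).x₀).mono (hNt k)) hC hM1 hM hc₀ g hg G hG0 hG hθ hgood hr hrR ρ e hP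
  obtain ⟨n, ⟨ε⟩⟩ := Finite.exists_equiv_fin κ
  obtain ⟨w, hw, hwest⟩ := approx hσ hcl hα (fun j : Fin n => (c (a (ε.symm j))).x₀)
    (fun j => N (ε.symm j)) (fun j => hN (ε.symm j)) (fun j => hNt (ε.symm j)) hδ
  obtain ⟨σ, hσ', ht⟩ := hglob w hw.1 hw.2.1 (fun k => by
    have h1 := hwest (ε k)
    rw [hadd] at h1
    simp only [Equiv.symm_apply_apply] at h1
    exact h1)
  exact ⟨σ, hw.trans hσ', ht⟩

end Pool.Agent.H819.EM
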