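import Mathlib
import Pool.Agent.H819.EM.Def
import Pool.Agent.H819.EM.Glob3
import Pool.Agent.H819.HN.Asm

/-!
# Averaged forms which are positive off a neighbourhood of the singular set
-/

set_option autoImplicit false

open Set Filter Topology MeasureTheory Metric
open scoped Manifold ContDiff ENNReal NNReal RealInnerProductSpace

noncomputable section

namespace Pool.Agent.H819.EM

open Pool.Agent.Y501.SY
open Pool.Agent.H819
open Pool.Agent.H819.LN
open Pool.Agent.H819.HN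
open Pool.Agent.H819.LG (GoodAt InClass TamedIn Represents StronglyTames LocHolder
  smooth_chart inChart_sq)

section gA

variable {d : ℕ}

/-- the inner product -/
def ip : E d →L[ℝ] E d →L[ℝ] ℝ := innerSL ℝ

/-- the form `K (⟨L u, v⟩ - ⟨L v, u⟩)` -/
def gA (K : ℝ) (L : E d →L[ℝ] E d) : (E d) [⋀^Fin 2]→L[ℝ] ℝ :=
  K • ContinuousAlternatingMap.alternatizeUncurryFinCLM ℝ (E d) ℝ
    ((one (d := d)).toContinuousLinearEquiv.toContinuousLinearMap.comp (ip.comp L))

theorem gA_apply (K : ℝ) (L : E d →L[ℝ] E d) (u v : E d) :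
    gA K L ![u, v] = K * (⟪L u, v⟫ - ⟪L v, u⟫) := by
  show K * (ContinuousAlternatingMap.alternatizeUncurryFin
    ((one (d := d)).toContinuousLinearEquiv.toContinuousLinearMap.comp (ip.comp L)) ![u, v]) = _
  rw [ContinuousAlternatingMap.alternatizeUncurryFin_apply, Fin.sum_univ_two]
  congr 1
  simp only [Fin.val_zero, pow_zero, one_smul, Fin.val_one, pow_one, neg_smul]
  rfl

theorem gA_self {K : ℝ} (hK : 0 ≤ K) {L : E d →L[ℝ] E d} (hL : ∀ u, L (L u) = -u) (u : E d) :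
    K * ‖u‖ ^ 2 ≤ gA K L ![u, L u] := by
  rw [gA_apply, hL, inner_neg_left, real_inner_self_eq_norm_sq, real_inner_self_eq_norm_sq]
  nlinarith [sq_nonneg ‖L u‖, mul_nonneg hK (sq_nonneg ‖L u‖)]

theorem gA_inv (K : ℝ) {L : E d →L[ℝ] E d} (hL : ∀ u, L (L u) = -u) (u v : E d) :
    gA K L ![L u, L v] = gA K L ![u, v] := by
  rw [gA_apply, gA_apply, hL, hL, inner_neg_left, inner_neg_left, real_inner_comm (L v) u,
    real_inner_comm (L u) v]
  ring

theorem gA_cont (K : ℝ) {A : E d → E d →L[ℝ] E d} {N : Set (E d)} (hA : ContinuousOn A N) :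
    ContinuousOn (fun z => gA K (A z)) N := by
  have h1 : Continuous (fun L : E d →L[ℝ] E d => gA K L) := by
    refine Continuous.const_smul ?_ K
    refine (ContinuousAlternatingMap.alternatizeUncurryFinCLM ℝ (E d) ℝ).continuous.comp ?_
    exact continuous_const.clm_comp (continuous_const.clm_comp continuous_id)
  exact h1.comp_continuousOn hA

end gA

variable {d : ℕ} {X : Type} [TopologicalSpace X] [ChartedSpace (E d) X] [IsManifold (𝓡 d) ∞ X]

theorem epsC_anti {C C' M : ℝ} (hC : 0 ≤ C) (hM : 0 ≤ M) (h : C ≤ C') :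
    epsC d C' M ≤ epsC d C M := by
  have h1 : 0 ≤ (volume (closedBall (0 : E d) 1)).toReal := ENNReal.toReal_nonneg
  have h2 : C / 2 * M ≤ C' / 2 * M := by gcongr
  have h3 : 0 ≤ C / 2 * M := by positivity
  unfold epsC
  exact div_le_div_of_nonneg_left h1 (by positivity) (by nlinarith [pow_pos (zero_lt_two (α := ℝ)) d])

/-- **Averaged forms.** -/
theorem avg_null [T2Space X] [CompactSpace X] (hd : 2 ≤ d) {J : End d X}
    (hJ2 : ∀ (x : X) (v : TangentSpace (𝓡 d) x), J x (J x v) = -v)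
    (hJ : ∀ x₀, ContinuousOn (inChart J x₀) (chartAt (E d) x₀).target)
    (hJL : LocHolder J 1)
    {σ₀ θ : Form d X 2} (hσ : IsSmooth σ₀) (hcl : IsClosedForm σ₀) (hrep : Represents σ₀ θ)
    (ht : StronglyTames θ J) {ι : Type} [Fintype ι] [DecidableEq ι] (c : ι → Sh d X) {R : ℝ}
    (hR0 : 0 < R) (hR : ∀ i, R ≤ (c i).R) {γ τ : Type} [Finite γ] [Finite τ]
    (a : γ → ι) (K N : γ → Set (E d)) (hK : ∀ g, IsCompact (K g)) (hN : ∀ g, IsCompact (N g))
    (hKN : ∀ g, K g ⊆ interior (N g)) (hNt : ∀ g, N g ⊆ (c (a g)).e.target)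
    (hK1 : ∀ g, ∀ z ∈ K g, ‖(c (a g)).V z - ContinuousLinearMap.id ℝ (E d)‖ ≤ 1 / 4)
    (b : τ → ι) (K' N' : τ → Set (E d)) (hK' : ∀ j, IsCompact (K' j))
    (hN' : ∀ j, IsCompact (N' j)) (hNt' : ∀ j, N' j ⊆ (c (b j)).e.target)
    (hsp : ∀ j, Special c R (b j) (K' j) (N' j) (inChart J (c (b j)).x₀)
      (pb (c (b j)).e.symm θ)) :
    ∃ κ cc Bb : ℝ, 0 < κ ∧ 0 < cc ∧ 0 ≤ Bb ∧ ∀ O : Set X, IsOpen O →
      (∀ g, ∀ z ∈ K g, z ∉ Sm (pb (c (a g)).e.symm θ) κ → (c (a g)).e.symm z ∈ O) →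
      ∃ σ : Form d X 2, InClass σ₀ σ ∧
        (∀ g, ∀ z ∈ K g, ∀ u : E d, ‖u‖ = 1 →
          ((c (a g)).e.symm z ∉ O →
            cc ≤ pb (c (a g)).e.symm σ z ![u, inChart J (c (a g)).x₀ z u]) ∧
          -Bb ≤ pb (c (a g)).e.symm σ z ![u, inChart J (c (a g)).x₀ z u]) ∧
        ∀ j, ∀ z ∈ K' j, ∀ u : E d, ‖u‖ = 1 →
          cc ≤ pb (c (b j)).e.symm σ z ![u, inChart J (c (b j)).x₀ z u] := by
  classical
  have hT := taming_chart hJ2 hJ hJL hσ hcl hrep ht
  have hKNs : ∀ g, K g ⊆ N g := fun g => (hKN g).trans interior_subset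
  -- constants on the general pieces
  have hMex : ∀ g, ∃ M : ℝ, 1 ≤ M ∧ ∀ z ∈ N g, ‖inChart J (c (a g)).x₀ z‖ ≤ M := by
    intro g
    obtain ⟨M, hM⟩ := (hN g).exists_bound_of_continuousOn ((hJ (c (a g)).x₀).mono (hNt g))
    exact ⟨max M 1, le_max_right _ _, fun z hz => (hM z hz).trans (le_max_left _ _)⟩
  choose M hM1 hM using hMex
  have hLex := fun g => (hT (c (a g)).x₀).lip (N g) (hN g) (hNt g)
  choose L hL using hLex
  have hCex : ∀ g, ∃ c₀ C : ℝ, 0 < c₀ ∧ 0 ≤ C ∧ ∀ᵐ z ∂(volume.restrict (N g)),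
      GoodAt (pb (c (a g)).e.symm θ) (inChart J (c (a g)).x₀) C c₀ z := by
    intro g
    obtain ⟨c₀, hc₀, C, hC⟩ := (hT (c (a g)).x₀).good (N g) (hN g) (hNt g)
    refine ⟨c₀, max C 0, hc₀, le_max_right _ _, ?_⟩
    filter_upwards [hC] with z hz
    exact hz.mono hc₀.le (le_max_left _ _) le_rfl
  choose c₀ C hc₀ hC hgood using hCex
  have hDex := fun g => dens_bound hd (hT (c (a g)).x₀) (hK g) ((hKNs g).trans (hNt g))
  choose s₀ hs₀ D₀ hD₀ hdens using hDex
  have hPex := fun g => psi_bounds c hR0 hR (a g) (hK g) ((hKNs g).trans (hNt g)) (hK1 g)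
  choose r₁ hr₁ hr₁R C₁ hC₁ hpsi using hPex
  -- constants on the special pieces
  choose Mt Ct ct Dt st hMt1 hCt hct hDt hst hMt hgoodt hdenst hpiece using hsp
  set Λ : γ → ℝ := fun g => ((2 * M g + |L g|) * C₁ g) ^ 2 * C₁ g ^ (d - 2) with hΛ
  have hΛ0 : ∀ g, 0 ≤ Λ g := by
    intro g
    have := hC₁ g
    have h2 : 0 ≤ C₁ g := by linarith
    exact mul_nonneg (sq_nonneg _) (pow_nonneg h2 _)
  set C' : γ → ℝ := fun g => 12 * C g + 6 with hC'
  have hC'0 : ∀ g, 0 ≤ C' g := fun g => by have := hC g; show 0 ≤ 12 * C g + 6; linarith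
  have hCC' : ∀ g, C g ≤ C' g := fun g => by have := hC g; show C g ≤ 12 * C g + 6; linarith
  have hM0 : ∀ g, 0 ≤ M g := fun g => by linarith [hM1 g]
  have heps : ∀ g, 0 < epsC d (C' g) (M g) := fun g => epsC_pos (hC'0 g) (hM0 g)
  obtain ⟨κ, hκ, hκ'⟩ := exists_min (fun g => epsC d (C' g) (M g) * c₀ g / (Λ g + 1))
    (fun g => by have := heps g; have := hc₀ g; have := hΛ0 g; positivity)
  obtain ⟨Kb, hKb, hKb'⟩ := exists_max (fun g => Λ g * (D₀ g + 1) / epsC d (C' g) (M g))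
  -- the auxiliary forms near the singular set
  set η : γ → E d → (E d) [⋀^Fin 2]→L[ℝ] ℝ := fun g z => gA Kb (inChart J (c (a g)).x₀ z) with hη
  have hηc : ∀ g, ContinuousOn (η g) (c (a g)).e.target := fun g => gA_cont Kb (hJ (c (a g)).x₀)
  have hGex : ∀ g, ∃ G : ℝ, 0 ≤ G ∧ ∀ z ∈ N g, ‖η g z‖ ≤ G := by
    intro g
    obtain ⟨G, hG⟩ := (hN g).exists_bound_of_continuousOn ((hηc g).mono (hNt g))
    exact ⟨max G 0, le_max_right _ _, fun z hz => (hG z hz).trans (le_max_left _ _)⟩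
  choose G hG0 hG using hGex
  obtain ⟨c₁, hc₁, hc₁'⟩ := exists_min (fun g => c₀ g / 32) fun g => by
    have := hc₀ g; positivity
  obtain ⟨c₂, hc₂, hc₂'⟩ := exists_min (fun j => ct j / 2 / 32) fun j => by
    have := hct j; positivity
  obtain ⟨Bb, hBb, hBb'⟩ := exists_max (fun g => 3 * M g * G g)
  refine ⟨κ, min c₁ c₂, Bb, hκ, lt_min hc₁ hc₂, hBb.le, fun O hO hSO => ?_⟩
  have hgoodη : ∀ g, ∀ᵐ z ∂(volume.restrict (N g)),
      GoodAt (fun z => pb (c (a g)).e.symm θ z + η g z) (inChart J (c (a g)).x₀) (C' g) Kb z := by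
    intro g
    filter_upwards [hgood g, ae_restrict_mem (hN g).measurableSet] with z hz hzN
    have hsq : ∀ u, inChart J (c (a g)).x₀ z (inChart J (c (a g)).x₀ z u) = -u :=
      fun u => inChart_sq hJ2 (c (a g)).x₀ (hNt g hzN) u
    obtain ⟨-, g2⟩ := goodAt_add (η := η g) (ε := 0) (hC g) (hc₀ g) le_rfl hsq (hM g z hzN) hz
      (by simpa using (hc₀ g).le) (fun u => by
        have h1 := gA_self hKb.le hsq u
        have h2 : 0 ≤ Kb * ‖u‖ ^ 2 := by positivity
        simp only [zero_mul, neg_zero]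
        exact h2.trans h1) (fun u v => by
        show |gA Kb _ ![_, _] - gA Kb _ ![u, v]| ≤ _
        rw [gA_inv Kb hsq]
        simp)
    exact g2 Kb fun u => gA_self hKb.le hsq u
  -- the parts of the general pieces off the singular set
  set KA : γ → Set (E d) := fun g => K g \ ((c (a g)).e.target ∩ (c (a g)).e.symm ⁻¹' O) with hKA
  have hKAc : ∀ g, IsCompact (KA g) := fun g =>
    (hK g).diff ((c (a g)).e.isOpen_inter_preimage_symm hO)
  have hKAG : ∀ g, KA g ⊆ Sm (pb (c (a g)).e.symm θ) κ := by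
    intro g z hz
    by_contra h
    exact hz.2 ⟨hNt g (hKNs g hz.1), hSO g z hz.1 h⟩
  have hzero : ∀ g, (fun z => pb (c (a g)).e.symm θ z + (0 : (E d) [⋀^Fin 2]→L[ℝ] ℝ)) =
      pb (c (a g)).e.symm θ := fun g => by
    funext z
    rw [add_zero]
  have hzero' : ∀ j, (fun z => pb (c (b j)).e.symm θ z + (0 : (E d) [⋀^Fin 2]→L[ℝ] ℝ)) =
      pb (c (b j)).e.symm θ := fun j => by
    funext z
    rw [add_zero]
  obtain ⟨σ, hσc, hσv⟩ := assemble3 c hR0 hR (κ := (γ ⊕ γ) ⊕ τ) (Sum.elim (Sum.elim a a) b)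
    (Sum.elim (Sum.elim KA K) K') (Sum.elim (Sum.elim N N) N')
    (by rintro ((g | g) | j); exacts [hKAc g, hK g, hK' j])
    (by rintro ((g | g) | j); exacts [hN g, hN g, hN' j])
    (by rintro ((g | g) | j); exacts [hNt g, hNt g, hNt' j]) hJ hσ hcl hrep
    (Sum.elim (Sum.elim (fun _ _ => 0) η) (fun _ _ => 0))
    (by rintro ((g | g) | j)
        exacts [continuousOn_const, (hηc g).mono (hNt g), continuousOn_const])
    (Sum.elim (Sum.elim (fun _ => 0) G) (fun _ => 0))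
    (by rintro ((g | g) | j); exacts [le_rfl, hG0 g, le_rfl])
    (by rintro ((g | g) | j) z hz
        · show ‖(0 : (E d) [⋀^Fin 2]→L[ℝ] ℝ)‖ ≤ 0
          rw [norm_zero]
        · exact hG g z hz
        · show ‖(0 : (E d) [⋀^Fin 2]→L[ℝ] ℝ)‖ ≤ 0
          rw [norm_zero])
    (Sum.elim (Sum.elim M M) Mt) (Sum.elim (Sum.elim C C') (fun j => 12 * Ct j + 6))
    (Sum.elim (Sum.elim c₀ (fun _ => Kb)) (fun j => ct j / 2))
    (by rintro ((g | g) | j); exacts [hM1 g, hM1 g, hMt1 j])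
    (by rintro ((g | g) | j)
        exacts [hC g, hC'0 g, by have := hCt j; show 0 ≤ 12 * Ct j + 6; linarith])
    (by rintro ((g | g) | j)
        exacts [hc₀ g, hKb, by have := hct j; show 0 < ct j / 2; linarith])
    (by rintro ((g | g) | j) z hz; exacts [hM g z hz, hM g z hz, hMt j z hz])
    (by
      rintro ((g | g) | j)
      · show ∀ᵐ z ∂(volume.restrict (N g)), GoodAt (fun z => pb (c (a g)).e.symm θ z +
          (0 : (E d) [⋀^Fin 2]→L[ℝ] ℝ)) (inChart J (c (a g)).x₀) (C g) (c₀ g) z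
        rw [hzero]
        exact hgood g
      · exact hgoodη g
      · show ∀ᵐ z ∂(volume.restrict (N' j)), GoodAt (fun z => pb (c (b j)).e.symm θ z +
          (0 : (E d) [⋀^Fin 2]→L[ℝ] ℝ)) (inChart J (c (b j)).x₀) (12 * Ct j + 6) (ct j / 2) z
        rw [hzero']
        filter_upwards [hgoodt j] with z hz
        exact hz.mono (by have := hct j; linarith) (by have := hCt j; linarith)
          (by have := hct j; linarith))
    (by
      rintro ((g | g) | j)
      · -- away from the singular set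
        show ∃ r₀ : ℝ, 0 < r₀ ∧ ∀ r : ℝ, 0 < r → r ≤ r₀ → ∃ ρ e : ℝ,
          PieceAt c R (a g) (KA g) (N g) (inChart J (c (a g)).x₀)
            (fun z => pb (c (a g)).e.symm θ z + (0 : (E d) [⋀^Fin 2]→L[ℝ] ℝ)) (C g) (M g)
            (c₀ g) r ρ e
        rw [hzero]
        obtain ⟨sA, hsA, hsm⟩ := Sm_compact (hKAc g) (hKAG g)
        refine piece_small c (a g) (K := KA g) (N := N g) hd (hKAc g)
          (sdiff_subset.trans (hKN g)) (hr₁ g) (hC₁ g)
          (fun y hy z hz => hpsi g y hy z hz.1) (hM0 g) (hM g) (hL g) (D₀ := κ)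
          hsA hsm ?_
        have h1 := hκ' g
        have h2 := hΛ0 g
        rw [le_div_iff₀ (by positivity)] at h1
        have h3 : epsC d (C' g) (M g) ≤ epsC d (C g) (M g) := epsC_anti (hC g) (hM0 g) (hCC' g)
        calc ((2 * M g + |L g|) * C₁ g) ^ 2 * (C₁ g ^ (d - 2) * κ) = Λ g * κ := by
              rw [hΛ]
              ring
          _ ≤ κ * (Λ g + 1) := by nlinarith
          _ ≤ epsC d (C' g) (M g) * c₀ g := h1
          _ ≤ _ := mul_le_mul_of_nonneg_right h3 (hc₀ g).le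
      · -- the whole pieces
        obtain ⟨sη, hsη, hms⟩ := ms_cont hd (c (a g)).e.open_target (hηc g) (hK g)
          ((hKNs g).trans (hNt g)) one_pos
        refine piece_small c (a g) (K := K g) (N := N g) hd (hK g)
          (hKN g) (hr₁ g) (hC₁ g)
          (fun y hy z hz => hpsi g y hy z hz) (hM0 g) (hM g) (hL g) (D₀ := D₀ g + 1)
          (s₀ := min (s₀ g) sη) (lt_min (hs₀ g) hsη) ?_ ?_
        · intro z hz s hs hss
          refine (hms z hz s hs (hss.trans (min_le_right _ _)) _).trans ?_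
          calc ms (pb (c (a g)).e.symm θ) z s + ENNReal.ofReal (1 * s ^ (d - 2))
              ≤ ENNReal.ofReal (D₀ g * s ^ (d - 2)) + ENNReal.ofReal (1 * s ^ (d - 2)) := by
                gcongr
                exact hdens g z hz s hs (hss.trans (min_le_left _ _))
            _ = ENNReal.ofReal ((D₀ g + 1) * s ^ (d - 2)) := by
                have := hD₀ g
                rw [← ENNReal.ofReal_add (by positivity) (by positivity)]
                congr 1
                ring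
        · have h1 := hKb' g
          rw [div_le_iff₀ (heps g)] at h1
          calc ((2 * M g + |L g|) * C₁ g) ^ 2 * (C₁ g ^ (d - 2) * (D₀ g + 1)) =
                Λ g * (D₀ g + 1) := by
                rw [hΛ]
                ring
            _ ≤ Kb * epsC d (C' g) (M g) := h1
            _ = _ := mul_comm _ _
      · show ∃ r₀ : ℝ, 0 < r₀ ∧ ∀ r : ℝ, 0 < r → r ≤ r₀ → ∃ ρ e : ℝ,
          PieceAt c R (b j) (K' j) (N' j) (inChart J (c (b j)).x₀)
            (fun z => pb (c (b j)).e.symm θ z + (0 : (E d) [⋀^Fin 2]→L[ℝ] ℝ)) (12 * Ct j + 6)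
            (Mt j) (ct j / 2) r ρ e
        rw [hzero']
        refine hpiece j _ (st j) (hst j) fun z hz s hs hss => (hdenst j z hz s hs hss).trans ?_
        refine ENNReal.ofReal_le_ofReal ?_
        have : 0 ≤ s ^ (d - 2) := by positivity
        nlinarith)
  refine ⟨σ, hσc, fun g z hz u hu => ⟨fun hzO => ?_, ?_⟩, fun j z hz u hu => ?_⟩
  · have h1 := hσv (Sum.inl (Sum.inl g)) z ⟨hz, fun h => hzO h.2⟩ u hu
    have h2 : c₀ g / 32 - 3 * M g * 0 ≤
      pb (c (a g)).e.symm σ z ![u, inChart J (c (a g)).x₀ z u] := h1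
    have h3 := hc₁' g
    have h4 := min_le_left c₁ c₂
    simp only [mul_zero, sub_zero] at h2
    exact h4.trans (h3.trans h2)
  · have h1 := hσv (Sum.inl (Sum.inr g)) z hz u hu
    have h2 : Kb / 32 - 3 * M g * G g ≤
      pb (c (a g)).e.symm σ z ![u, inChart J (c (a g)).x₀ z u] := h1
    have h3 : 3 * M g * G g ≤ Bb := hBb' g
    have h5 : 0 < Kb / 32 := by positivity
    linarith
  · have h1 := hσv (Sum.inr j) z hz u hu
    have h2 : ct j / 2 / 32 - 3 * Mt j * 0 ≤
      pb (c (b j)).e.symm σ z ![u, inChart J (c (b j)).x₀ z u] := h1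
    have h3 := hc₂' j
    have h4 := min_le_right c₁ c₂
    simp only [mul_zero, sub_zero] at h2
    exact h4.trans (h3.trans h2)

end Pool.Agent.H819.EM
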