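import Mathlib
import Pool.Agent.H819.LG.Ext
import Pool.Agent.H819.LG.CV
import Pool.Agent.H819.LG.Crit
import Pool.Agent.H819.LG.Fin
import Pool.Agent.H819.EM.Loc

/-!
# Closed structure measures on a manifold: definitions

The manifold is covered by compact pieces `K k` of the charts at `x k`, `k ∈ κ`.  A family of finite
measures `ν k` on `K k × S^(d-1)` stands for the functional
`σ ↦ ∑ k, ∫ σ(u, J u) dν k` on two-forms (a positive current of bidimension `(1, 1)`).
-/

set_option autoImplicit false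

open Set Filter Topology MeasureTheory Metric
open scoped Manifold ContDiff ENNReal NNReal

noncomputable section

namespace Pool.Agent.H819.EM

open Pool.Agent.Y501.SY
open Pool.Agent.H819
open Pool.Agent.H819.LG (LocHolder TamedIn extF)

variable {d : ℕ} {X : Type} [TopologicalSpace X] [ChartedSpace (E d) X]

/-- the value `σ(u, J u)` in the chart at `x`, `q = (z, u)` -/
def vl (J : End d X) (σ : Form d X 2) (x : X) (q : E d × E d) : ℝ :=
  pb (chartAt (E d) x).symm σ q.1 ![q.2, inChart J x q.1 q.2]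

/-- the part of `K × E d` over the subset `Y` of the manifold -/
def ov (x : X) (K : Set (E d)) (Y : Set X) : Set (E d × E d) :=
  {q | q.1 ∈ K ∧ (chartAt (E d) x).symm q.1 ∈ Y}

/-- closed structure measures -/
structure Cyc {κ : Type} [Fintype κ] (x : κ → X) (K : κ → Set (E d)) (J : End d X)
    (ν : κ → Measure (E d × E d)) : Prop where
  fin : ∀ k, IsFiniteMeasure (ν k)
  supp : ∀ k, ∀ᵐ q ∂(ν k), q.1 ∈ K k ∧ ‖q.2‖ = 1
  closed : ∀ (ζ : Form d X 1) (ξ : Form d X 2), IsSmooth ζ → IsSmooth ξ → IsD ζ ξ →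
    ∑ k, ∫ q, vl J ξ (x k) q ∂(ν k) = 0

/-- Off the set `B`, the set `C` is an embedded `J`-holomorphic submanifold (possibly with components
of different dimensions), `J` is smooth near the points of `C \ B`, and the form `τ` is positive on
the complex lines tangent to `C \ B`. -/
def Along (J : End d X) (τ : Form d X 2) (B C : Set X) : Prop :=
  ∀ p ∈ C, p ∉ B → ∃ (k : ℕ) (h : E d → E k),
    Function.Surjective (fderiv ℝ h (chartAt (E d) p p)) ∧
    ∀ᶠ z in 𝓝 (chartAt (E d) p p), ContDiffAt ℝ ∞ (inChart J p) z ∧ ContDiffAt ℝ ∞ h z ∧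
      ((chartAt (E d) p).symm z ∈ C ↔ h z = 0) ∧
      (h z = 0 → ∀ u, fderiv ℝ h z u = 0 → fderiv ℝ h z (inChart J p z u) = 0 ∧
        (u ≠ 0 → 0 < pb (chartAt (E d) p).symm τ z ![u, inChart J p z u]))

end Pool.Agent.H819.EM
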