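import Mathlib
import Pool.Agent.H819.EM.Cyc

/-!
# Local data for the restriction of closed structure measures: definitions
-/

set_option autoImplicit false

open Set Filter Topology MeasureTheory Metric
open scoped Manifold ContDiff ENNReal NNReal

noncomputable section

namespace Pool.Agent.H819.EM

open Pool.Agent.Y501.SY
open Pool.Agent.H819

variable {d : ℕ} {X : Type} [TopologicalSpace X] [ChartedSpace (E d) X]

/-- the closed structure measures on the ball of radius `r` around `p` (in the chart at `p`) can be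
restricted to `C`, and the restriction is carried by vectors on which `τ` is positive -/
def LocR (J : End d X) (τ : Form d X 2) (C : Set X) (p : X) (r : ℝ) : Prop :=
  0 < r ∧ closedBall (chartAt (E d) p p) r ⊆ (chartAt (E d) p).target ∧
  ∀ (μ : Measure (E d × E d)) (M : ℝ), IsFiniteMeasure μ → (∀ᵐ q ∂μ, ‖q.2‖ ≤ M) →
    ClosedOn (ball (chartAt (E d) p p) r) (inChart J p) μ univ →
    ClosedOn (ball (chartAt (E d) p p) r) (inChart J p) μ
      {z | z ∈ closedBall (chartAt (E d) p p) r ∧ (chartAt (E d) p).symm z ∈ C} ∧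
    ∀ᵐ q ∂μ, q.1 ∈ ball (chartAt (E d) p p) r → (chartAt (E d) p).symm q.1 ∈ C → q.2 ≠ 0 →
      0 < pb (chartAt (E d) p).symm τ q.1 ![q.2, inChart J p q.1 q.2]

/-- structure measures on the ball of radius `r` around `p` (in the chart at `p`) which are closed
off `C` are closed, if they do not charge `C` -/
def LocE (J : End d X) (C : Set X) (p : X) (r : ℝ) : Prop :=
  0 < r ∧ closedBall (chartAt (E d) p p) r ⊆ (chartAt (E d) p).target ∧
  ∀ (μ : Measure (E d × E d)) (M : ℝ), IsFiniteMeasure μ → (∀ᵐ q ∂μ, ‖q.2‖ ≤ M) →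
    ∀ Y : Set (E d), MeasurableSet Y →
    ClosedOn (ball (chartAt (E d) p p) r ∩ {z | (chartAt (E d) p).symm z ∉ C}) (inChart J p) μ Y →
    ClosedOn (ball (chartAt (E d) p p) r) (inChart J p) μ
      {z | z ∈ Y ∧ z ∈ closedBall (chartAt (E d) p p) r ∧ (chartAt (E d) p).symm z ∉ C}

/-- the functional of `ν` vanishes on `dζ` for the smooth one-forms `ζ` with support in `O` -/
def CycOn {κ : Type} [Fintype κ] (x : κ → X) (J : End d X) (ν : κ → Measure (E d × E d))
    (O : Set X) : Prop :=
  ∀ (Q : Set X) (ζ : Form d X 1) (ξ : Form d X 2), IsClosed Q → Q ⊆ O → IsSmooth ζ →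
    IsSmooth ξ → IsD ζ ξ → (∀ y, y ∉ Q → ζ y = 0) → ∑ k, ∫ q, vl J ξ (x k) q ∂(ν k) = 0

end Pool.Agent.H819.EM
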