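import Mathlib
import Pool.Agent.H819.EM.Cyc
import Pool.Agent.H819.HN.Man

/-!
# Structure measures in a chart
-/

set_option autoImplicit false

open Set Filter Topology MeasureTheory Metric
open scoped Manifold ContDiff ENNReal NNReal

noncomputable section

namespace Pool.Agent.H819.EM

open Pool.Agent.Y501.SY
open Pool.Agent.H819
open Pool.Agent.H819.LG (LocHolder TamedIn extF tr trD)

variable {d : ℕ} {X : Type} [TopologicalSpace X] [ChartedSpace (E d) X] [IsManifold (𝓡 d) ∞ X]

namespace Local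

open Pool.Agent.Y455.SY (A B AB BA)

theorem fderiv_tr {x₀ y₀ : X} {z : E d} (hz : z ∈ trD (d := d) x₀ y₀) (u : E d) :
    fderiv ℝ (tr (d := d) x₀ y₀) z u = B y₀ (tr x₀ y₀ z) (A x₀ z u) := by
  have hid : ContMDiff (𝓡 d) (𝓡 d) ∞ (id : X → X) := contMDiff_id
  have h1 := BC.fderiv_lc hid (show z ∈ BC.Wc (d := d) (id : X → X) x₀ y₀ from hz)
  have h4 : BC.Df (d := d) (id : X → X) ((chartAt (E d) x₀).symm z) =
      ContinuousLinearMap.id ℝ (E d) := mfderiv_id
  rw [h4] at h1
  exact congrArg (fun L : E d →L[ℝ] E d => L u) h1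

omit [IsManifold (𝓡 d) ∞ X] in
theorem symm_tr {x₀ y₀ : X} {z : E d} (hz : z ∈ trD (d := d) x₀ y₀) :
    (chartAt (E d) y₀).symm (tr x₀ y₀ z) = (chartAt (E d) x₀).symm z :=
  (chartAt (E d) y₀).left_inv hz.2

/-- the value of a form in another chart -/
theorem vl_tr (J : End d X) (σ : Form d X 2) {x₀ y₀ : X} {q : E d × E d}
    (hz : q.1 ∈ trD (d := d) x₀ y₀) : vl J σ x₀ q =
      pb (chartAt (E d) y₀).symm σ (tr x₀ y₀ q.1) ![fderiv ℝ (tr (d := d) x₀ y₀) q.1 q.2,
        inChart J y₀ (tr x₀ y₀ q.1) (fderiv ℝ (tr (d := d) x₀ y₀) q.1 q.2)] := by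
  have hw : tr x₀ y₀ q.1 ∈ (chartAt (E d) y₀).target := (LG.tr_maps hz).1
  have h1 := HN.J_trans x₀ y₀ J hz.1 hw (symm_tr hz).symm q.2
  unfold vl
  rw [LG.pb_tr σ hz, ContinuousAlternatingMap.compContinuousLinearMap_apply]
  congr 1
  funext i
  fin_cases i
  · rfl
  · show fderiv ℝ (tr (d := d) x₀ y₀) q.1 (inChart J x₀ q.1 q.2) =
      inChart J y₀ (tr x₀ y₀ q.1) (fderiv ℝ (tr (d := d) x₀ y₀) q.1 q.2)
    rw [fderiv_tr hz, fderiv_tr hz, h1]

/-- the map between the charts -/
def Th (x₀ y₀ : X) (q : E d × E d) : E d × E d :=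
  (tr x₀ y₀ q.1, fderiv ℝ (tr (d := d) x₀ y₀) q.1 q.2)

theorem Th_cont {x₀ y₀ : X} {D : Set (E d)} (hD : D ⊆ trD (d := d) x₀ y₀) :
    ContinuousOn (Th (d := d) x₀ y₀) {q | q.1 ∈ D} := by
  have h1 : ContinuousOn (fun q : E d × E d => tr (d := d) x₀ y₀ q.1) {q | q.1 ∈ D} :=
    ((LG.tr_smooth x₀ y₀).continuousOn.mono hD).comp continuousOn_fst fun q hq => hq
  have h2 : ContinuousOn (fun q : E d × E d => fderiv ℝ (tr (d := d) x₀ y₀) q.1) {q | q.1 ∈ D} :=
    (((LG.tr_smooth x₀ y₀).continuousOn_fderiv_of_isOpen (LG.isOpen_trD x₀ y₀) (by simp)).mono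
      hD).comp continuousOn_fst fun q hq => hq
  exact h1.prodMk (h2.clm_apply continuousOn_snd)

theorem eval_cont {Z : Type} [TopologicalSpace Z] {S : Set Z}
    {f : Z → (E d) [⋀^Fin 2]→L[ℝ] ℝ} {v : Z → Fin 2 → E d} (hf : ContinuousOn f S)
    (hv : ContinuousOn v S) : ContinuousOn (fun q => f q (v q)) S := by
  have h : Continuous fun w : ((E d) [⋀^Fin 2]→L[ℝ] ℝ) × (Fin 2 → E d) => w.1 w.2 := by
    fun_prop
  exact h.comp_continuousOn (hf.prodMk hv)

end Local

/-- **Structure measures in a chart.**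

Proof.  Let `D k = {q | q.1 ∈ K k ∧ (chartAt (x k)).symm q.1 ∈ (chartAt p).symm '' B}`,
`B = closedBall (chartAt p p) r`: its first projection is the compact set
`{z ∈ K k | (chartAt (x k)).symm z ∈ (chartAt p).symm '' B} ⊆ trD (x k) p` (compact: `(chartAt p).symm '' B`
is compact, hence closed in `X`, and `K k ⊆ target` is compact).  The map
`Θ k q = (tr (x k) p q.1, fderiv ℝ (tr (x k) p) q.1 q.2)` is continuous on `D k` (`tr_smooth`,
`isOpen_trD`), and `‖(Θ k q).2‖ ≤ M` if `‖q.2‖ = 1` (compactness).  Put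
`μ = ∑ k, ((ν k).restrict (D k)).map (Θ' k)`, where `Θ' k` is a measurable function equal to `Θ k` on
`D k` (e.g. `Set.piecewise (D k) (Θ k) 0`; `D k` is closed, `Θ k` continuous on it).
For `q ∈ D k`: `vl J σ (x k) q = pb (chartAt p).symm σ (Θ k q).1 ![(Θ k q).2, inChart J p (Θ k q).1 (Θ k q).2]`
for every form `σ` (`pb_tr` and the transformation of `inChart J` under the change of charts,
`inChart J p (tr z) (Dtr u) = Dtr (inChart J (x k) z u)`; this was proved inside
`HN/Man.lean`, see also `BC/Fibre.lean`), and for `σ = extF p s`: `pb (chartAt p).symm (extF p s) z = s z` for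
`z` in the target (`extF_symm`).  If `q ∉ D k`, `q.1 ∈ K k`, then `vl J (extF p s) (x k) q = 0`, because `s`
vanishes outside the ball (`extF_zero` or the definition of `extF`).  Finally for `q ∈ D k`:
`(chartAt p).symm (Θ k q).1 = (chartAt (x k)).symm q.1` (`tr_maps`/`tr_inv`).  The two claims follow with
`integral_map`, `integral_finset_sum_measure`, `ae_map_iff`-type lemmas
(`Measure.map_apply` for `toMeasurable` of the null set). -/
theorem exists_local [T2Space X] [CompactSpace X] {J : End d X}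
    (hJc : ∀ x₀, ContinuousOn (inChart J x₀) (chartAt (E d) x₀).target)
    {κ : Type} [Fintype κ] {x : κ → X} {K : κ → Set (E d)} (hK : ∀ k, IsCompact (K k))
    (hKt : ∀ k, K k ⊆ (chartAt (E d) (x k)).target) {ν : κ → Measure (E d × E d)}
    (hν : Cyc x K J ν) (p : X) {r : ℝ} (hr : 0 < r)
    (hrt : closedBall (chartAt (E d) p p) r ⊆ (chartAt (E d) p).target) :
    ∃ (μ : Measure (E d × E d)) (M : ℝ), IsFiniteMeasure μ ∧ (∀ᵐ q ∂μ, ‖q.2‖ ≤ M) ∧
      (∀ Y : Set X, IsClosed Y → ∀ s : E d → (E d) [⋀^Fin 2]→L[ℝ] ℝ, Continuous s →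
        (∀ z, z ∉ ball (chartAt (E d) p p) r → s z = 0) →
        ∫ q in {q : E d × E d | q.1 ∈ closedBall (chartAt (E d) p p) r ∧
          (chartAt (E d) p).symm q.1 ∈ Y}, s q.1 ![q.2, inChart J p q.1 q.2] ∂μ =
        ∑ k, ∫ q in ov (x k) (K k) Y, vl J (extF p s) (x k) q ∂(ν k)) ∧
      ∀ N : Set (E d × E d), μ N = 0 → ∀ k, ∀ᵐ q ∂(ν k),
        (chartAt (E d) (x k)).symm q.1 ∈ (chartAt (E d) p).source →
        tr (x k) p q.1 ∈ closedBall (chartAt (E d) p p) r →
        (tr (x k) p q.1, fderiv ℝ (tr (x k) p) q.1 q.2) ∉ N := by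
  classical
  have hνf := hν.fin
  set e := chartAt (E d) p with he
  set Bc := closedBall (e p) r with hBc
  set P : Set X := e.symm '' Bc with hP
  have hBcc : IsCompact Bc := isCompact_closedBall _ _
  have hPc : IsClosed P := (hBcc.image_of_continuousOn (e.continuousOn_symm.mono hrt)).isClosed
  have hPs : P ⊆ e.source := by
    rintro _ ⟨z, hz, rfl⟩
    exact e.map_target (hrt hz)
  let D1 : κ → Set (E d) := fun k => K k ∩ (chartAt (E d) (x k)).symm ⁻¹' P
  have hclosed : ∀ (k : κ) (Y : Set X), IsClosed Y →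
      IsClosed (K k ∩ (chartAt (E d) (x k)).symm ⁻¹' Y) := fun k Y hY =>
    ((chartAt (E d) (x k)).continuousOn_symm.mono (hKt k)).preimage_isClosed_of_isClosed
      (hK k).isClosed hY
  have hD1 : ∀ k, IsCompact (D1 k) := fun k =>
    (hK k).of_isClosed_subset (hclosed k P hPc) inter_subset_left
  have hDt : ∀ k, D1 k ⊆ trD (x k) p := fun k z hz => ⟨hKt k hz.1, hPs hz.2⟩
  let D : κ → Set (E d × E d) := fun k => {q | q.1 ∈ D1 k}
  have hDm : ∀ k, MeasurableSet (D k) := fun k =>
    ((hD1 k).isClosed.preimage continuous_fst).measurableSet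
  have hTB : ∀ k, ∀ z ∈ D1 k, tr (x k) p z ∈ Bc := by
    rintro k z ⟨-, b, hb, hbz⟩
    have : tr (x k) p z = b := by
      show e ((chartAt (E d) (x k)).symm z) = b
      rw [← hbz, e.right_inv (hrt hb)]
    rw [this]
    exact hb
  let Θ : κ → E d × E d → E d × E d := fun k => (D k).piecewise (Local.Th (x k) p) 0
  have hΘ : ∀ k, ∀ q ∈ D k, Θ k q = Local.Th (x k) p q := fun k q hq =>
    Set.piecewise_eq_of_mem _ _ _ hq
  have hΘm : ∀ k, Measurable (Θ k) := fun k =>
    (Local.Th_cont (hDt k)).measurable_piecewise continuousOn_const (hDm k)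
  have hbd : ∀ k, ∃ M : ℝ, ∀ z ∈ D1 k, ‖fderiv ℝ (tr (x k) p) z‖ ≤ M := fun k =>
    (hD1 k).exists_bound_of_continuousOn
      (((LG.tr_smooth (x k) p).continuousOn_fderiv_of_isOpen (LG.isOpen_trD (x k) p)
        (by simp)).mono (hDt k))
  choose M0 hM0 using hbd
  set M : ℝ := ∑ k, |M0 k| with hM
  let μ : Measure (E d × E d) := ∑ k, ((ν k).restrict (D k)).map (Θ k)
  have hμ : μ = Measure.sum fun k => ((ν k).restrict (D k)).map (Θ k) :=
    (Measure.sum_fintype _).symm
  have haeM : ∀ k, ∀ᵐ q ∂((ν k).restrict (D k)).map (Θ k), ‖q.2‖ ≤ M := by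
    intro k
    rw [ae_map_iff (hΘm k).aemeasurable (measurableSet_le (by fun_prop) (by fun_prop)),
      ae_restrict_iff' (hDm k)]
    filter_upwards [hν.supp k] with q hq hqD
    rw [hΘ k q hqD]
    show ‖fderiv ℝ (tr (x k) p) q.1 q.2‖ ≤ M
    refine (ContinuousLinearMap.le_opNorm _ _).trans ?_
    rw [hq.2, mul_one]
    refine (hM0 k q.1 hqD).trans ((le_abs_self _).trans ?_)
    exact Finset.single_le_sum (f := fun k => |M0 k|) (fun _ _ => abs_nonneg _)
      (Finset.mem_univ k)
  refine ⟨μ, M, ?_, ?_, ?_, ?_⟩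
  · refine ⟨?_⟩
    show (∑ k, ((ν k).restrict (D k)).map (Θ k)) univ < ⊤
    rw [Measure.finsetSum_apply]
    exact ENNReal.sum_lt_top.2 fun k _ => measure_lt_top _ _
  · rw [hμ, Measure.ae_sum_iff]
    exact haeM
  · intro Y hY s hs hs0
    set T : Set (E d × E d) := {q | q.1 ∈ Bc ∧ e.symm q.1 ∈ Y} with hT
    let F : E d × E d → ℝ := fun q => s q.1 ![q.2, inChart J p q.1 q.2]
    have hFc : ContinuousOn F {q : E d × E d | q.1 ∈ Bc} := by
      have h1 : ContinuousOn (fun q : E d × E d => inChart J p q.1 q.2)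
          {q : E d × E d | q.1 ∈ Bc} :=
        (((hJc p).mono hrt).comp continuousOn_fst fun q hq => hq).clm_apply continuousOn_snd
      have h2 : ContinuousOn (fun q : E d × E d => (![q.2, inChart J p q.1 q.2] : Fin 2 → E d))
          {q : E d × E d | q.1 ∈ Bc} := by
        refine continuousOn_pi.2 fun i => ?_
        fin_cases i
        · exact continuousOn_snd
        · exact h1
      exact Local.eval_cont (hs.comp continuous_fst).continuousOn h2
    have hTc : IsClosed T := by
      have h1 : IsClosed (Bc ∩ e.symm ⁻¹' Y) :=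
        (e.continuousOn_symm.mono hrt).preimage_isClosed_of_isClosed isClosed_closedBall hY
      exact h1.preimage continuous_fst
    have hTm := hTc.measurableSet
    set G : E d × E d → ℝ := T.indicator F with hG
    have hGm : Measurable G := by
      have : G = T.piecewise F 0 := by
        rw [hG, Set.piecewise_eq_indicator]
      rw [this]
      exact (hFc.mono fun q hq => hq.1).measurable_piecewise continuousOn_const hTm
    obtain ⟨C, hC⟩ := (hBcc.prod (isCompact_closedBall (0 : E d) M)).exists_bound_of_continuousOn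
      (hFc.mono fun q hq => hq.1)
    have hGb : ∀ q : E d × E d, ‖q.2‖ ≤ M → ‖G q‖ ≤ |C| := by
      intro q hq
      by_cases h : q ∈ T
      · rw [hG, indicator_of_mem h]
        exact (hC q ⟨h.1, mem_closedBall_zero_iff.2 hq⟩).trans (le_abs_self C)
      · rw [hG, indicator_of_notMem h, norm_zero]
        exact abs_nonneg C
    have hGi : ∀ k, Integrable G (((ν k).restrict (D k)).map (Θ k)) := fun k =>
      Integrable.of_bound hGm.aestronglyMeasurable |C| ((haeM k).mono fun q hq => hGb q hq)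
    have h1 : ∫ q in T, F q ∂μ = ∑ k, ∫ q, G q ∂((ν k).restrict (D k)).map (Θ k) := by
      rw [← integral_indicator hTm]
      exact integral_finsetSum_measure fun k _ => hGi k
    rw [h1]
    refine Finset.sum_congr rfl fun k _ => ?_
    have hov : MeasurableSet (ov (x k) (K k) Y) :=
      ((hclosed k Y hY).preimage continuous_fst).measurableSet
    rw [integral_map (hΘm k).aemeasurable hGm.aestronglyMeasurable,
      ← integral_indicator (hDm k), ← integral_indicator hov]
    congr 1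
    funext q
    by_cases hq : q ∈ D k
    · rw [indicator_of_mem hq, hΘ k q hq]
      have hqt : q.1 ∈ trD (x k) p := hDt k hq
      have h3 : e.symm (tr (x k) p q.1) = (chartAt (E d) (x k)).symm q.1 := Local.symm_tr hqt
      by_cases hY' : (chartAt (E d) (x k)).symm q.1 ∈ Y
      · rw [indicator_of_mem (show q ∈ ov (x k) (K k) Y from ⟨hq.1, hY'⟩), hG,
          indicator_of_mem (show Local.Th (x k) p q ∈ T from
            ⟨hTB k _ hq, by show e.symm (tr (x k) p q.1) ∈ Y; rw [h3]; exact hY'⟩),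
          Local.vl_tr J _ hqt, LG.extF_symm p s (hrt (hTB k _ hq))]
        rfl
      · rw [indicator_of_notMem (fun h : q ∈ ov (x k) (K k) Y => hY' h.2), hG,
          indicator_of_notMem]
        intro h
        apply hY'
        rw [← h3]
        exact h.2
    · rw [indicator_of_notMem hq]
      by_cases hq' : q ∈ ov (x k) (K k) Y
      · rw [indicator_of_mem hq']
        symm
        refine HN.val_zero (x k) p s (Q := Bc) (fun z hz => hs0 z fun h => hz (ball_subset_closedBall h))
          (fun h => hq ⟨hq'.1, h⟩) _ _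
      · rw [indicator_of_notMem hq']
  · intro N hN k
    rw [hμ] at hN
    have h1 : ((ν k).restrict (D k)).map (Θ k) N = 0 := Measure.sum_apply_eq_zero.1 hN k
    have h2 : ∀ᵐ q ∂((ν k).restrict (D k)).map (Θ k), q ∉ N := measure_eq_zero_iff_ae_notMem.1 h1
    have h3 := ae_of_ae_map (hΘm k).aemeasurable h2
    rw [ae_restrict_iff' (hDm k)] at h3
    filter_upwards [h3, hν.supp k] with q hq1 hq2 hq3 hq4
    have hqD : q ∈ D k := ⟨hq2.1, tr (x k) p q.1, hq4, e.left_inv hq3⟩
    have h5 := hq1 hqD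
    rwa [hΘ k q hqD] at h5

end Pool.Agent.H819.EM
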