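import Mathlib
import Pool.Agent.H819.EM.Cyc
import Pool.Agent.H819.LG.Approx

/-!
# Closedness is a local property
-/

set_option autoImplicit false

open Set Filter Topology MeasureTheory Metric
open scoped Manifold ContDiff ENNReal NNReal

noncomputable section

namespace Pool.Agent.H819.EM

open Pool.Agent.Y501.SY
open Pool.Agent.H819
open Pool.Agent.H819.LG (LocHolder TamedIn extF)

variable {d : ℕ} {X : Type} [TopologicalSpace X] [ChartedSpace (E d) X] [IsManifold (𝓡 d) ∞ X]

theorem vl_cont {J : End d X} {x : X}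
    (hJc : ContinuousOn (inChart J x) (chartAt (E d) x).target) {σ : Form d X 2}
    (hσ : IsSmooth σ) {p v : E d} (hp : p ∈ (chartAt (E d) x).target) :
    ContinuousAt (vl J σ x) (p, v) := by
  have h1 : ContinuousAt (pb (chartAt (E d) x).symm σ) p :=
    ((hσ _ _ (chartAt (E d) x).open_target (contMDiffOn_chart_symm)).continuousOn).continuousAt
      ((chartAt (E d) x).open_target.mem_nhds hp)
  have h2 : ContinuousAt (inChart J x) p :=
    hJc.continuousAt ((chartAt (E d) x).open_target.mem_nhds hp)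
  have h3 : ContinuousAt (fun z : E d × E d => pb (chartAt (E d) x).symm σ z.1) (p, v) :=
    ContinuousAt.comp (f := Prod.fst) (x := (p, v)) h1 continuousAt_fst
  have h4 : ContinuousAt (fun z : E d × E d => inChart J x z.1) (p, v) :=
    ContinuousAt.comp (f := Prod.fst) (x := (p, v)) h2 continuousAt_fst
  have h5 : ContinuousAt (fun z : E d × E d => inChart J x z.1 z.2) (p, v) :=
    h4.clm_apply continuousAt_snd
  have h6 : ContinuousAt (fun z : E d × E d => (![z.2, inChart J x z.1 z.2] : Fin 2 → E d))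
      (p, v) := by
    rw [continuousAt_pi]
    intro i
    fin_cases i
    · exact continuousAt_snd
    · exact h5
  exact h3.eval h6

theorem vl_integrable {J : End d X} {x : X}
    (hJc : ContinuousOn (inChart J x) (chartAt (E d) x).target) {σ : Form d X 2}
    (hσ : IsSmooth σ) {K : Set (E d)} (hK : IsCompact K) (hKt : K ⊆ (chartAt (E d) x).target)
    {ν : Measure (E d × E d)} (hfin : IsFiniteMeasure ν)
    (hs : ∀ᵐ q ∂ν, q.1 ∈ K ∧ ‖q.2‖ = 1) : Integrable (vl J σ x) ν := by
  have hS : IsCompact (K ×ˢ sphere (0 : E d) 1) := hK.prod (isCompact_sphere 0 1)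
  have hc : ContinuousOn (vl J σ x) (K ×ˢ sphere (0 : E d) 1) := by
    rintro ⟨p, v⟩ ⟨hp, hv⟩
    exact (vl_cont hJc hσ (hKt hp)).continuousWithinAt
  have h1 : IntegrableOn (vl J σ x) (K ×ˢ sphere (0 : E d) 1) ν := hc.integrableOn_compact hS
  have h2 : ν.restrict (K ×ˢ sphere (0 : E d) 1) = ν := by
    refine Measure.restrict_eq_self_of_ae_mem ?_
    filter_upwards [hs] with q hq
    exact ⟨hq.1, mem_sphere_zero_iff_norm.2 hq.2⟩
  rw [IntegrableOn, h2] at h1
  exact h1

theorem contDiff_aE [CompactSpace X] {x₀ : X} {f : X → ℝ} (hf : SmoothFun (d := d) f)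
    (hs : tsupport f ⊆ (chartAt (E d) x₀).source) {ζ : Form d X 1} (hζ : IsSmooth ζ) :
    ContDiff ℝ ∞ (LG.aE x₀ f ζ) := by
  rw [contDiff_iff_contDiffAt]
  intro z
  by_cases hz : z ∈ (chartAt (E d) x₀).target
  · exact (LG.contDiff_cutE hf hs).contDiffAt.smul ((LG.smooth_chart hζ x₀).contDiffAt
      ((chartAt (E d) x₀).open_target.mem_nhds hz))
  · have h1 : z ∉ LG.suppE x₀ f := fun h => hz (LG.suppE_subset hs h)
    have h2 : LG.aE x₀ f ζ =ᶠ[𝓝 z] fun _ => 0 := by
      filter_upwards [(LG.isCompact_suppE hs).isClosed.isOpen_compl.mem_nhds h1] with y hy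
      exact LG.aE_zero x₀ f ζ hy
    exact contDiffAt_const.congr_of_eventuallyEq h2

theorem extF_aE {x₀ : X} {f : X → ℝ} (hs : tsupport f ⊆ (chartAt (E d) x₀).source)
    (ζ : Form d X 1) (y : X) : extF x₀ (LG.aE x₀ f ζ) y = f y • ζ y := by
  by_cases hy : y ∈ (chartAt (E d) x₀).source
  · rw [LG.extF_of_mem x₀ _ hy]
    have hl : (chartAt (E d) x₀).symm (chartAt (E d) x₀ y) = y := (chartAt (E d) x₀).left_inv hy
    have ht := (chartAt (E d) x₀).map_source hy
    have key : ∀ (y' : X), y' = y → ∀ w : Fin 1 → E d,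
        (ζ y' : (E d) [⋀^Fin 1]→L[ℝ] ℝ) w = (ζ y : (E d) [⋀^Fin 1]→L[ℝ] ℝ) w := by
      rintro _ rfl w
      rfl
    have h2 : LG.cutE x₀ f (chartAt (E d) x₀ y) = f y := by
      rw [LG.cutE_mem x₀ f ht, hl]
    have h3 := (mdifferentiable_chart (I := 𝓡 d) x₀).symm_comp_deriv hy
    ext v
    show LG.cutE x₀ f (chartAt (E d) x₀ y) *
      (ζ ((chartAt (E d) x₀).symm (chartAt (E d) x₀ y)) : (E d) [⋀^Fin 1]→L[ℝ] ℝ)
        (fun i => (mfderiv (𝓡 d) (𝓡 d) (chartAt (E d) x₀).symm (chartAt (E d) x₀ y))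
          ((mfderiv (𝓡 d) (𝓡 d) (chartAt (E d) x₀) y) (v i))) = f y * ζ y v
    rw [h2, key _ hl]
    congr 2
    funext i
    exact DFunLike.congr_fun h3 (v i)
  · rw [LG.extF_of_notMem x₀ _ hy]
    have h1 : f y = 0 := image_eq_zero_of_notMem_tsupport fun h => hy (hs h)
    rw [h1]
    ext v
    show (0 : ℝ) = 0 * ζ y v
    rw [zero_mul]

omit [IsManifold (𝓡 d) ∞ X] in
theorem vl_sum {ι : Type} (s : Finset ι) (J : End d X) (σ : ι → Form d X 2) (x : X)
    (q : E d × E d) : vl J (∑ i ∈ s, σ i) x q = ∑ i ∈ s, vl J (σ i) x q := by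
  unfold vl
  rw [LG.pb_sum, Finset.sum_apply, ContinuousAlternatingMap.sum_apply]

/-- **Localization.**  If the functional of `ν` vanishes on the exterior derivatives of the smooth
one-forms `extF p b` with `b` supported in a small ball around `p` in the chart at `p`, for each
point `p` of the open set `O`, then it vanishes on `dζ` for all smooth one-forms `ζ` with
(closed) support in `O`.

Proof.  Let `Q` be the closed set outside which `ζ = 0` (`hQ`); `Q ⊆ O` is compact.  Cover `Q` by the open sets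
`W p = (chartAt p).symm '' ball (chartAt p p) (r p)`, `p ∈ Q`, and take a smooth partition of unity
`χ_j` on `Q` subordinate to it (`SmoothPartitionOfUnity.exists_isSubordinate`, finitely many are
nonzero on the compact `Q`; see `LG/Approx.lean` or `BC/Pieces.lean` for the same construction; or use a finite
subcover and functions `exists_cut` in `LG/Main.lean`).  Then `ζ = ∑ χ_j ζ`, and `χ_j ζ = extF p_j b_j` where
`b_j = χ_j(...) • pb (chartAt p_j).symm ζ` in the target of the chart, extended by zero: it is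
smooth with compact support in the ball, since `tsupport χ_j ⊆ W p_j`.  Both `∑ extF p_j (extDeriv b_j)`
(`isD_extF`) and `ξ` are exterior derivatives of `ζ`, so they are equal as forms (`IsD` determines the
form: test it with the parametrization `(chartAt x₀).symm` near each point; or compare the
functions `vl` on the pieces `K k` only).  Sum up: the integrals are linear in the form because
the functions `vl J ξ' (x k)` are continuous on the compact pieces `K k` and `ν k` is finite
(`ν k` is carried by `q.1 ∈ K k`, `‖q.2‖ = 1`, `hs`). -/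
theorem closed_of_local [T2Space X] [CompactSpace X] {J : End d X}
    (hJc : ∀ x₀, ContinuousOn (inChart J x₀) (chartAt (E d) x₀).target)
    {κ : Type} [Fintype κ] {x : κ → X} {K : κ → Set (E d)} (hK : ∀ k, IsCompact (K k))
    (hKt : ∀ k, K k ⊆ (chartAt (E d) (x k)).target) {ν : κ → Measure (E d × E d)}
    (hfin : ∀ k, IsFiniteMeasure (ν k)) (hs : ∀ k, ∀ᵐ q ∂(ν k), q.1 ∈ K k ∧ ‖q.2‖ = 1)
    {O : Set X} (hO : IsOpen O) (r : X → ℝ) (hr : ∀ p ∈ O, 0 < r p)
    (hrt : ∀ p ∈ O, ball (chartAt (E d) p p) (r p) ⊆ (chartAt (E d) p).target)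
    (hloc : ∀ p ∈ O, ∀ b, Test (ball (chartAt (E d) p p) (r p)) b →
      ∑ k, ∫ q, vl J (extF p (extDeriv b)) (x k) q ∂(ν k) = 0)
    {Q : Set X} (hQc : IsClosed Q) (hQO : Q ⊆ O) {ζ : Form d X 1} {ξ : Form d X 2}
    (hζ : IsSmooth ζ) (hξ : IsSmooth ξ) (hd : IsD ζ ξ) (hQ : ∀ y, y ∉ Q → ζ y = 0) :
    ∑ k, ∫ q, vl J ξ (x k) q ∂(ν k) = 0 := by
  classical
  let W : X → Set X := fun p => (chartAt (E d) p).source ∩
    (chartAt (E d) p) ⁻¹' ball (chartAt (E d) p p) (r p)
  have hW : ∀ p, IsOpen (W p) := fun p => (chartAt (E d) p).isOpen_inter_preimage isOpen_ball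
  have hQcomp : IsCompact Q := hQc.isCompact
  obtain ⟨t, ht⟩ := hQcomp.elim_finite_subcover (fun y : Q => W y) (fun y => hW y)
    (fun y hy => mem_iUnion.2 ⟨⟨y, hy⟩, mem_chart_source (E d) y, mem_ball_self (hr y (hQO hy))⟩)
  obtain ⟨f, hf⟩ := SmoothPartitionOfUnity.exists_isSubordinate (𝓡 d) hQc
    (fun j : t => W ((j : Q) : X)) (fun j => hW _)
    (fun y hy => by
      obtain ⟨j, hj⟩ := mem_iUnion.1 (ht hy)
      obtain ⟨hj1, hj2⟩ := mem_iUnion.1 hj
      exact mem_iUnion.2 ⟨⟨j, hj1⟩, hj2⟩)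
  have hfs : ∀ j : t, SmoothFun (d := d) (f j) := fun j => (f j).contMDiff
  have hsum : ∀ y ∈ Q, ∑ j : t, f j y = 1 := by
    intro y hy
    rw [← finsum_eq_sum_of_fintype]
    exact f.sum_eq_one hy
  have hpO : ∀ j : t, ((j : Q) : X) ∈ O := fun j => hQO (j : Q).2
  have hts : ∀ j : t, tsupport (f j) ⊆ (chartAt (E d) ((j : Q) : X)).source := fun j =>
    (hf j).trans inter_subset_left
  have hsb : ∀ j : t, LG.suppE (d := d) ((j : Q) : X) (f j) ⊆
      ball (chartAt (E d) ((j : Q) : X) ((j : Q) : X)) (r ((j : Q) : X)) := by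
    rintro j _ ⟨y, hy, rfl⟩
    exact (hf j hy).2
  -- the local one-forms
  let b : t → E d → (E d) [⋀^Fin 1]→L[ℝ] ℝ := fun j => LG.aE ((j : Q) : X) (f j) ζ
  have hb : ∀ j : t, ContDiff ℝ ∞ (b j) := fun j => contDiff_aE (hfs j) (hts j) hζ
  have hb0 : ∀ (j : t) (z : E d), z ∉ LG.suppE (d := d) ((j : Q) : X) (f j) → b j z = 0 :=
    fun j z hz => LG.aE_zero _ _ _ hz
  have hSc : ∀ j : t, IsCompact (LG.suppE (d := d) ((j : Q) : X) (f j)) := fun j =>
    LG.isCompact_suppE (hts j)
  have hSt : ∀ j : t, LG.suppE (d := d) ((j : Q) : X) (f j) ⊆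
      (chartAt (E d) ((j : Q) : X)).target := fun j => LG.suppE_subset (hts j)
  have hbt : ∀ j : t, tsupport (b j) ⊆ LG.suppE (d := d) ((j : Q) : X) (f j) := by
    intro j
    refine closure_minimal ?_ (hSc j).isClosed
    intro z hz
    by_contra h
    exact hz (hb0 j z h)
  have hTest : ∀ j : t, Test (ball (chartAt (E d) ((j : Q) : X) ((j : Q) : X))
      (r ((j : Q) : X))) (b j) := fun j =>
    ⟨hb j, (hSc j).of_isClosed_subset (isClosed_tsupport _) (hbt j), (hbt j).trans (hsb j)⟩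
  have hbs : ∀ j : t, IsSmooth (extF (X := X) ((j : Q) : X) (b j)) := fun j =>
    LG.smooth_extF (hb j) (hSc j) (hSt j) (hb0 j)
  have hbd : ∀ j : t, IsD (extF (X := X) ((j : Q) : X) (b j)) (extF ((j : Q) : X) (extDeriv (b j))) ∧
      ∀ z, z ∉ LG.suppE (d := d) ((j : Q) : X) (f j) → extDeriv (b j) z = 0 := fun j =>
    LG.isD_extF (hb j) (hSc j) (hSt j) (hb0 j)
  have hes : ∀ j : t, ContDiff ℝ ∞ (extDeriv (b j)) := by
    intro j
    rw [contDiff_iff_contDiffAt]
    intro z
    exact Pool.Agent.Y891.SY.contDiffAt_extDeriv (hb j).contDiffAt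
  have hds : ∀ j : t, IsSmooth (extF (X := X) ((j : Q) : X) (extDeriv (b j))) := fun j =>
    LG.smooth_extF (hes j) (hSc j) (hSt j) (hbd j).2
  -- the decomposition
  have hζs : ζ = ∑ j : t, extF ((j : Q) : X) (b j) := by
    funext y
    rw [Finset.sum_apply]
    have h1 : ∀ j : t, extF ((j : Q) : X) (b j) y = f j y • ζ y := fun j =>
      extF_aE (hts j) ζ y
    rw [Finset.sum_congr rfl fun j _ => h1 j, ← Finset.sum_smul]
    by_cases hy : y ∈ Q
    · rw [hsum y hy, one_smul]
    · rw [hQ y hy, smul_zero]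
  have hsd : IsD ζ (∑ j : t, extF ((j : Q) : X) (extDeriv (b j))) := by
    rw [hζs]
    exact LG.IsD.sum' Finset.univ (fun j _ => (hbd j).1) fun j _ => hbs j
  have hvl : ∀ (k : κ) (q : E d × E d), q.1 ∈ K k → vl J ξ (x k) q =
      ∑ j : t, vl J (extF ((j : Q) : X) (extDeriv (b j))) (x k) q := by
    intro k q hq
    rw [← vl_sum]
    have h1 := hd _ _ (chartAt (E d) (x k)).open_target contMDiffOn_chart_symm q.1 (hKt k hq)
    have h2 := hsd _ _ (chartAt (E d) (x k)).open_target contMDiffOn_chart_symm q.1 (hKt k hq)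
    unfold vl
    rw [← h1, h2]
  have hint : ∀ k, ∫ q, vl J ξ (x k) q ∂(ν k) =
      ∑ j : t, ∫ q, vl J (extF ((j : Q) : X) (extDeriv (b j))) (x k) q ∂(ν k) := by
    intro k
    rw [← integral_finsetSum _ fun j _ => vl_integrable (hJc (x k)) (hds j) (hK k) (hKt k)
      (hfin k) (hs k)]
    refine integral_congr_ae ?_
    filter_upwards [hs k] with q hq
    exact hvl k q hq.1
  rw [Finset.sum_congr rfl fun k _ => hint k, Finset.sum_comm]
  exact Finset.sum_eq_zero fun j _ => hloc _ (hpO j) _ (hTest j)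

end Pool.Agent.H819.EM
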