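import Mathlib
import Pool.Agent.H819.EM.LocR
import Pool.Agent.H819.EM.Local
import Pool.Agent.H819.EM.Part

/-!
# Restriction and extension of closed structure measures on a manifold
-/

set_option autoImplicit false

open Set Filter Topology MeasureTheory Metric
open scoped Manifold ContDiff ENNReal NNReal

noncomputable section

namespace Pool.Agent.H819.EM

open Pool.Agent.Y501.SY
open Pool.Agent.H819
open Pool.Agent.H819.LG (LocHolder TamedIn extF)

variable {d : ℕ} {X : Type} [TopologicalSpace X] [ChartedSpace (E d) X] [IsManifold (𝓡 d) ∞ X]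

namespace ROn

/-- test forms in a ball inside a chart -/
theorem test_ext [T2Space X] {p : X} {U : Set (E d)} (hU : U ⊆ (chartAt (E d) p).target)
    {b : E d → (E d) [⋀^Fin 1]→L[ℝ] ℝ} (hb : Test U b) :
    IsSmooth (extF p b) ∧ IsSmooth (extF p (extDeriv b)) ∧ IsD (extF p b) (extF p (extDeriv b)) ∧
      Continuous (extDeriv b) ∧ (∀ z, z ∉ tsupport b → b z = 0) ∧
      ∀ z, z ∉ tsupport b → extDeriv b z = 0 := by
  have h0 : ∀ z, z ∉ tsupport b → b z = 0 := fun z hz => image_eq_zero_of_notMem_tsupport hz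
  have hc : IsCompact (tsupport b) := hb.comp
  have hQt : tsupport b ⊆ (chartAt (E d) p).target := hb.supp.trans hU
  obtain ⟨h1, h2⟩ := LG.isD_extF hb.smooth hc hQt h0
  have h3 : ContDiff ℝ ∞ (extDeriv b) := contDiff_iff_contDiffAt.2 fun z =>
    Pool.Agent.Y891.SY.contDiffAt_extDeriv hb.smooth.contDiffAt
  exact ⟨LG.smooth_extF hb.smooth hc hQt h0, LG.smooth_extF h3 hc hQt h2, h1, h3.continuous, h0, h2⟩

omit [IsManifold (𝓡 d) ∞ X] in
theorem set_closed {p : X} {r : ℝ} (hrt : closedBall (chartAt (E d) p p) r ⊆ (chartAt (E d) p).target)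
    {Y : Set X} (hY : IsClosed Y) :
    IsClosed {z | z ∈ closedBall (chartAt (E d) p p) r ∧ (chartAt (E d) p).symm z ∈ Y} :=
  ((chartAt (E d) p).continuousOn_symm.mono hrt).preimage_isClosed_of_isClosed
    isClosed_closedBall hY

/-- the measure in a chart is closed -/
theorem closed_univ [T2Space X] {J : End d X}
    {κ : Type} [Fintype κ] {x : κ → X} {K : κ → Set (E d)}
    {ν : κ → Measure (E d × E d)} (hν : Cyc x K J ν) (p : X) {r : ℝ}
    (hrt : closedBall (chartAt (E d) p p) r ⊆ (chartAt (E d) p).target)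
    {μ : Measure (E d × E d)}
    (hμ : ∀ Y : Set X, IsClosed Y → ∀ s : E d → (E d) [⋀^Fin 2]→L[ℝ] ℝ, Continuous s →
        (∀ z, z ∉ ball (chartAt (E d) p p) r → s z = 0) →
        ∫ q in {q : E d × E d | q.1 ∈ closedBall (chartAt (E d) p p) r ∧
          (chartAt (E d) p).symm q.1 ∈ Y}, s q.1 ![q.2, inChart J p q.1 q.2] ∂μ =
        ∑ k, ∫ q in ov (x k) (K k) Y, vl J (extF p s) (x k) q ∂(ν k)) :
    ClosedOn (ball (chartAt (E d) p p) r) (inChart J p) μ univ := by
  intro b hb
  obtain ⟨h1, h2, h3, h4, -, h6⟩ := test_ext (ball_subset_closedBall.trans hrt) hb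
  have h0 : ∀ z, z ∉ ball (chartAt (E d) p p) r → extDeriv b z = 0 := fun z hz =>
    h6 z fun h => hz (hb.supp h)
  have e1 := hμ univ isClosed_univ (extDeriv b) h4 h0
  have e2 : ∫ q in {q : E d × E d | q.1 ∈ (univ : Set (E d))},
      extDeriv b q.1 ![q.2, inChart J p q.1 q.2] ∂μ =
      ∫ q in {q : E d × E d | q.1 ∈ closedBall (chartAt (E d) p p) r ∧
        (chartAt (E d) p).symm q.1 ∈ (univ : Set X)},
        extDeriv b q.1 ![q.2, inChart J p q.1 q.2] ∂μ := by
    refine setIntegral_eq_of_subset_of_forall_sdiff_eq_zero ?_ (fun q _ => mem_univ q.1) ?_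
    · exact MeasurableSet.univ
    · rintro q ⟨-, hq⟩
      have hq' : q.1 ∉ ball (chartAt (E d) p p) r := fun h =>
        hq ⟨ball_subset_closedBall h, mem_univ _⟩
      rw [h0 q.1 hq']
      rfl
  rw [e2, e1]
  have e3 : ∀ k, ∫ q in ov (x k) (K k) univ, vl J (extF p (extDeriv b)) (x k) q ∂(ν k) =
      ∫ q, vl J (extF p (extDeriv b)) (x k) q ∂(ν k) := by
    intro k
    rw [Measure.restrict_eq_self_of_ae_mem]
    filter_upwards [hν.supp k] with q hq
    exact ⟨hq.1, mem_univ _⟩
  rw [Finset.sum_congr rfl fun k _ => e3 k]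
  exact hν.closed _ _ h1 h2 h3

omit [IsManifold (𝓡 d) ∞ X] in
/-- the integrands are integrable over the closed ball -/
theorem integrable_ball {J : End d X}
    (hJc : ∀ x₀, ContinuousOn (inChart J x₀) (chartAt (E d) x₀).target) (p : X) {r : ℝ}
    (hrt : closedBall (chartAt (E d) p p) r ⊆ (chartAt (E d) p).target)
    {μ : Measure (E d × E d)} [IsFiniteMeasure μ] {M : ℝ} (hμM : ∀ᵐ q ∂μ, ‖q.2‖ ≤ M)
    {s : E d → (E d) [⋀^Fin 2]→L[ℝ] ℝ} (hs : Continuous s) :
    IntegrableOn (fun q : E d × E d => s q.1 ![q.2, inChart J p q.1 q.2])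
      {q : E d × E d | q.1 ∈ closedBall (chartAt (E d) p p) r} μ := by
  have hFc : ContinuousOn (fun q : E d × E d => s q.1 ![q.2, inChart J p q.1 q.2])
      {q : E d × E d | q.1 ∈ closedBall (chartAt (E d) p p) r} := by
    have h1 : ContinuousOn (fun q : E d × E d => inChart J p q.1 q.2)
        {q : E d × E d | q.1 ∈ closedBall (chartAt (E d) p p) r} :=
      (((hJc p).mono hrt).comp continuousOn_fst fun q hq => hq).clm_apply continuousOn_snd
    have h2 : ContinuousOn (fun q : E d × E d => (![q.2, inChart J p q.1 q.2] : Fin 2 → E d))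
        {q : E d × E d | q.1 ∈ closedBall (chartAt (E d) p p) r} := by
      refine continuousOn_pi.2 fun i => ?_
      fin_cases i
      · exact continuousOn_snd
      · exact h1
    exact Local.eval_cont (hs.comp continuous_fst).continuousOn h2
  have hm : MeasurableSet {q : E d × E d | q.1 ∈ closedBall (chartAt (E d) p p) r} :=
    (isClosed_closedBall.preimage continuous_fst).measurableSet
  obtain ⟨C, hC⟩ := ((isCompact_closedBall (chartAt (E d) p p) r).prod
    (isCompact_closedBall (0 : E d) M)).exists_bound_of_continuousOn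
    (hFc.mono fun q hq => hq.1)
  refine Integrable.of_bound (hFc.aestronglyMeasurable hm) C ?_
  rw [ae_restrict_iff' hm]
  filter_upwards [hμM] with q hq hq1
  exact hC q ⟨hq1, mem_closedBall_zero_iff.2 hq⟩

end ROn

/-- **Restriction of closed structure measures.**

Proof.  Write `ν' k = (ν k).restrict (ov (x k) (K k) C)`, where `ov (x k) (K k) C` is a closed set
(`K k` compact, `(chartAt (x k)).symm` continuous on it).
(1) Let `p ∉ B`, `r = r p` with `LocR J τ C p r`.  Take `μ, M` as in `exists_local` for the closed ball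
of radius `r`, and write `Bp = ball (chartAt p p) r`, `Cp = {z ∈ closedBall (chartAt p p) r | symm z ∈ C}`.
`ClosedOn Bp (inChart J p) μ univ`: for a test form `b` in `Bp` (so `extDeriv b` vanishes outside `Bp`)
the integral over all `q` is the one over `{q | q.1 ∈ closedBall}`, which is the sum
`∑ k, ∫ vl J (extF p (extDeriv b)) (x k) dν k` (`exists_local` with `Y = univ`), and it is zero by
`hν.closed` (`LG.smooth_extF`, `LG.isD_extF`).  `LocR` gives `ClosedOn Bp (inChart J p) μ Cp`, that is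
(`exists_local` with `Y = C`) `∑ k, ∫ vl J (extF p (extDeriv b)) (x k) dν' k = 0` for all `b ∈ Test Bp`.
(2) `closed_of_local` with `O = Bᶜ`. -/
theorem restrict_on [T2Space X] [CompactSpace X] {J : End d X}
    (hJc : ∀ x₀, ContinuousOn (inChart J x₀) (chartAt (E d) x₀).target)
    {κ : Type} [Fintype κ] {x : κ → X} {K : κ → Set (E d)}
    (hK : ∀ k, IsCompact (K k)) (hKt : ∀ k, K k ⊆ (chartAt (E d) (x k)).target)
    {ν : κ → Measure (E d × E d)} (hν : Cyc x K J ν) {τ : Form d X 2} {B C : Set X}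
    (hB : IsClosed B) (hC : IsClosed C) (h : ∀ p, p ∉ B → ∃ r, LocR J τ C p r) :
    CycOn x J (fun k => (ν k).restrict (ov (x k) (K k) C)) Bᶜ := by
  classical
  have hfin : ∀ k, IsFiniteMeasure (ν k) := hν.fin
  have hfin' : ∀ k, IsFiniteMeasure ((ν k).restrict (ov (x k) (K k) C)) := fun k => inferInstance
  have hsupp' : ∀ k, ∀ᵐ q ∂((ν k).restrict (ov (x k) (K k) C)), q.1 ∈ K k ∧ ‖q.2‖ = 1 := fun k =>
    ae_restrict_of_ae (hν.supp k)
  choose! r hr using h
  have hone : ∀ p, p ∉ B → ∀ b, Test (ball (chartAt (E d) p p) (r p)) b →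
      ∑ k, ∫ q, vl J (extF p (extDeriv b)) (x k) q ∂((ν k).restrict (ov (x k) (K k) C)) = 0 := by
    intro p hp b hb
    obtain ⟨hr0, hrt, hL⟩ := hr p hp
    obtain ⟨μ, M, hμf, hμM, hμ, -⟩ := exists_local hJc hK hKt hν p hr0 hrt
    obtain ⟨-, -, -, h4, -, h6⟩ := ROn.test_ext (ball_subset_closedBall.trans hrt) hb
    have h7 := (hL μ M hμf hμM (ROn.closed_univ hν p hrt hμ)).1 b hb
    rw [← h7]
    exact (hμ C hC (extDeriv b) h4 fun z hz => h6 z fun h => hz (hb.supp h)).symm
  intro Q ζ ξ hQ hQO hζ hξ hd hQ0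
  exact closed_of_local hJc hK hKt hfin' hsupp' hB.isOpen_compl r
    (fun p hp => (hr p hp).1) (fun p hp => ball_subset_closedBall.trans (hr p hp).2.1)
    (fun p hp b hb => hone p hp b hb) hQ hQO hζ hξ hd hQ0

/-- **Extension of closed structure measures across `C \ B`.**

Proof.  Write `ν' k = (ν k).restrict (ov (x k) (K k) Y)`.  Let `p ∉ B`, `r` with `LocE J C p r`, and take
`μ, M` as in `exists_local` for the closed ball of radius `r`; `Bp = ball (chartAt p p) r`,
`Yp = {z ∈ closedBall (chartAt p p) r | symm z ∈ Y}` (a closed set).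
`ClosedOn (Bp ∩ {z | symm z ∉ C}) (inChart J p) μ Yp`: for a test form `b` apply `hcl` to
`extF p b`, `extF p (extDeriv b)`, `Q = symm '' tsupport b` (compact, disjoint from `C`), and
`exists_local` (with the closed set `Y`).  So `LocE` gives
`ClosedOn Bp (inChart J p) μ {z ∈ Yp | symm z ∉ C}`.  For a test form `b` in `Bp` the integral of
`extDeriv b` over `{z ∈ Yp | symm z ∈ C}` is, by `exists_local` (with the closed set `Y ∩ C`), the sum
`∑ k, ∫ q in ov (x k) (K k) (Y ∩ C), vl J (extF p (extDeriv b)) (x k) q ∂(ν k) = 0`, because of `h0`.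
So the integral over `Yp` vanishes (the integrand is integrable: continuous and bounded for
`q.1 ∈ closedBall`, `‖q.2‖ ≤ M`), i.e. (`exists_local` with `Y` again)
`∑ k, ∫ vl J (extF p (extDeriv b)) (x k) dν' k = 0`.  Conclude with `closed_of_local`, `O = Bᶜ`. -/
theorem extend_on [T2Space X] [CompactSpace X] {J : End d X}
    (hJc : ∀ x₀, ContinuousOn (inChart J x₀) (chartAt (E d) x₀).target)
    {κ : Type} [Fintype κ] {x : κ → X} {K : κ → Set (E d)}
    (hK : ∀ k, IsCompact (K k)) (hKt : ∀ k, K k ⊆ (chartAt (E d) (x k)).target)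
    {ν : κ → Measure (E d × E d)} (hν : Cyc x K J ν) {B C Y : Set X}
    (hB : IsClosed B) (hC : IsClosed C) (hY : IsClosed Y)
    (h0 : ∀ k, ν k (ov (x k) (K k) C) = 0) (h : ∀ p, p ∉ B → ∃ r, LocE J C p r)
    (hcl : CycOn x J (fun k => (ν k).restrict (ov (x k) (K k) Y)) Cᶜ) :
    CycOn x J (fun k => (ν k).restrict (ov (x k) (K k) Y)) Bᶜ := by
  classical
  have hfin : ∀ k, IsFiniteMeasure (ν k) := hν.fin
  have hfin' : ∀ k, IsFiniteMeasure ((ν k).restrict (ov (x k) (K k) Y)) := fun k => inferInstance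
  have hsupp' : ∀ k, ∀ᵐ q ∂((ν k).restrict (ov (x k) (K k) Y)), q.1 ∈ K k ∧ ‖q.2‖ = 1 := fun k =>
    ae_restrict_of_ae (hν.supp k)
  choose! r hr using h
  have hone : ∀ p, p ∉ B → ∀ b, Test (ball (chartAt (E d) p p) (r p)) b →
      ∑ k, ∫ q, vl J (extF p (extDeriv b)) (x k) q ∂((ν k).restrict (ov (x k) (K k) Y)) = 0 := by
    intro p hp b hb
    obtain ⟨hr0, hrt, hL⟩ := hr p hp
    obtain ⟨μ, M, hμf, hμM, hμ, -⟩ := exists_local hJc hK hKt hν p hr0 hrt
    have hbt : ball (chartAt (E d) p p) (r p) ⊆ (chartAt (E d) p).target :=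
      ball_subset_closedBall.trans hrt
    -- the measure is closed off `C`
    have hA : ClosedOn (ball (chartAt (E d) p p) (r p) ∩ {z | (chartAt (E d) p).symm z ∉ C})
        (inChart J p) μ
        {z | z ∈ closedBall (chartAt (E d) p p) (r p) ∧ (chartAt (E d) p).symm z ∈ Y} := by
      intro c hc
      obtain ⟨g1, g2, g3, g4, g5, g6⟩ := ROn.test_ext (inter_subset_left.trans hbt) hc
      have g7 := hμ Y hY (extDeriv c) g4 fun z hz => g6 z fun h => hz (hc.supp h).1
      refine g7.trans ?_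
      have hcomp : IsCompact (tsupport c) := hc.comp
      refine hcl ((chartAt (E d) p).symm '' tsupport c) (extF p c) (extF p (extDeriv c)) ?_ ?_
        g1 g2 g3 fun y hy => LG.extF_zero p c g5 hy
      · exact (hcomp.image_of_continuousOn ((chartAt (E d) p).continuousOn_symm.mono
          (hc.supp.trans (inter_subset_left.trans hbt)))).isClosed
      · rintro _ ⟨z, hz, rfl⟩
        exact (hc.supp hz).2
    have hE := hL μ M hμf hμM _ (ROn.set_closed hrt hY).measurableSet hA b hb
    obtain ⟨-, -, -, h4, -, h6⟩ := ROn.test_ext hbt hb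
    have hz0 : ∀ z, z ∉ ball (chartAt (E d) p p) (r p) → extDeriv b z = 0 := fun z hz =>
      h6 z fun h => hz (hb.supp h)
    -- the part over `C`
    have hC0 : ∫ q in {q : E d × E d | q.1 ∈ closedBall (chartAt (E d) p p) (r p) ∧
        (chartAt (E d) p).symm q.1 ∈ Y ∩ C},
        extDeriv b q.1 ![q.2, inChart J p q.1 q.2] ∂μ = 0 := by
      rw [hμ (Y ∩ C) (hY.inter hC) (extDeriv b) h4 hz0]
      refine Finset.sum_eq_zero fun k _ => setIntegral_measure_zero _ ?_
      exact measure_mono_null (show ov (x k) (K k) (Y ∩ C) ⊆ ov (x k) (K k) C from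
        fun q hq => ⟨hq.1, hq.2.2⟩) (h0 k)
    have hI := ROn.integrable_ball hJc p hrt hμM h4
    have hsplit : {q : E d × E d | q.1 ∈ closedBall (chartAt (E d) p p) (r p) ∧
        (chartAt (E d) p).symm q.1 ∈ Y} =
        {q : E d × E d | q.1 ∈ {z | z ∈ {z | z ∈ closedBall (chartAt (E d) p p) (r p) ∧
          (chartAt (E d) p).symm z ∈ Y} ∧ z ∈ closedBall (chartAt (E d) p p) (r p) ∧
            (chartAt (E d) p).symm z ∉ C}} ∪
        {q : E d × E d | q.1 ∈ closedBall (chartAt (E d) p p) (r p) ∧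
          (chartAt (E d) p).symm q.1 ∈ Y ∩ C} := by
      ext q
      constructor
      · intro hq
        by_cases hqC : (chartAt (E d) p).symm q.1 ∈ C
        · exact Or.inr ⟨hq.1, hq.2, hqC⟩
        · exact Or.inl ⟨hq, hq.1, hqC⟩
      · rintro (hq | hq)
        · exact hq.1
        · exact ⟨hq.1, hq.2.1⟩
    have hdisj : Disjoint
        {q : E d × E d | q.1 ∈ {z | z ∈ {z | z ∈ closedBall (chartAt (E d) p p) (r p) ∧
          (chartAt (E d) p).symm z ∈ Y} ∧ z ∈ closedBall (chartAt (E d) p p) (r p) ∧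
            (chartAt (E d) p).symm z ∉ C}}
        {q : E d × E d | q.1 ∈ closedBall (chartAt (E d) p p) (r p) ∧
          (chartAt (E d) p).symm q.1 ∈ Y ∩ C} := by
      rw [Set.disjoint_left]
      intro q hq1 hq2
      exact hq1.2.2 hq2.2.2
    have hm2 : MeasurableSet {q : E d × E d | q.1 ∈ closedBall (chartAt (E d) p p) (r p) ∧
        (chartAt (E d) p).symm q.1 ∈ Y ∩ C} :=
      ((ROn.set_closed hrt (hY.inter hC)).preimage continuous_fst).measurableSet
    have hsum := hμ Y hY (extDeriv b) h4 hz0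
    rw [hsplit, setIntegral_union hdisj hm2 (hI.mono_set fun q hq => hq.2.1)
      (hI.mono_set fun q hq => hq.1), hC0, add_zero] at hsum
    rw [← hsum]
    exact hE
  intro Q ζ ξ hQ hQO hζ hξ hd hQ0
  exact closed_of_local hJc hK hKt hfin' hsupp' hB.isOpen_compl r
    (fun p hp => (hr p hp).1) (fun p hp => ball_subset_closedBall.trans (hr p hp).2.1)
    (fun p hp b hb => hone p hp b hb) hQ hQO hζ hξ hd hQ0

end Pool.Agent.H819.EM
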