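import Mathlib
import Pool.Agent.H819.EM.ROn

/-!
# Restriction of closed structure measures to the members of a chain
-/

set_option autoImplicit false

open Set Filter Topology MeasureTheory Metric
open scoped Manifold ContDiff ENNReal NNReal

noncomputable section

namespace Pool.Agent.H819.EM

open Pool.Agent.Y501.SY
open Pool.Agent.H819
open Pool.Agent.H819.LG (LocHolder TamedIn extF)

variable {d : ℕ} {X : Type} [TopologicalSpace X] [ChartedSpace (E d) X] [IsManifold (𝓡 d) ∞ X]

/-- continuity of the values on compact pieces -/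
theorem chain_contOn {J : End d X}
    (hJc : ∀ x₀, ContinuousOn (inChart J x₀) (chartAt (E d) x₀).target)
    {η : Form d X 2} (hη : IsSmooth η) (x : X) {K : Set (E d)}
    (hKt : K ⊆ (chartAt (E d) x).target) (S : Set (E d)) :
    ContinuousOn (vl J η x) (K ×ˢ S) := by
  have hm : MapsTo (fun q : E d × E d => q.1) (K ×ˢ S) (chartAt (E d) x).target :=
    fun q hq => hKt hq.1
  have h1 : ContinuousOn (fun q : E d × E d => pb (chartAt (E d) x).symm η q.1) (K ×ˢ S) :=
    (LG.smooth_chart hη x).continuousOn.comp continuousOn_fst hm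
  have h2 : ContinuousOn (fun q : E d × E d => inChart J x q.1 q.2) (K ×ˢ S) :=
    ((hJc x).comp continuousOn_fst hm).clm_apply continuousOn_snd
  have h3 : ContinuousOn (fun q : E d × E d => (![q.2, inChart J x q.1 q.2] : Fin 2 → E d))
      (K ×ˢ S) := by
    refine continuousOn_pi.2 fun i => ?_
    fin_cases i
    · exact continuousOn_snd
    · exact h2
  exact LG.continuous_ev2.comp_continuousOn (h1.prodMk h3)

/-- the values are integrable -/
theorem chain_int {J : End d X}
    (hJc : ∀ x₀, ContinuousOn (inChart J x₀) (chartAt (E d) x₀).target)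
    {κ : Type} [Fintype κ] {x : κ → X} {K : κ → Set (E d)}
    (hK : ∀ k, IsCompact (K k)) (hKt : ∀ k, K k ⊆ (chartAt (E d) (x k)).target)
    {ν : κ → Measure (E d × E d)} (hν : Cyc x K J ν) {η : Form d X 2} (hη : IsSmooth η) (k : κ) :
    Integrable (vl J η (x k)) (ν k) := by
  have hfin := hν.fin
  have h1 : IntegrableOn (vl J η (x k)) (K k ×ˢ sphere (0 : E d) 1) (ν k) :=
    (chain_contOn hJc hη (x k) (hKt k) _).integrableOn_compact
      ((hK k).prod (isCompact_sphere _ _))
  have h2 : (ν k).restrict (K k ×ˢ sphere (0 : E d) 1) = ν k := by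
    refine Measure.restrict_eq_self_of_ae_mem ?_
    filter_upwards [hν.supp k] with q hq
    exact ⟨hq.1, by rw [mem_sphere_zero_iff_norm]; exact hq.2⟩
  rw [IntegrableOn, h2] at h1
  exact h1

omit [IsManifold (𝓡 d) ∞ X] in
/-- the part over a closed set is measurable -/
theorem chain_meas {x : X} {K : Set (E d)} (hK : IsCompact K)
    (hKt : K ⊆ (chartAt (E d) x).target) {Y : Set X} (hY : IsClosed Y) :
    MeasurableSet (ov x K Y) := by
  have h1 : IsClosed (K ∩ (chartAt (E d) x).symm ⁻¹' Y) :=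
    ((chartAt (E d) x).continuousOn_symm.mono hKt).preimage_isClosed_of_isClosed hK.isClosed hY
  have h2 : IsClosed (ov x K Y) := h1.preimage continuous_fst
  exact h2.measurableSet

omit [IsManifold (𝓡 d) ∞ X] in
theorem chain_mono {x : X} {K : Set (E d)} {Y Y' : Set X} (h : Y ⊆ Y') :
    ov x K Y ⊆ ov x K Y' := fun _ hq => ⟨hq.1, h hq.2⟩

omit [IsManifold (𝓡 d) ∞ X] in
/-- the first two conditions for restrictions -/
theorem chain_restr {J : End d X} {κ : Type} [Fintype κ] {x : κ → X} {K : κ → Set (E d)}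
    {ν : κ → Measure (E d × E d)} (hν : Cyc x K J ν) (S : κ → Set (E d × E d))
    (h : ∀ (ζ : Form d X 1) (ξ : Form d X 2), IsSmooth ζ → IsSmooth ξ → IsD ζ ξ →
      ∑ k, ∫ q in S k, vl J ξ (x k) q ∂(ν k) = 0) :
    Cyc x K J (fun k => (ν k).restrict (S k)) where
  fin k := by
    have := hν.fin k
    infer_instance
  supp k := ae_restrict_of_ae (hν.supp k)
  closed := h

/-- If the restriction to a closed set is closed, so is the restriction to the complement.

Proof.  `∫ vl J ξ (x k) dν k = ∫_{ov} + ∫_{ovᶜ}` (`integral_add_compl`); `ov (x k) (K k) C` is measurable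
(closed), `vl J ξ (x k)` is integrable: it is continuous on the compact set `K k ×ˢ sphere 0 1`
(`LG.smooth_chart`, `hJc`, `LG.continuous_ev2`; see `vl_cont` in `EM/NullOver.lean` or
`continuousOn_vl` in `EM/Dual.lean`), which carries the finite measure `ν k`. -/
theorem Cyc.compl [T2Space X] {J : End d X}
    (hJc : ∀ x₀, ContinuousOn (inChart J x₀) (chartAt (E d) x₀).target)
    {κ : Type} [Fintype κ] {x : κ → X} {K : κ → Set (E d)}
    (hK : ∀ k, IsCompact (K k)) (hKt : ∀ k, K k ⊆ (chartAt (E d) (x k)).target)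
    {ν : κ → Measure (E d × E d)} (hν : Cyc x K J ν) {C : Set X} (hC : IsClosed C)
    (h : Cyc x K J (fun k => (ν k).restrict (ov (x k) (K k) C))) :
    Cyc x K J (fun k => (ν k).restrict (ov (x k) (K k) C)ᶜ) := by
  refine chain_restr hν (fun k => (ov (x k) (K k) C)ᶜ) fun ζ ξ hζ hξ hd => ?_
  have h1 := hν.closed ζ ξ hζ hξ hd
  have h2 := h.closed ζ ξ hζ hξ hd
  have h3 : ∀ k, ∫ q, vl J ξ (x k) q ∂(ν k) = ∫ q in ov (x k) (K k) C, vl J ξ (x k) q ∂(ν k) +
      ∫ q in (ov (x k) (K k) C)ᶜ, vl J ξ (x k) q ∂(ν k) := fun k =>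
    (integral_add_compl (chain_meas (hK k) (hKt k) hC) (chain_int hJc hK hKt hν hξ k)).symm
  rw [Finset.sum_congr rfl fun k _ => h3 k, Finset.sum_add_distrib, h2, zero_add] at h1
  exact h1

/-- **Restriction to the members of a chain.**  (Cite `restrict_on`, `extend_on` of `EM/ROn.lean`; they
are being proved.)

Proof.  Induction on `j`.  For `j = 0` the measures are zero (`ov (x k) (K k) ∅ = ∅`).  Let the
assertion hold for `j` and `j + 1 ≤ n`; put `ν' k = (ν k).restrict (ov (x k) (K k) (C j))ᶜ`, a closed structure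
measure by `Cyc.compl`, and `μ k = (ν' k).restrict (ov (x k) (K k) (C (j + 1)))`.
`CycOn x J μ (C j)ᶜ` by `restrict_on` (with `B = C j`, `C = C (j + 1)`, `hR j`).  By downward induction on
`i ≤ j`: `CycOn x J μ (C i)ᶜ`; the step from `i + 1` to `i` (`i + 1 ≤ j`) is `extend_on` with `ν'`,
`B = C i`, `C = C (i + 1)`, `Y = C (j + 1)`, `hE i`, since `ν' k (ov (x k) (K k) (C (i + 1))) = 0` because
`C (i + 1) ⊆ C j` (`hmono`).  For `i = 0` this says that `μ` is a closed structure measure (`C 0 = ∅`,
take `Q = univ`).  Since `C j ⊆ C (j + 1)`, `∫_{ov (C (j + 1))} = ∫_{ov (C j)} + ∫_{ov (C (j + 1)) \ ov (C j)}`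
for `ν k`, so the restriction of `ν` to `C (j + 1)` is closed (integrability as in `Cyc.compl`). -/
theorem chain_cyc [T2Space X] [CompactSpace X] {J : End d X}
    (hJc : ∀ x₀, ContinuousOn (inChart J x₀) (chartAt (E d) x₀).target)
    {κ : Type} [Fintype κ] {x : κ → X} {K : κ → Set (E d)}
    (hK : ∀ k, IsCompact (K k)) (hKt : ∀ k, K k ⊆ (chartAt (E d) (x k)).target)
    {n : ℕ} {C : ℕ → Set X} {τ : ℕ → Form d X 2} (hC0 : C 0 = ∅) (hCc : ∀ i ≤ n, IsClosed (C i))
    (hmono : ∀ i < n, C i ⊆ C (i + 1)) (hR : ∀ i < n, ∀ p, p ∉ C i → ∃ r, LocR J (τ i) (C (i + 1)) p r)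
    (hE : ∀ i < n, ∀ p, p ∉ C i → ∃ r, LocE J (C (i + 1)) p r) {j : ℕ} (hj : j ≤ n)
    {ν : κ → Measure (E d × E d)} (hν : Cyc x K J ν) :
    Cyc x K J (fun k => (ν k).restrict (ov (x k) (K k) (C j))) := by
  have hmono' : ∀ a b, a ≤ b → b ≤ n → C a ⊆ C b := by
    intro a b hab
    induction b, hab using Nat.le_induction with
    | base => exact fun _ => Subset.rfl
    | succ b _ ihb => exact fun hb => (ihb (by omega)).trans (hmono b (by omega))
  induction j with
  | zero =>
    refine chain_restr hν _ fun ζ ξ hζ hξ hd => ?_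
    refine Finset.sum_eq_zero fun k _ => ?_
    have h1 : ov (x k) (K k) (C 0) = ∅ := by
      rw [hC0]
      exact eq_empty_of_forall_notMem fun q hq => hq.2
    rw [h1, Measure.restrict_empty, integral_zero_measure]
  | succ j ih =>
    have hj' : j ≤ n := by omega
    have h1 := ih hj'
    have h2 : Cyc x K J (fun k => (ν k).restrict (ov (x k) (K k) (C j))ᶜ) :=
      Cyc.compl hJc hK hKt hν (hCc j hj') h1
    have h3 : CycOn x J (fun k => ((ν k).restrict (ov (x k) (K k) (C j))ᶜ).restrict
        (ov (x k) (K k) (C (j + 1)))) (C j)ᶜ :=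
      restrict_on hJc hK hKt h2 (hCc j hj') (hCc (j + 1) hj) (hR j (by omega))
    have h4 : ∀ m i, i + m = j → CycOn x J (fun k => ((ν k).restrict
        (ov (x k) (K k) (C j))ᶜ).restrict (ov (x k) (K k) (C (j + 1)))) (C i)ᶜ := by
      intro m
      induction m with
      | zero =>
        intro i hi
        rw [add_zero] at hi
        rw [hi]
        exact h3
      | succ m ihm =>
        intro i hi
        have h5 := ihm (i + 1) (by omega)
        refine extend_on hJc hK hKt h2 (hCc i (by omega)) (hCc (i + 1) (by omega))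
          (hCc (j + 1) hj) (fun k => ?_) (hE i (by omega)) h5
        rw [Measure.restrict_apply (chain_meas (hK k) (hKt k) (hCc (i + 1) (by omega)))]
        have h6 : ov (x k) (K k) (C (i + 1)) ∩ (ov (x k) (K k) (C j))ᶜ = ∅ := by
          rw [← sdiff_eq, sdiff_eq_empty]
          exact chain_mono (hmono' (i + 1) j (by omega) hj')
        rw [h6, measure_empty]
    have h5 := h4 j 0 (by omega)
    refine chain_restr hν _ fun ζ ξ hζ hξ hd => ?_
    have h6 := h5 univ ζ ξ isClosed_univ (by rw [hC0, compl_empty]) hζ hξ hd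
      (fun y hy => absurd (mem_univ y) hy)
    have h7 := h1.closed ζ ξ hζ hξ hd
    have h8 : ∀ k, ∫ q in ov (x k) (K k) (C (j + 1)), vl J ξ (x k) q ∂(ν k) =
        ∫ q, vl J ξ (x k) q ∂((ν k).restrict (ov (x k) (K k) (C j))) +
        ∫ q, vl J ξ (x k) q ∂(((ν k).restrict (ov (x k) (K k) (C j))ᶜ).restrict
          (ov (x k) (K k) (C (j + 1)))) := by
      intro k
      have e1 := integral_inter_add_sdiff (μ := ν k) (f := vl J ξ (x k))
        (s := ov (x k) (K k) (C (j + 1))) (t := ov (x k) (K k) (C j))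
        (chain_meas (hK k) (hKt k) (hCc j hj')) (chain_int hJc hK hKt hν hξ k).integrableOn
      rw [inter_eq_self_of_subset_right (chain_mono (hmono j (by omega)))] at e1
      rw [Measure.restrict_restrict (chain_meas (hK k) (hKt k) (hCc (j + 1) hj)), ← sdiff_eq]
      exact e1.symm
    rw [Finset.sum_congr rfl fun k _ => h8 k, Finset.sum_add_distrib, h7, zero_add]
    exact h6

end Pool.Agent.H819.EM
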