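import Mathlib
import Pool.Agent.H819.EM.Cyc
import Pool.Agent.H819.EM.Sep

/-!
# Duality
-/

set_option autoImplicit false

open Set Filter Topology MeasureTheory Metric
open scoped Manifold ContDiff ENNReal NNReal

noncomputable section

namespace Pool.Agent.H819.EM

open Pool.Agent.Y501.SY
open Pool.Agent.H819
open Pool.Agent.H819.LG (LocHolder TamedIn extF)

/-- A positive functional on the continuous functions of a compact space, divided over a finite
clopen partition and transported by a continuous map. -/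
theorem split_measure {T : Type} [TopologicalSpace T] [CompactSpace T] [T2Space T] {κ : Type}
    [Fintype κ] {F : Type} [TopologicalSpace F] [MeasurableSpace F] [BorelSpace F] [T2Space F]
    (a : T → κ) (ha : ∀ k, IsClopen (a ⁻¹' {k})) (b : T → F) (hb : Continuous b)
    (Λ : C(T, ℝ) →L[ℝ] ℝ) (hΛ : ∀ f : C(T, ℝ), (∀ x, 0 ≤ f x) → 0 ≤ Λ f) (hΛ0 : Λ ≠ 0) :
    ∃ ν : κ → Measure F, (∀ k, IsFiniteMeasure (ν k)) ∧
      (∀ k, ∀ᵐ q ∂(ν k), q ∈ b '' (a ⁻¹' {k})) ∧ (∃ k, ν k ≠ 0) ∧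
      ∀ (g : κ → F → ℝ) (f : C(T, ℝ)), (∀ k, ContinuousOn (g k) (b '' (a ⁻¹' {k}))) →
        (∀ t, f t = g (a t) (b t)) → ∑ k, ∫ q, g k q ∂(ν k) = Λ f := by
  classical
  let _ : MeasurableSpace T := borel T
  have _ : BorelSpace T := ⟨rfl⟩
  obtain ⟨μ, hμ, hμΛ⟩ := exists_measure Λ hΛ
  have hbm : Measurable b := hb.measurable
  have hm : ∀ k, MeasurableSet (a ⁻¹' {k}) := fun k => (ha k).isClosed.measurableSet
  have hc : ∀ k, IsCompact (b '' (a ⁻¹' {k})) := fun k => (ha k).isClosed.isCompact.image hb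
  have hcm : ∀ k, MeasurableSet (b '' (a ⁻¹' {k})) := fun k => (hc k).isClosed.measurableSet
  have hsplit : ∀ f : C(T, ℝ), ∫ t, f t ∂μ = ∑ k, ∫ t in a ⁻¹' {k}, f t ∂μ := by
    intro f
    have h1 : (⋃ k, a ⁻¹' {k}) = univ := by
      ext t
      simp
    have hint : Integrable (fun t => f t) μ := by
      have := (f.continuous.continuousOn (s := univ)).integrableOn_compact (μ := μ) isCompact_univ
      rwa [integrableOn_univ] at this
    rw [← integral_iUnion_fintype hm ?_ fun k => hint.integrableOn, h1, setIntegral_univ]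
    intro i j hij
    rw [Function.onFun, Set.disjoint_left]
    intro t h2 h3
    exact hij (h2.symm.trans h3)
  have hae : ∀ k, ∀ᵐ q ∂((μ.restrict (a ⁻¹' {k})).map b), q ∈ b '' (a ⁻¹' {k}) := by
    intro k
    refine (ae_map_iff (p := fun q => q ∈ b '' (a ⁻¹' {k})) hbm.aemeasurable (hcm k)).2 ?_
    filter_upwards [ae_restrict_mem (hm k)] with t ht
    exact ⟨t, ht, rfl⟩
  refine ⟨fun k => (μ.restrict (a ⁻¹' {k})).map b, fun k => inferInstance, hae, ?_, ?_⟩
  · by_contra hcon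
    push Not at hcon
    apply hΛ0
    ext f
    rw [← hμΛ f, hsplit f]
    refine Finset.sum_eq_zero fun k _ => ?_
    have h1 := (Measure.map_eq_zero_iff hbm.aemeasurable).1 (hcon k)
    rw [h1, integral_zero_measure]
  · intro g f hg hf
    rw [← hμΛ f, hsplit f]
    refine Finset.sum_congr rfl fun k _ => ?_
    rw [integral_map hbm.aemeasurable]
    · refine setIntegral_congr_fun (hm k) fun t ht => ?_
      have h2 : a t = k := ht
      change g k (b t) = f t
      rw [hf t, h2]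
    · rw [← Measure.restrict_eq_self_of_ae_mem (hae k)]
      exact (hg k).aestronglyMeasurable (hcm k)

variable {d : ℕ} {X : Type} [TopologicalSpace X] [ChartedSpace (E d) X] [IsManifold (𝓡 d) ∞ X]

omit [IsManifold (𝓡 d) ∞ X] in
/-- the exterior derivative of a smooth form is closed -/
theorem closed_of_isD {k : ℕ} {ζ : Form d X k} {ξ : Form d X (k + 1)} (hζ : IsSmooth ζ)
    (h : IsD ζ ξ) : IsClosedForm ξ := by
  intro U φ hU hφ p hp
  have h1 : pb φ ξ =ᶠ[𝓝 p] extDeriv (pb φ ζ) := by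
    filter_upwards [hU.mem_nhds hp] with q hq
    exact (h U φ hU hφ q hq).symm
  rw [h1.extDeriv_eq, extDeriv_extDeriv_apply (r := ∞)
    ((hζ U φ hU hφ).contDiffAt (hU.mem_nhds hp)) LG.smooth2, pb_zero]
  rfl

omit [IsManifold (𝓡 d) ∞ X] in
theorem vl_add (J : End d X) (σ τ : Form d X 2) (x : X) (q : E d × E d) :
    vl J (σ + τ) x q = vl J σ x q + vl J τ x q := by
  unfold vl
  rw [pb_add]
  rfl

omit [IsManifold (𝓡 d) ∞ X] in
theorem vl_smul (J : End d X) (c : ℝ) (σ : Form d X 2) (x : X) (q : E d × E d) :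
    vl J (c • σ) x q = c * vl J σ x q := by
  unfold vl
  rw [pb_smul]
  rfl

theorem continuousOn_vl {J : End d X}
    (hJc : ∀ x₀, ContinuousOn (inChart J x₀) (chartAt (E d) x₀).target) {σ : Form d X 2}
    (hσ : IsSmooth σ) (x : X) {K : Set (E d)} (hK : K ⊆ (chartAt (E d) x).target) :
    ContinuousOn (vl J σ x) (K ×ˢ sphere (0 : E d) 1) := by
  have hsc : ContinuousOn (pb (chartAt (E d) x).symm σ) K :=
    (LG.smooth_chart hσ x).continuousOn.mono hK
  have hAc : ContinuousOn (inChart J x) K := (hJc x).mono hK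
  have h1 : ContinuousOn (fun q : E d × E d => pb (chartAt (E d) x).symm σ q.1)
      (K ×ˢ sphere (0 : E d) 1) :=
    hsc.comp continuousOn_fst fun q hq => hq.1
  have h2 : ContinuousOn (fun q : E d × E d => inChart J x q.1 q.2) (K ×ˢ sphere (0 : E d) 1) :=
    (hAc.comp continuousOn_fst fun q hq => hq.1).clm_apply continuousOn_snd
  have h3 : ContinuousOn (fun q : E d × E d => (![q.2, inChart J x q.1 q.2] : Fin 2 → E d))
      (K ×ˢ sphere (0 : E d) 1) := by
    refine continuousOn_pi.2 fun i => ?_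
    fin_cases i
    · exact continuousOn_snd
    · exact h2
  exact LG.continuous_ev2.comp_continuousOn (h1.prodMk h3)

/-- **Duality** (Sullivan).  If the class of `σ₀` contains no symplectic form taming `J`, then there
is a nonzero closed structure measure which is not positive on `σ₀`.

Proof.  Let `S = Σ k : κ, (K k ×ˢ sphere 0 1 : Set (E d × E d))`, a compact Hausdorff space (see the
proof of `glob2` in `LN/Glob.lean`).  For a smooth two-form `σ` the function
`f_σ ⟨k, q⟩ = vl J σ (x k) q` is continuous on `S` (`smooth_chart`, `hJc`, `LG.continuous_ev2`).  The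
functions `f_ξ`, where `ξ = dζ`, `ζ, ξ` smooth (`IsD ζ ξ`), form a linear subspace of `C(S, ℝ)`
(linearity of `pb`, sums and multiples of smooth pairs with `IsD`).  If `f_σ₀ + f_ξ > 0` on `S` for
one of them, then `σ₀ + ξ` tames `J`: as at the end of the proof of `glob2` (`tames_iff`,
`pos_iff`, `Q_smul` of `Pool.Agent.Y455.SY`), using `hcov`; and `σ₀ + ξ` is smooth and closed (`IsD ζ ξ`
implies that `ξ` is closed: see `LG/Fin.lean`, `tamedIn_of`, `InClass`), so `TamedIn σ₀ J`, a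
contradiction.  So `sep` of `EM/Sep.lean` gives a positive functional
`Λ ≠ 0` on `C(S, ℝ)` which vanishes on the subspace with `Λ f_σ₀ ≤ 0`, and `exists_measure` (same file;
with the Borel σ-algebra on `S`: `letI := borel S`) a finite measure `μ` on `S` which represents it.
Put `ν k = (μ.restrict {s | s.1 = k}).map (fun s => (s.2 : E d × E d))` (the map is continuous, hence
measurable; `{s | s.1 = k}` is clopen).  Then `∑ k, ∫ g k dν k = ∫ g s.1 s.2 dμ` for
`g k` continuous on `K k ×ˢ sphere 0 1` (`integral_map`; all measures `ν k` are carried by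
`K k ×ˢ sphere 0 1`; the function `vl J σ (x k)` need not be continuous outside, so use
`AEStronglyMeasurable` on the restriction). Some `ν k` is not zero because `Λ ≠ 0`. -/
theorem duality [T2Space X] [CompactSpace X] {J : End d X}
    (hJ2 : ∀ (x : X) (v : TangentSpace (𝓡 d) x), J x (J x v) = -v)
    (hJc : ∀ x₀, ContinuousOn (inChart J x₀) (chartAt (E d) x₀).target)
    {σ₀ : Form d X 2} (hσ : IsSmooth σ₀) (hcl : IsClosedForm σ₀) {κ : Type} [Fintype κ]
    (x : κ → X) (K : κ → Set (E d)) (hK : ∀ k, IsCompact (K k))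
    (hKt : ∀ k, K k ⊆ (chartAt (E d) (x k)).target)
    (hcov : ∀ p : X, ∃ k, ∃ z ∈ K k, (chartAt (E d) (x k)).symm z = p)
    (h : ¬ TamedIn σ₀ J) :
    ∃ ν : κ → Measure (E d × E d), Cyc x K J ν ∧ (∃ k, ν k ≠ 0) ∧
      ∑ k, ∫ q, vl J σ₀ (x k) q ∂(ν k) ≤ 0 := by
  classical
  have hScomp : ∀ i, CompactSpace (K i ×ˢ sphere (0 : E d) 1 : Set (E d × E d)) := fun i =>
    isCompact_iff_compactSpace.1 ((hK i).prod (isCompact_sphere 0 1))
  set S := Σ i : κ, (K i ×ˢ sphere (0 : E d) 1 : Set (E d × E d)) with hS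
  have hcont : ∀ σ : Form d X 2, IsSmooth σ →
      Continuous (fun s : S => vl J σ (x s.1) (s.2 : E d × E d)) := by
    intro σ hσ
    refine continuous_sigma fun i => ?_
    exact (continuousOn_iff_continuous_domRestrict.1 (continuousOn_vl hJc hσ (x i) (hKt i)))
  let W : Submodule ℝ C(S, ℝ) :=
    { carrier := {g | ∃ (ζ : Form d X 1) (ξ : Form d X 2), IsSmooth ζ ∧ IsSmooth ξ ∧ IsD ζ ξ ∧
        ∀ s : S, g s = vl J ξ (x s.1) (s.2 : E d × E d)}
      add_mem' := by
        rintro g₁ g₂ ⟨ζ₁, ξ₁, h1, h2, h3, h4⟩ ⟨ζ₂, ξ₂, k1, k2, k3, k4⟩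
        refine ⟨ζ₁ + ζ₂, ξ₁ + ξ₂, h1.add k1, h2.add k2, h3.add k3 h1 k1, fun s => ?_⟩
        rw [ContinuousMap.add_apply, h4, k4, vl_add]
      zero_mem' := by
        refine ⟨0, 0, IsSmooth.zero, IsSmooth.zero, IsD.zero, fun s => ?_⟩
        have h0 := vl_smul J 0 (0 : Form d X 2) (x s.1) (s.2 : E d × E d)
        rw [smul_zero, zero_mul] at h0
        rw [h0]
        rfl
      smul_mem' := by
        rintro c g ⟨ζ, ξ, h1, h2, h3, h4⟩
        refine ⟨c • ζ, c • ξ, h1.smul c, h2.smul c, h3.smul c, fun s => ?_⟩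
        rw [ContinuousMap.smul_apply, h4, vl_smul, smul_eq_mul] }
  let z : C(S, ℝ) := ⟨_, hcont σ₀ hσ⟩
  have hneg : ∀ f ∈ W, ¬ ∀ s, 0 < z s + f s := by
    rintro f ⟨ζ, ξ, h1, h2, h3, h4⟩ hpos
    refine h (LG.tamedIn_of ⟨σ₀ + ξ, ⟨hσ.add h2, ?_, ζ, h1, ?_⟩, fun p => ?_⟩)
    · have h5 := IsD.add hcl (closed_of_isD h1 h3) hσ h2
      rwa [add_zero] at h5
    · rwa [add_sub_cancel_left]
    · obtain ⟨i, y, hy, rfl⟩ := hcov p
      rw [Pool.Agent.Y455.SY.tames_iff (σ₀ + ξ) J (x i) (hKt i hy)]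
      rw [Pool.Agent.Y455.SY.pos_iff _ fun s v =>
        Pool.Agent.Y455.SY.Q_smul (σ₀ + ξ) J (x i) y v s]
      intro v hv
      have h5 := hpos ⟨i, ⟨(y, v), ⟨hy, hv⟩⟩⟩
      rw [h4] at h5
      have h6 : vl J σ₀ (x i) (y, v) + vl J ξ (x i) (y, v) = vl J (σ₀ + ξ) (x i) (y, v) :=
        (vl_add J σ₀ ξ (x i) (y, v)).symm
      have h7 : 0 < vl J σ₀ (x i) (y, v) + vl J ξ (x i) (y, v) := h5
      rw [h6] at h7
      exact h7
  obtain ⟨Λ, hΛ, hΛ0, hΛW, hΛz⟩ := sep W z hneg
  have hclopen : ∀ k : κ, IsClopen ((fun s : S => s.1) ⁻¹' {k}) := fun k =>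
    ⟨isClosed_sigma_iff.2 fun i => isClosed_const (p := i = k),
      isOpen_sigma_iff.2 fun i => isOpen_const (p := i = k)⟩
  have hb : Continuous (fun s : S => (s.2 : E d × E d)) :=
    continuous_sigma fun i => continuous_subtype_val
  have himg : ∀ k : κ, (fun s : S => (s.2 : E d × E d)) '' ((fun s : S => s.1) ⁻¹' {k}) ⊆
      K k ×ˢ sphere (0 : E d) 1 := by
    rintro k _ ⟨⟨i, q⟩, hs, rfl⟩
    have hs' : i = k := hs
    subst hs'
    exact q.2
  obtain ⟨ν, hν1, hν2, hν3, hν4⟩ := split_measure (fun s : S => s.1) hclopen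
    (fun s : S => (s.2 : E d × E d)) hb Λ hΛ hΛ0
  refine ⟨ν, ⟨hν1, fun k => ?_, fun ζ ξ h1 h2 h3 => ?_⟩, hν3, ?_⟩
  · filter_upwards [hν2 k] with q hq
    have hq' := himg k hq
    refine ⟨hq'.1, ?_⟩
    have := hq'.2
    rwa [mem_sphere_zero_iff_norm] at this
  · rw [hν4 (fun k => vl J ξ (x k)) ⟨_, hcont ξ h2⟩
      (fun k => (continuousOn_vl hJc h2 (x k) (hKt k)).mono (himg k)) fun s => rfl]
    exact hΛW _ ⟨ζ, ξ, h1, h2, h3, fun s => rfl⟩
  · rw [hν4 (fun k => vl J σ₀ (x k)) z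
      (fun k => (continuousOn_vl hJc hσ (x k) (hKt k)).mono (himg k)) fun s => rfl]
    exact hΛz

end Pool.Agent.H819.EM
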