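import Mathlib
import Pool.Agent.H819.EM.Cyc
import Pool.Agent.H819.LG.Glob

/-!
# Lower bounds for the values of a class on closed structure measures
-/

set_option autoImplicit false
set_option linter.unusedSectionVars false

open Set Filter Topology MeasureTheory Metric
open scoped Manifold ContDiff ENNReal NNReal

noncomputable section

namespace Pool.Agent.H819.EM

open Pool.Agent.Y501.SY
open Pool.Agent.H819
open Pool.Agent.H819.LG (LocHolder TamedIn extF InClass)

variable {d : ℕ} {X : Type} [TopologicalSpace X] [ChartedSpace (E d) X] [IsManifold (𝓡 d) ∞ X]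

theorem ov_eq (x : X) (K : Set (E d)) (Y : Set X) :
    ov x K Y = Prod.fst ⁻¹' (K ∩ (chartAt (E d) x).symm ⁻¹' Y) := rfl

theorem ov_mono (x : X) (K : Set (E d)) {Y Y' : Set X} (h : Y ⊆ Y') : ov x K Y ⊆ ov x K Y' :=
  fun _ hq => ⟨hq.1, h hq.2⟩

theorem meas_ov_open {x : X} {K : Set (E d)} (hK : IsCompact K)
    (hKt : K ⊆ (chartAt (E d) x).target) {O : Set X} (hO : IsOpen O) :
    MeasurableSet (ov x K O) := by
  have h1 : K ∩ (chartAt (E d) x).symm ⁻¹' O =
      K ∩ ((chartAt (E d) x).target ∩ (chartAt (E d) x).symm ⁻¹' O) := by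
    ext z
    exact ⟨fun h => ⟨h.1, hKt h.1, h.2⟩, fun h => ⟨h.1, h.2.2⟩⟩
  rw [ov_eq, h1]
  exact measurable_fst (hK.measurableSet.inter
    ((chartAt (E d) x).isOpen_inter_preimage_symm hO).measurableSet)

/-- the function `vl` is continuous on compact sets -/
theorem cont_vl {J : End d X}
    (hJc : ∀ x₀, ContinuousOn (inChart J x₀) (chartAt (E d) x₀).target)
    {x : X} {K : Set (E d)} (hKt : K ⊆ (chartAt (E d) x).target) {σ : Form d X 2}
    (hσ : IsSmooth σ) (S : Set (E d)) : ContinuousOn (vl J σ x) (K ×ˢ S) := by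
  have hfst : MapsTo Prod.fst (K ×ˢ S) (chartAt (E d) x).target := fun q hq => hKt hq.1
  have h1 : ContinuousOn (fun q : E d × E d => pb (chartAt (E d) x).symm σ q.1) (K ×ˢ S) :=
    (LG.smooth_chart hσ x).continuousOn.comp continuousOn_fst hfst
  have h2 : ContinuousOn (fun q : E d × E d => inChart J x q.1) (K ×ˢ S) :=
    (hJc x).comp continuousOn_fst hfst
  have h3 : ContinuousOn (fun q : E d × E d => inChart J x q.1 q.2) (K ×ˢ S) :=
    h2.clm_apply continuousOn_snd
  have h4 : ContinuousOn (fun q : E d × E d => (![q.2, inChart J x q.1 q.2] : Fin 2 → E d))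
      (K ×ˢ S) := by
    rw [continuousOn_pi]
    intro i
    fin_cases i
    · exact continuousOn_snd
    · exact h3
  exact LG.continuous_ev2.comp_continuousOn (h1.prodMk h4)

theorem int_vl {J : End d X}
    (hJc : ∀ x₀, ContinuousOn (inChart J x₀) (chartAt (E d) x₀).target)
    {x : X} {K : Set (E d)} (hK : IsCompact K) (hKt : K ⊆ (chartAt (E d) x).target)
    {σ : Form d X 2} (hσ : IsSmooth σ) {μ : Measure (E d × E d)} [IsFiniteMeasure μ]
    (hμ : ∀ᵐ q ∂μ, q.1 ∈ K ∧ ‖q.2‖ = 1) : Integrable (vl J σ x) μ := by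
  have h1 : IsCompact (K ×ˢ sphere (0 : E d) 1) := hK.prod (isCompact_sphere 0 1)
  have h2 : IntegrableOn (vl J σ x) (K ×ˢ sphere (0 : E d) 1) μ :=
    (cont_vl hJc hKt hσ _).integrableOn_compact h1
  have h3 : μ.restrict (K ×ˢ sphere (0 : E d) 1) = μ := by
    refine Measure.restrict_eq_self_of_ae_mem ?_
    filter_upwards [hμ] with q hq
    exact ⟨hq.1, by rw [mem_sphere_zero_iff_norm]; exact hq.2⟩
  rw [IntegrableOn, h3] at h2
  exact h2

/-- small neighbourhoods of the closed set -/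
theorem exists_nhd [T2Space X] [CompactSpace X] {κ : Type} [Fintype κ] {x : κ → X}
    {K : κ → Set (E d)} (hK : ∀ k, IsCompact (K k))
    (hKt : ∀ k, K k ⊆ (chartAt (E d) (x k)).target) {ν : κ → Measure (E d × E d)}
    (hν : ∀ k, IsFiniteMeasure (ν k)) {Z : Set X} (hZ : IsClosed Z)
    (hZ0 : ∀ k, ν k (ov (x k) (K k) Z) = 0) {ε : ℝ} (hε : 0 < ε) :
    ∃ O : Set X, IsOpen O ∧ Z ⊆ O ∧ ∀ k, (ν k).real (ov (x k) (K k) O) ≤ ε := by
  have i1 : SecondCountableTopology X := ChartedSpace.secondCountable_of_sigmaCompact (E d) X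
  have i2 : TopologicalSpace.MetrizableSpace X :=
    TopologicalSpace.metrizableSpace_of_t3_secondCountable X
  let _ := TopologicalSpace.metrizableSpaceMetric X
  set O : ℕ → Set X := fun n => thickening (1 / ((n : ℝ) + 1)) Z with hO
  have hpos : ∀ n : ℕ, (0 : ℝ) < 1 / ((n : ℝ) + 1) := fun n => by positivity
  have hOo : ∀ n, IsOpen (O n) := fun n => isOpen_thickening
  have hZO : ∀ n, Z ⊆ O n := fun n => self_subset_thickening (hpos n) Z
  have hanti : Antitone O := fun n m hnm =>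
    thickening_mono (one_div_le_one_div_of_le (by positivity) (by
      have : (n : ℝ) ≤ m := by exact_mod_cast hnm
      linarith)) Z
  have hint : ∀ y, (∀ n, y ∈ O n) → y ∈ Z := by
    intro y hy
    rw [← hZ.closure_eq, closure_eq_iInter_thickening, mem_iInter₂]
    intro δ hδ
    obtain ⟨n, hn⟩ := exists_nat_one_div_lt hδ
    exact thickening_mono hn.le Z (hy n)
  have hlim : ∀ k, ∀ᶠ n in atTop, (ν k).real (ov (x k) (K k) (O n)) ≤ ε := by
    intro k
    have hk := hν k
    have h1 : Tendsto ((ν k) ∘ fun n => ov (x k) (K k) (O n)) atTop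
        (𝓝 (ν k (⋂ n, ov (x k) (K k) (O n)))) :=
      tendsto_measure_iInter_atTop
        (fun n => (meas_ov_open (hK k) (hKt k) (hOo n)).nullMeasurableSet)
        (fun n m hnm => ov_mono _ _ (hanti hnm)) ⟨0, measure_ne_top _ _⟩
    have h2 : (⋂ n, ov (x k) (K k) (O n)) = ov (x k) (K k) Z := by
      ext q
      rw [mem_iInter]
      constructor
      · intro h
        exact ⟨(h 0).1, hint _ fun n => (h n).2⟩
      · intro h n
        exact ⟨h.1, hZO n h.2⟩
    rw [h2, hZ0 k] at h1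
    have h3 := h1.eventually (gt_mem_nhds (ENNReal.ofReal_pos.2 hε))
    filter_upwards [h3] with n hn
    have h4 : (ν k) (ov (x k) (K k) (O n)) ≤ ENNReal.ofReal ε := le_of_lt hn
    exact ENNReal.toReal_le_of_le_ofReal hε.le h4
  obtain ⟨n, hn⟩ := (eventually_all.2 hlim).exists
  exact ⟨O n, hOo n, hZO n, hn⟩

/-- **The value of the class on structure measures which do not charge `Z`.**

Proof.  Put `m k (Y) = ν k (ov (x k) (K k) Y)`.  Let `ε > 0`.  There is an open set `O ⊇ Z` with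
`ν k (ov (x k) (K k) O) ≤ ε` for all `k`: `X` is compact, Hausdorff and second countable
(`ChartedSpace.secondCountable_of_sigmaCompact (E d) X`), hence metrizable
(`letI := TopologicalSpace.metrizableSpaceMetric X`); let `O_n = thickening (1 / (n + 1)) Z`; the sets
`ov (x k) (K k) O_n` are measurable (`symm ⁻¹' O_n` is relatively open in the target), decreasing, with
intersection `ov (x k) (K k) Z` (`Z` closed), so their measures tend to `0`
(`tendsto_measure_iInter_atTop`).  Take `σ` as in `h` for `O`.  `σ - σ₀ = dβ` with `β` smooth, so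
`∑ k, ∫ vl J (σ - σ₀) dν k = 0` (`hν.closed`) and
`∑ ∫ vl J σ₀ = ∑ ∫ vl J σ ≥ ∑ (c ν k (univ) - (c + B) ν k (ov (x k) (K k) O)) ≥ c ∑ ν k (univ) - (c + B) card κ ε`
(for `ν k`-almost all `q`: `q.1 ∈ K k`, `‖q.2‖ = 1`, so
`vl J σ (x k) q ≥ c - (c + B) 1_{q ∈ ov (x k) (K k) O}`).  Let `ε → 0`.  The functions
`vl J σ (x k)` are integrable: continuous on the compact set `K k ×ˢ sphere 0 1` (`LG.smooth_chart`,
`hJc`, `LG.continuous_ev2`), which carries the finite measure `ν k`; `vl` is additive in the form. -/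
theorem mass_le [T2Space X] [CompactSpace X] {J : End d X}
    (hJc : ∀ x₀, ContinuousOn (inChart J x₀) (chartAt (E d) x₀).target)
    {κ : Type} [Fintype κ] {x : κ → X} {K : κ → Set (E d)}
    (hK : ∀ k, IsCompact (K k)) (hKt : ∀ k, K k ⊆ (chartAt (E d) (x k)).target)
    {ν : κ → Measure (E d × E d)} (hν : Cyc x K J ν) {σ₀ : Form d X 2} (hσ : IsSmooth σ₀)
    {Z : Set X} (hZ : IsClosed Z) (hZ0 : ∀ k, ν k (ov (x k) (K k) Z) = 0) {c B : ℝ}
    (hc : 0 < c) (hB : 0 ≤ B)
    (h : ∀ O : Set X, IsOpen O → Z ⊆ O → ∃ σ : Form d X 2, InClass σ₀ σ ∧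
      ∀ k, ∀ z ∈ K k, ∀ u : E d, ‖u‖ = 1 →
        ((chartAt (E d) (x k)).symm z ∉ O → c ≤ vl J σ (x k) (z, u)) ∧ -B ≤ vl J σ (x k) (z, u)) :
    c * ∑ k, (ν k).real univ ≤ ∑ k, ∫ q, vl J σ₀ (x k) q ∂(ν k) := by
  classical
  have hfin : ∀ k, IsFiniteMeasure (ν k) := hν.fin
  have hcB : 0 ≤ c + B := by linarith
  have key : ∀ ε : ℝ, 0 < ε → c * ∑ k, (ν k).real univ ≤
      ∑ k, ∫ q, vl J σ₀ (x k) q ∂(ν k) + (c + B) * (Fintype.card κ * ε) := by
    intro ε hε
    obtain ⟨O, hO, hZO, hOε⟩ := exists_nhd hK hKt hfin hZ hZ0 hε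
    obtain ⟨σ, ⟨hσs, hσc, β, hβ, hdβ⟩, hσ2⟩ := h O hO hZO
    have hi0 : ∀ k, Integrable (vl J σ₀ (x k)) (ν k) := fun k =>
      int_vl hJc (hK k) (hKt k) hσ (hν.supp k)
    have hi1 : ∀ k, Integrable (vl J σ (x k)) (ν k) := fun k =>
      int_vl hJc (hK k) (hKt k) hσs (hν.supp k)
    have hsm : IsSmooth (σ - σ₀) := by
      intro U φ hU hφ
      exact (hσs U φ hU hφ).sub (hσ U φ hU hφ)
    have h0 := hν.closed β (σ - σ₀) hβ hsm hdβ
    have hsub : ∀ k, ∫ q, vl J (σ - σ₀) (x k) q ∂(ν k) =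
        ∫ q, vl J σ (x k) q ∂(ν k) - ∫ q, vl J σ₀ (x k) q ∂(ν k) := by
      intro k
      rw [← integral_sub (hi1 k) (hi0 k)]
      rfl
    simp only [hsub, Finset.sum_sub_distrib] at h0
    have hlow : ∀ k, c * (ν k).real univ - (c + B) * ε ≤ ∫ q, vl J σ (x k) q ∂(ν k) := by
      intro k
      have hm := meas_ov_open (hK k) (hKt k) hO
      have hint2 : Integrable ((ov (x k) (K k) O).indicator fun _ => c + B) (ν k) :=
        (integrable_const _).indicator hm
      have h1 : ∫ q, (c - (ov (x k) (K k) O).indicator (fun _ => c + B) q) ∂(ν k) ≤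
          ∫ q, vl J σ (x k) q ∂(ν k) := by
        refine integral_mono_ae ((integrable_const c).sub hint2) (hi1 k) ?_
        filter_upwards [hν.supp k] with q hq
        obtain ⟨h2, h3⟩ := hσ2 k q.1 hq.1 q.2 hq.2
        by_cases hqO : q ∈ ov (x k) (K k) O
        · rw [indicator_of_mem hqO]
          linarith
        · rw [indicator_of_notMem hqO, sub_zero]
          exact h2 fun h4 => hqO ⟨hq.1, h4⟩
      rw [integral_sub (integrable_const c) hint2, integral_const, integral_indicator hm,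
        setIntegral_const, smul_eq_mul, smul_eq_mul] at h1
      have h4 := mul_le_mul_of_nonneg_right (hOε k) hcB
      linarith
    have hsum : ∑ k, (c * (ν k).real univ - (c + B) * ε) ≤
        ∑ k, ∫ q, vl J σ (x k) q ∂(ν k) := Finset.sum_le_sum fun k _ => hlow k
    rw [Finset.sum_sub_distrib, ← Finset.mul_sum, Finset.sum_const, Finset.card_univ,
      nsmul_eq_mul] at hsum
    have e : (Fintype.card κ : ℝ) * ((c + B) * ε) = (c + B) * (Fintype.card κ * ε) := by ring
    rw [e] at hsum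
    linarith
  refine le_of_forall_pos_le_add fun η hη => ?_
  have hM : 0 ≤ (c + B) * Fintype.card κ := by positivity
  have h1 := key (η / ((c + B) * Fintype.card κ + 1)) (by positivity)
  have h2 : (c + B) * (Fintype.card κ * (η / ((c + B) * Fintype.card κ + 1))) ≤ η := by
    have e : (c + B) * (Fintype.card κ * (η / ((c + B) * Fintype.card κ + 1))) =
        (c + B) * Fintype.card κ / ((c + B) * Fintype.card κ + 1) * η := by ring
    rw [e]
    have h3 : (c + B) * Fintype.card κ / ((c + B) * Fintype.card κ + 1) ≤ 1 := by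
      rw [div_le_one (by positivity)]
      linarith
    calc _ ≤ 1 * η := mul_le_mul_of_nonneg_right h3 hη.le
      _ = η := one_mul η
  linarith

end Pool.Agent.H819.EM
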