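import Mathlib
import Pool.Agent.H819.EM.Cyc
import Pool.Agent.H819.HN.Asm

/-!
# Closed structure measures do not charge closed sets of zero two-dimensional measure
-/

set_option autoImplicit false

open Set Filter Topology MeasureTheory Metric
open scoped Manifold ContDiff ENNReal NNReal

noncomputable section

namespace Pool.Agent.H819.EM

open Pool.Agent.Y501.SY
open Pool.Agent.H819
open Pool.Agent.H819.LG (LocHolder TamedIn extF)

variable {d : ℕ} {X : Type} [TopologicalSpace X] [ChartedSpace (E d) X] [IsManifold (𝓡 d) ∞ X]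

/-- continuity of the values on compact pieces -/
theorem vl_contOn {J : End d X} (hJc : ∀ x₀, ContinuousOn (inChart J x₀) (chartAt (E d) x₀).target)
    {η : Form d X 2} (hη : IsSmooth η) (x : X) {K : Set (E d)}
    (hKt : K ⊆ (chartAt (E d) x).target) (S : Set (E d)) :
    ContinuousOn (vl J η x) (K ×ˢ S) := by
  have hm : MapsTo (fun q : E d × E d => q.1) (K ×ˢ S) (chartAt (E d) x).target :=
    fun q hq => hKt hq.1
  have h1 : ContinuousOn (fun q : E d × E d => pb (chartAt (E d) x).symm η q.1) (K ×ˢ S) :=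
    (LG.smooth_chart hη x).continuousOn.comp continuousOn_fst hm
  have h2 : ContinuousOn (fun q : E d × E d => inChart J x q.1 q.2) (K ×ˢ S) :=
    ((hJc x).comp continuousOn_fst hm).clm_apply continuousOn_snd
  have h3 : ContinuousOn (fun q : E d × E d => (![q.2, inChart J x q.1 q.2] : Fin 2 → E d))
      (K ×ˢ S) := by
    refine continuousOn_pi.2 fun i => ?_
    fin_cases i
    · exact continuousOn_snd
    · exact h2
  exact LG.continuous_ev2.comp_continuousOn (h1.prodMk h3)

omit [IsManifold (𝓡 d) ∞ X] in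
/-- the part over a closed set is closed -/
theorem ov_isClosed {x : X} {K : Set (E d)} (hK : IsCompact K)
    (hKt : K ⊆ (chartAt (E d) x).target) {Y : Set X} (hY : IsClosed Y) :
    IsClosed (ov x K Y) := by
  have h1 : IsClosed (K ∩ (chartAt (E d) x).symm ⁻¹' Y) :=
    ((chartAt (E d) x).continuousOn_symm.mono hKt).preimage_isClosed_of_isClosed hK.isClosed hY
  exact h1.preimage continuous_fst

/-- **Closed structure measures do not charge null sets.**

Proof.  Let `ε > 0`.  `HN.exists_strong_near'` (`HN/Asm.lean`), with `γ = κ`, `N = K`, `K = 1`, gives an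
exact smooth form `η = dζ` and an open set `O ⊇ Y` such that for `z ∈ K k`, `‖u‖ = 1`:
`vl J η (x k) (z, u) ≥ - ε`, and `≥ 1` if `symm z ∈ O`.  So `vl J η (x k) q ≥ (1 + ε) 1_{q ∈ ov (x k) (K k) Y} - ε`
for `ν k`-almost all `q` (`hν.supp`), and integration gives (`hν.closed ζ η`)
`0 = ∑ k, ∫ vl J η (x k) dν k ≥ (1 + ε) ∑ k, (ν k).real (ov (x k) (K k) Y) - ε ∑ k, (ν k).real univ`.
Let `ε → 0`.  The function `vl J η (x k)` is integrable: it is continuous on the compact set
`K k ×ˢ sphere 0 1` (`LG.smooth_chart`, `hJc`, `LG.continuous_ev2`), which carries the finite measure `ν k`.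
The set `ov (x k) (K k) Y` is closed (`K k` is compact and `(chartAt (x k)).symm` is continuous on it), hence
measurable. -/
theorem null_over [T2Space X] [CompactSpace X] (hnear : HN.S_Near d) {J : End d X}
    (hJ2 : ∀ (x : X) (v : TangentSpace (𝓡 d) x), J x (J x v) = -v)
    (hJc : ∀ x₀, ContinuousOn (inChart J x₀) (chartAt (E d) x₀).target)
    (hJL : LocHolder J 1) {κ : Type} [Fintype κ] {x : κ → X} {K : κ → Set (E d)}
    (hK : ∀ k, IsCompact (K k)) (hKt : ∀ k, K k ⊆ (chartAt (E d) (x k)).target)
    {ν : κ → Measure (E d × E d)} (hν : Cyc x K J ν) {Y : Set X} (hY : IsClosed Y)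
    (h0 : ∀ x₀ : X, μH[2] (chartAt (E d) x₀ '' (Y ∩ (chartAt (E d) x₀).source)) = 0) (k : κ) :
    ν k (ov (x k) (K k) Y) = 0 := by
  classical
  have hfin := hν.fin
  obtain ⟨T, hT⟩ : ∃ T : ℝ, T = ∑ k, (ν k).real univ := ⟨_, rfl⟩
  have hT0 : 0 ≤ T := by
    rw [hT]
    exact Finset.sum_nonneg fun k _ => measureReal_nonneg
  have key : ∀ ε : ℝ, 0 < ε → (ν k).real (ov (x k) (K k) Y) ≤ ε * T := by
    intro ε hε
    obtain ⟨ζ, η, O, hζ, hη, hd, hO, hYO, hnr⟩ := HN.exists_strong_near' hnear hJ2 hJc hJL hY h0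
      x K hK hKt 1 hε
    have hcl := hν.closed ζ η hζ hη hd
    have hint : ∀ k, Integrable (vl J η (x k)) (ν k) := by
      intro k
      have h1 : IntegrableOn (vl J η (x k)) (K k ×ˢ sphere (0 : E d) 1) (ν k) :=
        (vl_contOn hJc hη (x k) (hKt k) _).integrableOn_compact ((hK k).prod (isCompact_sphere _ _))
      have h2 : (ν k).restrict (K k ×ˢ sphere (0 : E d) 1) = ν k := by
        refine Measure.restrict_eq_self_of_ae_mem ?_
        filter_upwards [hν.supp k] with q hq
        exact ⟨hq.1, by rw [mem_sphere_zero_iff_norm]; exact hq.2⟩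
      rw [IntegrableOn, h2] at h1
      exact h1
    have hlow : ∀ k, (1 + ε) * (ν k).real (ov (x k) (K k) Y) - ε * (ν k).real univ ≤
        ∫ q, vl J η (x k) q ∂(ν k) := by
      intro k
      have hms : MeasurableSet (ov (x k) (K k) Y) := (ov_isClosed (hK k) (hKt k) hY).measurableSet
      have e1 : ∫ q, ((ov (x k) (K k) Y).indicator (fun _ => (1 + ε : ℝ)) q - ε) ∂(ν k) =
          (1 + ε) * (ν k).real (ov (x k) (K k) Y) - ε * (ν k).real univ := by
        rw [integral_sub ((integrable_const _).indicator hms) (integrable_const _),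
          integral_indicator_const _ hms, integral_const, smul_eq_mul, smul_eq_mul]
        ring
      rw [← e1]
      refine integral_mono_ae (((integrable_const _).indicator hms).sub (integrable_const _))
        (hint k) ?_
      filter_upwards [hν.supp k] with q hq
      obtain ⟨n1, -, n3⟩ := hnr k q.1 hq.1
      have m1 := n1 q.2
      rw [hq.2] at m1
      by_cases hqY : q ∈ ov (x k) (K k) Y
      · rw [indicator_of_mem hqY]
        have m3 := n3 (hYO hqY.2) q.2
        rw [hq.2] at m3
        show 1 + ε - ε ≤ pb (chartAt (E d) (x k)).symm η q.1 ![q.2, inChart J (x k) q.1 q.2]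
        linarith
      · rw [indicator_of_notMem hqY]
        show 0 - ε ≤ pb (chartAt (E d) (x k)).symm η q.1 ![q.2, inChart J (x k) q.1 q.2]
        linarith
    have hsum : ∑ k, ((1 + ε) * (ν k).real (ov (x k) (K k) Y) - ε * (ν k).real univ) ≤ 0 := by
      rw [← hcl]
      exact Finset.sum_le_sum fun k _ => hlow k
    rw [Finset.sum_sub_distrib, ← Finset.mul_sum, ← Finset.mul_sum, ← hT] at hsum
    have h1 : (ν k).real (ov (x k) (K k) Y) ≤ ∑ k, (ν k).real (ov (x k) (K k) Y) :=
      Finset.single_le_sum (f := fun k => (ν k).real (ov (x k) (K k) Y))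
        (fun k _ => measureReal_nonneg) (Finset.mem_univ k)
    have h2 : 0 ≤ ∑ k, (ν k).real (ov (x k) (K k) Y) :=
      Finset.sum_nonneg fun k _ => measureReal_nonneg
    nlinarith
  have h1 : (ν k).real (ov (x k) (K k) Y) ≤ 0 := by
    refine le_of_forall_pos_le_add fun δ hδ => ?_
    have h2 := key (δ / (T + 1)) (by positivity)
    have h3 : δ / (T + 1) * T ≤ δ := by
      rw [div_mul_eq_mul_div, div_le_iff₀ (by positivity)]
      nlinarith
    linarith
  have h2 : (ν k).real (ov (x k) (K k) Y) = 0 := le_antisymm h1 measureReal_nonneg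
  exact (measureReal_eq_zero_iff (measure_ne_top _ _)).1 h2

end Pool.Agent.H819.EM
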