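import Mathlib
import Pool.Agent.H819.EM.NullOver

/-!
# Structure measures and differences of closed sets
-/

set_option autoImplicit false

open Set Filter Topology MeasureTheory Metric
open scoped Manifold ContDiff ENNReal NNReal

noncomputable section

namespace Pool.Agent.H819.EM

open Pool.Agent.Y501.SY
open Pool.Agent.H819
open Pool.Agent.H819.LG (LocHolder TamedIn extF)

variable {d : ℕ} {X : Type} [TopologicalSpace X] [ChartedSpace (E d) X] [IsManifold (𝓡 d) ∞ X]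

/-- A closed structure measure which does not charge the closed set `C` does not charge the closed
set `Z` if `Z \ C` is a set of zero two-dimensional measure.

Proof.  For a fixed `k` let `D = {z ∈ K k | symm z ∈ C}`, `Z' = {z ∈ K k | symm z ∈ Z}`: compact sets of `E d`.
`Dᶜ = ⋃ n, F n` with closed `F n` (`IsOpen.exists_iUnion_isClosed`), so
`ov (x k) (K k) Z ⊆ ov (x k) (K k) C ∪ ⋃ n, ov (x k) (K k) (symm '' (F n ∩ Z'))`, and `symm '' (F n ∩ Z')` is
a compact, hence closed, subset of `Z \ C`, so it has zero measure in the charts and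
`null_over` applies. -/
theorem null_of_diff [T2Space X] [CompactSpace X] (hnear : HN.S_Near d) {J : End d X}
    (hJ2 : ∀ (x : X) (v : TangentSpace (𝓡 d) x), J x (J x v) = -v)
    (hJc : ∀ x₀, ContinuousOn (inChart J x₀) (chartAt (E d) x₀).target)
    (hJL : LocHolder J 1) {κ : Type} [Fintype κ] {x : κ → X} {K : κ → Set (E d)}
    (hK : ∀ k, IsCompact (K k)) (hKt : ∀ k, K k ⊆ (chartAt (E d) (x k)).target)
    {ν : κ → Measure (E d × E d)} (hν : Cyc x K J ν) {C Z : Set X} (hC : IsClosed C)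
    (hZ : IsClosed Z)
    (h0 : ∀ x₀ : X, μH[2] (chartAt (E d) x₀ '' ((Z \ C) ∩ (chartAt (E d) x₀).source)) = 0)
    (hνC : ∀ k, ν k (ov (x k) (K k) C) = 0) (k : κ) : ν k (ov (x k) (K k) Z) = 0 := by
  have hcont : ContinuousOn (chartAt (E d) (x k)).symm (K k) :=
    (chartAt (E d) (x k)).continuousOn_symm.mono (hKt k)
  have hD : IsClosed (K k ∩ (chartAt (E d) (x k)).symm ⁻¹' C) :=
    hcont.preimage_isClosed_of_isClosed (hK k).isClosed hC
  have hZ' : IsCompact (K k ∩ (chartAt (E d) (x k)).symm ⁻¹' Z) :=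
    (hK k).of_isClosed_subset (hcont.preimage_isClosed_of_isClosed (hK k).isClosed hZ)
      inter_subset_left
  obtain ⟨F, hFc, hFs, hFU, -⟩ := hD.isOpen_compl.exists_iUnion_isClosed
  obtain ⟨Y, hY⟩ : ∃ Y : ℕ → Set X, Y = fun n => (chartAt (E d) (x k)).symm ''
    (F n ∩ (K k ∩ (chartAt (E d) (x k)).symm ⁻¹' Z)) := ⟨_, rfl⟩
  have hYc : ∀ n, IsClosed (Y n) := by
    intro n
    rw [hY]
    have h1 : IsCompact (F n ∩ (K k ∩ (chartAt (E d) (x k)).symm ⁻¹' Z)) :=
      hZ'.inter_left (hFc n)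
    exact (h1.image_of_continuousOn (hcont.mono fun z hz => hz.2.1)).isClosed
  have hYs : ∀ n, Y n ⊆ Z \ C := by
    intro n y hy
    rw [hY] at hy
    obtain ⟨z, ⟨hzF, hzK, hzZ⟩, rfl⟩ := hy
    exact ⟨hzZ, fun hzC => hFs n hzF ⟨hzK, hzC⟩⟩
  have hY0 : ∀ n, ν k (ov (x k) (K k) (Y n)) = 0 := by
    intro n
    refine null_over hnear hJ2 hJc hJL hK hKt hν (hYc n) (fun x₀ => ?_) k
    exact measure_mono_null (image_mono (inter_subset_inter_left _ (hYs n))) (h0 x₀)
  refine measure_mono_null (t := ov (x k) (K k) C ∪ ⋃ n, ov (x k) (K k) (Y n)) ?_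
    (measure_union_null (hνC k) (measure_iUnion_null hY0))
  rintro q ⟨hqK, hqZ⟩
  by_cases hqC : (chartAt (E d) (x k)).symm q.1 ∈ C
  · exact Or.inl ⟨hqK, hqC⟩
  · right
    have h1 : q.1 ∈ ⋃ n, F n := by
      rw [hFU]
      exact fun h => hqC h.2
    obtain ⟨n, hn⟩ := mem_iUnion.1 h1
    refine mem_iUnion.2 ⟨n, hqK, ?_⟩
    rw [hY]
    exact ⟨q.1, ⟨hn, hqK, hqZ⟩, rfl⟩

end Pool.Agent.H819.EM
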