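import Mathlib
import Pool.Agent.H819.EM.LocR
import Pool.Agent.H819.EM.Local
import Pool.Agent.H819.HN.Man

/-!
# The restrictions are carried by vectors on which the form is positive
-/

set_option autoImplicit false

open Set Filter Topology MeasureTheory Metric
open scoped Manifold ContDiff ENNReal NNReal

noncomputable section

namespace Pool.Agent.H819.EM

open Pool.Agent.Y501.SY
open Pool.Agent.H819
open Pool.Agent.H819.LG (LocHolder TamedIn extF tr trD)

variable {d : ℕ} {X : Type} [TopologicalSpace X] [ChartedSpace (E d) X] [IsManifold (𝓡 d) ∞ X]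

namespace Pos

open Pool.Agent.Y455.SY (A B AB BA)

theorem fderiv_tr {x₀ y₀ : X} {z : E d} (hz : z ∈ trD (d := d) x₀ y₀) (u : E d) :
    fderiv ℝ (tr (d := d) x₀ y₀) z u = B y₀ (tr x₀ y₀ z) (A x₀ z u) := by
  have hid : ContMDiff (𝓡 d) (𝓡 d) ∞ (id : X → X) := contMDiff_id
  have h1 := BC.fderiv_lc hid (show z ∈ BC.Wc (d := d) (id : X → X) x₀ y₀ from hz)
  have h4 : BC.Df (d := d) (id : X → X) ((chartAt (E d) x₀).symm z) =
      ContinuousLinearMap.id ℝ (E d) := mfderiv_id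
  rw [h4] at h1
  exact congrArg (fun L : E d →L[ℝ] E d => L u) h1

omit [IsManifold (𝓡 d) ∞ X] in
theorem symm_tr {x₀ y₀ : X} {z : E d} (hz : z ∈ trD (d := d) x₀ y₀) :
    (chartAt (E d) y₀).symm (tr x₀ y₀ z) = (chartAt (E d) x₀).symm z :=
  (chartAt (E d) y₀).left_inv hz.2

/-- the value of a form in another chart -/
theorem vl_tr (J : End d X) (σ : Form d X 2) {x₀ y₀ : X} {q : E d × E d}
    (hz : q.1 ∈ trD (d := d) x₀ y₀) : vl J σ x₀ q =
      pb (chartAt (E d) y₀).symm σ (tr x₀ y₀ q.1) ![fderiv ℝ (tr (d := d) x₀ y₀) q.1 q.2,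
        inChart J y₀ (tr x₀ y₀ q.1) (fderiv ℝ (tr (d := d) x₀ y₀) q.1 q.2)] := by
  have hw : tr x₀ y₀ q.1 ∈ (chartAt (E d) y₀).target := (LG.tr_maps hz).1
  have h1 := HN.J_trans x₀ y₀ J hz.1 hw (symm_tr hz).symm q.2
  unfold vl
  rw [LG.pb_tr σ hz, ContinuousAlternatingMap.compContinuousLinearMap_apply]
  congr 1
  funext i
  fin_cases i
  · rfl
  · show fderiv ℝ (tr (d := d) x₀ y₀) q.1 (inChart J x₀ q.1 q.2) =
      inChart J y₀ (tr x₀ y₀ q.1) (fderiv ℝ (tr (d := d) x₀ y₀) q.1 q.2)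
    rw [fderiv_tr hz, fderiv_tr hz, h1]

theorem fderiv_ne {x₀ x₁ : X} {z : E d} (hz : z ∈ trD (d := d) x₀ x₁) {u : E d} (hu : u ≠ 0) :
    fderiv ℝ (tr (d := d) x₀ x₁) z u ≠ 0 := by
  have h1 : (fderiv ℝ (tr (d := d) x₁ x₀) (tr x₀ x₁ z)).comp (fderiv ℝ (tr (d := d) x₀ x₁) z) =
      ContinuousLinearMap.id ℝ (E d) := by
    rw [← fderiv_comp z (LG.tr_diff (LG.tr_maps hz)) (LG.tr_diff hz)]
    have h2 : tr (d := d) x₁ x₀ ∘ tr x₀ x₁ =ᶠ[𝓝 z] id := by
      filter_upwards [(LG.isOpen_trD x₀ x₁).mem_nhds hz] with y hy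
      exact LG.tr_inv hy
    rw [h2.fderiv_eq]
    exact fderiv_id
  intro h
  have h3 := congrArg (fun L : E d →L[ℝ] E d => L u) h1
  simp only [ContinuousLinearMap.comp_apply, h, map_zero, ContinuousLinearMap.id_apply] at h3
  exact hu h3.symm

/-- the measure in a chart is closed -/
theorem closed_univ [T2Space X] {J : End d X}
    {κ : Type} [Fintype κ] {x : κ → X} {K : κ → Set (E d)}
    {ν : κ → Measure (E d × E d)} (hν : Cyc x K J ν) (p : X) {r : ℝ}
    (hrt : closedBall (chartAt (E d) p p) r ⊆ (chartAt (E d) p).target)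
    {μ : Measure (E d × E d)}
    (hμ : ∀ Y : Set X, IsClosed Y → ∀ s : E d → (E d) [⋀^Fin 2]→L[ℝ] ℝ, Continuous s →
        (∀ z, z ∉ ball (chartAt (E d) p p) r → s z = 0) →
        ∫ q in {q : E d × E d | q.1 ∈ closedBall (chartAt (E d) p p) r ∧
          (chartAt (E d) p).symm q.1 ∈ Y}, s q.1 ![q.2, inChart J p q.1 q.2] ∂μ =
        ∑ k, ∫ q in ov (x k) (K k) Y, vl J (extF p s) (x k) q ∂(ν k)) :
    ClosedOn (ball (chartAt (E d) p p) r) (inChart J p) μ univ := by
  intro b hb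
  have hQt : tsupport b ⊆ (chartAt (E d) p).target :=
    hb.supp.trans (ball_subset_closedBall.trans hrt)
  have h5 : ∀ z, z ∉ tsupport b → b z = 0 := fun z hz => image_eq_zero_of_notMem_tsupport hz
  have hc : IsCompact (tsupport b) := hb.comp
  obtain ⟨h3, h6⟩ := LG.isD_extF hb.smooth hc hQt h5
  have h4 : ContDiff ℝ ∞ (extDeriv b) := contDiff_iff_contDiffAt.2 fun z =>
    Pool.Agent.Y891.SY.contDiffAt_extDeriv hb.smooth.contDiffAt
  have h0 : ∀ z, z ∉ ball (chartAt (E d) p p) r → extDeriv b z = 0 := fun z hz =>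
    h6 z fun h => hz (hb.supp h)
  have e1 := hμ univ isClosed_univ (extDeriv b) h4.continuous h0
  have e2 : ∫ q in {q : E d × E d | q.1 ∈ (univ : Set (E d))},
      extDeriv b q.1 ![q.2, inChart J p q.1 q.2] ∂μ =
      ∫ q in {q : E d × E d | q.1 ∈ closedBall (chartAt (E d) p p) r ∧
        (chartAt (E d) p).symm q.1 ∈ (univ : Set X)},
        extDeriv b q.1 ![q.2, inChart J p q.1 q.2] ∂μ := by
    refine setIntegral_eq_of_subset_of_forall_sdiff_eq_zero ?_ (fun q _ => mem_univ q.1) ?_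
    · exact MeasurableSet.univ
    · rintro q ⟨-, hq⟩
      have hq' : q.1 ∉ ball (chartAt (E d) p p) r := fun h =>
        hq ⟨ball_subset_closedBall h, mem_univ _⟩
      rw [h0 q.1 hq']
      rfl
  rw [e2, e1]
  have e3 : ∀ k, ∫ q in ov (x k) (K k) univ, vl J (extF p (extDeriv b)) (x k) q ∂(ν k) =
      ∫ q, vl J (extF p (extDeriv b)) (x k) q ∂(ν k) := by
    intro k
    rw [Measure.restrict_eq_self_of_ae_mem]
    filter_upwards [hν.supp k] with q hq
    exact ⟨hq.1, mem_univ _⟩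
  rw [Finset.sum_congr rfl fun k _ => e3 k]
  exact hν.closed _ _ (LG.smooth_extF hb.smooth hc hQt h5) (LG.smooth_extF h4 hc hQt h6) h3

end Pos

/-- **Positivity on the restrictions.**  (You may cite `exists_local` of `EM/Local.lean`.)

Proof.  Let `p ∉ B` and `r` with `LocR J τ C p r`.  Take `μ, M` as in `exists_local` for the closed ball of
radius `r`; `ClosedOn (ball (chartAt p p) r) (inChart J p) μ univ`: for a test form `b` the form
`extDeriv b` vanishes outside the ball, so the integral over all `q` is that over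
`{q | q.1 ∈ closedBall}`, which is `∑ k, ∫ vl J (extF p (extDeriv b)) (x k) dν k` (`exists_local` with
`Y = univ`) and vanishes by `hν.closed` (`LG.smooth_extF`, `LG.isD_extF`).  Let `N` be the `μ`-null set of
the points `q` with `q.1 ∈ ball`, `symm q.1 ∈ C`, `q.2 ≠ 0` and
`¬ 0 < pb (chartAt p).symm τ q.1 ![q.2, inChart J p q.1 q.2]` (`LocR`).  By the last assertion of
`exists_local`, for `ν k`-almost all `q` with `(chartAt (x k)).symm q.1 ∈ C ∩ W p`,
`W p = (chartAt p).source ∩ (chartAt p) ⁻¹' ball (chartAt p p) r` (an open set of `X` containing `p`), the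
pair `(z', u') = (tr (x k) p q.1, fderiv ℝ (tr (x k) p) q.1 q.2)` is not in `N`; since `u' ≠ 0`
(`fderiv` of the transition map is injective, `‖q.2‖ = 1`) and
`vl J τ (x k) q = pb (chartAt p).symm τ z' ![u', inChart J p z' u']` (`LG.pb_tr`, and
`inChart J p z' u' = fderiv ℝ (tr (x k) p) q.1 (inChart J (x k) q.1 q.2)`; compare `HN/Man.lean`, `J_trans`,
and `BC/Fibre.lean`), it follows that `0 < vl J τ (x k) q`.
Now `X` is second countable (`ChartedSpace.secondCountable_of_sigmaCompact (E d) X`), so countably many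
of the open sets `W p`, `p ∉ B`, cover `Bᶜ` (`TopologicalSpace.isOpen_iUnion_countable` or
`countable_cover_nhds`-type lemmas). -/
theorem restrict_pos [T2Space X] [CompactSpace X] {J : End d X}
    (hJ2 : ∀ (x : X) (v : TangentSpace (𝓡 d) x), J x (J x v) = -v)
    (hJc : ∀ x₀, ContinuousOn (inChart J x₀) (chartAt (E d) x₀).target)
    {κ : Type} [Fintype κ] {x : κ → X} {K : κ → Set (E d)}
    (hK : ∀ k, IsCompact (K k)) (hKt : ∀ k, K k ⊆ (chartAt (E d) (x k)).target)
    {ν : κ → Measure (E d × E d)} (hν : Cyc x K J ν) {τ : Form d X 2} {B C : Set X}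
    (h : ∀ p, p ∉ B → ∃ r, LocR J τ C p r) (k : κ) :
    ∀ᵐ q ∂(ν k), q ∈ ov (x k) (K k) C → (chartAt (E d) (x k)).symm q.1 ∉ B →
      0 < vl J τ (x k) q := by
  classical
  have : SecondCountableTopology X := ChartedSpace.secondCountable_of_sigmaCompact (E d) X
  choose! r hr using h
  let W : X → Set X := fun p => (chartAt (E d) p).source ∩
    (chartAt (E d) p) ⁻¹' ball (chartAt (E d) p p) (r p)
  have hWo : ∀ p, IsOpen (W p) := fun p =>
    (chartAt (E d) p).isOpen_inter_preimage isOpen_ball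
  have hone : ∀ p, p ∉ B → ∀ᵐ q ∂(ν k), (chartAt (E d) (x k)).symm q.1 ∈ W p →
      (chartAt (E d) (x k)).symm q.1 ∈ C → 0 < vl J τ (x k) q := by
    intro p hp
    obtain ⟨hr0, hrt, hL⟩ := hr p hp
    obtain ⟨μ, M, hμf, hμM, hμ, hμN⟩ := exists_local hJc hK hKt hν p hr0 hrt
    have h7 := (hL μ M hμf hμM (Pos.closed_univ hν p hrt hμ)).2
    have h8 := hμN _ (ae_iff.1 h7) k
    filter_upwards [h8, hν.supp k] with q hq1 hq2 hq3 hq4
    have hqt : q.1 ∈ trD (x k) p := ⟨hKt k hq2.1, hq3.1⟩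
    have h9 := not_not.1 (hq1 hq3.1 (ball_subset_closedBall hq3.2))
    have h10 := h9 hq3.2 (by
      show (chartAt (E d) p).symm (tr (x k) p q.1) ∈ C
      rw [Pos.symm_tr hqt]
      exact hq4) (Pos.fderiv_ne hqt (by
      intro h0
      have := hq2.2
      rw [h0, norm_zero] at this
      exact zero_ne_one this))
    rw [Pos.vl_tr J τ hqt]
    exact h10
  obtain ⟨T, hTF, hTc, hT⟩ := TopologicalSpace.isOpen_biUnion_countable Bᶜ W fun p _ => hWo p
  have hall : ∀ᵐ q ∂(ν k), ∀ p ∈ T, (chartAt (E d) (x k)).symm q.1 ∈ W p →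
      (chartAt (E d) (x k)).symm q.1 ∈ C → 0 < vl J τ (x k) q :=
    (ae_ball_iff hTc).2 fun p hp => hone p (hTF hp)
  filter_upwards [hall] with q h1 h3 hy
  have h4 : (chartAt (E d) (x k)).symm q.1 ∈ ⋃ p ∈ Bᶜ, W p := by
    refine mem_biUnion (x := (chartAt (E d) (x k)).symm q.1) hy ⟨mem_chart_source (E d) _, ?_⟩
    exact mem_ball_self (hr _ hy).1
  rw [← hT] at h4
  obtain ⟨p, hp, hpW⟩ := mem_iUnion₂.1 h4
  exact h1 p hp hpW h3.2

end Pool.Agent.H819.EM
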