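import Mathlib
import Pool.Agent.H819.EM.Chain
import Pool.Agent.H819.EM.Pos
import Pool.Agent.H819.EM.Mass
import Pool.Agent.H819.EM.NDiff
import Pool.Agent.H819.EM.Dual

/-!
# The class of a form which is positive along the members of a chain
-/

set_option autoImplicit false

open Set Filter Topology MeasureTheory Metric
open scoped Manifold ContDiff ENNReal NNReal

noncomputable section

namespace Pool.Agent.H819.EM

open Pool.Agent.Y501.SY
open Pool.Agent.H819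
open Pool.Agent.H819.LG (LocHolder TamedIn extF InClass)

variable {d : ℕ} {X : Type} [TopologicalSpace X] [ChartedSpace (E d) X] [IsManifold (𝓡 d) ∞ X]

theorem meas_ov_closed {x : X} {K : Set (E d)} (hK : IsCompact K)
    (hKt : K ⊆ (chartAt (E d) x).target) {C : Set X} (hC : IsClosed C) :
    MeasurableSet (ov x K C) := by
  have h1 : ov x K C = (Prod.fst ⁻¹' K) \ ov x K Cᶜ := by
    ext q
    constructor
    · intro h
      exact ⟨h.1, fun h2 => h2.2 h.2⟩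
    · rintro ⟨h2, h3⟩
      refine ⟨h2, ?_⟩
      by_contra h4
      exact h3 ⟨h2, h4⟩
  rw [h1]
  exact (measurable_fst hK.measurableSet).diff (meas_ov_open hK hKt hC.isOpen_compl)

/-- the integrals of forms in the same class -/
theorem Cyc.class_eq {J : End d X}
    (hJc : ∀ x₀, ContinuousOn (inChart J x₀) (chartAt (E d) x₀).target)
    {κ : Type} [Fintype κ] {x : κ → X} {K : κ → Set (E d)}
    (hK : ∀ k, IsCompact (K k)) (hKt : ∀ k, K k ⊆ (chartAt (E d) (x k)).target)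
    {ν : κ → Measure (E d × E d)} (hν : Cyc x K J ν) {σ₀ σ : Form d X 2} (hσ : IsSmooth σ₀)
    (h : InClass σ₀ σ) :
    ∑ k, ∫ q, vl J σ₀ (x k) q ∂(ν k) = ∑ k, ∫ q, vl J σ (x k) q ∂(ν k) := by
  obtain ⟨hσs, hσc, β, hβ, hdβ⟩ := h
  have hfin : ∀ k, IsFiniteMeasure (ν k) := hν.fin
  have hi0 : ∀ k, Integrable (vl J σ₀ (x k)) (ν k) := fun k =>
    int_vl hJc (hK k) (hKt k) hσ (hν.supp k)
  have hi1 : ∀ k, Integrable (vl J σ (x k)) (ν k) := fun k =>
    int_vl hJc (hK k) (hKt k) hσs (hν.supp k)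
  have hsm : IsSmooth (σ - σ₀) := by
    intro U φ hU hφ
    exact (hσs U φ hU hφ).sub (hσ U φ hU hφ)
  have h0 := hν.closed β (σ - σ₀) hβ hsm hdβ
  have hsub : ∀ k, ∫ q, vl J (σ - σ₀) (x k) q ∂(ν k) =
      ∫ q, vl J σ (x k) q ∂(ν k) - ∫ q, vl J σ₀ (x k) q ∂(ν k) := by
    intro k
    rw [← integral_sub (hi1 k) (hi0 k)]
    rfl
  simp only [hsub, Finset.sum_sub_distrib] at h0
  linarith

omit [IsManifold (𝓡 d) ∞ X] [ChartedSpace (E d) X] [TopologicalSpace X] in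
theorem eq_zero_of_int {μ : Measure (E d × E d)} {f : E d × E d → ℝ} (hf : Integrable f μ)
    (hpos : ∀ᵐ q ∂μ, 0 < f q) (h : ∫ q, f q ∂μ = 0) : μ = 0 := by
  have h1 : 0 ≤ᵐ[μ] f := by
    filter_upwards [hpos] with q hq
    exact hq.le
  have h2 := (integral_eq_zero_iff_of_nonneg_ae h1 hf).1 h
  have h3 : ∀ᵐ _q ∂μ, False := by
    filter_upwards [hpos, h2] with q hq1 hq2
    rw [hq2] at hq1
    exact lt_irrefl _ hq1
  exact ae_eq_bot.1 (Filter.eventually_false_iff_eq_bot.1 h3)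

/-- **Positivity on closed structure measures.**

Proof.  Downward induction on `j`, starting with `j = n`: `ν k (ov (x k) (K k) Z) = 0` by `null_of_diff`
(with `C = C n`), so `mass_le` applies: `cc * ∑ k, (ν k).real univ ≤ ∑ k, ∫ vl J σ₀ (x k) dν k`; so the
latter is `≥ 0`, and if it is `≤ 0` then `(ν k).real univ = 0` for all `k`, so `ν k = 0` (finite measures).
Step from `j + 1` to `j < n`: let `ν¹ k = (ν k).restrict (ov (x k) (K k) (C (j + 1)))` (closed, by `chain_cyc`) and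
`ν² k = (ν k).restrict (ov (x k) (K k) (C (j + 1)))ᶜ` (closed, by `Cyc.compl`; `ν² k (ov (x k) (K k) (C (j + 1))) = 0`,
so the assertion for `j + 1` applies to `ν²`).  `∑ ∫ vl J σ₀ dν = ∑ ∫ vl J σ₀ dν¹ + ∑ ∫ vl J σ₀ dν²`, and
`∑ ∫ vl J σ₀ dν¹ = ∑ ∫ vl J (τ j) dν¹` because `τ j - σ₀ = dβ` (`hτ j`, `InClass`; `Cyc.closed`; `vl` is
additive in the form, integrability as in `Cyc.compl`).  By `restrict_pos` (with `B = C j`,
`C = C (j + 1)`) and `ν k (ov (x k) (K k) (C j)) = 0`: `0 < vl J (τ j) (x k) q` for `ν¹ k`-almost all `q`, so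
`∫ vl J (τ j) dν¹ k ≥ 0`, and it is `0` only if `ν¹ k = 0`
(`integral_eq_zero_iff_of_nonneg_ae`). -/
theorem chain_pos [T2Space X] [CompactSpace X] (hnear : HN.S_Near d) {J : End d X}
    (hJ2 : ∀ (x : X) (v : TangentSpace (𝓡 d) x), J x (J x v) = -v)
    (hJc : ∀ x₀, ContinuousOn (inChart J x₀) (chartAt (E d) x₀).target)
    (hJL : LocHolder J 1) {σ₀ : Form d X 2} (hσ : IsSmooth σ₀) {κ : Type} [Fintype κ] {x : κ → X}
    {K : κ → Set (E d)}
    (hK : ∀ k, IsCompact (K k)) (hKt : ∀ k, K k ⊆ (chartAt (E d) (x k)).target)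
    {Z : Set X} (hZ : IsClosed Z) {cc Bb : ℝ} (hcc : 0 < cc) (hBb : 0 ≤ Bb)
    (hav : ∀ O : Set X, IsOpen O → Z ⊆ O → ∃ σ : Form d X 2, InClass σ₀ σ ∧
      ∀ k, ∀ z ∈ K k, ∀ u : E d, ‖u‖ = 1 →
        ((chartAt (E d) (x k)).symm z ∉ O → cc ≤ vl J σ (x k) (z, u)) ∧
        -Bb ≤ vl J σ (x k) (z, u))
    {n : ℕ} {C : ℕ → Set X} {τ : ℕ → Form d X 2} (hC0 : C 0 = ∅) (hCc : ∀ i ≤ n, IsClosed (C i))
    (hmono : ∀ i < n, C i ⊆ C (i + 1)) (hτ : ∀ i < n, InClass σ₀ (τ i))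
    (hR : ∀ i < n, ∀ p, p ∉ C i → ∃ r, LocR J (τ i) (C (i + 1)) p r)
    (hE : ∀ i < n, ∀ p, p ∉ C i → ∃ r, LocE J (C (i + 1)) p r)
    (h0 : ∀ x₀ : X, μH[2] (chartAt (E d) x₀ '' ((Z \ C n) ∩ (chartAt (E d) x₀).source)) = 0)
    {j : ℕ} (hj : j ≤ n) {ν : κ → Measure (E d × E d)} (hν : Cyc x K J ν)
    (hνC : ∀ k, ν k (ov (x k) (K k) (C j)) = 0) :
    0 ≤ ∑ k, ∫ q, vl J σ₀ (x k) q ∂(ν k) ∧
      (∑ k, ∫ q, vl J σ₀ (x k) q ∂(ν k) ≤ 0 → ∀ k, ν k = 0) := by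
  obtain ⟨i, hi⟩ : ∃ i, n = j + i := ⟨n - j, by omega⟩
  induction i generalizing j ν with
  | zero =>
    have hjn : j = n := by omega
    subst hjn
    have hfin : ∀ k, IsFiniteMeasure (ν k) := hν.fin
    have h1 := mass_le hJc hK hKt hν hσ hZ
      (null_of_diff hnear hJ2 hJc hJL hK hKt hν (hCc j le_rfl) hZ h0 hνC) hcc hBb hav
    have h2 : ∀ k, 0 ≤ (ν k).real univ := fun k => measureReal_nonneg
    have h3 : 0 ≤ ∑ k, (ν k).real univ := Finset.sum_nonneg fun k _ => h2 k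
    refine ⟨le_trans (mul_nonneg hcc.le h3) h1, fun h4 k => ?_⟩
    have h5 : ∑ k, (ν k).real univ = 0 := by
      refine le_antisymm ?_ h3
      by_contra h6
      have := mul_pos hcc (not_le.1 h6)
      linarith
    have h6 := (Finset.sum_eq_zero_iff_of_nonneg fun k _ => h2 k).1 h5 k (Finset.mem_univ k)
    have h7 : (ν k) univ = 0 := (measureReal_eq_zero_iff (measure_ne_top _ _)).1 h6
    exact Measure.measure_univ_eq_zero.1 h7
  | succ i ih =>
    have hjn : j < n := by omega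
    have hj1 : j + 1 ≤ n := hjn
    have hfin : ∀ k, IsFiniteMeasure (ν k) := hν.fin
    have hm : ∀ k, MeasurableSet (ov (x k) (K k) (C (j + 1))) := fun k =>
      meas_ov_closed (hK k) (hKt k) (hCc (j + 1) hj1)
    have c1 : Cyc x K J (fun k => (ν k).restrict (ov (x k) (K k) (C (j + 1)))) :=
      chain_cyc hJc hK hKt hC0 hCc hmono hR hE hj1 hν
    have c2 : Cyc x K J (fun k => (ν k).restrict (ov (x k) (K k) (C (j + 1)))ᶜ) :=
      hν.compl hJc hK hKt (hCc (j + 1) hj1) c1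
    have hz2 : ∀ k, ((ν k).restrict (ov (x k) (K k) (C (j + 1)))ᶜ)
        (ov (x k) (K k) (C (j + 1))) = 0 := by
      intro k
      rw [Measure.restrict_apply (hm k), inter_compl_self, measure_empty]
    obtain ⟨p2, q2⟩ := ih hj1 c2 hz2 (by omega)
    -- the part over `C (j + 1)`
    have hpos : ∀ k, ∀ᵐ q ∂((ν k).restrict (ov (x k) (K k) (C (j + 1)))),
        0 < vl J (τ j) (x k) q := by
      intro k
      rw [ae_restrict_iff' (hm k)]
      have h2 : ∀ᵐ q ∂(ν k), q ∉ ov (x k) (K k) (C j) := by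
        rw [ae_iff]
        simp only [not_not]
        exact hνC k
      filter_upwards [restrict_pos hJ2 hJc hK hKt hν (hR j hjn) k, h2, hν.supp k]
        with q h3 h4 h5 h6
      exact h3 h6 fun h7 => h4 ⟨h5.1, h7⟩
    have hτs : IsSmooth (τ j) := (hτ j hjn).1
    have hi1 : ∀ k, Integrable (vl J (τ j) (x k))
        ((ν k).restrict (ov (x k) (K k) (C (j + 1)))) := fun k =>
      (int_vl hJc (hK k) (hKt k) hτs (hν.supp k)).restrict
    have hn1 : ∀ k, 0 ≤ ∫ q, vl J (τ j) (x k) q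
        ∂((ν k).restrict (ov (x k) (K k) (C (j + 1)))) := by
      intro k
      refine integral_nonneg_of_ae ?_
      filter_upwards [hpos k] with q hq
      exact hq.le
    have hcl := c1.class_eq hJc hK hKt hσ (hτ j hjn)
    have hsplit : ∑ k, ∫ q, vl J σ₀ (x k) q ∂(ν k) =
        ∑ k, ∫ q, vl J σ₀ (x k) q ∂((ν k).restrict (ov (x k) (K k) (C (j + 1)))) +
        ∑ k, ∫ q, vl J σ₀ (x k) q ∂((ν k).restrict (ov (x k) (K k) (C (j + 1)))ᶜ) := by
      rw [← Finset.sum_add_distrib]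
      refine Finset.sum_congr rfl fun k _ => ?_
      exact (integral_add_compl (hm k) (int_vl hJc (hK k) (hKt k) hσ (hν.supp k))).symm
    have hs1 : 0 ≤ ∑ k, ∫ q, vl J (τ j) (x k) q
        ∂((ν k).restrict (ov (x k) (K k) (C (j + 1)))) := Finset.sum_nonneg fun k _ => hn1 k
    rw [hsplit, hcl]
    refine ⟨add_nonneg hs1 p2, fun h4 k => ?_⟩
    have h5 : ∑ k, ∫ q, vl J (τ j) (x k) q
        ∂((ν k).restrict (ov (x k) (K k) (C (j + 1)))) = 0 := by
      refine le_antisymm ?_ hs1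
      have := p2
      linarith
    have h6 := (Finset.sum_eq_zero_iff_of_nonneg fun k _ => hn1 k).1 h5 k (Finset.mem_univ k)
    have h7 := eq_zero_of_int (hi1 k) (hpos k) h6
    have h8 := q2 (by linarith) k
    have h9 := Measure.restrict_add_restrict_compl (μ := ν k) (hm k)
    rw [h7, zero_add] at h9
    rw [← h9]
    exact h8

/-- **Taming forms.**  Proof.  Suppose that `¬ TamedIn σ₀ J`.  `duality` (`EM/Dual.lean`) gives a
nonzero closed structure measure `ν` with `∑ k, ∫ vl J σ₀ (x k) dν k ≤ 0`, which contradicts `chain_pos` for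
`j = 0` (`ov (x k) (K k) ∅ = ∅`). -/
theorem tamed_of_chain [T2Space X] [CompactSpace X] (hnear : HN.S_Near d) {J : End d X}
    (hJ2 : ∀ (x : X) (v : TangentSpace (𝓡 d) x), J x (J x v) = -v)
    (hJc : ∀ x₀, ContinuousOn (inChart J x₀) (chartAt (E d) x₀).target)
    (hJL : LocHolder J 1) {σ₀ : Form d X 2} (hσ : IsSmooth σ₀) (hcl : IsClosedForm σ₀)
    {κ : Type} [Fintype κ] {x : κ → X} {K : κ → Set (E d)}
    (hK : ∀ k, IsCompact (K k)) (hKt : ∀ k, K k ⊆ (chartAt (E d) (x k)).target)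
    (hcov : ∀ p : X, ∃ k, ∃ z ∈ K k, (chartAt (E d) (x k)).symm z = p)
    {Z : Set X} (hZ : IsClosed Z) {cc Bb : ℝ} (hcc : 0 < cc) (hBb : 0 ≤ Bb)
    (hav : ∀ O : Set X, IsOpen O → Z ⊆ O → ∃ σ : Form d X 2, InClass σ₀ σ ∧
      ∀ k, ∀ z ∈ K k, ∀ u : E d, ‖u‖ = 1 →
        ((chartAt (E d) (x k)).symm z ∉ O → cc ≤ vl J σ (x k) (z, u)) ∧
        -Bb ≤ vl J σ (x k) (z, u))
    {n : ℕ} {C : ℕ → Set X} {τ : ℕ → Form d X 2} (hC0 : C 0 = ∅) (hCc : ∀ i ≤ n, IsClosed (C i))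
    (hmono : ∀ i < n, C i ⊆ C (i + 1)) (hτ : ∀ i < n, InClass σ₀ (τ i))
    (hR : ∀ i < n, ∀ p, p ∉ C i → ∃ r, LocR J (τ i) (C (i + 1)) p r)
    (hE : ∀ i < n, ∀ p, p ∉ C i → ∃ r, LocE J (C (i + 1)) p r)
    (h0 : ∀ x₀ : X, μH[2] (chartAt (E d) x₀ '' ((Z \ C n) ∩ (chartAt (E d) x₀).source)) = 0) :
    TamedIn σ₀ J := by
  by_contra h
  obtain ⟨ν, hν, ⟨k, hk⟩, hle⟩ := duality hJ2 hJc hσ hcl x K hK hKt hcov h
  have hν0 : ∀ k, ν k (ov (x k) (K k) (C 0)) = 0 := by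
    intro k
    have h1 : ov (x k) (K k) (C 0) = ∅ := by
      rw [hC0]
      exact eq_empty_of_forall_notMem fun q hq => hq.2
    rw [h1, measure_empty]
  exact hk ((chain_pos hnear hJ2 hJc hJL hσ hK hKt hZ hcc hBb hav hC0 hCc hmono hτ hR hE h0
    (Nat.zero_le n) hν hν0).2 hle k)

end Pool.Agent.H819.EM
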