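import Mathlib
import Pool.Agent.H819.HN.Main
import Pool.Agent.H819.EM.Avg
import Pool.Agent.H819.EM.Cyc

/-!
# Existence of averaged forms
-/

set_option autoImplicit false

open Set Filter Topology MeasureTheory Metric
open scoped Manifold ContDiff ENNReal NNReal

noncomputable section

namespace Pool.Agent.H819.EM

open Pool.Agent.Y501.SY
open Pool.Agent.H819
open Pool.Agent.H819.LN
open Pool.Agent.H819.HN
open Pool.Agent.H819.LG (GoodAt InClass TamedIn Represents StronglyTames LocHolder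
  smooth_chart inChart_sq)

variable {d : ℕ} {X : Type} [TopologicalSpace X] [ChartedSpace (E d) X] [IsManifold (𝓡 d) ∞ X]

/-- **Averaged forms**: they are positive off a given neighbourhood of a closed set of points of
positive Lelong number, and their values are bounded below by a constant which does not depend on
the neighbourhood. -/
theorem exists_avg [T2Space X] [CompactSpace X] (hd : 2 ≤ d) {J : End d X}
    (hJ2 : ∀ (x : X) (v : TangentSpace (𝓡 d) x), J x (J x v) = -v)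
    (hJ : ∀ x₀, ContinuousOn (inChart J x₀) (chartAt (E d) x₀).target)
    (hJL : LocHolder J 1)
    {σ₀ θ : Form d X 2} (hσ : IsSmooth σ₀) (hcl : IsClosedForm σ₀) (hrep : Represents σ₀ θ)
    (ht : StronglyTames θ J) {S : Set X} (hS : IsClosed S) (hSd : IsTotallyDisconnected S)
    (hJ1 : ∀ p ∈ S, ContDiffAt ℝ 1 (inChart J p) (chartAt (E d) p p)) :
    ∃ (κ : Type) (_ : Fintype κ) (x : κ → X) (K : κ → Set (E d)) (Z : Set X) (cc Bb : ℝ),
      (∀ k, IsCompact (K k)) ∧ (∀ k, K k ⊆ (chartAt (E d) (x k)).target) ∧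
      (∀ p : X, ∃ k, ∃ z ∈ K k, (chartAt (E d) (x k)).symm z = p) ∧ IsClosed Z ∧
      (∀ p ∈ Z, p ∉ S ∧ ¬ ZeroLelong θ p) ∧ 0 < cc ∧ 0 ≤ Bb ∧
      ∀ O : Set X, IsOpen O → Z ⊆ O → ∃ σ : Form d X 2, InClass σ₀ σ ∧
        ∀ k, ∀ z ∈ K k, ∀ u : E d, ‖u‖ = 1 →
          ((chartAt (E d) (x k)).symm z ∉ O → cc ≤ vl J σ (x k) (z, u)) ∧
          -Bb ≤ vl J σ (x k) (z, u) := by
  classical
  have hT := taming_chart hJ2 hJ hJL hσ hcl hrep ht
  -- the constants at the points of `S`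
  have hspex : ∀ p : X, ∃ (N : Set (E d)) (M C c₀ κ η D₀ s₀ : ℝ),
      p ∈ S → SpData J θ p N M C c₀ κ η D₀ s₀ := by
    intro p
    by_cases hp : p ∈ S
    · obtain ⟨N, M, C, c₀, κ, η, D₀, s₀, h⟩ := special_data hd hT p (hJ1 p hp)
      exact ⟨N, M, C, c₀, κ, η, D₀, s₀, fun _ => h⟩
    · exact ⟨∅, 0, 0, 0, 0, 0, 0, 0, fun h => absurd h hp⟩
  choose Ns Ms Cs cs κs ηs Ds ss hSp using hspex
  set W : X → Set X := fun p => (chartAt (E d) p).source ∩
    (chartAt (E d) p) ⁻¹' (ball (chartAt (E d) p p) (ηs p)) with hW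
  obtain ⟨m, p, U, P, A, hpS, hUo, hUW, hUd, hAc, hPc, hAP, hPU, hSA⟩ :=
    exists_disc_cover hS hSd (W := W) fun p hp =>
      ⟨(chartAt (E d) p).isOpen_inter_preimage isOpen_ball,
        mem_chart_source (E d) p, mem_ball_self (hSp p hp).η0⟩
  have hPs : ∀ j, P j ⊆ (chartAt (E d) (p j)).source := fun j x hx => (hUW j (hPU j hx)).1
  -- the open sets in the charts
  have hOo : ∀ j, IsOpen ((chartAt (E d) (p j)).target ∩ (chartAt (E d) (p j)).symm ⁻¹' (U j)) :=
    fun j => (chartAt (E d) (p j)).isOpen_inter_preimage_symm (hUo j)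
  have hOball : ∀ j, ∀ z ∈ (chartAt (E d) (p j)).target ∩ (chartAt (E d) (p j)).symm ⁻¹' (U j),
      ‖z - chartAt (E d) (p j) (p j)‖ < ηs (p j) := by
    intro j z hz
    have h1 := (hUW j hz.2).2
    have h2 : chartAt (E d) (p j) ((chartAt (E d) (p j)).symm z) ∈
      ball (chartAt (E d) (p j) (p j)) (ηs (p j)) := h1
    rw [(chartAt (E d) (p j)).right_inv hz.1, mem_ball, dist_eq_norm] at h2
    exact h2
  have himg : ∀ j, ∀ Q ⊆ P j, chartAt (E d) (p j) '' Q ⊆
      (chartAt (E d) (p j)).target ∩ (chartAt (E d) (p j)).symm ⁻¹' (U j) := by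
    rintro j Q hQ _ ⟨x, hx, rfl⟩
    have hxs := hPs j (hQ hx)
    refine ⟨(chartAt (E d) (p j)).map_source hxs, ?_⟩
    show (chartAt (E d) (p j)).symm (chartAt (E d) (p j) x) ∈ U j
    rw [(chartAt (E d) (p j)).left_inv hxs]
    exact hPU j (hQ hx)
  have himgc : ∀ j, ∀ Q ⊆ P j, IsCompact Q → IsCompact (chartAt (E d) (p j) '' Q) :=
    fun j Q hQ hQc => hQc.image_of_continuousOn
      ((chartAt (E d) (p j)).continuousOn.mono (hQ.trans (hPs j)))
  -- the special shifts
  have hTsm : ∀ j, ContDiff ℝ ∞ (fun z : E d => ContinuousLinearMap.id ℝ (E d) +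
      (corr (inChart J (p j)) (chartAt (E d) (p j) (p j))).flip
        (z - chartAt (E d) (p j) (p j))) := by
    intro j
    refine contDiff_const.add ?_
    exact (corr (inChart J (p j)) (chartAt (E d) (p j) (p j))).flip.contDiff.comp
      (contDiff_id.sub contDiff_const)
  have hflip : ∀ j, ∀ z : E d, ‖z - chartAt (E d) (p j) (p j)‖ ≤ ηs (p j) →
      ‖(corr (inChart J (p j)) (chartAt (E d) (p j) (p j))).flip
        (z - chartAt (E d) (p j) (p j))‖ ≤ 1 / 4 := by
    intro j z hz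
    refine (ContinuousLinearMap.le_opNorm _ _).trans ?_
    rw [ContinuousLinearMap.opNorm_flip]
    have h1 : 0 ≤ ‖corr (inChart J (p j)) (chartAt (E d) (p j) (p j))‖ :=
      ContinuousLinearMap.opNorm_nonneg _
    exact (mul_le_mul_of_nonneg_left hz h1).trans (hSp (p j) (hpS j)).B
  have hex1 := fun j => exists_sh (p j) (himgc j (P j) Subset.rfl (hPc j)) (hOo j)
    (himg j (P j) Subset.rfl) inter_subset_left (hTsm j) (fun z hz => by
      refine (norm_add_le _ _).trans ?_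
      have h1 := hflip j z (hOball j z hz).le
      have h2 := ContinuousLinearMap.norm_id_le (𝕜 := ℝ) (E := E d)
      linarith)
  choose c₁ hc₁x hc₁ hc₁t using hex1
  choose O₁ hO₁o hO₁P hO₁U hO₁V using hc₁
  obtain rfl : p = fun j => (c₁ j).x₀ := funext fun j => (hc₁x j).symm
  -- the ordinary shifts
  set O : Set X := (⋃ j, A j)ᶜ with hO
  have hOopen : IsOpen O := (isClosed_iUnion_of_finite fun j => (hAc j).isClosed).isOpen_compl
  set Y : Set X := (⋃ j, interior (P j))ᶜ with hY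
  have hYc : IsCompact Y := (isOpen_iUnion fun j => isOpen_interior).isClosed_compl.isCompact
  have hYO : Y ⊆ O := by
    intro x hx hxA
    obtain ⟨j, hj⟩ := mem_iUnion.1 hxA
    exact hx (mem_iUnion.2 ⟨j, hAP j hj⟩)
  obtain ⟨n, x, t, ht0, htO, hYcov⟩ := exists_ord_cover (d := d) hYc hOopen hYO
  have hex0 := fun i => exists_sh (d := d) (x i)
    (isCompact_closedBall (chartAt (E d) (x i) (x i)) (t i))
    (isOpen_ball (x := chartAt (E d) (x i) (x i)) (ε := 3 * t i))
    (closedBall_subset_ball (by have := ht0 i; linarith))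
    ((ball_subset_closedBall.trans (htO i)).trans inter_subset_left)
    (T := fun _ => ContinuousLinearMap.id ℝ (E d)) contDiff_const (fun z _ => by
      have h2 := ContinuousLinearMap.norm_id_le (𝕜 := ℝ) (E := E d)
      linarith)
  choose c₀ hc₀x hc₀ hc₀t using hex0
  choose O₀ hO₀o hO₀K hO₀b hO₀V using hc₀
  obtain rfl : x = fun i => (c₀ i).x₀ := funext fun i => (hc₀x i).symm
  -- the family
  set c : Fin n ⊕ Fin m → Sh d X := Sum.elim c₀ c₁ with hc
  obtain ⟨R, hR0, hR⟩ := exists_pos_le' (fun i => (c i).R) fun i => (c i).pos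
  have hAPs : ∀ j, A j ⊆ P j := fun j => (hAP j).trans interior_subset
  have hshellc : ∀ j, IsCompact (P j \ interior (A j)) := fun j => (hPc j).diff isOpen_interior
  have hnotS : ∀ q ∈ O, q ∉ S := by
    intro q hq hqS
    obtain ⟨j, hj⟩ := mem_iUnion.1 (hSA hqS)
    exact hq (mem_iUnion.2 ⟨j, interior_subset hj⟩)
  have hshellS : ∀ j, ∀ q ∈ P j \ interior (A j), q ∉ S := by
    intro j q hq hqS
    obtain ⟨k, hk⟩ := mem_iUnion.1 (hSA hqS)
    by_cases hjk : j = k
    · subst hjk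
      exact hq.2 hk
    · exact Set.disjoint_left.1 (hUd j k hjk) (hPU j hq.1) (hPU k (hAPs k (interior_subset hk)))
  have hONs : ∀ j, (chartAt (E d) (c₁ j).x₀).target ∩ (chartAt (E d) (c₁ j).x₀).symm ⁻¹' (U j) ⊆
      interior (Ns (c₁ j).x₀) := by
    intro j z hz
    refine (hSp _ (hpS j)).ηN ?_
    rw [mem_closedBall, dist_eq_norm]
    exact (hOball j z hz).le

  have q0 : ∀ g, IsCompact ((Sum.elim (fun i => closedBall (chartAt (E d) (c₀ i).x₀ (c₀ i).x₀) (t i))
      (fun j => chartAt (E d) (c₁ j).x₀ '' (P j \ interior (A j)))) g) := by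
    rintro (i | j)
    · exact isCompact_closedBall _ _
    · exact himgc j _ sdiff_subset (hshellc j)

  have q1 : ∀ g, IsCompact ((Sum.elim (fun i => closedBall (chartAt (E d) (c₀ i).x₀ (c₀ i).x₀) (3 * t i))
      (fun j => Ns (c₁ j).x₀)) g) := by
    rintro (i | j)
    · exact isCompact_closedBall _ _
    · exact (hSp _ (hpS j)).Nc

  have q2 : ∀ g, (Sum.elim (fun i => closedBall (chartAt (E d) (c₀ i).x₀ (c₀ i).x₀) (t i))
      (fun j => chartAt (E d) (c₁ j).x₀ '' (P j \ interior (A j)))) g ⊆ interior ((Sum.elim (fun i => closedBall (chartAt (E d) (c₀ i).x₀ (c₀ i).x₀) (3 * t i))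
      (fun j => Ns (c₁ j).x₀)) g) := by
    rintro (i | j)
    · refine (closedBall_subset_ball ?_).trans ball_subset_interior_closedBall
      have := ht0 i
      linarith
    · exact (himg j _ sdiff_subset).trans (hONs j)

  have q3 : ∀ g, (Sum.elim (fun i => closedBall (chartAt (E d) (c₀ i).x₀ (c₀ i).x₀) (3 * t i))
      (fun j => Ns (c₁ j).x₀)) g ⊆ (c g).e.target := by
    rintro (i | j)
    · exact (htO i).trans inter_subset_left
    · exact (hSp _ (hpS j)).Nt

  have q4 : ∀ g, ∀ z ∈ (Sum.elim (fun i => closedBall (chartAt (E d) (c₀ i).x₀ (c₀ i).x₀) (t i))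
      (fun j => chartAt (E d) (c₁ j).x₀ '' (P j \ interior (A j)))) g, ‖(c g).V z - ContinuousLinearMap.id ℝ (E d)‖ ≤ 1 / 4 := by
    rintro (i | j) z hz
    · have h1 : (c (Sum.inl i)).V z = ContinuousLinearMap.id ℝ (E d) := hO₀V i z (hO₀K i hz)
      show ‖(c (Sum.inl i)).V z - _‖ ≤ _
      rw [h1, sub_self, norm_zero]
      norm_num
    · have h1 : (c (Sum.inr j)).V z = ContinuousLinearMap.id ℝ (E d) +
          (corr (inChart J (c₁ j).x₀) (chartAt (E d) (c₁ j).x₀ (c₁ j).x₀)).flip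
            (z - chartAt (E d) (c₁ j).x₀ (c₁ j).x₀) :=
        hO₁V j z (hO₁P j (image_mono sdiff_subset hz))
      show ‖(c (Sum.inr j)).V z - _‖ ≤ _
      rw [h1, add_sub_cancel_left]
      exact hflip j z (hOball j z (himg j _ sdiff_subset hz)).le

  obtain ⟨κ₀, cc, Bb, hκ₀, hcc, hBb, hav⟩ := avg_null hd hJ2 hJ hJL hσ hcl hrep ht c hR0 hR
    (γ := Fin n ⊕ Fin m) (τ := Fin m) id
    (Sum.elim (fun i => closedBall (chartAt (E d) (c₀ i).x₀ (c₀ i).x₀) (t i))
      (fun j => chartAt (E d) (c₁ j).x₀ '' (P j \ interior (A j))))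
    (Sum.elim (fun i => closedBall (chartAt (E d) (c₀ i).x₀ (c₀ i).x₀) (3 * t i))
      (fun j => Ns (c₁ j).x₀)) q0 q1 q2 q3 q4 Sum.inr
    (fun j => chartAt (E d) (c₁ j).x₀ '' A j) (fun j => Ns (c₁ j).x₀)
    (fun j => himgc j (A j) (hAPs j) (hAc j)) (fun j => (hSp _ (hpS j)).Nc)
    (fun j => (hSp _ (hpS j)).Nt) (by
      intro j
      have H := hSp _ (hpS j)
      refine ⟨Ms (c₁ j).x₀, Cs (c₁ j).x₀, cs (c₁ j).x₀, Ds (c₁ j).x₀, ss (c₁ j).x₀, H.M1, H.C0,
        H.c0, H.D0, H.s0, H.Mb, H.good, ?_, fun θ' s₁ hs₁ hθ' => ?_⟩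
      · intro z hz
        refine H.dens z ?_
        rw [mem_closedBall, dist_eq_norm]
        exact (hOball j z (himg j (A j) (hAPs j) hz)).le
      · refine piece_special hd c hR0 (Sum.inr j) (K := chartAt (E d) (c₁ j).x₀ '' A j)
          (N := Ns (c₁ j).x₀) (O := O₁ j) (himgc j (A j) (hAPs j) (hAc j)) (hO₁o j)
          ((image_mono (hAPs j)).trans (hO₁P j))
          ((hO₁U j).trans ((hONs j).trans interior_subset)) H.Nt
          (q := chartAt (E d) (c₁ j).x₀ (c₁ j).x₀) (η := ηs (c₁ j).x₀) (κ := κs (c₁ j).x₀) H.η0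
          (hO₁V j) ?_ H.B H.err ?_ H.κ0 hs₁ (D₀ := Ds (c₁ j).x₀ + 1) hθ' H.small
        · intro z hz
          exact (hOball j z (himg j (A j) (hAPs j) hz)).le
        · rintro (i | k) hk z hz hm
          · -- ordinary shifts
            obtain ⟨w, hw, hwz⟩ := hm
            have h1 : (c₀ i).e.symm w ∈ O := (htO i (ball_subset_closedBall (hc₀t i hw))).2
            have h2 : (chartAt (E d) (c₁ j).x₀).symm z ∈ A j := by
              obtain ⟨q, hq, hqz⟩ := hz
              rw [← hqz, (chartAt (E d) (c₁ j).x₀).left_inv (hPs j (hAPs j hq))]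
              exact hq
            apply h1
            have h3 : (c₀ i).e.symm w = (chartAt (E d) (c₁ j).x₀).symm z := hwz
            rw [h3]
            exact mem_iUnion.2 ⟨j, h2⟩
          · obtain ⟨w, hw, hwz⟩ := hm
            have hkj : k ≠ j := fun h => hk (by rw [h])
            have h1 : (c₁ k).e.symm w ∈ U k := (hc₁t k hw).2
            have h2 : (chartAt (E d) (c₁ j).x₀).symm z ∈ U j := (himg j (A j) (hAPs j) hz).2
            have h3 : (c₁ k).e.symm w = (chartAt (E d) (c₁ j).x₀).symm z := hwz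
            rw [h3] at h1
            exact Set.disjoint_left.1 (hUd k j hkj) h1 h2)

  have hcov : ∀ q : X, (∃ g, ∃ z ∈ (Sum.elim (fun i => closedBall (chartAt (E d) (c₀ i).x₀ (c₀ i).x₀) (t i))
      (fun j => chartAt (E d) (c₁ j).x₀ '' (P j \ interior (A j)))) g, (c g).e.symm z = q) ∨
      ∃ j, ∃ z ∈ chartAt (E d) (c₁ j).x₀ '' A j, (c₁ j).e.symm z = q := by
    intro q
    by_cases hq : q ∈ ⋃ j, interior (P j)
    · obtain ⟨j, hj⟩ := mem_iUnion.1 hq
      have hqP : q ∈ P j := interior_subset hj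
      by_cases hqA : q ∈ A j
      · exact Or.inr ⟨j, chartAt (E d) (c₁ j).x₀ q, ⟨q, hqA, rfl⟩,
          (chartAt (E d) (c₁ j).x₀).left_inv (hPs j hqP)⟩
      · exact Or.inl ⟨Sum.inr j, chartAt (E d) (c₁ j).x₀ q,
          ⟨q, ⟨hqP, fun h => hqA (interior_subset h)⟩, rfl⟩,
          (chartAt (E d) (c₁ j).x₀).left_inv (hPs j hqP)⟩
    · obtain ⟨i, z, hz, hzq⟩ := hYcov q hq
      exact Or.inl ⟨Sum.inl i, z, hz, hzq⟩

  have hnS : ∀ g, ∀ z ∈ (Sum.elim (fun i => closedBall (chartAt (E d) (c₀ i).x₀ (c₀ i).x₀) (t i))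
      (fun j => chartAt (E d) (c₁ j).x₀ '' (P j \ interior (A j)))) g, (c g).e.symm z ∉ S := by
    rintro (i | j) z hz
    · refine hnotS _ ?_
      exact (htO i (closedBall_subset_closedBall (by have := ht0 i; linarith) hz)).2
    · obtain ⟨q', hq', hqz⟩ := hz
      have h1 : (c (Sum.inr j)).e.symm z = q' := by
        rw [← hqz]
        exact (chartAt (E d) (c₁ j).x₀).left_inv (hPs j hq'.1)
      rw [h1]
      exact hshellS j q' hq'

  have hKKt : ∀ g, (Sum.elim (fun i => closedBall (chartAt (E d) (c₀ i).x₀ (c₀ i).x₀) (t i))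
      (fun j => chartAt (E d) (c₁ j).x₀ '' (P j \ interior (A j)))) g ⊆ (c g).e.target := fun g => (q2 g).trans (interior_subset.trans (q3 g))
  refine ⟨(Fin n ⊕ Fin m) ⊕ Fin m, inferInstance, Sum.elim (fun g => (c g).x₀) (fun j => (c₁ j).x₀),
    Sum.elim (Sum.elim (fun i => closedBall (chartAt (E d) (c₀ i).x₀ (c₀ i).x₀) (t i))
      (fun j => chartAt (E d) (c₁ j).x₀ '' (P j \ interior (A j)))) (fun j => chartAt (E d) (c₁ j).x₀ '' A j),
    ⋃ g, (c g).e.symm '' ((Sum.elim (fun i => closedBall (chartAt (E d) (c₀ i).x₀ (c₀ i).x₀) (t i))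
      (fun j => chartAt (E d) (c₁ j).x₀ '' (P j \ interior (A j)))) g \ Sm (pb (c g).e.symm θ) κ₀), cc, Bb, ?_, ?_, ?_, ?_, ?_, hcc, hBb, ?_⟩
  · rintro (g | j)
    · exact q0 g
    · exact himgc j (A j) (hAPs j) (hAc j)
  · rintro (g | j)
    · exact hKKt g
    · exact (himg j _ (hAPs j)).trans inter_subset_left
  · intro p
    rcases hcov p with ⟨g, z, hz, hp⟩ | ⟨j, z, hz, hp⟩
    · exact ⟨Sum.inl g, z, hz, hp⟩
    · exact ⟨Sum.inr j, z, hz, hp⟩
  · refine isClosed_iUnion_of_finite fun g => ?_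
    refine IsCompact.isClosed ?_
    refine ((q0 g).diff (isOpen_Sm _ _)).image_of_continuousOn ?_
    exact (c g).e.continuousOn_symm.mono (sdiff_subset.trans (hKKt g))
  · intro p hp
    obtain ⟨g, z, hz, rfl⟩ := mem_iUnion.1 hp
    refine ⟨hnS g z hz.1, fun h => hz.2 ?_⟩
    exact small_at hd hT (c g).x₀ (hKKt g hz.1) h hκ₀
  · intro O hO hZO
    obtain ⟨σ, h1, h2, h3⟩ := hav O hO (fun g z hz hzS => hZO (mem_iUnion.2 ⟨g, z, ⟨hz, hzS⟩, rfl⟩))
    refine ⟨σ, h1, ?_⟩
    rintro (g | j) z hz u hu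
    · exact h2 g z hz u hu
    · have h4 := h3 j z hz u hu
      exact ⟨fun _ => h4, (by linarith : -Bb ≤ cc).trans h4⟩

end Pool.Agent.H819.EM
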