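import Mathlib
import Pool.Agent.H819.EM.Loc

/-!
# The cut-off argument of El Mir and Skoda
-/

set_option autoImplicit false

open Set Filter Topology MeasureTheory Metric
open scoped ContDiff ENNReal NNReal

noncomputable section

namespace Pool.Agent.H819.EM

open Pool.Agent.Y501.SY (E)

variable {d : ℕ}

/-! ### smooth and continuous functions supported in an open set -/

theorem em_smooth {F : Type} [NormedAddCommGroup F] [NormedSpace ℝ F] {U : Set (E d)}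
    (hU : IsOpen U) {f : E d → F} (hf : ContDiffOn ℝ ∞ f U) {T : Set (E d)} (hT : IsClosed T)
    (hTU : T ⊆ U) (h0 : ∀ z, z ∉ T → f z = 0) : ContDiff ℝ ∞ f := by
  rw [contDiff_iff_contDiffAt]
  intro z
  by_cases hz : z ∈ U
  · exact hf.contDiffAt (hU.mem_nhds hz)
  · have h1 : f =ᶠ[𝓝 z] fun _ => 0 := by
      filter_upwards [hT.isOpen_compl.mem_nhds (fun h => hz (hTU h))] with y hy
      exact h0 y hy
    exact contDiffAt_const.congr_of_eventuallyEq h1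

theorem em_cont {U : Set (E d)} (hU : IsOpen U) {F : E d × E d → ℝ}
    (hF : ContinuousOn F (U ×ˢ univ)) {T : Set (E d)} (hT : IsClosed T) (hTU : T ⊆ U)
    (h0 : ∀ q : E d × E d, q.1 ∉ T → F q = 0) : Continuous F := by
  rw [continuous_iff_continuousAt]
  intro q
  by_cases hq : q.1 ∈ U
  · exact hF.continuousAt ((hU.prod isOpen_univ).mem_nhds ⟨hq, mem_univ _⟩)
  · have h1 : F =ᶠ[𝓝 q] fun _ => 0 := by
      filter_upwards [(hT.isOpen_compl.preimage continuous_fst).mem_nhds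
        (show q ∈ Prod.fst ⁻¹' Tᶜ from fun h => hq (hTU h))] with y hy
      exact h0 y hy
    exact continuousAt_const.congr h1.symm

theorem em_bdd {F : E d × E d → ℝ} (hF : Continuous F) {T : Set (E d)} (hT : IsCompact T)
    (h0 : ∀ q : E d × E d, q.1 ∉ T → F q = 0) (M : ℝ) :
    ∃ C, 0 ≤ C ∧ ∀ q : E d × E d, ‖q.2‖ ≤ M → |F q| ≤ C := by
  obtain ⟨C, hC⟩ := (hT.prod (isCompact_closedBall (0 : E d) M)).exists_bound_of_continuousOn
    hF.continuousOn
  refine ⟨max C 0, le_max_right _ _, fun q hq => ?_⟩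
  by_cases h : q.1 ∈ T
  · exact (hC q ⟨h, mem_closedBall_zero_iff.2 hq⟩).trans (le_max_left _ _)
  · rw [h0 q h, abs_zero]
    exact le_max_right _ _

theorem em_int {F : E d × E d → ℝ} (hF : Continuous F) {T : Set (E d)} (hT : IsCompact T)
    (h0 : ∀ q : E d × E d, q.1 ∉ T → F q = 0) {ν : Measure (E d × E d)} [IsFiniteMeasure ν] {M : ℝ}
    (hM : ∀ᵐ q ∂ν, ‖q.2‖ ≤ M) : Integrable F ν := by
  obtain ⟨C, hC0, hC⟩ := em_bdd hF hT h0 M
  refine Integrable.of_bound hF.aestronglyMeasurable C ?_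
  filter_upwards [hM] with q hq
  exact hC q hq

/-! ### the covector version of the exterior derivative -/

/-- `dg (u, A u)` for a one-form `g` given by covectors -/
def XA (A : E d → E d →L[ℝ] E d) (g : E d → E d →L[ℝ] ℝ) (z u : E d) : ℝ :=
  fderiv ℝ g z u (A z u) - fderiv ℝ g z (A z u) u

theorem XA_zero {A : E d → E d →L[ℝ] E d} {g : E d → E d →L[ℝ] ℝ} {T : Set (E d)}
    (hT : IsClosed T) (h0 : ∀ z, z ∉ T → g z = 0) {z : E d} (hz : z ∉ T) (u : E d) :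
    XA A g z u = 0 := by
  have h1 : g =ᶠ[𝓝 z] fun _ => 0 := by
    filter_upwards [hT.isOpen_compl.mem_nhds hz] with y hy
    exact h0 y hy
  unfold XA
  rw [h1.fderiv_eq, fderiv_const_apply]
  simp

theorem XA_smul {A : E d → E d →L[ℝ] E d} {h : E d → ℝ} {g : E d → E d →L[ℝ] ℝ} {z : E d}
    (hh : DifferentiableAt ℝ h z) (hg : DifferentiableAt ℝ g z) (u : E d) :
    XA A (fun z => h z • g z) z u = h z * XA A g z u +
      (fderiv ℝ h z u * g z (A z u) - fderiv ℝ h z (A z u) * g z u) := by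
  unfold XA
  rw [fderiv_fun_smul hh hg]
  simp only [add_apply, smul_apply,
    ContinuousLinearMap.smulRight_apply, smul_eq_mul]
  ring

theorem XA_bf {A : E d → E d →L[ℝ] E d} {φ : E d → ℝ} {z : E d} (hA : DifferentiableAt ℝ A z)
    (hφ : DifferentiableAt ℝ (fderiv ℝ φ) z) (hA2 : ∀ u, A z (A z u) = -u) (u : E d) :
    XA A (fun z => -(fderiv ℝ φ z).comp (A z)) z u = LA A φ z u := by
  rw [← extDeriv_bf hA hφ hA2 u]
  have h1 : DifferentiableAt ℝ (fun z => -(fderiv ℝ φ z).comp (A z)) z :=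
    (hφ.hasFDerivAt.clm_comp hA.hasFDerivAt).neg.differentiableAt
  exact (extDeriv_one h1 u (A z u)).symm

theorem XA_cont {U : Set (E d)} (hU : IsOpen U) {A : E d → E d →L[ℝ] E d}
    (hA : ContDiffOn ℝ ∞ A U) {g : E d → E d →L[ℝ] ℝ} (hg : ContDiffOn ℝ ∞ g U) :
    ContinuousOn (fun q : E d × E d => XA A g q.1 q.2) (U ×ˢ univ) := by
  have h1 : ContinuousOn (fun q : E d × E d => fderiv ℝ g q.1) (U ×ˢ univ) :=
    (hg.continuousOn_fderiv_of_isOpen hU (by simp)).comp continuousOn_fst fun q hq => hq.1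
  have h2 : ContinuousOn (fun q : E d × E d => A q.1) (U ×ˢ univ) :=
    hA.continuousOn.comp continuousOn_fst fun q hq => hq.1
  have h3 : ContinuousOn (fun q : E d × E d => q.2) (U ×ˢ univ) := continuousOn_snd
  have h4 := h2.clm_apply h3
  exact ((h1.clm_apply h3).clm_apply h4).sub ((h1.clm_apply h4).clm_apply h3)

/-- closedness in terms of covectors -/
theorem closed_iff {U : Set (E d)} {A : E d → E d →L[ℝ] E d} {ν : Measure (E d × E d)}
    {Y : Set (E d)} : ClosedOn U A ν Y ↔ ∀ g : E d → E d →L[ℝ] ℝ, ContDiff ℝ ∞ g →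
      HasCompactSupport g → tsupport g ⊆ U →
        ∫ q in {q : E d × E d | q.1 ∈ Y}, XA A g q.1 q.2 ∂ν = 0 := by
  constructor
  · intro h g hg hc hs
    have hT : Test U (fun z => one (g z)) := by
      have h1 : tsupport (fun z => one (g z)) ⊆ tsupport g := by
        refine closure_mono fun z hz => ?_
        rw [Function.mem_support] at hz ⊢
        intro h0
        exact hz (by rw [h0, map_zero])
      exact ⟨(one (d := d)).contDiff.comp hg, hc.of_isClosed_subset (isClosed_tsupport _) h1,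
        h1.trans hs⟩
    have h2 := h _ hT
    rw [← h2]
    refine integral_congr_ae (Eventually.of_forall fun q => ?_)
    exact (extDeriv_one (hg.differentiable (by simp) q.1) q.2 (A q.1 q.2)).symm
  · intro h b hb
    have e1 : b = fun z => one ((one (d := d)).symm (b z)) := by
      funext z
      rw [LinearIsometryEquiv.apply_symm_apply]
    have hg : ContDiff ℝ ∞ fun z => (one (d := d)).symm (b z) :=
      (one (d := d)).symm.contDiff.comp hb.smooth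
    have h1 : tsupport (fun z => (one (d := d)).symm (b z)) ⊆ tsupport b := by
      refine closure_mono fun z hz => ?_
      rw [Function.mem_support] at hz ⊢
      intro h0
      exact hz (by rw [h0, map_zero])
    have h2 := h _ hg (hb.comp.of_isClosed_subset (isClosed_tsupport _) h1) (h1.trans hb.supp)
    rw [← h2]
    refine integral_congr_ae (Eventually.of_forall fun q => ?_)
    have h3 := extDeriv_one (hg.differentiable (by simp) q.1) q.2 (A q.1 q.2)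
    rw [← e1] at h3
    exact h3


/-! ### the first estimate -/

theorem ineq_a {k G l s a b x y C₁ n M D B : ℝ} (hk0 : 0 ≤ k) (hk1 : k ≤ 1) (hG0 : 0 ≤ G)
    (hG : G ≤ B) (hB : 1 ≤ B) (hs : s ^ 2 = x ^ 2 + y ^ 2) (hC : 0 ≤ C₁)
    (hn0 : 0 ≤ n) (hn : n ≤ M) (hl : -(C₁ * (n ^ 2 + n * s)) ≤ l) (hD : a ^ 2 + b ^ 2 ≤ D) :
    1 / 2 * (k ^ 2 * (x ^ 2 + y ^ 2)) - B ^ 2 * (C₁ * M ^ 2 + C₁ ^ 2 * M ^ 2 + 4 * D) ≤
      k ^ 2 * G * l + k ^ 2 * (x ^ 2 + y ^ 2) + 2 * k * G * (a * x + b * y) := by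
  have hk2 : k ^ 2 ≤ 1 := pow_le_one₀ hk0 hk1
  have hk20 : 0 ≤ k ^ 2 := sq_nonneg k
  have hG2 : G ^ 2 ≤ B ^ 2 := pow_le_pow_left₀ hG0 hG 2
  have hGB : G ≤ B ^ 2 := hG.trans (by nlinarith)
  have hn2 : n ^ 2 ≤ M ^ 2 := pow_le_pow_left₀ hn0 hn 2
  have hD0 : 0 ≤ a ^ 2 + b ^ 2 := by positivity
  have hB2 : 0 ≤ B ^ 2 := sq_nonneg B
  -- the term with `l`
  have h1 : k ^ 2 * G * -(C₁ * (n ^ 2 + n * s)) ≤ k ^ 2 * G * l :=
    mul_le_mul_of_nonneg_left hl (mul_nonneg hk20 hG0)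
  have h2 : C₁ * G * n * s ≤ s ^ 2 / 4 + (C₁ * G * n) ^ 2 := by
    nlinarith [sq_nonneg (s / 2 - C₁ * G * n)]
  have h3 : k ^ 2 * (C₁ * G * n * s) ≤ k ^ 2 * (s ^ 2 / 4 + (C₁ * G * n) ^ 2) :=
    mul_le_mul_of_nonneg_left h2 hk20
  have h4 : k ^ 2 * (C₁ * G * n) ^ 2 ≤ B ^ 2 * (C₁ ^ 2 * M ^ 2) := by
    calc k ^ 2 * (C₁ * G * n) ^ 2 ≤ 1 * (C₁ * G * n) ^ 2 :=
          mul_le_mul_of_nonneg_right hk2 (sq_nonneg _)
      _ = C₁ ^ 2 * (G ^ 2 * n ^ 2) := by ring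
      _ ≤ C₁ ^ 2 * (B ^ 2 * M ^ 2) :=
          mul_le_mul_of_nonneg_left (mul_le_mul hG2 hn2 (sq_nonneg _) hB2) (sq_nonneg _)
      _ = _ := by ring
  have h5 : k ^ 2 * (C₁ * G * n ^ 2) ≤ B ^ 2 * (C₁ * M ^ 2) := by
    calc k ^ 2 * (C₁ * G * n ^ 2) ≤ 1 * (C₁ * G * n ^ 2) :=
          mul_le_mul_of_nonneg_right hk2 (by positivity)
      _ = C₁ * (G * n ^ 2) := by ring
      _ ≤ C₁ * (B ^ 2 * M ^ 2) :=
          mul_le_mul_of_nonneg_left (mul_le_mul hGB hn2 (sq_nonneg _) hB2) hC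
      _ = _ := by ring
  -- the term with the derivative of the cut-off function
  have h6 : -(k ^ 2 * x ^ 2 / 4 + 4 * G ^ 2 * a ^ 2) ≤ 2 * k * G * (a * x) := by
    nlinarith [sq_nonneg (k * x / 2 + 2 * G * a)]
  have h7 : -(k ^ 2 * y ^ 2 / 4 + 4 * G ^ 2 * b ^ 2) ≤ 2 * k * G * (b * y) := by
    nlinarith [sq_nonneg (k * y / 2 + 2 * G * b)]
  have h8 : 4 * G ^ 2 * (a ^ 2 + b ^ 2) ≤ B ^ 2 * (4 * D) := by
    calc 4 * G ^ 2 * (a ^ 2 + b ^ 2) = 4 * (G ^ 2 * (a ^ 2 + b ^ 2)) := by ring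
      _ ≤ 4 * (B ^ 2 * D) :=
          mul_le_mul_of_nonneg_left (mul_le_mul hG2 hD hD0 hB2) (by norm_num)
      _ = _ := by ring
  rw [hs] at h3
  nlinarith

/-- the regularised logarithm -/
def wf (ρ : E d → ℝ) (L : ℝ) (z : E d) : ℝ := Real.log (ρ z + Real.exp (-L) ^ 2)

theorem wf_smooth {U : Set (E d)} {ρ : E d → ℝ} (hρ : ContDiffOn ℝ ∞ ρ U)
    (hρ0 : ∀ z ∈ U, 0 ≤ ρ z) (L : ℝ) : ContDiffOn ℝ ∞ (wf ρ L) U := by
  refine (hρ.add contDiffOn_const).log fun z hz => ?_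
  have := hρ0 z hz
  positivity

theorem wf_ge {ρ : E d → ℝ} {z : E d} (h : 0 ≤ ρ z) (L : ℝ) : -(2 * L) ≤ wf ρ L z := by
  unfold wf
  have h1 : Real.log (Real.exp (-L) ^ 2) = -(2 * L) := by
    rw [Real.log_pow, Real.log_exp]
    push_cast
    ring
  rw [← h1]
  exact Real.log_le_log (by positivity) (by linarith)

theorem wf_zero {ρ : E d → ℝ} {z : E d} (h : ρ z = 0) (L : ℝ) : wf ρ L z = -(2 * L) := by
  unfold wf
  rw [h, zero_add, Real.log_pow, Real.log_exp]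
  push_cast
  ring

theorem wf_le {ρ : E d → ℝ} {T : Set (E d)} (hT : IsCompact T) (hρ : ContinuousOn ρ T)
    (hρ0 : ∀ z ∈ T, 0 ≤ ρ z) : ∃ C : ℝ, 0 ≤ C ∧ ∀ z ∈ T, ∀ L : ℝ, 0 ≤ L → wf ρ L z ≤ C := by
  obtain ⟨C, hC⟩ := hT.exists_bound_of_continuousOn hρ
  refine ⟨Real.log (max C 0 + 1), Real.log_nonneg (by linarith [le_max_right C 0]), ?_⟩
  intro z hz L hL
  unfold wf
  have h1 := hρ0 z hz
  have h2 : ρ z ≤ max C 0 := (le_abs_self _).trans ((hC z hz).trans (le_max_left _ _))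
  have h3 : Real.exp (-L) ^ 2 ≤ 1 := by
    refine pow_le_one₀ (Real.exp_pos _).le ?_
    rw [Real.exp_le_one_iff]
    linarith
  refine Real.log_le_log ?_ (by linarith)
  positivity

/-- the square of the length of the derivative of `w` -/
def Pf (A : E d → E d →L[ℝ] E d) (w : E d → ℝ) (q : E d × E d) : ℝ :=
  fderiv ℝ w q.1 q.2 ^ 2 + fderiv ℝ w q.1 (A q.1 q.2) ^ 2

theorem Pf_cont {U : Set (E d)} (hU : IsOpen U) {A : E d → E d →L[ℝ] E d}
    (hA : ContDiffOn ℝ ∞ A U) {w : E d → ℝ} (hw : ContDiffOn ℝ ∞ w U) :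
    ContinuousOn (Pf A w) (U ×ˢ univ) := by
  have h1 : ContinuousOn (fun q : E d × E d => fderiv ℝ w q.1) (U ×ˢ univ) :=
    (hw.continuousOn_fderiv_of_isOpen hU (by simp)).comp continuousOn_fst fun q hq => hq.1
  have h2 : ContinuousOn (fun q : E d × E d => A q.1) (U ×ˢ univ) :=
    hA.continuousOn.comp continuousOn_fst fun q hq => hq.1
  have h3 : ContinuousOn (fun q : E d × E d => q.2) (U ×ˢ univ) := continuousOn_snd
  have h4 := h2.clm_apply h3
  exact ((h1.clm_apply h3).pow 2).add ((h1.clm_apply h4).pow 2)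

/-- **the energy estimate** -/
theorem step_a {U : Set (E d)} (hU : IsOpen U) {A : E d → E d →L[ℝ] E d}
    (hA : ContDiffOn ℝ ∞ A U) (hA2 : ∀ z ∈ U, ∀ u, A z (A z u) = -u) {ρ : E d → ℝ}
    (hρ : ContDiffOn ℝ ∞ ρ U) (hρ0 : ∀ z ∈ U, 0 ≤ ρ z) {C₁ : ℝ} (hC₁ : 0 ≤ C₁)
    (hL : LogEst A ρ U C₁) {ν : Measure (E d × E d)} [IsFiniteMeasure ν] {M : ℝ}
    (hM : ∀ᵐ q ∂ν, ‖q.2‖ ≤ M) (hν : ClosedOn U A ν univ) {κ : E d → ℝ} (hκ : ContDiff ℝ ∞ κ)
    (hκc : HasCompactSupport κ) (hκU : tsupport κ ⊆ U) (hκ0 : ∀ z, 0 ≤ κ z) (hκ1 : ∀ z, κ z ≤ 1) :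
    ∃ C₄ : ℝ, 0 ≤ C₄ ∧ ∀ L : ℝ, 1 ≤ L →
      ∫ q, κ q.1 ^ 2 * Pf A (wf ρ L) q ∂ν ≤ C₄ * L ^ 2 := by
  have hTc : IsCompact (tsupport κ) := hκc
  have hTcl : IsClosed (tsupport κ) := isClosed_tsupport κ
  have hκT : ∀ z, z ∉ tsupport κ → κ z = 0 := fun z hz => image_eq_zero_of_notMem_tsupport hz
  obtain ⟨C₂, hC₂, hw2⟩ := wf_le hTc (hρ.continuousOn.mono hκU) fun z hz => hρ0 z (hκU hz)
  -- the bound for the derivative of the cut-off function
  obtain ⟨D, hD0, hD⟩ : ∃ D : ℝ, 0 ≤ D ∧ ∀ q : E d × E d, ‖q.2‖ ≤ M → q.1 ∈ tsupport κ →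
      Pf A κ q ≤ D := by
    obtain ⟨D, hD⟩ := (hTc.prod (isCompact_closedBall (0 : E d) M)).exists_bound_of_continuousOn
      ((Pf_cont hU hA hκ.contDiffOn).mono (prod_mono hκU (subset_univ _)))
    exact ⟨max D 0, le_max_right _ _, fun q hq hq' => (le_abs_self _).trans
      ((hD q ⟨hq', mem_closedBall_zero_iff.2 hq⟩).trans (le_max_left _ _))⟩
  obtain ⟨C₃, hC₃⟩ : ∃ C₃ : ℝ, C₃ = (2 + C₂) ^ 2 * (C₁ * M ^ 2 + C₁ ^ 2 * M ^ 2 + 4 * D) := ⟨_, rfl⟩
  have hC₃0 : 0 ≤ C₃ := by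
    rw [hC₃]
    positivity
  refine ⟨2 * (C₃ * ν.real univ), by positivity, fun L hL1 => ?_⟩
  obtain ⟨w, hw⟩ : ∃ w : E d → ℝ, w = wf ρ L := ⟨_, rfl⟩
  rw [← hw]
  have hws : ContDiffOn ℝ ∞ w U := by
    rw [hw]
    exact wf_smooth hρ hρ0 L
  have hwf : ContDiffOn ℝ ∞ (fderiv ℝ w) U := hws.fderiv_of_isOpen hU (by simp)
  -- the test form
  obtain ⟨g, hg⟩ : ∃ g : E d → E d →L[ℝ] ℝ, g = fun z => -(fderiv ℝ w z).comp (A z) := ⟨_, rfl⟩
  obtain ⟨h, hh⟩ : ∃ h : E d → ℝ, h = fun z => κ z ^ 2 * (w z + 2 * L) := ⟨_, rfl⟩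
  have hgs : ContDiffOn ℝ ∞ g U := by
    rw [hg]
    exact (hwf.clm_comp hA).neg
  have hhs : ContDiffOn ℝ ∞ h U := by
    rw [hh]
    exact (hκ.contDiffOn.pow 2).mul (hws.add contDiffOn_const)
  have hb0 : ∀ z, z ∉ tsupport κ → h z • g z = 0 := by
    intro z hz
    have : h z = 0 := by
      rw [hh]
      show κ z ^ 2 * (w z + 2 * L) = 0
      rw [hκT z hz]
      ring
    rw [this, zero_smul]
  have hbs : ContDiff ℝ ∞ fun z => h z • g z :=
    em_smooth hU (hhs.smul hgs) hTcl hκU hb0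
  have hbt : tsupport (fun z => h z • g z) ⊆ tsupport κ := by
    refine closure_minimal (fun z hz => ?_) hTcl
    by_contra hc
    exact hz (hb0 z hc)
  have hcl := closed_iff.1 hν _ hbs (hTc.of_isClosed_subset (isClosed_tsupport _) hbt)
    (hbt.trans hκU)
  have hcl' : ∫ q : E d × E d, XA A (fun z => h z • g z) q.1 q.2 ∂ν = 0 := by
    have e : {q : E d × E d | q.1 ∈ univ} = univ := by
      ext q
      simp
    rwa [e, Measure.restrict_univ] at hcl
  have hXc : Continuous fun q : E d × E d => XA A (fun z => h z • g z) q.1 q.2 :=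
    em_cont hU (XA_cont hU hA hbs.contDiffOn) hTcl hκU fun q hq => XA_zero hTcl hb0 hq _
  have hXi := em_int hXc hTc (fun q hq => XA_zero hTcl hb0 hq _) hM
  have hPc : Continuous fun q : E d × E d => κ q.1 ^ 2 * Pf A w q := by
    refine em_cont hU ?_ hTcl hκU fun q hq => by rw [hκT _ hq]; ring
    exact ((hκ.continuous.comp continuous_fst).pow 2).continuousOn.mul (Pf_cont hU hA hws)
  have hPi := em_int hPc hTc (fun q hq => by rw [hκT _ hq]; ring) hM
  -- the pointwise estimate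
  have hpt : ∀ᵐ q ∂ν, 1 / 2 * (κ q.1 ^ 2 * Pf A w q) - L ^ 2 * C₃ ≤
      XA A (fun z => h z • g z) q.1 q.2 := by
    filter_upwards [hM] with q hq
    by_cases hqT : q.1 ∈ tsupport κ
    · have hqU := hκU hqT
      have hn := hU.mem_nhds hqU
      have dw : DifferentiableAt ℝ w q.1 := (hws.contDiffAt hn).differentiableAt (by simp)
      have dk : DifferentiableAt ℝ κ q.1 := hκ.differentiable (by simp) q.1
      have dh : DifferentiableAt ℝ h q.1 := (hhs.contDiffAt hn).differentiableAt (by simp)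
      have dg : DifferentiableAt ℝ g q.1 := (hgs.contDiffAt hn).differentiableAt (by simp)
      have dA : DifferentiableAt ℝ A q.1 := (hA.contDiffAt hn).differentiableAt (by simp)
      have dwf : DifferentiableAt ℝ (fderiv ℝ w) q.1 :=
        (hwf.contDiffAt hn).differentiableAt (by simp)
      rw [XA_smul dh dg]
      have e1 : XA A g q.1 q.2 = LA A w q.1 q.2 := by
        rw [hg]
        exact XA_bf dA dwf (hA2 q.1 hqU) q.2
      have e2 : g q.1 (A q.1 q.2) = fderiv ℝ w q.1 q.2 := by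
        rw [hg]
        show -(fderiv ℝ w q.1 (A q.1 (A q.1 q.2))) = _
        rw [hA2 q.1 hqU, map_neg, neg_neg]
      have e3 : g q.1 q.2 = -fderiv ℝ w q.1 (A q.1 q.2) := by
        rw [hg]
        rfl
      have e4 : ∀ v, fderiv ℝ h q.1 v = κ q.1 ^ 2 * fderiv ℝ w q.1 v +
          2 * κ q.1 * (w q.1 + 2 * L) * fderiv ℝ κ q.1 v := by
        intro v
        have h1 : HasFDerivAt h (κ q.1 ^ 2 • fderiv ℝ w q.1 +
            (w q.1 + 2 * L) • ((2 * κ q.1) • fderiv ℝ κ q.1)) q.1 := by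
          have h2 : HasFDerivAt (fun z => κ z ^ 2) ((2 * κ q.1) • fderiv ℝ κ q.1) q.1 := by
            have h3 := dk.hasFDerivAt.mul dk.hasFDerivAt
            have e : (fun z => κ z ^ 2) = fun z => κ z * κ z := by
              funext z
              ring
            rw [e]
            have e2 : κ q.1 • fderiv ℝ κ q.1 + κ q.1 • fderiv ℝ κ q.1 =
                (2 * κ q.1) • fderiv ℝ κ q.1 := by
              rw [two_mul, add_smul]
            rw [← e2]
            exact h3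
          rw [hh]
          exact h2.mul (dw.hasFDerivAt.add_const (2 * L))
        rw [h1.fderiv]
        simp only [add_apply, smul_apply, smul_eq_mul]
        ring
      rw [e1, e2, e3, e4, e4]
      have hl := hL q.1 hqU (Real.exp (-L)) (Real.exp_pos _) (by
        rw [Real.exp_le_one_iff]
        linarith) q.2
      have hl' : -(C₁ * (‖q.2‖ ^ 2 + ‖q.2‖ * Real.sqrt (fderiv ℝ w q.1 q.2 ^ 2 +
          fderiv ℝ w q.1 (A q.1 q.2) ^ 2))) ≤ LA A w q.1 q.2 := by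
        rw [hw]
        exact hl
      have hG0 : 0 ≤ w q.1 + 2 * L := by
        have := wf_ge (hρ0 q.1 hqU) L
        rw [← hw] at this
        linarith
      have hG : w q.1 + 2 * L ≤ (2 + C₂) * L := by
        have := hw2 q.1 hqT L (by linarith)
        rw [← hw] at this
        nlinarith
      have hB1 : 1 ≤ (2 + C₂) * L := by nlinarith
      have key := ineq_a (hκ0 q.1) (hκ1 q.1) hG0 hG hB1
        (Real.sq_sqrt (by positivity : 0 ≤ fderiv ℝ w q.1 q.2 ^ 2 +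
          fderiv ℝ w q.1 (A q.1 q.2) ^ 2)) hC₁ (norm_nonneg q.2) hq hl' (hD q hq hqT)
      have e5 : ((2 + C₂) * L) ^ 2 * (C₁ * M ^ 2 + C₁ ^ 2 * M ^ 2 + 4 * D) = L ^ 2 * C₃ := by
        rw [hC₃]
        ring
      rw [e5] at key
      refine (le_of_eq ?_).trans (key.trans (le_of_eq ?_))
      · rfl
      · rw [hh]
        ring
    · rw [XA_zero hTcl hb0 hqT, hκT _ hqT]
      have : 0 ≤ L ^ 2 * C₃ := by positivity
      linarith
  have hint := integral_mono_ae ((hPi.const_mul (1 / 2)).sub (integrable_const (L ^ 2 * C₃))) hXi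
    hpt
  rw [hcl'] at hint
  have e6 : ∫ q : E d × E d, (1 / 2 * (κ q.1 ^ 2 * Pf A w q) - L ^ 2 * C₃) ∂ν =
      1 / 2 * ∫ q : E d × E d, κ q.1 ^ 2 * Pf A w q ∂ν - L ^ 2 * C₃ * ν.real univ := by
    rw [integral_sub (hPi.const_mul (1 / 2)) (integrable_const _), integral_const_mul,
      integral_const, smul_eq_mul]
    ring
  have hint' : 1 / 2 * ∫ q : E d × E d, κ q.1 ^ 2 * Pf A w q ∂ν - L ^ 2 * C₃ * ν.real univ ≤ 0 := by
    rw [← e6]
    exact hint
  linarith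


/-! ### the second estimate -/

/-- the cut-off function of one variable -/
def ch (t : ℝ) : ℝ := Real.smoothTransition (-t - 1 / 2)

theorem ch_smooth : ContDiff ℝ ∞ ch :=
  Real.smoothTransition.contDiff.comp (contDiff_id.neg.sub contDiff_const)

theorem ch_nonneg (t : ℝ) : 0 ≤ ch t := Real.smoothTransition.nonneg _

theorem ch_le_one (t : ℝ) : ch t ≤ 1 := Real.smoothTransition.le_one _

theorem ch_one {t : ℝ} (h : t ≤ -(3 / 2)) : ch t = 1 :=
  Real.smoothTransition.one_of_one_le (by linarith)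

theorem ch_zero {t : ℝ} (h : -(1 / 2) ≤ t) : ch t = 0 :=
  Real.smoothTransition.zero_of_nonpos (by linarith)

theorem dch_neg2 : deriv ch (-2) = 0 := by
  have h : ch =ᶠ[𝓝 (-2 : ℝ)] fun _ => 1 := by
    filter_upwards [Iio_mem_nhds (show (-2 : ℝ) < -(3 / 2) by norm_num)] with t ht
    exact ch_one (le_of_lt ht)
  rw [h.deriv_eq, deriv_const]

theorem dch_zero : deriv ch 0 = 0 := by
  have h : ch =ᶠ[𝓝 (0 : ℝ)] fun _ => 0 := by
    filter_upwards [Ioi_mem_nhds (show -(1 / 2) < (0 : ℝ) by norm_num)] with t ht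
    exact ch_zero (le_of_lt ht)
  rw [h.deriv_eq, deriv_const]

theorem dch_cont : Continuous (deriv ch) := ch_smooth.continuous_deriv (by simp)

theorem wf_lim_pos {ρ : E d → ℝ} {z : E d} (h : 0 < ρ z) :
    Tendsto (fun n : ℕ => wf ρ ((n : ℝ) + 1) z / ((n : ℝ) + 1)) atTop (𝓝 0) := by
  have h1 : Tendsto (fun n : ℕ => (n : ℝ) + 1) atTop atTop :=
    tendsto_natCast_atTop_atTop.atTop_add tendsto_const_nhds
  have h2 : Tendsto (fun n : ℕ => Real.exp (-((n : ℝ) + 1))) atTop (𝓝 0) :=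
    Real.tendsto_exp_neg_atTop_nhds_zero.comp h1
  have h3 : Tendsto (fun n : ℕ => ρ z + Real.exp (-((n : ℝ) + 1)) ^ 2) atTop (𝓝 (ρ z)) := by
    have := (h2.pow 2).const_add (ρ z)
    simpa using this
  have h4 : Tendsto (fun n : ℕ => wf ρ ((n : ℝ) + 1) z) atTop (𝓝 (Real.log (ρ z))) :=
    ((Real.continuousAt_log h.ne').tendsto).comp h3
  exact h4.div_atTop h1

theorem wf_lim_zero {ρ : E d → ℝ} {z : E d} (h : ρ z = 0) (n : ℕ) :
    wf ρ ((n : ℝ) + 1) z / ((n : ℝ) + 1) = -2 := by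
  rw [wf_zero h]
  have : (n : ℝ) + 1 ≠ 0 := by positivity
  field_simp

theorem ineq_b {t L c x y α β : ℝ} (ht : 0 < t) :
    |c * (x / L) * α - c * (y / L) * β| ≤
      t / (2 * L ^ 2) * (x ^ 2 + y ^ 2) + 1 / (2 * t) * (c ^ 2 * (α ^ 2 + β ^ 2)) := by
  obtain ⟨X, hX⟩ : ∃ X, X = x / L := ⟨_, rfl⟩
  obtain ⟨Y, hY⟩ : ∃ Y, Y = y / L := ⟨_, rfl⟩
  have e : t / (2 * L ^ 2) * (x ^ 2 + y ^ 2) = t / 2 * (X ^ 2 + Y ^ 2) := by
    rw [hX, hY, div_pow, div_pow]
    ring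
  rw [e, ← hX, ← hY, abs_le]
  have e1 : t / 2 * (X ^ 2 + Y ^ 2) + 1 / (2 * t) * (c ^ 2 * (α ^ 2 + β ^ 2)) -
      (c * X * α - c * Y * β) = 1 / (2 * t) * ((t * X - c * α) ^ 2 + (t * Y + c * β) ^ 2) := by
    field_simp
    ring
  have e2 : t / 2 * (X ^ 2 + Y ^ 2) + 1 / (2 * t) * (c ^ 2 * (α ^ 2 + β ^ 2)) +
      (c * X * α - c * Y * β) = 1 / (2 * t) * ((t * X + c * α) ^ 2 + (t * Y - c * β) ^ 2) := by
    field_simp
    ring
  have h1 : 0 ≤ 1 / (2 * t) * ((t * X - c * α) ^ 2 + (t * Y + c * β) ^ 2) := by positivity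
  have h2 : 0 ≤ 1 / (2 * t) * ((t * X + c * α) ^ 2 + (t * Y - c * β) ^ 2) := by positivity
  constructor <;> linarith

/-- the error of the cut-off -/
def Ph (A : E d → E d →L[ℝ] E d) (ρ : E d → ℝ) (L : ℝ) (g : E d → E d →L[ℝ] ℝ)
    (q : E d × E d) : ℝ :=
  deriv ch (wf ρ L q.1 / L) ^ 2 * (g q.1 (A q.1 q.2) ^ 2 + g q.1 q.2 ^ 2)

theorem g_cont {U : Set (E d)} {A : E d → E d →L[ℝ] E d}
    (hA : ContDiffOn ℝ ∞ A U) {g : E d → E d →L[ℝ] ℝ} (hg : ContDiff ℝ ∞ g) :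
    ContinuousOn (fun q : E d × E d => g q.1 (A q.1 q.2) ^ 2 + g q.1 q.2 ^ 2) (U ×ˢ univ) := by
  have h1 : ContinuousOn (fun q : E d × E d => g q.1) (U ×ˢ univ) :=
    (hg.continuous.comp continuous_fst).continuousOn
  have h2 : ContinuousOn (fun q : E d × E d => A q.1) (U ×ˢ univ) :=
    hA.continuousOn.comp continuousOn_fst fun q hq => hq.1
  have h3 : ContinuousOn (fun q : E d × E d => q.2) (U ×ˢ univ) := continuousOn_snd
  have h4 := h2.clm_apply h3
  exact ((h1.clm_apply h4).pow 2).add ((h1.clm_apply h3).pow 2)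

theorem Ph_cont {U : Set (E d)} {A : E d → E d →L[ℝ] E d}
    (hA : ContDiffOn ℝ ∞ A U) {ρ : E d → ℝ} (hρ : ContDiffOn ℝ ∞ ρ U) (hρ0 : ∀ z ∈ U, 0 ≤ ρ z)
    (L : ℝ) {g : E d → E d →L[ℝ] ℝ} (hg : ContDiff ℝ ∞ g) :
    ContinuousOn (Ph A ρ L g) (U ×ˢ univ) := by
  have h1 : ContinuousOn (fun q : E d × E d => wf ρ L q.1 / L) (U ×ˢ univ) :=
    ((wf_smooth hρ hρ0 L).continuousOn.div_const L).comp continuousOn_fst fun q hq => hq.1
  exact ((dch_cont.comp_continuousOn h1).pow 2).mul (g_cont hA hg)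

theorem step_b {U : Set (E d)} (hU : IsOpen U) {A : E d → E d →L[ℝ] E d}
    (hA : ContDiffOn ℝ ∞ A U) {ρ : E d → ℝ}
    (hρ : ContDiffOn ℝ ∞ ρ U) (hρ0 : ∀ z ∈ U, 0 ≤ ρ z)
    {ν : Measure (E d × E d)} [IsFiniteMeasure ν] {M : ℝ}
    (hM : ∀ᵐ q ∂ν, ‖q.2‖ ≤ M) (hν : ClosedOn U A ν univ) {κ : E d → ℝ} (hκ : ContDiff ℝ ∞ κ)
    (hκc : HasCompactSupport κ) (hκU : tsupport κ ⊆ U)
    {g : E d → E d →L[ℝ] ℝ} (hg : ContDiff ℝ ∞ g) (hgc : HasCompactSupport g)
    (hgU : tsupport g ⊆ U) (hκg : ∀ z ∈ tsupport g, κ z = 1) {t L : ℝ} (ht : 0 < t) :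
    |∫ q, ch (wf ρ L q.1 / L) * XA A g q.1 q.2 ∂ν| ≤
      t / (2 * L ^ 2) * ∫ q, κ q.1 ^ 2 * Pf A (wf ρ L) q ∂ν +
        1 / (2 * t) * ∫ q, Ph A ρ L g q ∂ν := by
  have hTc : IsCompact (tsupport κ) := hκc
  have hTcl : IsClosed (tsupport κ) := isClosed_tsupport κ
  have hκT : ∀ z, z ∉ tsupport κ → κ z = 0 := fun z hz => image_eq_zero_of_notMem_tsupport hz
  have hQc : IsCompact (tsupport g) := hgc
  have hQcl : IsClosed (tsupport g) := isClosed_tsupport g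
  have hgT : ∀ z, z ∉ tsupport g → g z = 0 := fun z hz => image_eq_zero_of_notMem_tsupport hz
  obtain ⟨w, hw⟩ : ∃ w : E d → ℝ, w = wf ρ L := ⟨_, rfl⟩
  have hws : ContDiffOn ℝ ∞ w U := by
    rw [hw]
    exact wf_smooth hρ hρ0 L
  rw [← hw]
  obtain ⟨h, hh⟩ : ∃ h : E d → ℝ, h = fun z => ch (w z / L) := ⟨_, rfl⟩
  have hhs : ContDiffOn ℝ ∞ h U := by
    rw [hh]
    exact ch_smooth.comp_contDiffOn (hws.div_const L)
  have hb0 : ∀ z, z ∉ tsupport g → h z • g z = 0 := fun z hz => by rw [hgT z hz, smul_zero]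
  have hbs : ContDiff ℝ ∞ fun z => h z • g z :=
    em_smooth hU (hhs.smul hg.contDiffOn) hQcl hgU hb0
  have hbt : tsupport (fun z => h z • g z) ⊆ tsupport g := by
    refine closure_minimal (fun z hz => ?_) hQcl
    by_contra hc
    exact hz (hb0 z hc)
  have hcl := closed_iff.1 hν _ hbs (hQc.of_isClosed_subset (isClosed_tsupport _) hbt)
    (hbt.trans hgU)
  have hcl' : ∫ q : E d × E d, XA A (fun z => h z • g z) q.1 q.2 ∂ν = 0 := by
    have e : {q : E d × E d | q.1 ∈ univ} = univ := by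
      ext q
      simp
    rwa [e, Measure.restrict_univ] at hcl
  have hXc : Continuous fun q : E d × E d => XA A (fun z => h z • g z) q.1 q.2 :=
    em_cont hU (XA_cont hU hA hbs.contDiffOn) hQcl hgU fun q hq => XA_zero hQcl hb0 hq _
  have hXi := em_int hXc hQc (fun q hq => XA_zero hQcl hb0 hq _) hM
  have hYc : Continuous fun q : E d × E d => h q.1 * XA A g q.1 q.2 := by
    refine em_cont hU ?_ hQcl hgU fun q hq => by rw [XA_zero hQcl hgT hq, mul_zero]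
    exact (hhs.continuousOn.comp continuousOn_fst fun q hq => hq.1).mul
      (XA_cont hU hA hg.contDiffOn)
  have hYi := em_int hYc hQc (fun q hq => by rw [XA_zero hQcl hgT hq, mul_zero]) hM
  have hPc : Continuous fun q : E d × E d => κ q.1 ^ 2 * Pf A w q := by
    refine em_cont hU ?_ hTcl hκU fun q hq => by rw [hκT _ hq]; ring
    exact ((hκ.continuous.comp continuous_fst).pow 2).continuousOn.mul (Pf_cont hU hA hws)
  have hPi := em_int hPc hTc (fun q hq => by rw [hκT _ hq]; ring) hM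
  have hΦ0 : ∀ q : E d × E d, q.1 ∉ tsupport g → Ph A ρ L g q = 0 := by
    intro q hq
    unfold Ph
    rw [hgT _ hq]
    simp
  have hΦc : Continuous (Ph A ρ L g) := em_cont hU (Ph_cont hA hρ hρ0 L hg) hQcl hgU hΦ0
  have hΦi := em_int hΦc hQc hΦ0 hM
  -- the pointwise estimate
  have hpt : ∀ q : E d × E d, |h q.1 * XA A g q.1 q.2 - XA A (fun z => h z • g z) q.1 q.2| ≤
      t / (2 * L ^ 2) * (κ q.1 ^ 2 * Pf A w q) + 1 / (2 * t) * Ph A ρ L g q := by
    intro q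
    by_cases hqQ : q.1 ∈ tsupport g
    · have hqU := hgU hqQ
      have hn := hU.mem_nhds hqU
      have dw : DifferentiableAt ℝ w q.1 := (hws.contDiffAt hn).differentiableAt (by simp)
      have dh : DifferentiableAt ℝ h q.1 := (hhs.contDiffAt hn).differentiableAt (by simp)
      have dg : DifferentiableAt ℝ g q.1 := hg.differentiable (by simp) q.1
      have e4 : ∀ v, fderiv ℝ h q.1 v = deriv ch (w q.1 / L) * (fderiv ℝ w q.1 v / L) := by
        intro v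
        have h1 : HasDerivAt ch (deriv ch (w q.1 / L)) (w q.1 / L) :=
          (ch_smooth.differentiable (by simp) _).hasDerivAt
        have h2 : HasFDerivAt (fun z => w z / L) (L⁻¹ • fderiv ℝ w q.1) q.1 := by
          have h3 := dw.hasFDerivAt.const_smul L⁻¹
          have e : (fun z => w z / L) = fun z => L⁻¹ • w z := by
            funext z
            rw [smul_eq_mul]
            ring
          rw [e]
          exact h3
        have h3 : HasFDerivAt h (deriv ch (w q.1 / L) • (L⁻¹ • fderiv ℝ w q.1)) q.1 := by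
          have h4 : HasFDerivAt (ch ∘ fun z => w z / L)
              (deriv ch (w q.1 / L) • (L⁻¹ • fderiv ℝ w q.1)) q.1 :=
            HasDerivAt.comp_hasFDerivAt (h₂ := ch) (f := fun z => w z / L) q.1 h1 h2
          rw [hh]
          exact h4
        rw [h3.fderiv]
        simp only [smul_apply, smul_eq_mul]
        ring
      rw [XA_smul dh dg, e4, e4, hκg _ hqQ]
      have key := ineq_b (t := t) (L := L) (c := deriv ch (w q.1 / L)) (x := fderiv ℝ w q.1 q.2)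
        (y := fderiv ℝ w q.1 (A q.1 q.2)) (α := g q.1 (A q.1 q.2)) (β := g q.1 q.2) ht
      have e5 : h q.1 * XA A g q.1 q.2 - (h q.1 * XA A g q.1 q.2 +
          (deriv ch (w q.1 / L) * (fderiv ℝ w q.1 q.2 / L) * g q.1 (A q.1 q.2) -
            deriv ch (w q.1 / L) * (fderiv ℝ w q.1 (A q.1 q.2) / L) * g q.1 q.2)) =
          -(deriv ch (w q.1 / L) * (fderiv ℝ w q.1 q.2 / L) * g q.1 (A q.1 q.2) -
            deriv ch (w q.1 / L) * (fderiv ℝ w q.1 (A q.1 q.2) / L) * g q.1 q.2) := by ring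
      rw [e5, abs_neg, one_pow, one_mul]
      unfold Ph
      rw [← hw]
      exact key
    · rw [XA_zero hQcl hb0 hqQ, XA_zero hQcl hgT hqQ, mul_zero, sub_zero, abs_zero]
      have h1 : 0 ≤ Pf A w q := by
        unfold Pf
        positivity
      have h2 : 0 ≤ Ph A ρ L g q := by
        unfold Ph
        positivity
      positivity
  have e6 : ∫ q, h q.1 * XA A g q.1 q.2 ∂ν =
      ∫ q, (h q.1 * XA A g q.1 q.2 - XA A (fun z => h z • g z) q.1 q.2) ∂ν := by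
    rw [integral_sub hYi hXi, hcl', sub_zero]
  have e7 : ∫ q, (t / (2 * L ^ 2) * (κ q.1 ^ 2 * Pf A w q) + 1 / (2 * t) * Ph A ρ L g q) ∂ν =
      t / (2 * L ^ 2) * ∫ q, κ q.1 ^ 2 * Pf A w q ∂ν + 1 / (2 * t) * ∫ q, Ph A ρ L g q ∂ν := by
    rw [integral_add (hPi.const_mul _) (hΦi.const_mul _), integral_const_mul, integral_const_mul]
  have e8 : ∫ q, ch (w q.1 / L) * XA A g q.1 q.2 ∂ν = ∫ q, h q.1 * XA A g q.1 q.2 ∂ν := by
    rw [hh]
  rw [e8, e6, ← e7]
  refine (abs_integral_le_integral_abs).trans ?_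
  exact integral_mono (hYi.sub hXi).abs ((hPi.const_mul _).add (hΦi.const_mul _)) hpt

/-- **Closed structure measures can be restricted to `{ρ = 0}`.**

Notation: `LA A φ z v` is `extDeriv (bf A φ) z ![v, A z v]` (`extDeriv_bf`, `EM/Def.lean`), where
`bf A φ` is the one-form `v ↦ - Dφ (A v)`.  For a smooth function `κ` (use `extDeriv_eq`,
`bf_apply`):
`extDeriv (κ • b) z ![u, A u] = κ extDeriv b z ![u, A u] + (Dκ(u) b(A u) - Dκ(A u) b(u))`, and for
`b = bf A φ` the bracket is `Dκ(u) Dφ(u) + Dκ(A u) Dφ(A u)` (since `A (A u) = - u`).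

Proof.  Fix a test form `b₀` with support `Q ⊆ U` compact.  Choose a smooth function
`κ : E d → ℝ`, `0 ≤ κ ≤ 1`, with compact support in `U` and `κ = 1` on (a neighbourhood of) `Q`
(`exists_contMDiff_support_eq_eq_one_iff` or `exists_contDiff_tsupport_subset`; see also `exists_cut`
in `LG/Main.lean`).  Let `C₂ ≥ 0` be such that `ρ + 1 ≤ exp C₂` on `tsupport κ`.
For `0 < ε ≤ exp (-1)` let `L = |log ε| = - log ε ≥ 1` and `w = log (ρ + ε²)`; on `tsupport κ` one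
has `- 2 L ≤ w ≤ C₂`.  Write `|∂w|² = Dw(u)² + Dw(A u)²`, similarly `|∂κ|`.

(a) With `G(t) = (t + 2 L)² / 2`, `G' = w + 2 L ∈ [0, 2 L + C₂]`, `G'' = 1`:
`LA A (G ∘ w) z u = G'(w) LA A w z u + |∂w|²` (chain rule for the second derivative), and
`D (G ∘ w) = G'(w) Dw`.  Apply closedness to the test form `κ² • bf A (G ∘ w)` (which is equal to `0`
outside `tsupport κ`, and smooth, because `A`, `ρ` are smooth on `U`):
`0 = ∫ κ² (G' LA A w + |∂w|²) + 2 κ G' (Dκ(u) Dw(u) + Dκ(A u) Dw(A u)) dν`.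
With `hL`, `|Dκ(u) Dw(u) + Dκ(A u) Dw(A u)| ≤ |∂κ| |∂w|`, `G' C₁ ‖u‖ |∂w| ≤ |∂w|² / 4 + C₁² G'² ‖u‖²`
and `2 κ G' |∂κ| |∂w| ≤ κ² |∂w|² / 4 + 4 G'² |∂κ|²`:
`∫ κ² |∂w|² dν ≤ C₄ L²` with `C₄` independent of `ε` (`‖u‖ ≤ M`, `ν` finite, `A` bounded on
`tsupport κ`, `2 L + C₂ ≤ (2 + C₂) L`).

(b) Let `χ : ℝ → ℝ` be smooth, `0 ≤ χ ≤ 1`, `χ = 1` on `(-∞, -3/2]`, `χ = 0` on `[-1/2, ∞)`
(for instance `Real.smoothTransition (- t - 1/2)`), `|χ'| ≤ C₅`, and `χ_ε = χ (w / L)`.  Closedness for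
the test form `χ_ε • b₀`:
`0 = ∫ χ_ε extDeriv b₀ z ![u, A u] dν + ∫ L⁻¹ χ'(w / L) (Dw(u) b₀(A u) - Dw(A u) b₀(u)) dν`.
The second integral is at most `C L⁻¹ ∫_{Q_ε} |∂w| ‖u‖ dν ≤
C L⁻¹ (∫ κ² |∂w|²)^(1/2) (∫_{Q_ε} ‖u‖²)^(1/2) ≤ C' ν(Q_ε)^(1/2)`, where
`Q_ε = {(z, u) | z ∈ Q, ε^(3/2) ≥ ρ z + ε² is false ..., -3/2 ≤ w / L ≤ -1/2}`
`= {z ∈ Q, ε^(3/2) ≤ ρ z + ε² ≤ ε^(1/2)}`.
(For `ρ z = 0`: `w / L = -2`, so `z ∉ Q_ε`; for `ρ z > 0`: `w / L → 0` as `ε → 0`, so `z ∉ Q_ε` for small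
`ε`.  By dominated convergence `ν(Q_ε) → 0` along `ε = exp (-n)`.)
Likewise `χ_ε → 1` where `ρ = 0` and `χ_ε → 0` where `ρ > 0`, so by dominated convergence the first
integral converges to `∫_{ρ = 0} extDeriv b₀ z ![u, A u] dν` (the integrand vanishes off `Q ⊆ U`). -/
theorem elmir {U : Set (E d)} (hU : IsOpen U) {A : E d → E d →L[ℝ] E d}
    (hA : ContDiffOn ℝ ∞ A U) (hA2 : ∀ z ∈ U, ∀ u, A z (A z u) = -u) {ρ : E d → ℝ}
    (hρ : ContDiffOn ℝ ∞ ρ U) (hρ0 : ∀ z ∈ U, 0 ≤ ρ z) {C₁ : ℝ} (hC₁ : 0 ≤ C₁)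
    (hL : LogEst A ρ U C₁) {ν : Measure (E d × E d)} [IsFiniteMeasure ν] {M : ℝ}
    (hM : ∀ᵐ q ∂ν, ‖q.2‖ ≤ M) (hν : ClosedOn U A ν univ) :
    ClosedOn U A ν {z | z ∈ U ∧ ρ z = 0} := by
  rw [closed_iff]
  intro g hg hgc hgU
  have hQc : IsCompact (tsupport g) := hgc
  have hQcl : IsClosed (tsupport g) := isClosed_tsupport g
  have hgT : ∀ z, z ∉ tsupport g → g z = 0 := fun z hz => image_eq_zero_of_notMem_tsupport hz
  -- the cut-off function
  obtain ⟨κ, hκ, hκc, hκU, hκ0, hκ1, hκg⟩ : ∃ κ : E d → ℝ, ContDiff ℝ ∞ κ ∧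
      HasCompactSupport κ ∧ tsupport κ ⊆ U ∧ (∀ z, 0 ≤ κ z) ∧ (∀ z, κ z ≤ 1) ∧
      ∀ z ∈ tsupport g, κ z = 1 := by
    obtain ⟨r, hr, hrt⟩ := hQc.exists_cthickening_subset_open hU hgU
    obtain ⟨f, hf, hf1, hf2, hf3⟩ := exists_contMDiff_support_eq_eq_one_iff (n := (⊤ : ℕ∞))
      (modelWithCornersSelf ℝ (E d))
      (isOpen_thickening (δ := r) (E := tsupport g)) hQcl (self_subset_thickening hr _)
    have hts : tsupport f ⊆ cthickening r (tsupport g) := by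
      rw [tsupport, hf2]
      exact closure_thickening_subset_cthickening _ _
    exact ⟨f, contMDiff_iff_contDiff.1 hf,
      hQc.cthickening.of_isClosed_subset (isClosed_tsupport f) hts, hts.trans hrt,
      fun z => (hf1 (mem_range_self z)).1, fun z => (hf1 (mem_range_self z)).2,
      fun z hz => (hf3 z).1 hz⟩
  obtain ⟨C₄, hC₄, hen⟩ := step_a hU hA hA2 hρ hρ0 hC₁ hL hM hν hκ hκc hκU hκ0 hκ1
  obtain ⟨C₂, hC₂, hw2⟩ := wf_le hQc (hρ.continuousOn.mono hgU) fun z hz => hρ0 z (hgU hz)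
  -- the range of the quotients
  have hrange : ∀ z ∈ tsupport g, ∀ n : ℕ,
      wf ρ ((n : ℝ) + 1) z / ((n : ℝ) + 1) ∈ Icc (-2 : ℝ) C₂ := by
    intro z hz n
    have hn : (1 : ℝ) ≤ (n : ℝ) + 1 := by
      have : (0 : ℝ) ≤ n := Nat.cast_nonneg n
      linarith
    have h1 := wf_ge (hρ0 z (hgU hz)) ((n : ℝ) + 1)
    have h2 := hw2 z hz ((n : ℝ) + 1) (by linarith)
    constructor
    · rw [le_div_iff₀ (by linarith)]
      linarith
    · rw [div_le_iff₀ (by linarith)]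
      nlinarith
  obtain ⟨C₅, hC₅⟩ := (isCompact_Icc (a := (-2 : ℝ)) (b := C₂)).exists_bound_of_continuousOn
    dch_cont.continuousOn
  -- the bounded functions
  have hg2c : Continuous fun q : E d × E d => g q.1 (A q.1 q.2) ^ 2 + g q.1 q.2 ^ 2 :=
    em_cont hU (g_cont hA hg) hQcl hgU fun q hq => by rw [hgT _ hq]; simp
  have hg2i := em_int hg2c hQc (fun q hq => by rw [hgT _ hq]; simp) hM
  have hXc : Continuous fun q : E d × E d => XA A g q.1 q.2 :=
    em_cont hU (XA_cont hU hA hg.contDiffOn) hQcl hgU fun q hq => XA_zero hQcl hgT hq _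
  have hXi := em_int hXc hQc (fun q hq => XA_zero hQcl hgT hq _) hM
  -- the limit of the errors
  have lim1 : Tendsto (fun n : ℕ => ∫ q, Ph A ρ ((n : ℝ) + 1) g q ∂ν) atTop (𝓝 0) := by
    have h0 : ∫ q : E d × E d, (0 : ℝ) ∂ν = 0 := integral_zero _ _
    rw [← h0]
    refine tendsto_integral_of_dominated_convergence
      (fun q : E d × E d => C₅ ^ 2 * (g q.1 (A q.1 q.2) ^ 2 + g q.1 q.2 ^ 2)) (fun n => ?_)
      (hg2i.const_mul _) (fun n => Eventually.of_forall fun q => ?_)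
      (Eventually.of_forall fun q => ?_)
    · have hΦ0 : ∀ q : E d × E d, q.1 ∉ tsupport g → Ph A ρ ((n : ℝ) + 1) g q = 0 := by
        intro q hq
        unfold Ph
        rw [hgT _ hq]
        simp
      exact (em_cont hU (Ph_cont hA hρ hρ0 _ hg) hQcl hgU hΦ0).aestronglyMeasurable
    · unfold Ph
      have h2 : 0 ≤ g q.1 (A q.1 q.2) ^ 2 + g q.1 q.2 ^ 2 := by positivity
      by_cases hq : q.1 ∈ tsupport g
      · have h1 := hC₅ _ (hrange q.1 hq n)
        rw [Real.norm_eq_abs] at h1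
        rw [Real.norm_eq_abs, abs_mul, abs_of_nonneg h2, abs_pow]
        exact mul_le_mul_of_nonneg_right (pow_le_pow_left₀ (abs_nonneg _) h1 2) h2
      · have h3 : g q.1 = 0 := hgT _ hq
        rw [h3]
        simp
    · unfold Ph
      by_cases hq : q.1 ∈ tsupport g
      · rcases (hρ0 q.1 (hgU hq)).eq_or_lt with h | h
        · have h1 : ∀ n : ℕ, deriv ch (wf ρ ((n : ℝ) + 1) q.1 / ((n : ℝ) + 1)) ^ 2 *
              (g q.1 (A q.1 q.2) ^ 2 + g q.1 q.2 ^ 2) = 0 := by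
            intro n
            rw [wf_lim_zero h.symm, dch_neg2]
            ring
          simp only [h1]
          exact tendsto_const_nhds
        · have h1 := ((dch_cont.tendsto 0).comp (wf_lim_pos h)).pow 2
          have h2 := h1.mul_const (g q.1 (A q.1 q.2) ^ 2 + g q.1 q.2 ^ 2)
          rw [dch_zero] at h2
          simpa using h2
      · have h3 : g q.1 = 0 := hgT _ hq
        rw [h3]
        simp
  -- the limit of the integrals
  have hY : MeasurableSet {q : E d × E d | q.1 ∈ {z | z ∈ U ∧ ρ z = 0}} := by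
    have h1 : IsOpen (U ∩ ρ ⁻¹' {0}ᶜ) :=
      hρ.continuousOn.isOpen_inter_preimage hU isOpen_compl_singleton
    have h2 : {z | z ∈ U ∧ ρ z = 0} = U \ (U ∩ ρ ⁻¹' {0}ᶜ) := by
      ext z
      simp only [mem_ofPred_eq, Set.mem_sdiff, mem_inter_iff, mem_preimage, mem_compl_iff,
        mem_singleton_iff]
      tauto
    rw [h2]
    exact measurable_fst (hU.measurableSet.diff h1.measurableSet)
  have lim2 : Tendsto (fun n : ℕ => ∫ q, ch (wf ρ ((n : ℝ) + 1) q.1 / ((n : ℝ) + 1)) *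
      XA A g q.1 q.2 ∂ν) atTop
      (𝓝 (∫ q in {q : E d × E d | q.1 ∈ {z | z ∈ U ∧ ρ z = 0}}, XA A g q.1 q.2 ∂ν)) := by
    rw [← integral_indicator hY]
    refine tendsto_integral_of_dominated_convergence
      (fun q : E d × E d => |XA A g q.1 q.2|) (fun n => ?_)
      hXi.abs (fun n => Eventually.of_forall fun q => ?_)
      (Eventually.of_forall fun q => ?_)
    · have hc : ContinuousOn (fun q : E d × E d =>
          ch (wf ρ ((n : ℝ) + 1) q.1 / ((n : ℝ) + 1)) * XA A g q.1 q.2) (U ×ˢ univ) := by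
        have h1 : ContinuousOn (fun q : E d × E d => wf ρ ((n : ℝ) + 1) q.1 / ((n : ℝ) + 1))
            (U ×ˢ univ) :=
          ((wf_smooth hρ hρ0 _).continuousOn.div_const _).comp continuousOn_fst fun q hq => hq.1
        exact (ch_smooth.continuous.comp_continuousOn h1).mul (XA_cont hU hA hg.contDiffOn)
      exact (em_cont hU hc hQcl hgU fun q hq => by
        rw [XA_zero hQcl hgT hq, mul_zero]).aestronglyMeasurable
    · rw [Real.norm_eq_abs, abs_mul, abs_of_nonneg (ch_nonneg _)]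
      exact mul_le_of_le_one_left (abs_nonneg _) (ch_le_one _)
    · by_cases hq : q.1 ∈ tsupport g
      · have hqU := hgU hq
        rcases (hρ0 q.1 hqU).eq_or_lt with h | h
        · rw [indicator_of_mem (show q ∈ {q : E d × E d | q.1 ∈ {z | z ∈ U ∧ ρ z = 0}} from
            ⟨hqU, h.symm⟩)]
          have h1 : ∀ n : ℕ, ch (wf ρ ((n : ℝ) + 1) q.1 / ((n : ℝ) + 1)) * XA A g q.1 q.2 =
              XA A g q.1 q.2 := by
            intro n
            rw [wf_lim_zero h.symm, ch_one (by norm_num), one_mul]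
          simp only [h1]
          exact tendsto_const_nhds
        · rw [indicator_of_notMem (fun hc : q ∈ {q : E d × E d | q.1 ∈ {z | z ∈ U ∧ ρ z = 0}} =>
            h.ne' hc.2)]
          have h1 := ((ch_smooth.continuous.tendsto 0).comp (wf_lim_pos h)).mul_const
            (XA A g q.1 q.2)
          rw [ch_zero (by norm_num : -(1 / 2 : ℝ) ≤ 0), zero_mul] at h1
          exact h1
      · have h2 : XA A g q.1 q.2 = 0 := XA_zero hQcl hgT hq _
        have h3 : ({q : E d × E d | q.1 ∈ {z | z ∈ U ∧ ρ z = 0}}.indicator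
            (fun q : E d × E d => XA A g q.1 q.2)) q = 0 := by
          by_cases hc : q ∈ {q : E d × E d | q.1 ∈ {z | z ∈ U ∧ ρ z = 0}}
          · rw [indicator_of_mem hc, h2]
          · rw [indicator_of_notMem hc]
        rw [h3, h2]
        simp
  -- the bound
  have hbd : ∀ t : ℝ, 0 < t →
      |∫ q in {q : E d × E d | q.1 ∈ {z | z ∈ U ∧ ρ z = 0}}, XA A g q.1 q.2 ∂ν| ≤ t * C₄ / 2 := by
    intro t ht
    have h1 : ∀ n : ℕ, |∫ q, ch (wf ρ ((n : ℝ) + 1) q.1 / ((n : ℝ) + 1)) * XA A g q.1 q.2 ∂ν| ≤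
        t * C₄ / 2 + 1 / (2 * t) * ∫ q, Ph A ρ ((n : ℝ) + 1) g q ∂ν := by
      intro n
      have hn : (1 : ℝ) ≤ (n : ℝ) + 1 := by
        have : (0 : ℝ) ≤ n := Nat.cast_nonneg n
        linarith
      have h2 := step_b hU hA hρ hρ0 hM hν hκ hκc hκU hg hgc hgU hκg (t := t)
        (L := (n : ℝ) + 1) ht
      have h3 := hen ((n : ℝ) + 1) hn
      have h4 : t / (2 * ((n : ℝ) + 1) ^ 2) * ∫ q, κ q.1 ^ 2 * Pf A (wf ρ ((n : ℝ) + 1)) q ∂ν ≤
          t / (2 * ((n : ℝ) + 1) ^ 2) * (C₄ * ((n : ℝ) + 1) ^ 2) :=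
        mul_le_mul_of_nonneg_left h3 (by positivity)
      have h5 : t / (2 * ((n : ℝ) + 1) ^ 2) * (C₄ * ((n : ℝ) + 1) ^ 2) = t * C₄ / 2 := by
        field_simp
      linarith
    have h6 := lim2.abs
    have h7 : Tendsto (fun n : ℕ => t * C₄ / 2 + 1 / (2 * t) * ∫ q, Ph A ρ ((n : ℝ) + 1) g q ∂ν)
        atTop (𝓝 (t * C₄ / 2)) := by
      have := (lim1.const_mul (1 / (2 * t))).const_add (t * C₄ / 2)
      simpa using this
    exact le_of_tendsto_of_tendsto' h6 h7 h1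
  rw [← abs_nonpos_iff]
  refine le_of_forall_pos_le_add fun e he => ?_
  have h1 := hbd (2 * e / (C₄ + 1)) (by positivity)
  have h2 : 2 * e / (C₄ + 1) * C₄ / 2 = e * (C₄ / (C₄ + 1)) := by
    field_simp
  have h3 : C₄ / (C₄ + 1) ≤ 1 := by
    rw [div_le_one (by linarith)]
    linarith
  rw [h2] at h1
  nlinarith

end Pool.Agent.H819.EM
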