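import Mathlib
import Pool.Agent.H819.EM.ElMir

/-!
# The extension theorem of El Mir and Skoda
-/

set_option autoImplicit false

open Set Filter Topology MeasureTheory Metric
open scoped ContDiff ENNReal NNReal

noncomputable section

namespace Pool.Agent.H819.EM

open Pool.Agent.Y501.SY (E)

variable {d : ℕ}

/-! ### the first estimate off the zero set -/

theorem amgm {X α β : ℝ} (hα : 0 ≤ α) (hβ : 0 ≤ β) (h : X ^ 2 ≤ α * β) : |X| ≤ α / 4 + β := by
  refine abs_le_of_sq_le_sq ?_ (by positivity)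
  nlinarith [sq_nonneg (α / 4 - β)]

theorem ineq_a2 {k Θ s H l S a b x y C₁ n M D B : ℝ} (hk0 : 0 ≤ k) (hk1 : k ≤ 1) (hΘ0 : 0 ≤ Θ)
    (hΘ1 : Θ ≤ 1) (hH : Θ ≤ H) (hG0 : 0 ≤ Θ * s) (hs : s ^ 2 ≤ B ^ 2) (hGB : Θ * s ≤ B ^ 2)
    (hS : S ^ 2 = x ^ 2 + y ^ 2) (hC : 0 ≤ C₁) (hn0 : 0 ≤ n) (hn : n ≤ M)
    (hl : -(C₁ * (n ^ 2 + n * S)) ≤ l) (hD : a ^ 2 + b ^ 2 ≤ D) :
    1 / 2 * (k ^ 2 * Θ * (x ^ 2 + y ^ 2)) - B ^ 2 * (C₁ * M ^ 2 + C₁ ^ 2 * M ^ 2 + 4 * D) ≤
      k ^ 2 * (Θ * s) * l + k ^ 2 * H * (x ^ 2 + y ^ 2) + 2 * k * (Θ * s) * (a * x + b * y) := by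
  have hk2 : k ^ 2 ≤ 1 := pow_le_one₀ hk0 hk1
  have hk20 : 0 ≤ k ^ 2 := sq_nonneg k
  have hn2 : n ^ 2 ≤ M ^ 2 := pow_le_pow_left₀ hn0 hn 2
  have hD0 : 0 ≤ a ^ 2 + b ^ 2 := by positivity
  have hB2 : 0 ≤ B ^ 2 := sq_nonneg B
  have hs0 : 0 ≤ s ^ 2 := sq_nonneg s
  have hH0 : 0 ≤ H := hΘ0.trans hH
  have hΘ2 : Θ ^ 2 ≤ H := by nlinarith
  have hP : 0 ≤ x ^ 2 + y ^ 2 := by positivity
  -- the term with `l`
  have h1 : k ^ 2 * (Θ * s) * -(C₁ * (n ^ 2 + n * S)) ≤ k ^ 2 * (Θ * s) * l :=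
    mul_le_mul_of_nonneg_left hl (mul_nonneg hk20 hG0)
  have h2 : |Θ * s * C₁ * n * S| ≤ H * (x ^ 2 + y ^ 2) / 4 + C₁ ^ 2 * n ^ 2 * s ^ 2 := by
    refine amgm (mul_nonneg hH0 hP) (by positivity) ?_
    have e : (Θ * s * C₁ * n * S) ^ 2 = Θ ^ 2 * ((x ^ 2 + y ^ 2) * (C₁ ^ 2 * n ^ 2 * s ^ 2)) := by
      rw [← hS]
      ring
    rw [e, mul_assoc H]
    exact mul_le_mul_of_nonneg_right hΘ2 (by positivity)
  have h3 : k ^ 2 * (Θ * s * C₁ * n * S) ≤
      k ^ 2 * (H * (x ^ 2 + y ^ 2) / 4 + C₁ ^ 2 * n ^ 2 * s ^ 2) :=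
    mul_le_mul_of_nonneg_left ((le_abs_self _).trans h2) hk20
  have h4 : k ^ 2 * (C₁ ^ 2 * n ^ 2 * s ^ 2) ≤ B ^ 2 * (C₁ ^ 2 * M ^ 2) := by
    calc k ^ 2 * (C₁ ^ 2 * n ^ 2 * s ^ 2) ≤ 1 * (C₁ ^ 2 * n ^ 2 * s ^ 2) :=
          mul_le_mul_of_nonneg_right hk2 (by positivity)
      _ = C₁ ^ 2 * (s ^ 2 * n ^ 2) := by ring
      _ ≤ C₁ ^ 2 * (B ^ 2 * M ^ 2) :=
          mul_le_mul_of_nonneg_left (mul_le_mul hs hn2 (sq_nonneg _) hB2) (sq_nonneg _)
      _ = _ := by ring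
  have h5 : k ^ 2 * (C₁ * (Θ * s) * n ^ 2) ≤ B ^ 2 * (C₁ * M ^ 2) := by
    calc k ^ 2 * (C₁ * (Θ * s) * n ^ 2) ≤ 1 * (C₁ * (Θ * s) * n ^ 2) :=
          mul_le_mul_of_nonneg_right hk2 (by positivity)
      _ = C₁ * ((Θ * s) * n ^ 2) := by ring
      _ ≤ C₁ * (B ^ 2 * M ^ 2) :=
          mul_le_mul_of_nonneg_left (mul_le_mul hGB hn2 (sq_nonneg _) hB2) hC
      _ = _ := by ring
  -- the term with the derivative of the cut-off function
  have hx : ∀ a x : ℝ, -(k ^ 2 * H * x ^ 2 / 4 + 4 * s ^ 2 * a ^ 2) ≤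
      2 * k * (Θ * s) * (a * x) := by
    intro a x
    have h6 : |2 * k * (Θ * s) * (a * x)| ≤ k ^ 2 * H * x ^ 2 / 4 + 4 * s ^ 2 * a ^ 2 := by
      refine amgm (by positivity) (by positivity) ?_
      have e : (2 * k * (Θ * s) * (a * x)) ^ 2 = Θ ^ 2 * (k ^ 2 * x ^ 2 * (4 * s ^ 2 * a ^ 2)) := by
        ring
      have e' : k ^ 2 * H * x ^ 2 * (4 * s ^ 2 * a ^ 2) =
          H * (k ^ 2 * x ^ 2 * (4 * s ^ 2 * a ^ 2)) := by ring
      rw [e, e']
      exact mul_le_mul_of_nonneg_right hΘ2 (by positivity)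
    exact (abs_le.1 h6).1
  have h6 := hx a x
  have h7 := hx b y
  have h8 : 4 * s ^ 2 * (a ^ 2 + b ^ 2) ≤ B ^ 2 * (4 * D) := by
    calc 4 * s ^ 2 * (a ^ 2 + b ^ 2) = 4 * (s ^ 2 * (a ^ 2 + b ^ 2)) := by ring
      _ ≤ 4 * (B ^ 2 * D) :=
          mul_le_mul_of_nonneg_left (mul_le_mul hs hD hD0 hB2) (by norm_num)
      _ = _ := by ring
  have h9 : k ^ 2 * Θ * (x ^ 2 + y ^ 2) ≤ k ^ 2 * H * (x ^ 2 + y ^ 2) :=
    mul_le_mul_of_nonneg_right (mul_le_mul_of_nonneg_left hH hk20) hP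
  nlinarith

theorem th_smooth : ContDiff ℝ ∞ Real.smoothTransition := Real.smoothTransition.contDiff

theorem th_deriv (s : ℝ) : 0 ≤ s * deriv Real.smoothTransition s := by
  rcases le_or_gt 0 s with h | h
  · exact mul_nonneg h Real.smoothTransition.monotone.deriv_nonneg
  · have h1 : Real.smoothTransition =ᶠ[𝓝 s] fun _ => 0 := by
      filter_upwards [Iio_mem_nhds h] with t ht
      exact Real.smoothTransition.zero_of_nonpos (le_of_lt ht)
    rw [h1.deriv_eq, deriv_const, mul_zero]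

theorem th_mul_nonneg (s : ℝ) : 0 ≤ Real.smoothTransition s * s := by
  rcases le_or_gt 0 s with h | h
  · exact mul_nonneg (Real.smoothTransition.nonneg s) h
  · rw [Real.smoothTransition.zero_of_nonpos h.le, zero_mul]

/-- **the energy estimate** -/
theorem step_a2 {U : Set (E d)} (hU : IsOpen U) {A : E d → E d →L[ℝ] E d}
    (hA : ContDiffOn ℝ ∞ A U) (hA2 : ∀ z ∈ U, ∀ u, A z (A z u) = -u) {ρ : E d → ℝ}
    (hρ : ContDiffOn ℝ ∞ ρ U) (hρ0 : ∀ z ∈ U, 0 ≤ ρ z) {C₁ : ℝ} (hC₁ : 0 ≤ C₁)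
    (hL : LogEst A ρ U C₁) {ν : Measure (E d × E d)} [IsFiniteMeasure ν] {M : ℝ}
    (hM : ∀ᵐ q ∂ν, ‖q.2‖ ≤ M) (hν : ClosedOn (U ∩ {z | ρ z ≠ 0}) A ν univ) {κ : E d → ℝ}
    (hκ : ContDiff ℝ ∞ κ)
    (hκc : HasCompactSupport κ) (hκU : tsupport κ ⊆ U) (hκ0 : ∀ z, 0 ≤ κ z) (hκ1 : ∀ z, κ z ≤ 1) :
    ∃ C₄ : ℝ, 0 ≤ C₄ ∧ ∀ L : ℝ, 1 ≤ L →
      ∫ q, κ q.1 ^ 2 * Real.smoothTransition (wf ρ L q.1 + (2 * L - 1)) * Pf A (wf ρ L) q ∂ν ≤
        C₄ * L ^ 2 := by
  have hTc : IsCompact (tsupport κ) := hκc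
  have hTcl : IsClosed (tsupport κ) := isClosed_tsupport κ
  have hκT : ∀ z, z ∉ tsupport κ → κ z = 0 := fun z hz => image_eq_zero_of_notMem_tsupport hz
  obtain ⟨C₂, hC₂, hw2⟩ := wf_le hTc (hρ.continuousOn.mono hκU) fun z hz => hρ0 z (hκU hz)
  -- the bound for the derivative of the cut-off function
  obtain ⟨D, hD0, hD⟩ : ∃ D : ℝ, 0 ≤ D ∧ ∀ q : E d × E d, ‖q.2‖ ≤ M → q.1 ∈ tsupport κ →
      Pf A κ q ≤ D := by
    obtain ⟨D, hD⟩ := (hTc.prod (isCompact_closedBall (0 : E d) M)).exists_bound_of_continuousOn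
      ((Pf_cont hU hA hκ.contDiffOn).mono (prod_mono hκU (subset_univ _)))
    exact ⟨max D 0, le_max_right _ _, fun q hq hq' => (le_abs_self _).trans
      ((hD q ⟨hq', mem_closedBall_zero_iff.2 hq⟩).trans (le_max_left _ _))⟩
  obtain ⟨C₃, hC₃⟩ : ∃ C₃ : ℝ, C₃ = (2 + C₂) ^ 2 * (C₁ * M ^ 2 + C₁ ^ 2 * M ^ 2 + 4 * D) := ⟨_, rfl⟩
  have hC₃0 : 0 ≤ C₃ := by
    rw [hC₃]
    positivity
  refine ⟨2 * (C₃ * ν.real univ), by positivity, fun L hL1 => ?_⟩
  obtain ⟨w, hw⟩ : ∃ w : E d → ℝ, w = wf ρ L := ⟨_, rfl⟩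
  rw [← hw]
  have hws : ContDiffOn ℝ ∞ w U := by
    rw [hw]
    exact wf_smooth hρ hρ0 L
  have hwf : ContDiffOn ℝ ∞ (fderiv ℝ w) U := hws.fderiv_of_isOpen hU (by simp)
  -- the test form
  obtain ⟨g, hg⟩ : ∃ g : E d → E d →L[ℝ] ℝ, g = fun z => -(fderiv ℝ w z).comp (A z) := ⟨_, rfl⟩
  obtain ⟨sf, hsf⟩ : ∃ sf : E d → ℝ, sf = fun z => w z + (2 * L - 1) := ⟨_, rfl⟩
  have hsfz : ∀ z, sf z = w z + (2 * L - 1) := fun z => by rw [hsf]
  have hsfs : ContDiffOn ℝ ∞ sf U := by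
    rw [hsf]
    exact hws.add contDiffOn_const
  obtain ⟨h, hh⟩ : ∃ h : E d → ℝ,
      h = fun z => κ z ^ 2 * (Real.smoothTransition (sf z) * sf z) := ⟨_, rfl⟩
  have hhz : ∀ z, h z = κ z ^ 2 * (Real.smoothTransition (sf z) * sf z) := fun z => by rw [hh]
  have hgs : ContDiffOn ℝ ∞ g U := by
    rw [hg]
    exact (hwf.clm_comp hA).neg
  have hhs : ContDiffOn ℝ ∞ h U := by
    rw [hh]
    exact (hκ.contDiffOn.pow 2).mul ((th_smooth.comp_contDiffOn hsfs).mul hsfs)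
  -- the support of the test form
  obtain ⟨r, hr⟩ : ∃ r : ℝ, r = Real.exp (1 - 2 * L) - Real.exp (-L) ^ 2 := ⟨_, rfl⟩
  have hr0 : 0 < r := by
    rw [hr, ← Real.exp_nat_mul, sub_pos, Real.exp_lt_exp]
    push_cast
    linarith
  obtain ⟨T, hTd⟩ : ∃ T : Set (E d), T = tsupport κ ∩ ρ ⁻¹' Ici r := ⟨_, rfl⟩
  have hTcl' : IsClosed T := by
    rw [hTd]
    exact (hρ.continuousOn.mono hκU).preimage_isClosed_of_isClosed hTcl isClosed_Ici
  have hTsub : T ⊆ tsupport κ := by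
    rw [hTd]
    exact inter_subset_left
  have hTU : T ⊆ U ∩ {z | ρ z ≠ 0} := by
    intro z hz
    refine ⟨hκU (hTsub hz), ?_⟩
    rw [hTd] at hz
    have h1 : r ≤ ρ z := hz.2
    exact (lt_of_lt_of_le hr0 h1).ne'
  have hh0 : ∀ z, z ∉ T → h z = 0 := by
    intro z hz
    rw [hhz]
    by_cases hz' : z ∈ tsupport κ
    · have h1 : ρ z < r := by
        by_contra hc
        exact hz (by rw [hTd]; exact ⟨hz', not_lt.1 hc⟩)
      have h2 : sf z ≤ 0 := by
        have h3 : w z ≤ 1 - 2 * L := by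
          rw [hw]
          unfold wf
          have h4 := hρ0 z (hκU hz')
          have h5 : Real.log (ρ z + Real.exp (-L) ^ 2) ≤ Real.log (Real.exp (1 - 2 * L)) := by
            refine Real.log_le_log (by positivity) ?_
            rw [hr] at h1
            linarith
          rwa [Real.log_exp] at h5
        rw [hsfz]
        linarith
      rw [Real.smoothTransition.zero_of_nonpos h2]
      ring
    · rw [hκT z hz']
      ring
  have hb0 : ∀ z, z ∉ T → h z • g z = 0 := fun z hz => by rw [hh0 z hz, zero_smul]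
  have hb0' : ∀ z, z ∉ tsupport κ → h z • g z = 0 := fun z hz => hb0 z fun hc => hz (hTsub hc)
  have hbs : ContDiff ℝ ∞ fun z => h z • g z :=
    em_smooth hU (hhs.smul hgs) hTcl' (hTsub.trans hκU) hb0
  have hbt : tsupport (fun z => h z • g z) ⊆ T := by
    refine closure_minimal (fun z hz => ?_) hTcl'
    by_contra hc
    exact hz (hb0 z hc)
  have hcl := closed_iff.1 hν _ hbs (hTc.of_isClosed_subset (isClosed_tsupport _)
    (hbt.trans hTsub)) (hbt.trans hTU)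
  have hcl' : ∫ q : E d × E d, XA A (fun z => h z • g z) q.1 q.2 ∂ν = 0 := by
    have e : {q : E d × E d | q.1 ∈ univ} = univ := by
      ext q
      simp
    rwa [e, Measure.restrict_univ] at hcl
  have hXc : Continuous fun q : E d × E d => XA A (fun z => h z • g z) q.1 q.2 :=
    em_cont hU (XA_cont hU hA hbs.contDiffOn) hTcl hκU fun q hq => XA_zero hTcl hb0' hq _
  have hXi := em_int hXc hTc (fun q hq => XA_zero hTcl hb0' hq _) hM
  have hPc : Continuous fun q : E d × E d => κ q.1 ^ 2 *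
      Real.smoothTransition (w q.1 + (2 * L - 1)) * Pf A w q := by
    refine em_cont hU ?_ hTcl hκU fun q hq => by rw [hκT _ hq]; ring
    have h1 : ContinuousOn (fun q : E d × E d => Real.smoothTransition (w q.1 + (2 * L - 1)))
        (U ×ˢ univ) :=
      Real.smoothTransition.continuous.comp_continuousOn
        ((hws.continuousOn.comp continuousOn_fst fun q hq => hq.1).add continuousOn_const)
    exact (((hκ.continuous.comp continuous_fst).pow 2).continuousOn.mul h1).mul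
      (Pf_cont hU hA hws)
  have hPi := em_int hPc hTc (fun q hq => by rw [hκT _ hq]; ring) hM
  -- the pointwise estimate
  have hpt : ∀ᵐ q ∂ν, 1 / 2 * (κ q.1 ^ 2 * Real.smoothTransition (w q.1 + (2 * L - 1)) *
      Pf A w q) - L ^ 2 * C₃ ≤ XA A (fun z => h z • g z) q.1 q.2 := by
    filter_upwards [hM] with q hq
    by_cases hqT : q.1 ∈ tsupport κ
    · have hqU := hκU hqT
      have hn := hU.mem_nhds hqU
      have dw : DifferentiableAt ℝ w q.1 := (hws.contDiffAt hn).differentiableAt (by simp)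
      have dk : DifferentiableAt ℝ κ q.1 := hκ.differentiable (by simp) q.1
      have dh : DifferentiableAt ℝ h q.1 := (hhs.contDiffAt hn).differentiableAt (by simp)
      have dg : DifferentiableAt ℝ g q.1 := (hgs.contDiffAt hn).differentiableAt (by simp)
      have dA : DifferentiableAt ℝ A q.1 := (hA.contDiffAt hn).differentiableAt (by simp)
      have dwf : DifferentiableAt ℝ (fderiv ℝ w) q.1 :=
        (hwf.contDiffAt hn).differentiableAt (by simp)
      rw [XA_smul dh dg]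
      have e1 : XA A g q.1 q.2 = LA A w q.1 q.2 := by
        rw [hg]
        exact XA_bf dA dwf (hA2 q.1 hqU) q.2
      have e2 : g q.1 (A q.1 q.2) = fderiv ℝ w q.1 q.2 := by
        rw [hg]
        show -(fderiv ℝ w q.1 (A q.1 (A q.1 q.2))) = _
        rw [hA2 q.1 hqU, map_neg, neg_neg]
      have e3 : g q.1 q.2 = -fderiv ℝ w q.1 (A q.1 q.2) := by
        rw [hg]
        rfl
      have e4 : ∀ v, fderiv ℝ h q.1 v = κ q.1 ^ 2 * (Real.smoothTransition (sf q.1) +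
          sf q.1 * deriv Real.smoothTransition (sf q.1)) * fderiv ℝ w q.1 v +
          2 * κ q.1 * (Real.smoothTransition (sf q.1) * sf q.1) * fderiv ℝ κ q.1 v := by
        intro v
        have h2 : HasFDerivAt (fun z => κ z ^ 2) ((2 * κ q.1) • fderiv ℝ κ q.1) q.1 := by
          have h3 := dk.hasFDerivAt.mul dk.hasFDerivAt
          have e : (fun z => κ z ^ 2) = fun z => κ z * κ z := by
            funext z
            ring
          rw [e]
          have e2 : κ q.1 • fderiv ℝ κ q.1 + κ q.1 • fderiv ℝ κ q.1 =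
              (2 * κ q.1) • fderiv ℝ κ q.1 := by
            rw [two_mul, add_smul]
          rw [← e2]
          exact h3
        have h3 : HasFDerivAt sf (fderiv ℝ w q.1) q.1 := by
          rw [hsf]
          exact dw.hasFDerivAt.add_const (2 * L - 1)
        have h4 : HasDerivAt Real.smoothTransition (deriv Real.smoothTransition (sf q.1))
            (sf q.1) := (th_smooth.differentiable (by simp) _).hasDerivAt
        have h5 : HasFDerivAt (fun z => Real.smoothTransition (sf z))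
            (deriv Real.smoothTransition (sf q.1) • fderiv ℝ w q.1) q.1 :=
          HasDerivAt.comp_hasFDerivAt (h₂ := Real.smoothTransition) (f := sf) q.1 h4 h3
        have h6 : HasFDerivAt (fun z => Real.smoothTransition (sf z) * sf z)
            (Real.smoothTransition (sf q.1) • fderiv ℝ w q.1 +
              sf q.1 • (deriv Real.smoothTransition (sf q.1) • fderiv ℝ w q.1)) q.1 :=
          h5.mul h3
        have h7 : HasFDerivAt h (κ q.1 ^ 2 • (Real.smoothTransition (sf q.1) • fderiv ℝ w q.1 +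
              sf q.1 • (deriv Real.smoothTransition (sf q.1) • fderiv ℝ w q.1)) +
            (Real.smoothTransition (sf q.1) * sf q.1) • ((2 * κ q.1) • fderiv ℝ κ q.1)) q.1 := by
          rw [hh]
          exact h2.mul h6
        rw [h7.fderiv]
        simp only [add_apply, smul_apply, smul_eq_mul]
        ring
      rw [e1, e2, e3, e4, e4]
      have hl := hL q.1 hqU (Real.exp (-L)) (Real.exp_pos _) (by
        rw [Real.exp_le_one_iff]
        linarith) q.2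
      have hl' : -(C₁ * (‖q.2‖ ^ 2 + ‖q.2‖ * Real.sqrt (fderiv ℝ w q.1 q.2 ^ 2 +
          fderiv ℝ w q.1 (A q.1 q.2) ^ 2))) ≤ LA A w q.1 q.2 := by
        rw [hw]
        exact hl
      have hs0 : -1 ≤ sf q.1 := by
        have := wf_ge (hρ0 q.1 hqU) L
        rw [← hw] at this
        rw [hsfz]
        linarith
      have hB1 : 1 ≤ (2 + C₂) * L := by nlinarith
      have hs1 : sf q.1 ≤ (2 + C₂) * L := by
        have := hw2 q.1 hqT L (by linarith)
        rw [← hw] at this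
        rw [hsfz]
        nlinarith
      have hs2 : sf q.1 ^ 2 ≤ ((2 + C₂) * L) ^ 2 := by
        have h1 : |sf q.1| ≤ (2 + C₂) * L := abs_le.2 ⟨by linarith, hs1⟩
        rw [← sq_abs]
        exact pow_le_pow_left₀ (abs_nonneg _) h1 2
      have hGB : Real.smoothTransition (sf q.1) * sf q.1 ≤ ((2 + C₂) * L) ^ 2 := by
        have h1 : Real.smoothTransition (sf q.1) * sf q.1 ≤ (2 + C₂) * L := by
          rcases le_or_gt 0 (sf q.1) with h2 | h2
          · exact (mul_le_of_le_one_left h2 (Real.smoothTransition.le_one _)).trans hs1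
          · rw [Real.smoothTransition.zero_of_nonpos h2.le, zero_mul]
            linarith
        refine h1.trans ?_
        nlinarith
      have key := ineq_a2 (hκ0 q.1) (hκ1 q.1) (Real.smoothTransition.nonneg (sf q.1))
        (Real.smoothTransition.le_one (sf q.1))
        (le_add_of_nonneg_right (th_deriv (sf q.1))) (th_mul_nonneg (sf q.1)) hs2 hGB
        (Real.sq_sqrt (by positivity : 0 ≤ fderiv ℝ w q.1 q.2 ^ 2 +
          fderiv ℝ w q.1 (A q.1 q.2) ^ 2)) hC₁ (norm_nonneg q.2) hq hl' (hD q hq hqT)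
      have e5 : ((2 + C₂) * L) ^ 2 * (C₁ * M ^ 2 + C₁ ^ 2 * M ^ 2 + 4 * D) = L ^ 2 * C₃ := by
        rw [hC₃]
        ring
      rw [e5] at key
      refine (le_of_eq ?_).trans (key.trans (le_of_eq ?_))
      · rw [← hsfz]
        rfl
      · rw [hhz]
        ring
    · rw [XA_zero hTcl hb0' hqT, hκT _ hqT]
      have : 0 ≤ L ^ 2 * C₃ := by positivity
      linarith
  have hint := integral_mono_ae ((hPi.const_mul (1 / 2)).sub (integrable_const (L ^ 2 * C₃))) hXi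
    hpt
  rw [hcl'] at hint
  have e6 : ∫ q : E d × E d, (1 / 2 * (κ q.1 ^ 2 * Real.smoothTransition (w q.1 + (2 * L - 1)) *
      Pf A w q) - L ^ 2 * C₃) ∂ν =
      1 / 2 * ∫ q : E d × E d, κ q.1 ^ 2 * Real.smoothTransition (w q.1 + (2 * L - 1)) *
        Pf A w q ∂ν - L ^ 2 * C₃ * ν.real univ := by
    rw [integral_sub (hPi.const_mul (1 / 2)) (integrable_const _), integral_const_mul,
      integral_const, smul_eq_mul]
    ring
  have hint' : 1 / 2 * ∫ q : E d × E d, κ q.1 ^ 2 * Real.smoothTransition (w q.1 + (2 * L - 1)) *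
      Pf A w q ∂ν - L ^ 2 * C₃ * ν.real univ ≤ 0 := by
    rw [← e6]
    exact hint
  linarith


/-! ### the second estimate off the zero set -/

theorem dch_left {t : ℝ} (h : deriv ch t ≠ 0) : -(3 / 2) ≤ t := by
  by_contra hc
  apply h
  have h1 : ch =ᶠ[𝓝 t] fun _ => 1 := by
    filter_upwards [Iio_mem_nhds (not_le.1 hc)] with s hs
    exact ch_one (le_of_lt hs)
  rw [h1.deriv_eq, deriv_const]

theorem step_b2 {U : Set (E d)} (hU : IsOpen U) {A : E d → E d →L[ℝ] E d}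
    (hA : ContDiffOn ℝ ∞ A U) {ρ : E d → ℝ}
    (hρ : ContDiffOn ℝ ∞ ρ U) (hρ0 : ∀ z ∈ U, 0 ≤ ρ z)
    {ν : Measure (E d × E d)} [IsFiniteMeasure ν] {M : ℝ}
    (hM : ∀ᵐ q ∂ν, ‖q.2‖ ≤ M) (hν : ClosedOn (U ∩ {z | ρ z ≠ 0}) A ν univ) {κ : E d → ℝ}
    (hκ : ContDiff ℝ ∞ κ) (hκc : HasCompactSupport κ) (hκU : tsupport κ ⊆ U)
    {g : E d → E d →L[ℝ] ℝ} (hg : ContDiff ℝ ∞ g) (hgc : HasCompactSupport g)
    (hgU : tsupport g ⊆ U) (hκg : ∀ z ∈ tsupport g, κ z = 1) {t L : ℝ} (ht : 0 < t)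
    (hL4 : 4 ≤ L) :
    |∫ q, (1 - ch (wf ρ L q.1 / L)) * XA A g q.1 q.2 ∂ν| ≤
      t / (2 * L ^ 2) * ∫ q, κ q.1 ^ 2 * Real.smoothTransition (wf ρ L q.1 + (2 * L - 1)) *
        Pf A (wf ρ L) q ∂ν + 1 / (2 * t) * ∫ q, Ph A ρ L g q ∂ν := by
  have hTc : IsCompact (tsupport κ) := hκc
  have hTcl : IsClosed (tsupport κ) := isClosed_tsupport κ
  have hκT : ∀ z, z ∉ tsupport κ → κ z = 0 := fun z hz => image_eq_zero_of_notMem_tsupport hz
  have hQc : IsCompact (tsupport g) := hgc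
  have hQcl : IsClosed (tsupport g) := isClosed_tsupport g
  have hgT : ∀ z, z ∉ tsupport g → g z = 0 := fun z hz => image_eq_zero_of_notMem_tsupport hz
  obtain ⟨w, hw⟩ : ∃ w : E d → ℝ, w = wf ρ L := ⟨_, rfl⟩
  have hws : ContDiffOn ℝ ∞ w U := by
    rw [hw]
    exact wf_smooth hρ hρ0 L
  rw [← hw]
  obtain ⟨h, hh⟩ : ∃ h : E d → ℝ, h = fun z => 1 - ch (w z / L) := ⟨_, rfl⟩
  have hhz : ∀ z, h z = 1 - ch (w z / L) := fun z => by rw [hh]
  have hhs : ContDiffOn ℝ ∞ h U := by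
    rw [hh]
    exact contDiffOn_const.sub (ch_smooth.comp_contDiffOn (hws.div_const L))
  -- the support of the test form
  obtain ⟨r, hr⟩ : ∃ r : ℝ, r = Real.exp (-(3 / 2) * L) - Real.exp (-L) ^ 2 := ⟨_, rfl⟩
  have hr0 : 0 < r := by
    rw [hr, ← Real.exp_nat_mul, sub_pos, Real.exp_lt_exp]
    push_cast
    linarith
  obtain ⟨T, hTd⟩ : ∃ T : Set (E d), T = tsupport g ∩ ρ ⁻¹' Ici r := ⟨_, rfl⟩
  have hTcl' : IsClosed T := by
    rw [hTd]
    exact (hρ.continuousOn.mono hgU).preimage_isClosed_of_isClosed hQcl isClosed_Ici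
  have hTsub : T ⊆ tsupport g := by
    rw [hTd]
    exact inter_subset_left
  have hTU : T ⊆ U ∩ {z | ρ z ≠ 0} := by
    intro z hz
    refine ⟨hgU (hTsub hz), ?_⟩
    rw [hTd] at hz
    have h1 : r ≤ ρ z := hz.2
    exact (lt_of_lt_of_le hr0 h1).ne'
  have hb0 : ∀ z, z ∉ T → h z • g z = 0 := by
    intro z hz
    by_cases hz' : z ∈ tsupport g
    · have h1 : ρ z < r := by
        by_contra hc
        exact hz (by rw [hTd]; exact ⟨hz', not_lt.1 hc⟩)
      have h2 : w z / L ≤ -(3 / 2) := by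
        rw [div_le_iff₀ (by linarith)]
        rw [hw]
        unfold wf
        have h4 := hρ0 z (hgU hz')
        have h5 : Real.log (ρ z + Real.exp (-L) ^ 2) ≤
            Real.log (Real.exp (-(3 / 2) * L)) := by
          refine Real.log_le_log (by positivity) ?_
          rw [hr] at h1
          linarith
        rwa [Real.log_exp] at h5
      rw [hhz, ch_one h2, sub_self, zero_smul]
    · rw [hgT z hz', smul_zero]
  have hb0' : ∀ z, z ∉ tsupport g → h z • g z = 0 := fun z hz => hb0 z fun hc => hz (hTsub hc)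
  have hbs : ContDiff ℝ ∞ fun z => h z • g z :=
    em_smooth hU (hhs.smul hg.contDiffOn) hQcl hgU hb0'
  have hbt : tsupport (fun z => h z • g z) ⊆ T := by
    refine closure_minimal (fun z hz => ?_) hTcl'
    by_contra hc
    exact hz (hb0 z hc)
  have hcl := closed_iff.1 hν _ hbs (hQc.of_isClosed_subset (isClosed_tsupport _)
    (hbt.trans hTsub)) (hbt.trans hTU)
  have hcl' : ∫ q : E d × E d, XA A (fun z => h z • g z) q.1 q.2 ∂ν = 0 := by
    have e : {q : E d × E d | q.1 ∈ univ} = univ := by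
      ext q
      simp
    rwa [e, Measure.restrict_univ] at hcl
  have hXc : Continuous fun q : E d × E d => XA A (fun z => h z • g z) q.1 q.2 :=
    em_cont hU (XA_cont hU hA hbs.contDiffOn) hQcl hgU fun q hq => XA_zero hQcl hb0' hq _
  have hXi := em_int hXc hQc (fun q hq => XA_zero hQcl hb0' hq _) hM
  have hYc : Continuous fun q : E d × E d => h q.1 * XA A g q.1 q.2 := by
    refine em_cont hU ?_ hQcl hgU fun q hq => by rw [XA_zero hQcl hgT hq, mul_zero]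
    exact (hhs.continuousOn.comp continuousOn_fst fun q hq => hq.1).mul
      (XA_cont hU hA hg.contDiffOn)
  have hYi := em_int hYc hQc (fun q hq => by rw [XA_zero hQcl hgT hq, mul_zero]) hM
  have hPc : Continuous fun q : E d × E d => κ q.1 ^ 2 *
      Real.smoothTransition (w q.1 + (2 * L - 1)) * Pf A w q := by
    refine em_cont hU ?_ hTcl hκU fun q hq => by rw [hκT _ hq]; ring
    have h1 : ContinuousOn (fun q : E d × E d => Real.smoothTransition (w q.1 + (2 * L - 1)))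
        (U ×ˢ univ) :=
      Real.smoothTransition.continuous.comp_continuousOn
        ((hws.continuousOn.comp continuousOn_fst fun q hq => hq.1).add continuousOn_const)
    exact (((hκ.continuous.comp continuous_fst).pow 2).continuousOn.mul h1).mul
      (Pf_cont hU hA hws)
  have hPi := em_int hPc hTc (fun q hq => by rw [hκT _ hq]; ring) hM
  have hΦ0 : ∀ q : E d × E d, q.1 ∉ tsupport g → Ph A ρ L g q = 0 := by
    intro q hq
    unfold Ph
    rw [hgT _ hq]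
    simp
  have hΦc : Continuous (Ph A ρ L g) := em_cont hU (Ph_cont hA hρ hρ0 L hg) hQcl hgU hΦ0
  have hΦi := em_int hΦc hQc hΦ0 hM
  have hP0 : ∀ q : E d × E d, 0 ≤ Pf A w q := by
    intro q
    unfold Pf
    positivity
  have hPh0 : ∀ q : E d × E d, 0 ≤ Ph A ρ L g q := by
    intro q
    unfold Ph
    positivity
  have hRHS : ∀ q : E d × E d, 0 ≤ t / (2 * L ^ 2) * (κ q.1 ^ 2 *
      Real.smoothTransition (w q.1 + (2 * L - 1)) * Pf A w q) + 1 / (2 * t) * Ph A ρ L g q := by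
    intro q
    have h1 := hP0 q
    have h2 := hPh0 q
    have h3 := Real.smoothTransition.nonneg (w q.1 + (2 * L - 1))
    positivity
  -- the pointwise estimate
  have hpt : ∀ q : E d × E d, |h q.1 * XA A g q.1 q.2 - XA A (fun z => h z • g z) q.1 q.2| ≤
      t / (2 * L ^ 2) * (κ q.1 ^ 2 * Real.smoothTransition (w q.1 + (2 * L - 1)) * Pf A w q) +
        1 / (2 * t) * Ph A ρ L g q := by
    intro q
    by_cases hqQ : q.1 ∈ tsupport g
    · have hqU := hgU hqQ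
      have hn := hU.mem_nhds hqU
      have dw : DifferentiableAt ℝ w q.1 := (hws.contDiffAt hn).differentiableAt (by simp)
      have dh : DifferentiableAt ℝ h q.1 := (hhs.contDiffAt hn).differentiableAt (by simp)
      have dg : DifferentiableAt ℝ g q.1 := hg.differentiable (by simp) q.1
      have e4 : ∀ v, fderiv ℝ h q.1 v = -(deriv ch (w q.1 / L) * (fderiv ℝ w q.1 v / L)) := by
        intro v
        have h1 : HasDerivAt ch (deriv ch (w q.1 / L)) (w q.1 / L) :=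
          (ch_smooth.differentiable (by simp) _).hasDerivAt
        have h2 : HasFDerivAt (fun z => w z / L) (L⁻¹ • fderiv ℝ w q.1) q.1 := by
          have h3 := dw.hasFDerivAt.const_smul L⁻¹
          have e : (fun z => w z / L) = fun z => L⁻¹ • w z := by
            funext z
            rw [smul_eq_mul]
            ring
          rw [e]
          exact h3
        have h4 : HasFDerivAt (fun z => ch (w z / L))
            (deriv ch (w q.1 / L) • (L⁻¹ • fderiv ℝ w q.1)) q.1 :=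
          HasDerivAt.comp_hasFDerivAt (h₂ := ch) (f := fun z => w z / L) q.1 h1 h2
        have h3 : HasFDerivAt h (-(deriv ch (w q.1 / L) • (L⁻¹ • fderiv ℝ w q.1))) q.1 := by
          rw [hh]
          exact h4.const_sub 1
        rw [h3.fderiv]
        simp only [neg_apply, smul_apply, smul_eq_mul]
        ring
      rw [XA_smul dh dg, e4, e4]
      have e5 : h q.1 * XA A g q.1 q.2 - (h q.1 * XA A g q.1 q.2 +
          (-(deriv ch (w q.1 / L) * (fderiv ℝ w q.1 q.2 / L)) * g q.1 (A q.1 q.2) -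
            -(deriv ch (w q.1 / L) * (fderiv ℝ w q.1 (A q.1 q.2) / L)) * g q.1 q.2)) =
          deriv ch (w q.1 / L) * (fderiv ℝ w q.1 q.2 / L) * g q.1 (A q.1 q.2) -
            deriv ch (w q.1 / L) * (fderiv ℝ w q.1 (A q.1 q.2) / L) * g q.1 q.2 := by ring
      rw [e5]
      by_cases hd0 : deriv ch (w q.1 / L) = 0
      · rw [hd0, zero_mul, zero_mul, zero_mul, zero_mul, sub_zero, abs_zero]
        exact hRHS q
      · have h1 := dch_left hd0
        rw [le_div_iff₀ (by linarith)] at h1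
        rw [Real.smoothTransition.one_of_one_le (by linarith : 1 ≤ w q.1 + (2 * L - 1)),
          hκg _ hqQ, one_pow, one_mul, one_mul]
        have key := ineq_b (t := t) (L := L) (c := deriv ch (w q.1 / L))
          (x := fderiv ℝ w q.1 q.2) (y := fderiv ℝ w q.1 (A q.1 q.2))
          (α := g q.1 (A q.1 q.2)) (β := g q.1 q.2) ht
        unfold Ph
        rw [← hw]
        exact key
    · rw [XA_zero hQcl hb0' hqQ, XA_zero hQcl hgT hqQ, mul_zero, sub_zero, abs_zero]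
      exact hRHS q
  have e6 : ∫ q, h q.1 * XA A g q.1 q.2 ∂ν =
      ∫ q, (h q.1 * XA A g q.1 q.2 - XA A (fun z => h z • g z) q.1 q.2) ∂ν := by
    rw [integral_sub hYi hXi, hcl', sub_zero]
  have e7 : ∫ q, (t / (2 * L ^ 2) * (κ q.1 ^ 2 * Real.smoothTransition (w q.1 + (2 * L - 1)) *
      Pf A w q) + 1 / (2 * t) * Ph A ρ L g q) ∂ν =
      t / (2 * L ^ 2) * ∫ q, κ q.1 ^ 2 * Real.smoothTransition (w q.1 + (2 * L - 1)) *
        Pf A w q ∂ν + 1 / (2 * t) * ∫ q, Ph A ρ L g q ∂ν := by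
    rw [integral_add (hPi.const_mul _) (hΦi.const_mul _), integral_const_mul, integral_const_mul]
  have e8 : ∫ q, (1 - ch (w q.1 / L)) * XA A g q.1 q.2 ∂ν = ∫ q, h q.1 * XA A g q.1 q.2 ∂ν := by
    rw [hh]
  rw [e8, e6, ← e7]
  refine (abs_integral_le_integral_abs).trans ?_
  exact integral_mono (hYi.sub hXi).abs ((hPi.const_mul _).add (hΦi.const_mul _)) hpt

/-! ### the extension theorem -/

/-- the extension theorem for the whole measure -/
theorem elmir_ext0 {U : Set (E d)} (hU : IsOpen U) {A : E d → E d →L[ℝ] E d}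
    (hA : ContDiffOn ℝ ∞ A U) (hA2 : ∀ z ∈ U, ∀ u, A z (A z u) = -u) {ρ : E d → ℝ}
    (hρ : ContDiffOn ℝ ∞ ρ U) (hρ0 : ∀ z ∈ U, 0 ≤ ρ z) {C₁ : ℝ} (hC₁ : 0 ≤ C₁)
    (hL : LogEst A ρ U C₁) {ν : Measure (E d × E d)} [IsFiniteMeasure ν] {M : ℝ}
    (hM : ∀ᵐ q ∂ν, ‖q.2‖ ≤ M) (hν : ClosedOn (U ∩ {z | ρ z ≠ 0}) A ν univ) :
    ClosedOn U A ν {z | z ∈ U ∧ ρ z ≠ 0} := by
  rw [closed_iff]
  intro g hg hgc hgU
  have hQc : IsCompact (tsupport g) := hgc
  have hQcl : IsClosed (tsupport g) := isClosed_tsupport g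
  have hgT : ∀ z, z ∉ tsupport g → g z = 0 := fun z hz => image_eq_zero_of_notMem_tsupport hz
  -- the cut-off function
  obtain ⟨κ, hκ, hκc, hκU, hκ0, hκ1, hκg⟩ : ∃ κ : E d → ℝ, ContDiff ℝ ∞ κ ∧
      HasCompactSupport κ ∧ tsupport κ ⊆ U ∧ (∀ z, 0 ≤ κ z) ∧ (∀ z, κ z ≤ 1) ∧
      ∀ z ∈ tsupport g, κ z = 1 := by
    obtain ⟨r, hr, hrt⟩ := hQc.exists_cthickening_subset_open hU hgU
    obtain ⟨f, hf, hf1, hf2, hf3⟩ := exists_contMDiff_support_eq_eq_one_iff (n := (⊤ : ℕ∞))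
      (modelWithCornersSelf ℝ (E d))
      (isOpen_thickening (δ := r) (E := tsupport g)) hQcl (self_subset_thickening hr _)
    have hts : tsupport f ⊆ cthickening r (tsupport g) := by
      rw [tsupport, hf2]
      exact closure_thickening_subset_cthickening _ _
    exact ⟨f, contMDiff_iff_contDiff.1 hf,
      hQc.cthickening.of_isClosed_subset (isClosed_tsupport f) hts, hts.trans hrt,
      fun z => (hf1 (mem_range_self z)).1, fun z => (hf1 (mem_range_self z)).2,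
      fun z hz => (hf3 z).1 hz⟩
  obtain ⟨C₄, hC₄, hen⟩ := step_a2 hU hA hA2 hρ hρ0 hC₁ hL hM hν hκ hκc hκU hκ0 hκ1
  obtain ⟨C₂, hC₂, hw2⟩ := wf_le hQc (hρ.continuousOn.mono hgU) fun z hz => hρ0 z (hgU hz)
  -- the range of the quotients
  have hrange : ∀ z ∈ tsupport g, ∀ n : ℕ,
      wf ρ ((n : ℝ) + 1) z / ((n : ℝ) + 1) ∈ Icc (-2 : ℝ) C₂ := by
    intro z hz n
    have hn : (1 : ℝ) ≤ (n : ℝ) + 1 := by
      have : (0 : ℝ) ≤ n := Nat.cast_nonneg n
      linarith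
    have h1 := wf_ge (hρ0 z (hgU hz)) ((n : ℝ) + 1)
    have h2 := hw2 z hz ((n : ℝ) + 1) (by linarith)
    constructor
    · rw [le_div_iff₀ (by linarith)]
      linarith
    · rw [div_le_iff₀ (by linarith)]
      nlinarith
  obtain ⟨C₅, hC₅⟩ := (isCompact_Icc (a := (-2 : ℝ)) (b := C₂)).exists_bound_of_continuousOn
    dch_cont.continuousOn
  -- the bounded functions
  have hg2c : Continuous fun q : E d × E d => g q.1 (A q.1 q.2) ^ 2 + g q.1 q.2 ^ 2 :=
    em_cont hU (g_cont hA hg) hQcl hgU fun q hq => by rw [hgT _ hq]; simp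
  have hg2i := em_int hg2c hQc (fun q hq => by rw [hgT _ hq]; simp) hM
  have hXc : Continuous fun q : E d × E d => XA A g q.1 q.2 :=
    em_cont hU (XA_cont hU hA hg.contDiffOn) hQcl hgU fun q hq => XA_zero hQcl hgT hq _
  have hXi := em_int hXc hQc (fun q hq => XA_zero hQcl hgT hq _) hM
  -- the limit of the errors
  have lim1 : Tendsto (fun n : ℕ => ∫ q, Ph A ρ ((n : ℝ) + 1) g q ∂ν) atTop (𝓝 0) := by
    have h0 : ∫ q : E d × E d, (0 : ℝ) ∂ν = 0 := integral_zero _ _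
    rw [← h0]
    refine tendsto_integral_of_dominated_convergence
      (fun q : E d × E d => C₅ ^ 2 * (g q.1 (A q.1 q.2) ^ 2 + g q.1 q.2 ^ 2)) (fun n => ?_)
      (hg2i.const_mul _) (fun n => Eventually.of_forall fun q => ?_)
      (Eventually.of_forall fun q => ?_)
    · have hΦ0 : ∀ q : E d × E d, q.1 ∉ tsupport g → Ph A ρ ((n : ℝ) + 1) g q = 0 := by
        intro q hq
        unfold Ph
        rw [hgT _ hq]
        simp
      exact (em_cont hU (Ph_cont hA hρ hρ0 _ hg) hQcl hgU hΦ0).aestronglyMeasurable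
    · unfold Ph
      have h2 : 0 ≤ g q.1 (A q.1 q.2) ^ 2 + g q.1 q.2 ^ 2 := by positivity
      by_cases hq : q.1 ∈ tsupport g
      · have h1 := hC₅ _ (hrange q.1 hq n)
        rw [Real.norm_eq_abs] at h1
        rw [Real.norm_eq_abs, abs_mul, abs_of_nonneg h2, abs_pow]
        exact mul_le_mul_of_nonneg_right (pow_le_pow_left₀ (abs_nonneg _) h1 2) h2
      · have h3 : g q.1 = 0 := hgT _ hq
        rw [h3]
        simp
    · unfold Ph
      by_cases hq : q.1 ∈ tsupport g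
      · rcases (hρ0 q.1 (hgU hq)).eq_or_lt with h | h
        · have h1 : ∀ n : ℕ, deriv ch (wf ρ ((n : ℝ) + 1) q.1 / ((n : ℝ) + 1)) ^ 2 *
              (g q.1 (A q.1 q.2) ^ 2 + g q.1 q.2 ^ 2) = 0 := by
            intro n
            rw [wf_lim_zero h.symm, dch_neg2]
            ring
          simp only [h1]
          exact tendsto_const_nhds
        · have h1 := ((dch_cont.tendsto 0).comp (wf_lim_pos h)).pow 2
          have h2 := h1.mul_const (g q.1 (A q.1 q.2) ^ 2 + g q.1 q.2 ^ 2)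
          rw [dch_zero] at h2
          simpa using h2
      · have h3 : g q.1 = 0 := hgT _ hq
        rw [h3]
        simp
  -- the limit of the integrals
  have hY : MeasurableSet {q : E d × E d | q.1 ∈ {z | z ∈ U ∧ ρ z ≠ 0}} := by
    have h1 : IsOpen (U ∩ ρ ⁻¹' {0}ᶜ) :=
      hρ.continuousOn.isOpen_inter_preimage hU isOpen_compl_singleton
    exact measurable_fst h1.measurableSet
  have lim2 : Tendsto (fun n : ℕ => ∫ q, (1 - ch (wf ρ ((n : ℝ) + 1) q.1 / ((n : ℝ) + 1))) *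
      XA A g q.1 q.2 ∂ν) atTop
      (𝓝 (∫ q in {q : E d × E d | q.1 ∈ {z | z ∈ U ∧ ρ z ≠ 0}}, XA A g q.1 q.2 ∂ν)) := by
    rw [← integral_indicator hY]
    refine tendsto_integral_of_dominated_convergence
      (fun q : E d × E d => |XA A g q.1 q.2|) (fun n => ?_)
      hXi.abs (fun n => Eventually.of_forall fun q => ?_)
      (Eventually.of_forall fun q => ?_)
    · have hc : ContinuousOn (fun q : E d × E d =>
          (1 - ch (wf ρ ((n : ℝ) + 1) q.1 / ((n : ℝ) + 1))) * XA A g q.1 q.2) (U ×ˢ univ) := by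
        have h1 : ContinuousOn (fun q : E d × E d => wf ρ ((n : ℝ) + 1) q.1 / ((n : ℝ) + 1))
            (U ×ˢ univ) :=
          ((wf_smooth hρ hρ0 _).continuousOn.div_const _).comp continuousOn_fst fun q hq => hq.1
        exact (continuousOn_const.sub (ch_smooth.continuous.comp_continuousOn h1)).mul
          (XA_cont hU hA hg.contDiffOn)
      exact (em_cont hU hc hQcl hgU fun q hq => by
        rw [XA_zero hQcl hgT hq, mul_zero]).aestronglyMeasurable
    · have h1 := ch_le_one (wf ρ ((n : ℝ) + 1) q.1 / ((n : ℝ) + 1))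
      have h2 := ch_nonneg (wf ρ ((n : ℝ) + 1) q.1 / ((n : ℝ) + 1))
      rw [Real.norm_eq_abs, abs_mul, abs_of_nonneg (by linarith)]
      exact mul_le_of_le_one_left (abs_nonneg _) (by linarith)
    · by_cases hq : q.1 ∈ tsupport g
      · have hqU := hgU hq
        rcases (hρ0 q.1 hqU).eq_or_lt with h | h
        · rw [indicator_of_notMem (fun hc : q ∈ {q : E d × E d | q.1 ∈ {z | z ∈ U ∧ ρ z ≠ 0}} =>
            hc.2 h.symm)]
          have h1 : ∀ n : ℕ, (1 - ch (wf ρ ((n : ℝ) + 1) q.1 / ((n : ℝ) + 1))) *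
              XA A g q.1 q.2 = 0 := by
            intro n
            rw [wf_lim_zero h.symm, ch_one (by norm_num), sub_self, zero_mul]
          simp only [h1]
          exact tendsto_const_nhds
        · rw [indicator_of_mem (show q ∈ {q : E d × E d | q.1 ∈ {z | z ∈ U ∧ ρ z ≠ 0}} from
            ⟨hqU, h.ne'⟩)]
          have h1 := (((ch_smooth.continuous.tendsto 0).comp (wf_lim_pos h)).const_sub 1).mul_const
            (XA A g q.1 q.2)
          rw [ch_zero (by norm_num : -(1 / 2 : ℝ) ≤ 0), sub_zero, one_mul] at h1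
          exact h1
      · have h2 : XA A g q.1 q.2 = 0 := XA_zero hQcl hgT hq _
        have h3 : ({q : E d × E d | q.1 ∈ {z | z ∈ U ∧ ρ z ≠ 0}}.indicator
            (fun q : E d × E d => XA A g q.1 q.2)) q = 0 := by
          by_cases hc : q ∈ {q : E d × E d | q.1 ∈ {z | z ∈ U ∧ ρ z ≠ 0}}
          · rw [indicator_of_mem hc, h2]
          · rw [indicator_of_notMem hc]
        rw [h3, h2]
        simp
  -- the bound
  have hbd : ∀ t : ℝ, 0 < t →
      |∫ q in {q : E d × E d | q.1 ∈ {z | z ∈ U ∧ ρ z ≠ 0}}, XA A g q.1 q.2 ∂ν| ≤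
        t * C₄ / 2 := by
    intro t ht
    have h1 : ∀ n : ℕ, 3 ≤ n →
        |∫ q, (1 - ch (wf ρ ((n : ℝ) + 1) q.1 / ((n : ℝ) + 1))) * XA A g q.1 q.2 ∂ν| ≤
        t * C₄ / 2 + 1 / (2 * t) * ∫ q, Ph A ρ ((n : ℝ) + 1) g q ∂ν := by
      intro n hn3
      have hn : (4 : ℝ) ≤ (n : ℝ) + 1 := by
        have : (3 : ℝ) ≤ n := by exact_mod_cast hn3
        linarith
      have h2 := step_b2 hU hA hρ hρ0 hM hν hκ hκc hκU hg hgc hgU hκg (t := t)
        (L := (n : ℝ) + 1) ht hn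
      have h3 := hen ((n : ℝ) + 1) (by linarith)
      have h4 : t / (2 * ((n : ℝ) + 1) ^ 2) * ∫ q, κ q.1 ^ 2 *
          Real.smoothTransition (wf ρ ((n : ℝ) + 1) q.1 + (2 * ((n : ℝ) + 1) - 1)) *
            Pf A (wf ρ ((n : ℝ) + 1)) q ∂ν ≤
          t / (2 * ((n : ℝ) + 1) ^ 2) * (C₄ * ((n : ℝ) + 1) ^ 2) :=
        mul_le_mul_of_nonneg_left h3 (by positivity)
      have h5 : t / (2 * ((n : ℝ) + 1) ^ 2) * (C₄ * ((n : ℝ) + 1) ^ 2) = t * C₄ / 2 := by
        field_simp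
      linarith
    have h6 := lim2.abs
    have h7 : Tendsto (fun n : ℕ => t * C₄ / 2 + 1 / (2 * t) * ∫ q, Ph A ρ ((n : ℝ) + 1) g q ∂ν)
        atTop (𝓝 (t * C₄ / 2)) := by
      have := (lim1.const_mul (1 / (2 * t))).const_add (t * C₄ / 2)
      simpa using this
    exact le_of_tendsto_of_tendsto h6 h7 (eventually_atTop.2 ⟨3, h1⟩)
  rw [← abs_nonpos_iff]
  refine le_of_forall_pos_le_add fun e he => ?_
  have h1 := hbd (2 * e / (C₄ + 1)) (by positivity)
  have h2 : 2 * e / (C₄ + 1) * C₄ / 2 = e * (C₄ / (C₄ + 1)) := by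
    field_simp
  have h3 : C₄ / (C₄ + 1) ≤ 1 := by
    rw [div_le_one (by linarith)]
    linarith
  rw [h2] at h1
  nlinarith

/-- **Structure measures which are closed off `{ρ = 0}` extend.**

Notation: `LA A φ z v` is `extDeriv (bf A φ) z ![v, A z v]` (`extDeriv_bf`, `EM/Def.lean`), where
`bf A φ` is the one-form `v ↦ - Dφ (A v)`.  For a smooth function `g` and a one-form `b`
(use `extDeriv_eq`, `bf_apply`):
`extDeriv (g • b) z ![u, A u] = g extDeriv b z ![u, A u] + (Dg(u) b(A u) - Dg(A u) b(u))`, and for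
`b = bf A φ` the bracket is `Dg(u) Dφ(u) + Dg(A u) Dφ(A u)` (since `A (A u) = - u`).

Proof.  All integrals are over `{q | q.1 ∈ Y}`.  Fix a test form `b₀` with support `Q ⊆ U` compact.
Choose a smooth function `κ : E d → ℝ`, `0 ≤ κ ≤ 1`, with compact support in `U` and `κ = 1` on (a
neighbourhood of) `Q` (`exists_contMDiff_support_eq_eq_one_iff` or `exists_contDiff_tsupport_subset`;
see also `exists_cut` in `LG/Main.lean`).  Let `C₂ ≥ 0` be such that `ρ + 1 ≤ exp C₂` on `tsupport κ`.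
For `0 < ε ≤ exp (-4)` let `L = |log ε| = - log ε ≥ 4` and `w = log (ρ + ε²)`; on `tsupport κ` one
has `- 2 L ≤ w ≤ C₂`.  Write `|∂w|² = Dw(u)² + Dw(A u)²`, similarly `|∂κ|`.

(a) Let `g s = s * expNegInvGlue s` (smooth, `0` for `s ≤ 0`); for `s > 0`
`g' = (1 + 1 / s) exp (-1 / s)`, so `g ≥ 0`, `0 ≤ g' ≤ 1`, `g s ≤ s * √(g' s)` for `s > 0`, and `g' s ≥ exp (-1)`
for `s ≥ 1`.  Put `s = w + 2 L - 1`; `s > 0` only if `ρ + ε² > e ε²`.  So `κ² g(s) • bf A w` is a test form in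
`U ∩ {ρ ≠ 0}` (it is equal to `0` outside `tsupport κ`, and smooth, because `A`, `ρ` are smooth on `U`).
Closedness gives
`0 = ∫ κ² (g(s) LA A w + g'(s) |∂w|²) + 2 κ g(s) (Dκ(u) Dw(u) + Dκ(A u) Dw(A u)) dν`.
With `hL`, `|Dκ(u) Dw(u) + Dκ(A u) Dw(A u)| ≤ |∂κ| |∂w|`, and, where `s > 0` (so `s ≤ 2 L + C₂`),
`g C₁ ‖u‖ |∂w| ≤ (√g' |∂w|) (C₁ ‖u‖ s) ≤ g' |∂w|² / 4 + C₁² ‖u‖² s²` and
`2 κ g |∂κ| |∂w| ≤ κ² g' |∂w|² / 4 + 4 s² |∂κ|²`:
`∫ κ² g'(s) |∂w|² dν ≤ C₄ L²` with `C₄` independent of `ε` (`‖u‖ ≤ M`, `ν` finite, `A` bounded on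
`tsupport κ`, `2 L + C₂ ≤ (2 + C₂) L`).

(b) Let `χ : ℝ → ℝ` be smooth, `0 ≤ χ ≤ 1`, `χ = 1` on `(-∞, -3/2]`, `χ = 0` on `[-1/2, ∞)`
(for instance `Real.smoothTransition (- t - 1/2)`), `|χ'| ≤ C₅`, and `χ_ε = χ (w / L)`.  The form
`(1 - χ_ε) • b₀` is a test form in `U ∩ {ρ ≠ 0}` (it vanishes where `ρ + ε² < ε^(3/2)`).  Closedness:
`0 = ∫ (1 - χ_ε) extDeriv b₀ z ![u, A u] dν - ∫ L⁻¹ χ'(w / L) (Dw(u) b₀(A u) - Dw(A u) b₀(u)) dν`.
The second integral is at most `C L⁻¹ ∫_{Q_ε} |∂w| ‖u‖ dν ≤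
C L⁻¹ (∫ κ² exp(1) g'(s) |∂w|²)^(1/2) (∫_{Q_ε} ‖u‖²)^(1/2) ≤ C' ν(Q_ε)^(1/2)`, where
`Q_ε = {(z, u) | z ∈ Q ∩ Y, -3/2 ≤ w / L ≤ -1/2}` (there `s ≥ L / 2 - 1 ≥ 1`)
`= {z ∈ Q ∩ Y, ε^(3/2) ≤ ρ z + ε² ≤ ε^(1/2)}`.
(For `ρ z = 0`: `w / L = -2`, so `z ∉ Q_ε`; for `ρ z > 0`: `w / L → 0` as `ε → 0`, so `z ∉ Q_ε` for small
`ε`.  By dominated convergence `ν(Q_ε) → 0` along `ε = exp (-n)`.)
Likewise `1 - χ_ε → 0` where `ρ = 0` and `1 - χ_ε → 1` where `ρ > 0`, so by dominated convergence the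
first integral converges to `∫_{Y, ρ > 0} extDeriv b₀ z ![u, A u] dν` (the integrand vanishes off
`Q ⊆ U`). -/
theorem elmir_ext {U : Set (E d)} (hU : IsOpen U) {A : E d → E d →L[ℝ] E d}
    (hA : ContDiffOn ℝ ∞ A U) (hA2 : ∀ z ∈ U, ∀ u, A z (A z u) = -u) {ρ : E d → ℝ}
    (hρ : ContDiffOn ℝ ∞ ρ U) (hρ0 : ∀ z ∈ U, 0 ≤ ρ z) {C₁ : ℝ} (hC₁ : 0 ≤ C₁)
    (hL : LogEst A ρ U C₁) {ν : Measure (E d × E d)} [IsFiniteMeasure ν] {M : ℝ}
    (hM : ∀ᵐ q ∂ν, ‖q.2‖ ≤ M) {Y : Set (E d)} (hY : MeasurableSet Y)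
    (hν : ClosedOn (U ∩ {z | ρ z ≠ 0}) A ν Y) :
    ClosedOn U A ν {z | z ∈ Y ∧ z ∈ U ∧ ρ z ≠ 0} := by
  have hYm : MeasurableSet {q : E d × E d | q.1 ∈ Y} := measurable_fst hY
  have hZm : MeasurableSet {q : E d × E d | q.1 ∈ {z | z ∈ U ∧ ρ z ≠ 0}} := by
    have h1 : IsOpen (U ∩ ρ ⁻¹' {0}ᶜ) :=
      hρ.continuousOn.isOpen_inter_preimage hU isOpen_compl_singleton
    exact measurable_fst h1.measurableSet
  have h1 : ClosedOn (U ∩ {z | ρ z ≠ 0}) A (ν.restrict {q : E d × E d | q.1 ∈ Y}) univ := by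
    intro b hb
    have e : {q : E d × E d | q.1 ∈ univ} = univ := by
      ext q
      simp
    rw [e, Measure.restrict_univ]
    exact hν b hb
  have h2 := elmir_ext0 hU hA hA2 hρ hρ0 hC₁ hL (ae_restrict_of_ae hM) h1
  intro b hb
  have h3 := h2 b hb
  rw [Measure.restrict_restrict hZm] at h3
  have e : {q : E d × E d | q.1 ∈ {z | z ∈ Y ∧ z ∈ U ∧ ρ z ≠ 0}} =
      {q : E d × E d | q.1 ∈ {z | z ∈ U ∧ ρ z ≠ 0}} ∩ {q : E d × E d | q.1 ∈ Y} := by
    ext q
    constructor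
    · rintro ⟨h4, h5⟩
      exact ⟨h5, h4⟩
    · rintro ⟨h4, h5⟩
      exact ⟨h5, h4⟩
  rw [e]
  exact h3

end Pool.Agent.H819.EM
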