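import Mathlib
import Pool.Agent.H819.EM.Loc

/-!
# The logarithmic potential of a pseudoholomorphic submanifold
-/

set_option autoImplicit false

open Set Filter Topology MeasureTheory Metric
open scoped ContDiff ENNReal NNReal

noncomputable section

namespace Pool.Agent.H819.EM

open Pool.Agent.Y501.SY (E)

namespace LogE

section gen

variable {X Y Z : Type*} [NormedAddCommGroup X] [NormedSpace ℝ X] [NormedAddCommGroup Y]
  [NormedSpace ℝ Y] [NormedAddCommGroup Z] [NormedSpace ℝ Z]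

lemma le1 : (1 : ℕ∞ω) ≤ ((⊤ : ℕ∞) : ℕ∞ω) := by exact_mod_cast (le_top : (1 : ℕ∞) ≤ ⊤)

lemma le2 : (1 + 1 : ℕ∞ω) ≤ ((⊤ : ℕ∞) : ℕ∞ω) := by
  have h : ((2 : ℕ∞) : ℕ∞ω) ≤ ((⊤ : ℕ∞) : ℕ∞ω) := by
    exact_mod_cast (le_top : (2 : ℕ∞) ≤ ⊤)
  have e : (1 + 1 : ℕ∞ω) = ((2 : ℕ∞) : ℕ∞ω) := by
    rw [one_add_one_eq_two]; rfl
  rw [e]; exact h

lemma leS : minSmoothness ℝ 2 ≤ ((⊤ : ℕ∞) : ℕ∞ω) := by
  rw [minSmoothness_of_isRCLikeNormedField, ← one_add_one_eq_two]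
  exact le2

lemma leI : ((⊤ : ℕ∞) : ℕ∞ω) + 1 ≤ ((⊤ : ℕ∞) : ℕ∞ω) := le_rfl

lemma one_ne_infty : (1 : ℕ∞ω) ≠ ((⊤ : ℕ∞) : ℕ∞ω) := by
  exact_mod_cast (ENat.one_ne_top : (1 : ℕ∞) ≠ ⊤)

/-- points near `p` are close to zeros of a submersion -/
theorem near_zero [CompleteSpace X] [CompleteSpace Y] {h : X → Y} {h' : X →L[ℝ] Y} {p : X}
    (hh : HasStrictFDerivAt h h' p) (hp : h p = 0) (hs : Function.Surjective h') :
    ∃ C : ℝ, 0 ≤ C ∧ ∀ t ∈ 𝓝 p, ∀ᶠ z in 𝓝 p, ∃ z' ∈ t, h z' = 0 ∧ ‖z - z'‖ ≤ C * ‖h z‖ := by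
  have hr : h'.range = ⊤ := LinearMap.range_eq_top.2 hs
  obtain ⟨R, hR⟩ : ∃ R : h'.NonlinearRightInverse, 0 < R.nnnorm :=
    ⟨_, h'.nonlinearRightInverseOfSurjective_nnnorm_pos hr⟩
  obtain ⟨N, hN⟩ : ∃ N : ℝ≥0, N = R.nnnorm := ⟨_, rfl⟩
  rw [← hN] at hR
  have hR' : (0 : ℝ) < N := hR
  obtain ⟨s, hs, hfs⟩ := hh.approximates_deriv_on_nhds (c := N⁻¹ / 2) (Or.inr (by positivity))
  refine ⟨2 * N, by positivity, fun t ht => ?_⟩
  obtain ⟨δ, hδ, hball⟩ := Metric.mem_nhds_iff.1 (inter_mem hs ht)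
  have hcont : Tendsto h (𝓝 p) (𝓝 0) := by
    have := hh.continuousAt
    unfold ContinuousAt at this
    rwa [hp] at this
  have h1 : ∀ᶠ z in 𝓝 p, 2 * N * ‖h z‖ < δ / 2 := by
    have h2 : Tendsto (fun z => 2 * N * ‖h z‖) (𝓝 p) (𝓝 (2 * N * ‖(0 : Y)‖)) :=
      hcont.norm.const_mul _
    rw [norm_zero, mul_zero] at h2
    exact h2.eventually (gt_mem_nhds (half_pos hδ))
  filter_upwards [h1, Metric.ball_mem_nhds p (half_pos hδ)] with z hz1 hz2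
  have hsub : closedBall z (2 * N * ‖h z‖) ⊆ ball p δ := by
    intro x hx
    rw [mem_closedBall] at hx
    rw [mem_ball] at hz2 ⊢
    calc dist x p ≤ dist x z + dist z p := dist_triangle _ _ _
      _ < δ := by linarith
  have h2 := hfs.surjOn_closedBall_of_nonlinearRightInverse R (b := z) (ε := 2 * N * ‖h z‖)
    (by positivity) (hsub.trans (hball.trans inter_subset_left))
  have h3 : (0 : Y) ∈ closedBall (h z) (((R.nnnorm : ℝ)⁻¹ - (N⁻¹ / 2 : ℝ≥0)) * (2 * N * ‖h z‖)) := by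
    rw [mem_closedBall, dist_zero_left, ← hN]
    have : ((N : ℝ)⁻¹ - (N⁻¹ / 2 : ℝ≥0)) * (2 * N * ‖h z‖) = ‖h z‖ := by
      push_cast
      field_simp
      ring
    rw [this]
  obtain ⟨z', hz', hz'0⟩ := h2 h3
  refine ⟨z', (hball (hsub hz')).2, hz'0, ?_⟩
  rw [← dist_eq_norm, dist_comm]
  exact mem_closedBall.1 hz'

/-- a map dominated by another one near a common zero: the derivatives -/
theorem deriv_dom {F : X → Y} {h : X → Z} {x : X} {C : ℝ} (hF : DifferentiableAt ℝ F x)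
    (hh : DifferentiableAt ℝ h x) (hh0 : h x = 0)
    (hd : ∀ᶠ y in 𝓝 x, ‖F y‖ ≤ C * ‖h y‖) (u : X) :
    ‖fderiv ℝ F x u‖ ≤ C * ‖fderiv ℝ h x u‖ := by
  have hF0 : F x = 0 := by
    have := hd.self_of_nhds
    rw [hh0, norm_zero, mul_zero] at this
    exact norm_le_zero_iff.1 this
  have h1 : Tendsto (fun t : ℝ => t⁻¹ • (F (x + t • u) - F x)) (𝓝[≠] 0)
      (𝓝 (fderiv ℝ F x u)) := (hF.hasFDerivAt.hasLineDerivAt u).tendsto_slope_zero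
  have h2 : Tendsto (fun t : ℝ => t⁻¹ • (h (x + t • u) - h x)) (𝓝[≠] 0)
      (𝓝 (fderiv ℝ h x u)) := (hh.hasFDerivAt.hasLineDerivAt u).tendsto_slope_zero
  refine le_of_tendsto_of_tendsto h1.norm (h2.norm.const_mul C) ?_
  have h3 : Tendsto (fun t : ℝ => x + t • u) (𝓝[≠] 0) (𝓝 x) := by
    have : Tendsto (fun t : ℝ => x + t • u) (𝓝 0) (𝓝 (x + (0 : ℝ) • u)) := by
      apply Continuous.tendsto
      fun_prop
    rw [zero_smul, add_zero] at this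
    exact this.mono_left nhdsWithin_le_nhds
  filter_upwards [h3.eventually hd] with t ht
  rw [hF0, hh0, sub_zero, sub_zero, norm_smul, norm_smul]
  calc ‖t⁻¹‖ * ‖F (x + t • u)‖ ≤ ‖t⁻¹‖ * (C * ‖h (x + t • u)‖) :=
        mul_le_mul_of_nonneg_left ht (norm_nonneg _)
    _ = C * (‖t⁻¹‖ * ‖h (x + t • u)‖) := by ring

/-- a smooth map which vanishes on the zeros of a submersion is dominated by it -/
theorem dom0 [CompleteSpace X] [CompleteSpace Z] {F : X → Y} {h : X → Z} {p : X}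
    (hF : ContDiffAt ℝ ∞ F p) (hh : ContDiffAt ℝ ∞ h p) (hp : h p = 0)
    (hs : Function.Surjective (fderiv ℝ h p)) (h0 : ∀ᶠ z in 𝓝 p, h z = 0 → F z = 0) :
    ∃ C : ℝ, 0 ≤ C ∧ ∀ᶠ z in 𝓝 p, ‖F z‖ ≤ C * ‖h z‖ := by
  obtain ⟨C, hC, hz⟩ := near_zero (hh.hasStrictFDerivAt (by simp)) hp hs
  obtain ⟨K, t, ht, hK⟩ := (hF.of_le le1).exists_lipschitzOnWith
  refine ⟨K * C, by positivity, ?_⟩
  filter_upwards [hz _ (inter_mem ht h0), ht] with z hz1 hz2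
  obtain ⟨z', hz', hz'0, hn⟩ := hz1
  have h1 : F z' = 0 := hz'.2 hz'0
  have h2 := hK.dist_le_mul z hz2 z' hz'.1
  rw [h1, dist_zero_right, dist_eq_norm] at h2
  calc ‖F z‖ ≤ K * ‖z - z'‖ := h2
    _ ≤ K * (C * ‖h z‖) := mul_le_mul_of_nonneg_left hn K.2
    _ = K * C * ‖h z‖ := by ring

/-- the derivative of such a map -/
theorem dom1 [CompleteSpace X] [CompleteSpace Z] {F : X → Y} {h : X → Z} {p : X}
    (hF : ContDiffAt ℝ ∞ F p) (hh : ContDiffAt ℝ ∞ h p) (hp : h p = 0)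
    (hs : Function.Surjective (fderiv ℝ h p)) {C : ℝ} (hC : 0 ≤ C)
    (hd : ∀ᶠ z in 𝓝 p, ‖F z‖ ≤ C * ‖h z‖) :
    ∃ C' : ℝ, 0 ≤ C' ∧ ∀ᶠ z in 𝓝 p, ∀ u, ‖fderiv ℝ F z u‖ ≤
      C' * (‖h z‖ * ‖u‖ + ‖fderiv ℝ h z u‖) := by
  obtain ⟨B, hB, hz⟩ := near_zero (hh.hasStrictFDerivAt (by simp)) hp hs
  have hF' : ContDiffAt ℝ 1 (fderiv ℝ F) p := hF.fderiv_right le2
  have hh' : ContDiffAt ℝ 1 (fderiv ℝ h) p := hh.fderiv_right le2
  obtain ⟨K₁, t₁, ht₁, hK₁⟩ := hF'.exists_lipschitzOnWith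
  obtain ⟨K₂, t₂, ht₂, hK₂⟩ := hh'.exists_lipschitzOnWith
  have hFd : ∀ᶠ z in 𝓝 p, DifferentiableAt ℝ F z := by
    filter_upwards [(hF.of_le le1).eventually one_ne_infty] with z hz
    exact hz.differentiableAt one_ne_zero
  have hhd : ∀ᶠ z in 𝓝 p, DifferentiableAt ℝ h z := by
    filter_upwards [(hh.of_le le1).eventually one_ne_infty] with z hz
    exact hz.differentiableAt one_ne_zero
  refine ⟨C + K₁ * B + C * K₂ * B, by positivity, ?_⟩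
  filter_upwards [hz _ (inter_mem (inter_mem (inter_mem ht₁ ht₂) (inter_mem hFd hhd))
    hd.eventually_nhds), ht₁, ht₂] with z hz1 hz2 hz3 u
  obtain ⟨z', ⟨⟨⟨hz'1, hz'2⟩, hz'3, hz'4⟩, hz'5⟩, hz'0, hn⟩ := hz1
  have h1 := deriv_dom hz'3 hz'4 hz'0 hz'5 u
  have h2 : ‖fderiv ℝ F z u - fderiv ℝ F z' u‖ ≤ K₁ * (B * ‖h z‖) * ‖u‖ := by
    rw [← sub_apply]
    refine (ContinuousLinearMap.le_opNorm _ _).trans ?_
    refine mul_le_mul_of_nonneg_right ?_ (norm_nonneg _)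
    have := hK₁.dist_le_mul z hz2 z' hz'1
    rw [dist_eq_norm, dist_eq_norm] at this
    exact this.trans (mul_le_mul_of_nonneg_left hn K₁.2)
  have h3 : ‖fderiv ℝ h z u - fderiv ℝ h z' u‖ ≤ K₂ * (B * ‖h z‖) * ‖u‖ := by
    rw [← sub_apply]
    refine (ContinuousLinearMap.le_opNorm _ _).trans ?_
    refine mul_le_mul_of_nonneg_right ?_ (norm_nonneg _)
    have := hK₂.dist_le_mul z hz3 z' hz'2
    rw [dist_eq_norm, dist_eq_norm] at this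
    exact this.trans (mul_le_mul_of_nonneg_left hn K₂.2)
  have h4 : ‖fderiv ℝ F z u‖ ≤ ‖fderiv ℝ F z' u‖ + ‖fderiv ℝ F z u - fderiv ℝ F z' u‖ := by
    calc ‖fderiv ℝ F z u‖ = ‖fderiv ℝ F z' u + (fderiv ℝ F z u - fderiv ℝ F z' u)‖ := by
          congr 1; abel
      _ ≤ _ := norm_add_le _ _
  have h5 : ‖fderiv ℝ h z' u‖ ≤ ‖fderiv ℝ h z u‖ + ‖fderiv ℝ h z u - fderiv ℝ h z' u‖ := by
    calc ‖fderiv ℝ h z' u‖ = ‖fderiv ℝ h z u - (fderiv ℝ h z u - fderiv ℝ h z' u)‖ := by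
          congr 1; abel
      _ ≤ _ := norm_sub_le _ _
  have h6 : C * ‖fderiv ℝ h z' u‖ ≤ C * (‖fderiv ℝ h z u‖ + K₂ * (B * ‖h z‖) * ‖u‖) :=
    mul_le_mul_of_nonneg_left (h5.trans (by linarith)) hC
  have h7 : 0 ≤ (K₁ * B + C * K₂ * B) * ‖fderiv ℝ h z u‖ := by positivity
  have h8 : 0 ≤ C * (‖h z‖ * ‖u‖) := by positivity
  calc ‖fderiv ℝ F z u‖ ≤ C * (‖fderiv ℝ h z u‖ + K₂ * (B * ‖h z‖) * ‖u‖) +
        K₁ * (B * ‖h z‖) * ‖u‖ := by linarith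
    _ ≤ _ := by linarith

end gen

section two

variable {X Y : Type*} [NormedAddCommGroup X] [NormedSpace ℝ X] [NormedAddCommGroup Y]
  [NormedSpace ℝ Y]

/-- the defect of `h` of being pseudoholomorphic -/
def Df (A : X → X →L[ℝ] X) (T : Y →L[ℝ] Y) (h : X → Y) (z : X) : X →L[ℝ] Y :=
  (fderiv ℝ h z).comp (A z) - T.comp (fderiv ℝ h z)

theorem Df_deriv {A : X → X →L[ℝ] X} {T : Y →L[ℝ] Y} {h : X → Y} {z : X}
    (hA : DifferentiableAt ℝ A z) (hh : DifferentiableAt ℝ (fderiv ℝ h) z) (u y : X) :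
    fderiv ℝ (Df A T h) z u y = fderiv ℝ (fderiv ℝ h) z u (A z y) +
      fderiv ℝ h z (fderiv ℝ A z u y) - T (fderiv ℝ (fderiv ℝ h) z u y) := by
  have h1 : HasFDerivAt (Df A T h)
      (((ContinuousLinearMap.compL ℝ _ _ _ (fderiv ℝ h z)).comp (fderiv ℝ A z) +
        ((ContinuousLinearMap.compL ℝ _ _ _).flip (A z)).comp
          (fderiv ℝ (fderiv ℝ h) z)) -
        (ContinuousLinearMap.compL ℝ _ _ _ T).comp (fderiv ℝ (fderiv ℝ h) z)) z :=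
    (hh.hasFDerivAt.clm_comp hA.hasFDerivAt).sub
      ((ContinuousLinearMap.compL ℝ X Y Y T).hasFDerivAt.comp z hh.hasFDerivAt)
  rw [h1.fderiv]
  simp only [sub_apply, add_apply, ContinuousLinearMap.comp_apply,
    ContinuousLinearMap.compL_apply, ContinuousLinearMap.flip_apply]
  abel

/-- the second order expression of `h` -/
def Lam (A : X → X →L[ℝ] X) (h : X → Y) (z v : X) : Y :=
  fderiv ℝ (fderiv ℝ h) z v v + fderiv ℝ (fderiv ℝ h) z (A z v) (A z v) +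
    fderiv ℝ h z (fderiv ℝ A z (A z v) v - fderiv ℝ A z v (A z v))

theorem Lam_eq {A : X → X →L[ℝ] X} (T : Y →L[ℝ] Y) {h : X → Y} {z : X}
    (hA : DifferentiableAt ℝ A z) (hh : DifferentiableAt ℝ (fderiv ℝ h) z)
    (hsym : ∀ u v, fderiv ℝ (fderiv ℝ h) z u v = fderiv ℝ (fderiv ℝ h) z v u) {v : X}
    (hA2 : A z (A z v) = -v) :
    Lam A h z v = fderiv ℝ (Df A T h) z (A z v) v - fderiv ℝ (Df A T h) z v (A z v) := by
  rw [Df_deriv hA hh, Df_deriv hA hh, hA2, hsym v (A z v), map_neg]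
  unfold Lam
  rw [map_sub]
  abel

theorem log_D {φ : X → ℝ} {z : X} (hφ : DifferentiableAt ℝ φ z) (h0 : φ z ≠ 0) (u : X) :
    fderiv ℝ (fun z => Real.log (φ z)) z u = fderiv ℝ φ z u / φ z := by
  rw [(hφ.hasFDerivAt.log h0).fderiv, smul_apply, smul_eq_mul]
  ring

theorem log_D2 {φ : X → ℝ} {z : X} (hφ : ∀ᶠ x in 𝓝 z, DifferentiableAt ℝ φ x)
    (hφ2 : DifferentiableAt ℝ (fderiv ℝ φ) z) (h0 : φ z ≠ 0) (u v : X) :
    fderiv ℝ (fderiv ℝ (fun z => Real.log (φ z))) z u v =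
      fderiv ℝ (fderiv ℝ φ) z u v / φ z - fderiv ℝ φ z u * fderiv ℝ φ z v / φ z ^ 2 := by
  have hz := hφ.self_of_nhds
  have h1 : fderiv ℝ (fun z => Real.log (φ z)) =ᶠ[𝓝 z] fun x => (φ x)⁻¹ • fderiv ℝ φ x := by
    filter_upwards [hφ, hz.continuousAt.eventually_ne h0] with x hx hx0
    exact (hx.hasFDerivAt.log hx0).fderiv
  have h2 : HasFDerivAt (fun x => (φ x)⁻¹ • fderiv ℝ φ x)
      ((φ z)⁻¹ • fderiv ℝ (fderiv ℝ φ) z +
        ContinuousLinearMap.smulRight (-(φ z ^ 2)⁻¹ • fderiv ℝ φ z) (fderiv ℝ φ z)) z := by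
    have h3 : HasFDerivAt (fun x => (φ x)⁻¹) (-(φ z ^ 2)⁻¹ • fderiv ℝ φ z) z :=
      (hasDerivAt_inv h0).comp_hasFDerivAt z hz.hasFDerivAt
    exact h3.smul hφ2.hasFDerivAt
  rw [h1.fderiv_eq, h2.fderiv]
  simp only [add_apply, smul_apply, ContinuousLinearMap.smulRight_apply, smul_eq_mul]
  ring

end two

section bil

variable {X Y : Type*} [NormedAddCommGroup X] [NormedSpace ℝ X] [NormedAddCommGroup Y]
  [InnerProductSpace ℝ Y]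

/-- the bilinear form `(⟨a, b⟩ + ⟨T a, T b⟩) / 2` -/
def Bf (T : Y →L[ℝ] Y) : Y →L[ℝ] Y →L[ℝ] ℝ :=
  (1 / 2 : ℝ) • (innerSL ℝ + (innerSL ℝ).bilinearComp T T)

open scoped InnerProductSpace

theorem Bf_apply (T : Y →L[ℝ] Y) (a b : Y) : Bf T a b = (⟪a, b⟫_ℝ + ⟪T a, T b⟫_ℝ) / 2 := by
  have h : Bf T a b = (1 / 2 : ℝ) * (⟪a, b⟫_ℝ + ⟪T a, T b⟫_ℝ) := rfl
  rw [h]
  ring

theorem Bf_symm (T : Y →L[ℝ] Y) (a b : Y) : Bf T a b = Bf T b a := by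
  rw [Bf_apply, Bf_apply, real_inner_comm, real_inner_comm (T a)]

theorem Bf_self (T : Y →L[ℝ] Y) (a : Y) : Bf T a a = (‖a‖ ^ 2 + ‖T a‖ ^ 2) / 2 := by
  rw [Bf_apply, real_inner_self_eq_norm_sq, real_inner_self_eq_norm_sq]

theorem Bf_T {T : Y →L[ℝ] Y} (hT : ∀ n, T (T n) = -n) (a b : Y) :
    Bf T (T a) (T b) = Bf T a b := by
  rw [Bf_apply, Bf_apply, hT, hT, inner_neg_neg]
  ring

/-- Bessel's inequality -/
theorem bessel {T : Y →L[ℝ] Y} (hT : ∀ n, T (T n) = -n) (a b : Y) :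
    Bf T a b ^ 2 + Bf T a (T b) ^ 2 ≤ Bf T a a * Bf T b b := by
  have h1 : Bf T a (T b) = -Bf T (T a) b := by
    rw [← Bf_T hT a (T b), hT, map_neg]
  have h2 : Bf T a (T a) = 0 := by
    have := Bf_T hT a (T a)
    rw [hT, map_neg, Bf_symm] at this
    linarith
  have h3 : Bf T (T a) (T a) = Bf T a a := Bf_T hT a a
  have hpos : ∀ x, 0 ≤ Bf T x x := fun x => by
    rw [Bf_self]; positivity
  rcases (hpos a).eq_or_lt with h0 | h0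
  · have ha : a = 0 := by
      rw [Bf_self] at h0
      have : ‖a‖ ^ 2 = 0 := le_antisymm (by nlinarith [sq_nonneg ‖T a‖]) (sq_nonneg _)
      exact norm_eq_zero.1 (pow_eq_zero_iff (two_ne_zero)|>.1 this)
    rw [ha]
    simp
  · have h4 := hpos (Bf T a a • b - Bf T a b • a - Bf T (T a) b • T a)
    simp only [map_sub, map_smul, sub_apply, smul_apply, smul_eq_mul, h2, h3,
      Bf_symm T b a, Bf_symm T b (T a), Bf_symm T (T a) a] at h4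
    rw [h1]
    have h5 : 0 ≤ Bf T a a * (Bf T a a * Bf T b b - (Bf T a b ^ 2 + (-Bf T (T a) b) ^ 2)) := by
      linarith
    have h6 := nonneg_of_mul_nonneg_right h5 h0
    linarith

theorem cs {T : Y →L[ℝ] Y} (hT : ∀ n, T (T n) = -n) (a b : Y) :
    |Bf T a b| ≤ Real.sqrt (Bf T a a) * Real.sqrt (Bf T b b) := by
  have hpos : ∀ x, 0 ≤ Bf T x x := fun x => by
    rw [Bf_self]; positivity
  rw [← Real.sqrt_mul (hpos a), ← Real.sqrt_sq_eq_abs]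
  exact Real.sqrt_le_sqrt (by nlinarith [bessel hT a b, sq_nonneg (Bf T a (T b))])

theorem rho_D (T : Y →L[ℝ] Y) {h : X → Y} {z : X} (hh : DifferentiableAt ℝ h z) (c : ℝ) :
    HasFDerivAt (fun z => (‖h z‖ ^ 2 + ‖T (h z)‖ ^ 2) / 2 + c)
      ((2 : ℝ) • (Bf T (h z)).comp (fderiv ℝ h z)) z := by
  have h1 : (fun z => (‖h z‖ ^ 2 + ‖T (h z)‖ ^ 2) / 2 + c) = fun z => Bf T (h z) (h z) + c := by
    funext x
    rw [Bf_self]
  rw [h1]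
  have h2 := ((Bf T).hasFDerivAt_of_bilinear hh.hasFDerivAt hh.hasFDerivAt).add_const c
  refine h2.congr_fderiv ?_
  ext u
  change Bf T (h z) (fderiv ℝ h z u) + Bf T (fderiv ℝ h z u) (h z) =
    2 * Bf T (h z) (fderiv ℝ h z u)
  rw [Bf_symm T (fderiv ℝ h z u)]
  ring

theorem rho_D2 (T : Y →L[ℝ] Y) {h : X → Y} {z : X} (hh : ∀ᶠ x in 𝓝 z, DifferentiableAt ℝ h x)
    (hh2 : DifferentiableAt ℝ (fderiv ℝ h) z) (c : ℝ) :
    HasFDerivAt (fderiv ℝ (fun z => (‖h z‖ ^ 2 + ‖T (h z)‖ ^ 2) / 2 + c))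
      ((2 : ℝ) • ((ContinuousLinearMap.compL ℝ _ _ _ (Bf T (h z))).comp (fderiv ℝ (fderiv ℝ h) z) +
        ((ContinuousLinearMap.compL ℝ _ _ _).flip (fderiv ℝ h z)).comp
          ((Bf T).comp (fderiv ℝ h z)))) z := by
  have h1 : fderiv ℝ (fun z => (‖h z‖ ^ 2 + ‖T (h z)‖ ^ 2) / 2 + c) =ᶠ[𝓝 z]
      fun x => (2 : ℝ) • (Bf T (h x)).comp (fderiv ℝ h x) := by
    filter_upwards [hh] with x hx
    exact (rho_D T hx c).fderiv
  refine HasFDerivAt.congr_of_eventuallyEq ?_ h1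
  have h2 : HasFDerivAt (fun x => Bf T (h x)) ((Bf T).comp (fderiv ℝ h z)) z :=
    (Bf T).hasFDerivAt.comp z hh.self_of_nhds.hasFDerivAt
  exact (h2.clm_comp hh2.hasFDerivAt).const_smul (2 : ℝ)

theorem LA_rho {k d : ℕ} {A : E d → E d →L[ℝ] E d} (T : E k →L[ℝ] E k) {h : E d → E k}
    {z : E d} (hh : ∀ᶠ x in 𝓝 z, DifferentiableAt ℝ h x)
    (hh2 : DifferentiableAt ℝ (fderiv ℝ h) z) (c : ℝ) (v : E d) :
    LA A (fun z => (‖h z‖ ^ 2 + ‖T (h z)‖ ^ 2) / 2 + c) z v =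
      2 * Bf T (fderiv ℝ h z v) (fderiv ℝ h z v) +
        2 * Bf T (fderiv ℝ h z (A z v)) (fderiv ℝ h z (A z v)) + 2 * Bf T (h z) (Lam A h z v) := by
  unfold LA
  rw [(rho_D2 T hh hh2 c).fderiv, (rho_D T hh.self_of_nhds c).fderiv]
  unfold Lam
  simp only [add_apply, smul_apply, ContinuousLinearMap.comp_apply,
    ContinuousLinearMap.compL_apply, ContinuousLinearMap.flip_apply, smul_eq_mul, map_add]
  ring

theorem LA_log {d : ℕ} {A : E d → E d →L[ℝ] E d} {φ : E d → ℝ} {z : E d}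
    (hφ : ∀ᶠ x in 𝓝 z, DifferentiableAt ℝ φ x) (hφ2 : DifferentiableAt ℝ (fderiv ℝ φ) z)
    (h0 : φ z ≠ 0) (v : E d) :
    LA A (fun z => Real.log (φ z)) z v =
      LA A φ z v / φ z - (fderiv ℝ φ z v ^ 2 + fderiv ℝ φ z (A z v) ^ 2) / φ z ^ 2 := by
  unfold LA
  rw [log_D2 hφ hφ2 h0, log_D2 hφ hφ2 h0, log_D hφ.self_of_nhds h0]
  ring

end bil

section alg

/-- the algebraic estimate -/
theorem alg {σ y s X Y δ κ qe lam V K W : ℝ} (hσ : 0 ≤ σ) (hy : 0 ≤ y) (hs : 0 < s)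
    (hσs : σ ^ 2 ≤ s) (hV : 0 ≤ V) (hK : 0 ≤ K) (hb : X ^ 2 + Y ^ 2 ≤ (σ * y) ^ 2)
    (hδ : |δ| ≤ K * σ ^ 2 * V) (hκ : |κ| ≤ K * y * σ * V) (hqe : 0 ≤ qe)
    (hl : |lam| ≤ K * σ * (σ * V ^ 2 + y * V))
    (hW : W = (2 * y ^ 2 + 2 * (y ^ 2 + 2 * κ + qe) + 2 * lam) / s -
      ((2 * X) ^ 2 + (2 * (Y + δ)) ^ 2) / s ^ 2) :
    -((14 * K + 28 * K * K + 2 * K + 4 * K ^ 2 + (14 * K) ^ 2 / 4) *
      (V ^ 2 + V * Real.sqrt ((2 * X / s) ^ 2 + (2 * (Y + δ) / s) ^ 2))) ≤ W := by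
  obtain ⟨G, hG⟩ : ∃ G, G = Real.sqrt ((2 * X / s) ^ 2 + (2 * (Y + δ) / s) ^ 2) := ⟨_, rfl⟩
  obtain ⟨β, hβ⟩ : ∃ β, β = Real.sqrt (X ^ 2 + Y ^ 2) := ⟨_, rfl⟩
  obtain ⟨γ, hγ⟩ : ∃ γ, γ = Real.sqrt (X ^ 2 + (Y + δ) ^ 2) := ⟨_, rfl⟩
  have hβ0 : 0 ≤ β := hβ ▸ Real.sqrt_nonneg _
  have hγ0 : 0 ≤ γ := hγ ▸ Real.sqrt_nonneg _
  have hβ2 : β ^ 2 = X ^ 2 + Y ^ 2 := by rw [hβ, Real.sq_sqrt (by positivity)]
  have hγ2 : γ ^ 2 = X ^ 2 + (Y + δ) ^ 2 := by rw [hγ, Real.sq_sqrt (by positivity)]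
  have hGs : G * s = 2 * γ := by
    rw [hG, hγ]
    have e : (2 * X / s) ^ 2 + (2 * (Y + δ) / s) ^ 2 = (2 / s) ^ 2 * (X ^ 2 + (Y + δ) ^ 2) := by
      field_simp
    rw [e, Real.sqrt_mul (by positivity), Real.sqrt_sq (by positivity)]
    field_simp
  have hG0 : 0 ≤ G := hG ▸ Real.sqrt_nonneg _
  have hYγ : |Y + δ| ≤ γ := by
    rw [hγ]
    exact Real.abs_le_sqrt (by nlinarith [sq_nonneg X])
  have hβγ : β ≤ γ + |δ| := by
    rw [hβ]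
    refine Real.sqrt_le_iff.2 ⟨by positivity, ?_⟩
    have h1 : -((Y + δ) * δ) ≤ γ * |δ| := by
      calc -((Y + δ) * δ) ≤ |(Y + δ) * δ| := neg_le_abs _
        _ = |Y + δ| * |δ| := abs_mul _ _
        _ ≤ γ * |δ| := mul_le_mul_of_nonneg_right hYγ (abs_nonneg _)
    have h2 : |δ| ^ 2 = δ ^ 2 := sq_abs δ
    nlinarith [h1, h2, hγ2]
  have hβy : β ≤ σ * y := by
    rw [hβ]
    exact Real.sqrt_le_iff.2 ⟨by positivity, hb⟩
  have hYy : |Y| ≤ σ * y := by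
    refine le_trans ?_ hβy
    rw [hβ]
    exact Real.abs_le_sqrt (by nlinarith [sq_nonneg X])
  have hsW : s ^ 2 * W = s * (4 * y ^ 2 + 4 * κ + 2 * qe + 2 * lam) - 4 * (β ^ 2 + 2 * Y * δ + δ ^ 2) := by
    rw [hW, hβ2]
    field_simp
    ring
  -- the error terms
  have e1 : s * |κ| ≤ K * (s * (σ * y * V)) := by
    calc s * |κ| ≤ s * (K * y * σ * V) := mul_le_mul_of_nonneg_left hκ hs.le
      _ = _ := by ring
  have hss : s * σ ^ 2 ≤ s ^ 2 := by nlinarith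
  have e2 : s * |lam| ≤ K * (s ^ 2 * V ^ 2) + K * (s * (σ * y * V)) := by
    calc s * |lam| ≤ s * (K * σ * (σ * V ^ 2 + y * V)) := mul_le_mul_of_nonneg_left hl hs.le
      _ = K * (s * σ ^ 2 * V ^ 2) + K * (s * (σ * y * V)) := by ring
      _ ≤ _ := by
        have : s * σ ^ 2 * V ^ 2 ≤ s ^ 2 * V ^ 2 := mul_le_mul_of_nonneg_right hss (sq_nonneg _)
        nlinarith
  have e3 : |Y * δ| ≤ K * (s * (σ * y * V)) := by
    rw [abs_mul]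
    calc |Y| * |δ| ≤ (σ * y) * (K * σ ^ 2 * V) :=
          mul_le_mul hYy hδ (abs_nonneg _) (by positivity)
      _ = K * (σ ^ 2 * (σ * y * V)) := by ring
      _ ≤ K * (s * (σ * y * V)) := by
        refine mul_le_mul_of_nonneg_left ?_ hK
        exact mul_le_mul_of_nonneg_right hσs (by positivity)
  have e4 : δ ^ 2 ≤ K ^ 2 * (s ^ 2 * V ^ 2) := by
    rw [← sq_abs]
    calc |δ| ^ 2 ≤ (K * σ ^ 2 * V) ^ 2 := pow_le_pow_left₀ (abs_nonneg _) hδ 2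
      _ = K ^ 2 * ((σ ^ 2) ^ 2 * V ^ 2) := by ring
      _ ≤ K ^ 2 * (s ^ 2 * V ^ 2) := by
        refine mul_le_mul_of_nonneg_left ?_ (sq_nonneg _)
        refine mul_le_mul_of_nonneg_right ?_ (sq_nonneg _)
        exact pow_le_pow_left₀ (sq_nonneg _) hσs 2
  have key : 4 * s * y ^ 2 - 4 * β ^ 2 - 14 * K * (s * (σ * y * V)) -
      (2 * K + 4 * K ^ 2) * (s ^ 2 * V ^ 2) ≤ s ^ 2 * W := by
    rw [hsW]
    have f1 : -(s * |κ|) ≤ s * κ := by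
      rw [← mul_neg]
      exact mul_le_mul_of_nonneg_left (neg_abs_le _) hs.le
    have f2 : -(s * |lam|) ≤ s * lam := by
      rw [← mul_neg]
      exact mul_le_mul_of_nonneg_left (neg_abs_le _) hs.le
    have f3 : Y * δ ≤ |Y * δ| := le_abs_self _
    have f4 : 0 ≤ s * qe := by positivity
    nlinarith
  have hx0 : 0 ≤ σ * y := by positivity
  have hVG : 0 ≤ V * G := by positivity
  have main : -((14 * K + 28 * K * K + 2 * K + 4 * K ^ 2 + (14 * K) ^ 2 / 4) *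
      (V ^ 2 + V * G)) * s ^ 2 ≤ s ^ 2 * W := by
    refine le_trans ?_ key
    by_cases hc : σ * y ≤ 2 * β
    · have g1 : β ^ 2 ≤ s * y ^ 2 := by
        calc β ^ 2 ≤ (σ * y) ^ 2 := pow_le_pow_left₀ hβ0 hβy 2
          _ = σ ^ 2 * y ^ 2 := by ring
          _ ≤ s * y ^ 2 := mul_le_mul_of_nonneg_right hσs (sq_nonneg _)
      have g2 : s * (σ * y * V) ≤ s ^ 2 * (V * G) + 2 * K * (s ^ 2 * V ^ 2) := by
        have g3 : σ * y ≤ G * s + 2 * (K * σ ^ 2 * V) := by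
          rw [hGs]
          linarith
        calc s * (σ * y * V) = s * V * (σ * y) := by ring
          _ ≤ s * V * (G * s + 2 * (K * σ ^ 2 * V)) :=
            mul_le_mul_of_nonneg_left g3 (by positivity)
          _ = s ^ 2 * (V * G) + 2 * K * (s * σ ^ 2 * V ^ 2) := by ring
          _ ≤ _ := by
            have : s * σ ^ 2 * V ^ 2 ≤ s ^ 2 * V ^ 2 :=
              mul_le_mul_of_nonneg_right hss (sq_nonneg _)
            have := mul_le_mul_of_nonneg_left this (show 0 ≤ 2 * K by positivity)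
            linarith
      have g4 := mul_le_mul_of_nonneg_left g2 (show 0 ≤ 14 * K by positivity)
      have g5 : 0 ≤ K * (s ^ 2 * V ^ 2) := by positivity
      have g6 : 0 ≤ K ^ 2 * (s ^ 2 * V ^ 2) := by positivity
      have g7 : 0 ≤ K * (s ^ 2 * (V * G)) := by positivity
      have g8 : 0 ≤ K ^ 2 * (s ^ 2 * (V * G)) := by positivity
      nlinarith
    · push Not at hc
      have g1 : 4 * β ^ 2 ≤ s * y ^ 2 := by
        calc 4 * β ^ 2 = (2 * β) ^ 2 := by ring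
          _ ≤ (σ * y) ^ 2 := pow_le_pow_left₀ (by positivity) hc.le 2
          _ = σ ^ 2 * y ^ 2 := by ring
          _ ≤ s * y ^ 2 := mul_le_mul_of_nonneg_right hσs (sq_nonneg _)
      have g2 : 14 * K * (s * (σ * y * V)) ≤ s * y ^ 2 + (14 * K) ^ 2 / 4 * (s ^ 2 * V ^ 2) := by
        have g3 : 14 * K * (σ * y * V) ≤ y ^ 2 + (14 * K) ^ 2 / 4 * (σ ^ 2 * V ^ 2) := by
          nlinarith [sq_nonneg (y - 14 * K / 2 * (σ * V))]
        have g4 := mul_le_mul_of_nonneg_left g3 hs.le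
        have g5 : s * σ ^ 2 * V ^ 2 ≤ s ^ 2 * V ^ 2 :=
          mul_le_mul_of_nonneg_right hss (sq_nonneg _)
        have g6 := mul_le_mul_of_nonneg_left g5 (show 0 ≤ (14 * K) ^ 2 / 4 by positivity)
        nlinarith
      have g5 : 0 ≤ K * (s ^ 2 * V ^ 2) := by positivity
      have g6 : 0 ≤ K ^ 2 * (s ^ 2 * V ^ 2) := by positivity
      have g7 : 0 ≤ K * (s ^ 2 * (V * G)) := by positivity
      have g8 : 0 ≤ K ^ 2 * (s ^ 2 * (V * G)) := by positivity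
      have g9 : 0 ≤ s * y ^ 2 := by positivity
      nlinarith
  rw [← hG]
  have hs2 : 0 < s ^ 2 := by positivity
  rw [mul_comm (s ^ 2) W] at main
  exact le_of_mul_le_mul_right main hs2

end alg

section fin

variable {Y : Type*} [NormedAddCommGroup Y] [InnerProductSpace ℝ Y]

theorem Bf_nonneg (T : Y →L[ℝ] Y) (x : Y) : 0 ≤ Bf T x x := by
  rw [Bf_self]; positivity

theorem sqrt_le (T : Y →L[ℝ] Y) (x : Y) : Real.sqrt (Bf T x x) ≤ (1 + ‖T‖) * ‖x‖ := by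
  refine Real.sqrt_le_iff.2 ⟨by positivity, ?_⟩
  rw [Bf_self]
  have h1 : ‖T x‖ ^ 2 ≤ (‖T‖ * ‖x‖) ^ 2 := pow_le_pow_left₀ (norm_nonneg _) (T.le_opNorm x) 2
  have h2 : 0 ≤ ‖T‖ * ‖x‖ ^ 2 := by positivity
  have h3 : 0 ≤ (‖T‖ * ‖x‖) ^ 2 := by positivity
  have h4 : 0 ≤ ‖x‖ ^ 2 := by positivity
  nlinarith

theorem le_sqrt (T : Y →L[ℝ] Y) (x : Y) : ‖x‖ ≤ 2 * Real.sqrt (Bf T x x) := by
  have h1 : ‖x‖ ^ 2 ≤ (2 * Real.sqrt (Bf T x x)) ^ 2 := by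
    rw [mul_pow, Real.sq_sqrt (Bf_nonneg T x), Bf_self]
    nlinarith [sq_nonneg ‖x‖, sq_nonneg ‖T x‖]
  exact le_of_sq_le_sq h1 (by positivity)

end fin

end LogE

open LogE

variable {d k : ℕ}

/-- **The estimate for `log (ρ + ε²)`**, `ρ = (‖h‖² + ‖T h‖²) / 2`, where `h` is a defining function
of a submanifold which is pseudoholomorphic along it.

Proof.  All constants `C` below are uniform for `z` in a small closed ball around `p` (compactness,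
smoothness).  Write `D = fderiv ℝ h z`, `n = D v`, `m = D (A z v)`, and `⟨a, b⟩_q = (⟨a, b⟩ + ⟨T a, T b⟩) / 2`,
`q(a) = ⟨a, a⟩_q`; this inner product is `T`-invariant, and `ρ = q(h)`.

(i) There are `r, C > 0` such that every `z` with `‖z - p‖ ≤ r` has a point `z'` with `h z' = 0`,
`‖z - z'‖ ≤ C ‖h z‖`: `h` is approximated by its surjective derivative at `p` on a small ball
(`HasStrictFDerivAt.approximates_deriv_on_open_nhds` or similar,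
`ApproximatesLinearOn.surjOn_closedBall_of_nonlinearRightInverse`), so it maps
`closedBall z (C ‖h z‖)` onto a set which contains `closedBall (h z) ‖h z‖ ∋ 0`.

(ii) `E(z) = D(z) ∘ A(z) - T ∘ D(z)` vanishes where `h = 0`, so `‖E(z)‖ ≤ C ‖h z‖` by (i) and
smoothness (`E` is Lipschitz on a ball).  So `m = T n + e` with `‖e‖ ≤ C ‖h‖ ‖v‖`.

(iii) Let `Λ(z)(v) = D²h(v, v) + D²h(A v, A v) + Dh (DA(A v) v - DA(v) (A v))` (vector valued;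
`D²h = fderiv ℝ (fderiv ℝ h) z`, `DA = fderiv ℝ A z`).  CLAIM: `Λ(z')(v) = 0` if `h z' = 0` and
`Dh(z') v = 0`.  Indeed for `u ∈ ker Dh(z')` the derivative of `E` at `z'` in the direction `u`
vanishes: `‖E(z' + t u)‖ ≤ C ‖h (z' + t u)‖ = O(t²)`.  That is, for all `y`:
`D²h(u, A y) + Dh (DA(u) y) = T D²h(u, y)`.
With `(u, y) = (A v, v)` (note `Dh (A v) = T Dh v = 0`) and `(u, y) = (v, A v)` (`A A v = - v`):
`D²h(A v, A v) + Dh (DA(A v) v) = T D²h(A v, v)` and `- D²h(v, v) + Dh (DA(v) (A v)) = T D²h(v, A v)`;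
subtract and use the symmetry of `D²h`.

(iv) `‖Λ(z)(v)‖ ≤ C (‖h‖ ‖v‖² + ‖n‖ ‖v‖)`: take `z'` as in (i) and `v' = v - R Dh(z') v`, where
`R` is a bounded right inverse of `Dh(z')` (for instance `D^* (D D^*)⁻¹`), so `Dh(z') v' = 0`,
`‖v - v'‖ ≤ C ‖Dh(z') v‖ ≤ C (‖n‖ + ‖h‖ ‖v‖)`; then compare `Λ(z)(v)`, `Λ(z')(v)` and `Λ(z')(v')`.

(v) `LA A ρ z v = 2 q(n) + 2 q(m) + 2 ⟨h, Λ(z)(v)⟩_q`, `Dρ(v) = 2 ⟨h, n⟩_q`, `Dρ(A v) = 2 ⟨h, m⟩_q`,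
and with `s = ρ + ε²`, `w = log s`: `Dw = Dρ / s`,
`LA A w z v = LA A ρ z v / s - (Dρ(v)² + Dρ(A v)²) / s²`.

(vi) Algebra.  Let `a² = (⟨h, n⟩_q² + ⟨h, T n⟩_q²) / ρ` if `ρ > 0` (and `a = 0` if `ρ = 0`; then `h = 0`).
By Bessel `a² ≤ q(n)`; put `b² = q(n) - a² ≥ 0`.  With `σ = √ρ`:
`s² LA A w ≥ s (4 q(n) - C σ ‖v‖ ‖n‖ - C ρ ‖v‖²) - (4 ρ a² + C ρ^{3/2} ‖n‖ ‖v‖ + C ρ² ‖v‖²)`
`≥ 4 s b² + 4 ε² a² - C s σ ‖v‖ (a + b) - C s² ‖v‖²` (`ρ ≤ s`, `‖n‖ ≤ C (a + b)`).  The term with `b`: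
`C s σ ‖v‖ b ≤ s b² + C s ρ ‖v‖²`.  The term with `a`: `σ a ≤ (|Dρ(v)| + |Dρ(A v)| + C ρ ‖v‖) `, that is
`s σ ‖v‖ a ≤ s² ‖v‖ |∂w| * C + C s² ‖v‖²`, where `|∂w|² = Dw(v)² + Dw(A v)²`.
So `LA A w ≥ - C (‖v‖² + ‖v‖ |∂w|)`. -/
theorem log_est {U : Set (E d)} (hU : IsOpen U) {A : E d → E d →L[ℝ] E d}
    (hA : ContDiffOn ℝ ∞ A U) (hA2 : ∀ z ∈ U, ∀ u, A z (A z u) = -u) {T : E k →L[ℝ] E k}
    (hT : ∀ n, T (T n) = -n) {h : E d → E k} (hh : ContDiffOn ℝ ∞ h U) {p : E d} (hp : p ∈ U)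
    (hp0 : h p = 0) (hs : Function.Surjective (fderiv ℝ h p))
    (hJ : ∀ z ∈ U, h z = 0 → ∀ u, fderiv ℝ h z (A z u) = T (fderiv ℝ h z u)) :
    ∃ (V : Set (E d)) (C₁ : ℝ), IsOpen V ∧ p ∈ V ∧ V ⊆ U ∧ 0 ≤ C₁ ∧
      LogEst A (fun z => (‖h z‖ ^ 2 + ‖T (h z)‖ ^ 2) / 2) V C₁ := by
  have hAp : ContDiffAt ℝ ∞ A p := hA.contDiffAt (hU.mem_nhds hp)
  have hhp : ContDiffAt ℝ ∞ h p := hh.contDiffAt (hU.mem_nhds hp)
  have hDp : ContDiffAt ℝ ∞ (fderiv ℝ h) p := hhp.fderiv_right leI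
  have hEp : ContDiffAt ℝ ∞ (Df A T h) p :=
    (hDp.clm_comp hAp).sub (contDiffAt_const.clm_comp hDp)
  have hz0 : ∀ᶠ z in 𝓝 p, h z = 0 → Df A T h z = 0 := by
    filter_upwards [hU.mem_nhds hp] with z hz h0
    ext1 u
    unfold Df
    rw [sub_apply, ContinuousLinearMap.comp_apply, ContinuousLinearMap.comp_apply, hJ z hz h0 u,
      sub_self, zero_apply]
  obtain ⟨C₀, hC₀, h0⟩ := dom0 hEp hhp hp0 hs hz0
  obtain ⟨C', hC', h1⟩ := dom1 hEp hhp hp0 hs hC₀ h0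
  obtain ⟨M, hM0, hM⟩ : ∃ M : ℝ, 0 ≤ M ∧ ∀ᶠ z in 𝓝 p, ‖A z‖ ≤ M := by
    refine ⟨‖A p‖ + 1, by positivity, ?_⟩
    filter_upwards [hAp.continuousAt.norm.eventually (gt_mem_nhds (lt_add_one ‖A p‖))] with z hz
    exact hz.le
  obtain ⟨V, hVs, hVo, hpV⟩ := _root_.mem_nhds_iff.1 (h0.and (h1.and (hM.and (hU.mem_nhds hp))))
  obtain ⟨K, hK⟩ : ∃ K, K = 2 * (1 + ‖T‖) * C₀ + 2 * (1 + ‖T‖) * C' * (2 * M + C₀ + ‖T‖) :=
    ⟨_, rfl⟩
  have hK0 : 0 ≤ K := by rw [hK]; positivity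
  refine ⟨V, 14 * K + 28 * K * K + 2 * K + 4 * K ^ 2 + (14 * K) ^ 2 / 4, hVo, hpV,
    fun z hz => (hVs hz).2.2.2, by positivity, ?_⟩
  intro z hz ε hε _ v
  obtain ⟨hE0, hE1, hAM, hzU⟩ := hVs hz
  have hAz : DifferentiableAt ℝ A z := (hA.contDiffAt (hU.mem_nhds hzU)).differentiableAt (by simp)
  have hhz : ContDiffAt ℝ ∞ h z := hh.contDiffAt (hU.mem_nhds hzU)
  have hhe : ∀ᶠ x in 𝓝 z, DifferentiableAt ℝ h x := by
    filter_upwards [hU.mem_nhds hzU] with x hx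
    exact (hh.contDiffAt (hU.mem_nhds hx)).differentiableAt (by simp)
  have hDz : DifferentiableAt ℝ (fderiv ℝ h) z :=
    ((hhz.fderiv_right leI).differentiableAt (by simp))
  have hsym : ∀ u v, fderiv ℝ (fderiv ℝ h) z u v = fderiv ℝ (fderiv ℝ h) z v u :=
    fun u v => (hhz.isSymmSndFDerivAt leS).eq u v
  obtain ⟨φ, hφ⟩ : ∃ φ : E d → ℝ, φ = fun z => (‖h z‖ ^ 2 + ‖T (h z)‖ ^ 2) / 2 + ε ^ 2 := ⟨_, rfl⟩
  have hφd : ∀ᶠ x in 𝓝 z, DifferentiableAt ℝ φ x := by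
    filter_upwards [hhe] with x hx
    rw [hφ]
    exact (rho_D T hx (ε ^ 2)).differentiableAt
  have hφd2 : DifferentiableAt ℝ (fderiv ℝ φ) z := by
    rw [hφ]
    exact (rho_D2 T hhe hDz (ε ^ 2)).differentiableAt
  have hφz : φ z = Bf T (h z) (h z) + ε ^ 2 := by rw [hφ, Bf_self]
  have hφ0 : 0 < φ z := by
    rw [hφz]
    have := Bf_nonneg T (h z)
    positivity
  have hDφ : ∀ u, fderiv ℝ φ z u = 2 * Bf T (h z) (fderiv ℝ h z u) := by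
    intro u
    rw [hφ, (rho_D T hhe.self_of_nhds (ε ^ 2)).fderiv]
    rfl
  have hLφ : LA A φ z v = 2 * Bf T (fderiv ℝ h z v) (fderiv ℝ h z v) +
      2 * Bf T (fderiv ℝ h z (A z v)) (fderiv ℝ h z (A z v)) +
      2 * Bf T (h z) (Lam A h z v) := by
    rw [hφ]
    exact LA_rho T hhe hDz (ε ^ 2) v
  -- the vectors
  obtain ⟨n, hn⟩ : ∃ n, n = fderiv ℝ h z v := ⟨_, rfl⟩
  obtain ⟨e, he⟩ : ∃ e, e = Df A T h z v := ⟨_, rfl⟩
  have hm : fderiv ℝ h z (A z v) = T n + e := by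
    rw [he, hn]
    unfold Df
    rw [sub_apply, ContinuousLinearMap.comp_apply, ContinuousLinearMap.comp_apply]
    abel
  obtain ⟨σ, hσ⟩ : ∃ σ, σ = Real.sqrt (Bf T (h z) (h z)) := ⟨_, rfl⟩
  obtain ⟨y, hy⟩ : ∃ y, y = Real.sqrt (Bf T n n) := ⟨_, rfl⟩
  have hσ0 : 0 ≤ σ := hσ ▸ Real.sqrt_nonneg _
  have hy0 : 0 ≤ y := hy ▸ Real.sqrt_nonneg _
  have hσ2 : σ ^ 2 = Bf T (h z) (h z) := by rw [hσ, Real.sq_sqrt (Bf_nonneg T _)]
  have hy2 : y ^ 2 = Bf T n n := by rw [hy, Real.sq_sqrt (Bf_nonneg T _)]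
  have hhσ : ‖h z‖ ≤ 2 * σ := hσ ▸ le_sqrt T (h z)
  have hny : ‖n‖ ≤ 2 * y := hy ▸ le_sqrt T n
  have hv0 : 0 ≤ ‖v‖ := norm_nonneg v
  have hen : ‖e‖ ≤ 2 * C₀ * σ * ‖v‖ := by
    rw [he]
    calc ‖Df A T h z v‖ ≤ ‖Df A T h z‖ * ‖v‖ := ContinuousLinearMap.le_opNorm _ _
      _ ≤ (C₀ * (2 * σ)) * ‖v‖ :=
        mul_le_mul_of_nonneg_right (hE0.trans (mul_le_mul_of_nonneg_left hhσ hC₀)) hv0
      _ = _ := by ring
  have heN : Real.sqrt (Bf T e e) ≤ K * σ * ‖v‖ := by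
    calc Real.sqrt (Bf T e e) ≤ (1 + ‖T‖) * ‖e‖ := sqrt_le T e
      _ ≤ (1 + ‖T‖) * (2 * C₀ * σ * ‖v‖) := mul_le_mul_of_nonneg_left hen (by positivity)
      _ = 2 * (1 + ‖T‖) * C₀ * (σ * ‖v‖) := by ring
      _ ≤ K * (σ * ‖v‖) := by
        refine mul_le_mul_of_nonneg_right ?_ (by positivity)
        rw [hK]
        have : 0 ≤ 2 * (1 + ‖T‖) * C' * (2 * M + C₀ + ‖T‖) := by positivity
        linarith
      _ = _ := by ring
  have hAv : ‖A z v‖ ≤ M * ‖v‖ :=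
    ((A z).le_opNorm v).trans (mul_le_mul_of_nonneg_right hAM hv0)
  have hmn : ‖fderiv ℝ h z (A z v)‖ ≤ ‖T‖ * (2 * y) + 2 * C₀ * σ * ‖v‖ := by
    rw [hm]
    refine (norm_add_le _ _).trans (add_le_add ?_ hen)
    exact (T.le_opNorm n).trans (mul_le_mul_of_nonneg_left hny (norm_nonneg _))
  have hLn : ‖Lam A h z v‖ ≤ 2 * C' * (2 * M + C₀ + ‖T‖) * (σ * ‖v‖ ^ 2 + y * ‖v‖) := by
    rw [Lam_eq T hAz hDz hsym (hA2 z hzU v)]
    have i1 : ‖fderiv ℝ (Df A T h) z (A z v) v‖ ≤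
        C' * ((2 * σ) * (M * ‖v‖) + (‖T‖ * (2 * y) + 2 * C₀ * σ * ‖v‖)) * ‖v‖ := by
      refine (ContinuousLinearMap.le_opNorm _ _).trans (mul_le_mul_of_nonneg_right ?_ hv0)
      refine (hE1 (A z v)).trans (mul_le_mul_of_nonneg_left (add_le_add ?_ hmn) hC')
      exact mul_le_mul hhσ hAv (norm_nonneg _) (by positivity)
    have i2 : ‖fderiv ℝ (Df A T h) z v (A z v)‖ ≤
        C' * ((2 * σ) * ‖v‖ + 2 * y) * (M * ‖v‖) := by
      refine (ContinuousLinearMap.le_opNorm _ _).trans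
        (mul_le_mul ?_ hAv (norm_nonneg _) (by positivity))
      refine (hE1 v).trans (mul_le_mul_of_nonneg_left (add_le_add ?_ ?_) hC')
      · exact mul_le_mul_of_nonneg_right hhσ hv0
      · rw [← hn]
        exact hny
    refine (norm_sub_le _ _).trans ((add_le_add i1 i2).trans ?_)
    have j1 : 0 ≤ C' * ‖T‖ * (σ * ‖v‖ ^ 2) := by positivity
    have j2 : 0 ≤ C' * M * (y * ‖v‖) := by positivity
    have j3 : 0 ≤ C' * C₀ * (y * ‖v‖) := by positivity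
    nlinarith
  have hLN : Real.sqrt (Bf T (Lam A h z v) (Lam A h z v)) ≤ K * (σ * ‖v‖ ^ 2 + y * ‖v‖) := by
    calc Real.sqrt (Bf T (Lam A h z v) (Lam A h z v)) ≤ (1 + ‖T‖) * ‖Lam A h z v‖ := sqrt_le T _
      _ ≤ (1 + ‖T‖) * (2 * C' * (2 * M + C₀ + ‖T‖) * (σ * ‖v‖ ^ 2 + y * ‖v‖)) :=
        mul_le_mul_of_nonneg_left hLn (by positivity)
      _ = (2 * (1 + ‖T‖) * C' * (2 * M + C₀ + ‖T‖)) * (σ * ‖v‖ ^ 2 + y * ‖v‖) := by ring
      _ ≤ K * (σ * ‖v‖ ^ 2 + y * ‖v‖) := by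
        refine mul_le_mul_of_nonneg_right ?_ (by positivity)
        rw [hK]
        have : 0 ≤ 2 * (1 + ‖T‖) * C₀ := by positivity
        linarith
  have hb : Bf T (h z) n ^ 2 + Bf T (h z) (T n) ^ 2 ≤ (σ * y) ^ 2 := by
    rw [mul_pow, hσ2, hy2]
    exact bessel hT (h z) n
  have hδ : |Bf T (h z) e| ≤ K * σ ^ 2 * ‖v‖ := by
    refine (cs hT (h z) e).trans ?_
    rw [← hσ]
    calc σ * Real.sqrt (Bf T e e) ≤ σ * (K * σ * ‖v‖) := mul_le_mul_of_nonneg_left heN hσ0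
      _ = _ := by ring
  have hκ : |Bf T (T n) e| ≤ K * y * σ * ‖v‖ := by
    refine (cs hT (T n) e).trans ?_
    rw [Bf_T hT, ← hy]
    calc y * Real.sqrt (Bf T e e) ≤ y * (K * σ * ‖v‖) := mul_le_mul_of_nonneg_left heN hy0
      _ = _ := by ring
  have hl : |Bf T (h z) (Lam A h z v)| ≤ K * σ * (σ * ‖v‖ ^ 2 + y * ‖v‖) := by
    refine (cs hT (h z) _).trans ?_
    rw [← hσ]
    calc σ * Real.sqrt (Bf T (Lam A h z v) (Lam A h z v)) ≤ σ * (K * (σ * ‖v‖ ^ 2 + y * ‖v‖)) :=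
          mul_le_mul_of_nonneg_left hLN hσ0
      _ = _ := by ring
  have hfin := alg (W := LA A (fun z => Real.log (φ z)) z v) (s := φ z) hσ0 hy0 hφ0
    (by rw [hφz, hσ2]; nlinarith [sq_nonneg ε]) hv0 hK0 hb hδ hκ (Bf_nonneg T e) hl (by
      rw [LA_log hφd hφd2 hφ0.ne', hLφ, hDφ, hDφ, hm, ← hn, hy2]
      simp only [map_add, add_apply]
      rw [Bf_T hT, Bf_symm T e (T n)]
      ring)
  have hD1 : fderiv ℝ (fun z => Real.log (φ z)) z v = 2 * Bf T (h z) n / φ z := by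
    rw [log_D hφd.self_of_nhds hφ0.ne', hDφ, ← hn]
  have hD2 : fderiv ℝ (fun z => Real.log (φ z)) z (A z v) =
      2 * (Bf T (h z) (T n) + Bf T (h z) e) / φ z := by
    rw [log_D hφd.self_of_nhds hφ0.ne', hDφ, hm, map_add]
  rw [← hD1, ← hD2, hφ] at hfin
  exact hfin

end Pool.Agent.H819.EM
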