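import Mathlib
import Pool.Agent.H819.EM.Loc

/-!
# Closed structure measures carried by a submanifold are tangential
-/

set_option autoImplicit false

open Set Filter Topology MeasureTheory Metric
open scoped ContDiff ENNReal NNReal

noncomputable section

namespace Pool.Agent.H819.EM

open Pool.Agent.Y501.SY (E)

variable {d k : ℕ}

/-- one function and one cutoff function -/
theorem tang_aux {U : Set (E d)} (hU : IsOpen U) {A : E d → E d →L[ℝ] E d}
    (hA : ContDiffOn ℝ ∞ A U) (hA2 : ∀ z ∈ U, ∀ u, A z (A z u) = -u) {f : E d → ℝ}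
    (hf : ContDiffOn ℝ ∞ f U) {ν : Measure (E d × E d)} [IsFiniteMeasure ν] {M : ℝ}
    (hM : ∀ᵐ q ∂ν, ‖q.2‖ ≤ M) {Y : Set (E d)} (hYU : Y ⊆ U) (hYm : MeasurableSet Y)
    (hY : ∀ z ∈ Y, f z = 0) (hν : ClosedOn U A ν Y) {κ : E d → ℝ} (hκ : ContDiff ℝ ∞ κ)
    (hκc : HasCompactSupport κ) (hκU : tsupport κ ⊆ U) (hκ0 : ∀ z, 0 ≤ κ z) :
    ∀ᵐ q ∂ν, q.1 ∈ Y → 0 < κ q.1 → fderiv ℝ f q.1 q.2 = 0 := by
  have hDf : ContDiffOn ℝ ∞ (fderiv ℝ f) U := hf.fderiv_of_isOpen hU (by simp)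
  set g : E d → (E d →L[ℝ] ℝ) := fun z => (κ z * f z) • (fderiv ℝ f z).comp (A z) with hg
  have hfat : ∀ z ∈ U, ContDiffAt ℝ ∞ f z := fun z hz => hf.contDiffAt (hU.mem_nhds hz)
  have hDfat : ∀ z ∈ U, ContDiffAt ℝ ∞ (fderiv ℝ f) z := fun z hz => hDf.contDiffAt (hU.mem_nhds hz)
  have hAat : ∀ z ∈ U, ContDiffAt ℝ ∞ A z := fun z hz => hA.contDiffAt (hU.mem_nhds hz)
  have hgat : ∀ z ∈ U, ContDiffAt ℝ ∞ g z := fun z hz =>
    (hκ.contDiffAt.mul (hfat z hz)).smul ((hDfat z hz).clm_comp (hAat z hz))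
  have hgs : Function.support g ⊆ Function.support κ := by
    intro z hz
    rw [Function.mem_support] at hz ⊢
    intro h0
    apply hz
    show (κ z * f z) • (fderiv ℝ f z).comp (A z) = 0
    rw [h0, zero_mul, zero_smul]
  have hgts : tsupport g ⊆ tsupport κ := closure_mono hgs
  have hgsm : ContDiff ℝ ∞ g := by
    rw [contDiff_iff_contDiffAt]
    intro z
    by_cases hz : z ∈ tsupport κ
    · exact hgat z (hκU hz)
    · have h0 : g =ᶠ[𝓝 z] fun _ => 0 := notMem_tsupport_iff_eventuallyEq.1 fun h => hz (hgts h)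
      exact contDiffAt_const.congr_of_eventuallyEq h0
  have hb : Test U (fun z => one (g z)) := by
    have hbs : Function.support (fun z => one (g z)) ⊆ Function.support g := by
      intro z hz
      rw [Function.mem_support] at hz ⊢
      intro h0
      apply hz
      show one (g z) = 0
      rw [h0, map_zero]
    refine ⟨(one (d := d)).toContinuousLinearEquiv.contDiff.comp hgsm, ?_, ?_⟩
    · exact hκc.mono (hbs.trans hgs)
    · exact (closure_mono (hbs.trans hgs)).trans hκU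
  have h1 := hν _ hb
  have hmY : MeasurableSet {q : E d × E d | q.1 ∈ Y} := measurable_fst hYm
  have hmU : MeasurableSet {q : E d × E d | q.1 ∈ U} := measurable_fst hU.measurableSet
  set F : E d × E d → ℝ := fun q => κ q.1 * (fderiv ℝ f q.1 q.2 ^ 2 +
    fderiv ℝ f q.1 (A q.1 q.2) ^ 2) with hF
  -- the integrand
  have h2 : ∀ q ∈ {q : E d × E d | q.1 ∈ Y},
      extDeriv (fun z => one (g z)) q.1 ![q.2, A q.1 q.2] = -F q := by
    rintro ⟨z, u⟩ hz
    have hzY : z ∈ Y := hz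
    have hzU : z ∈ U := hYU hzY
    have hfz : f z = 0 := hY z hzY
    show extDeriv (fun z => one (g z)) z ![u, A z u] = -F (z, u)
    rw [extDeriv_one ((hgat z hzU).differentiableAt (by simp))]
    have hc : HasFDerivAt (fun z => κ z * f z) (κ z • fderiv ℝ f z + f z • fderiv ℝ κ z) z :=
      (hκ.contDiffAt.differentiableAt (by simp)).hasFDerivAt.mul
        ((hfat z hzU).differentiableAt (by simp)).hasFDerivAt
    have hG : HasFDerivAt (fun z => (fderiv ℝ f z).comp (A z))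
        (fderiv ℝ (fun z => (fderiv ℝ f z).comp (A z)) z) z :=
      (((hDfat z hzU).clm_comp (hAat z hzU)).differentiableAt (by simp)).hasFDerivAt
    have h3 : HasFDerivAt g _ z := hc.smul hG
    rw [h3.fderiv, hfz]
    have h4 := hA2 z hzU u
    show ((κ z * 0) • _ + ContinuousLinearMap.smulRight (κ z • fderiv ℝ f z + (0 : ℝ) • fderiv ℝ κ z)
      ((fderiv ℝ f z).comp (A z))) u (A z u) -
      ((κ z * 0) • _ + ContinuousLinearMap.smulRight (κ z • fderiv ℝ f z + (0 : ℝ) • fderiv ℝ κ z)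
      ((fderiv ℝ f z).comp (A z))) (A z u) u = -(κ z * (fderiv ℝ f z u ^ 2 + fderiv ℝ f z (A z u) ^ 2))
    simp only [mul_zero, zero_smul, zero_add, add_zero, ContinuousLinearMap.smulRight_apply, smul_apply, add_apply, zero_apply,
      ContinuousLinearMap.comp_apply, smul_eq_mul, h4, map_neg]
    ring
  -- the integral of `F` vanishes
  have h3 : ∫ q in {q : E d × E d | q.1 ∈ Y}, F q ∂ν = 0 := by
    rw [setIntegral_congr_fun hmY h2, integral_neg, neg_eq_zero] at h1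
    exact h1
  have hF0 : ∀ q, 0 ≤ F q := fun q => mul_nonneg (hκ0 _) (by positivity)
  have hFc : ContinuousOn F {q : E d × E d | q.1 ∈ U} := by
    have c1 : ContinuousOn (fun q : E d × E d => fderiv ℝ f q.1) {q : E d × E d | q.1 ∈ U} :=
      hDf.continuousOn.comp continuousOn_fst fun q hq => hq
    have c2 : ContinuousOn (fun q : E d × E d => A q.1) {q : E d × E d | q.1 ∈ U} :=
      hA.continuousOn.comp continuousOn_fst fun q hq => hq
    have c3 : ContinuousOn (fun q : E d × E d => q.2) {q : E d × E d | q.1 ∈ U} := continuousOn_snd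
    have c4 : ContinuousOn (fun q : E d × E d => κ q.1) {q : E d × E d | q.1 ∈ U} :=
      (hκ.continuous.comp continuous_fst).continuousOn
    exact c4.mul (((c1.clm_apply c3).pow 2).add ((c1.clm_apply (c2.clm_apply c3)).pow 2))
  have hFm : AEStronglyMeasurable F (ν.restrict {q : E d × E d | q.1 ∈ Y}) :=
    (hFc.aestronglyMeasurable hmU).mono_measure (Measure.restrict_mono
      (fun q hq => hYU hq : {q : E d × E d | q.1 ∈ Y} ⊆ {q : E d × E d | q.1 ∈ U}) le_rfl)
  have hKc : IsCompact ((tsupport κ) ×ˢ (closedBall (0 : E d) M)) :=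
    hκc.isCompact.prod (isCompact_closedBall _ _)
  obtain ⟨C, hC⟩ := hKc.exists_bound_of_continuousOn (hFc.mono fun q hq => hκU hq.1)
  have hFi : Integrable F (ν.restrict {q : E d × E d | q.1 ∈ Y}) := by
    refine Integrable.of_bound hFm (max C 0) ?_
    refine (ae_restrict_of_ae hM).mono fun q hq => ?_
    by_cases hq1 : q.1 ∈ tsupport κ
    · exact (hC q ⟨hq1, mem_closedBall_zero_iff.2 hq⟩).trans (le_max_left _ _)
    · have h0 : F q = 0 := by
        show κ q.1 * _ = 0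
        rw [image_eq_zero_of_notMem_tsupport hq1, zero_mul]
      rw [h0, norm_zero]
      exact le_max_right _ _
  have h4 := (setIntegral_eq_zero_iff_of_nonneg_ae (Eventually.of_forall hF0) hFi).1 h3
  have h5 := (ae_restrict_iff' hmY).1 h4
  refine h5.mono fun q hq hqY hqκ => ?_
  have h6 : κ q.1 * (fderiv ℝ f q.1 q.2 ^ 2 + fderiv ℝ f q.1 (A q.1 q.2) ^ 2) = 0 := hq hqY
  have h7 := (mul_eq_zero.1 h6).resolve_left hqκ.ne'
  have h8 : fderiv ℝ f q.1 q.2 ^ 2 = 0 := by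
    nlinarith [sq_nonneg (fderiv ℝ f q.1 q.2), sq_nonneg (fderiv ℝ f q.1 (A q.1 q.2))]
  exact pow_eq_zero_iff (by norm_num) |>.1 h8

/-- **Tangentiality.**

Proof.  Fix a coordinate `j` of `E k`, let `f z = h₀ z j` (smooth on `U`), and let `κ ≥ 0` be a smooth
function with compact support in `U`.  Put `b(z)(v) = κ(z) f(z) Df(z) (A(z) v)` (this is
`- (κ f) • bf A f`, a test form: `bf`, `extDeriv_eq` in `EM/Def.lean`; it is defined to be zero outside
`tsupport κ`, and smooth since `A` and `f` are smooth on `U`).  At points with `f z = 0`: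
`extDeriv b z ![u, v] = κ (Df(u) Df(A v) - Df(v) Df(A u))`, so with `v = A u`
`extDeriv b z ![u, A u] = - κ (Df(u)² + Df(A u)²)`.  Hence
`∫_{z ∈ U, h₀ z = 0} κ (Df(u)² + Df(A u)²) dν = 0`, and `Df(u) = 0` for `ν`-almost all `(z, u)` with
`z ∈ U`, `h₀ z = 0`, `κ z > 0` (`integral_eq_zero_iff_of_nonneg_ae`; the integrand is bounded, since
`‖u‖ ≤ M` almost everywhere, and `ν` is finite).  Use countably many `κ` whose supports cover `U` (for
instance one smooth `κ` for each compact set of an exhaustion of `U`, `κ = 1` there; or one `κ` for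
each ball of a countable basis), and the finitely many coordinates `j`. -/
theorem tangential {U : Set (E d)} (hU : IsOpen U) {A : E d → E d →L[ℝ] E d}
    (hA : ContDiffOn ℝ ∞ A U) (hA2 : ∀ z ∈ U, ∀ u, A z (A z u) = -u) {h₀ : E d → E k}
    (hh : ContDiffOn ℝ ∞ h₀ U) {ν : Measure (E d × E d)} [IsFiniteMeasure ν] {M : ℝ}
    (hM : ∀ᵐ q ∂ν, ‖q.2‖ ≤ M) (hν : ClosedOn U A ν {z | z ∈ U ∧ h₀ z = 0}) :
    ∀ᵐ q ∂ν, q.1 ∈ U → h₀ q.1 = 0 → fderiv ℝ h₀ q.1 q.2 = 0 := by
  have hYU : {z | z ∈ U ∧ h₀ z = 0} ⊆ U := fun z hz => hz.1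
  have hYm : MeasurableSet {z | z ∈ U ∧ h₀ z = 0} := by
    obtain ⟨u, hu, hu'⟩ := continuousOn_iff_isClosed.1 hh.continuousOn {0} isClosed_singleton
    have e : {z | z ∈ U ∧ h₀ z = 0} = h₀ ⁻¹' {0} ∩ U := by
      ext z
      exact and_comm
    rw [e, hu']
    exact hu.measurableSet.inter hU.measurableSet
  -- the cutoff functions
  have hex : ∀ x : E d, ∃ κ : E d → ℝ, x ∈ U → tsupport κ ⊆ U ∧ HasCompactSupport κ ∧
      ContDiff ℝ ∞ κ ∧ (∀ z, 0 ≤ κ z) ∧ κ x = 1 := by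
    intro x
    by_cases hx : x ∈ U
    · obtain ⟨κ, a1, a2, a3, a4, a5⟩ := exists_contDiff_tsupport_subset (n := (⊤ : ℕ∞)) (hU.mem_nhds hx)
      exact ⟨κ, fun _ => ⟨a1, a2, a3, fun z => (a4 (mem_range_self z)).1, a5⟩⟩
    · exact ⟨0, fun h => absurd h hx⟩
  choose κ hκ using hex
  obtain ⟨t, htU, htc, htcov⟩ := TopologicalSpace.countable_cover_nhdsWithin
    (f := fun x => {z | 0 < κ x z}) (s := U) (by
      intro x hx
      obtain ⟨-, -, a3, -, a5⟩ := hκ x hx
      refine mem_nhdsWithin_of_mem_nhds ?_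
      exact (isOpen_lt continuous_const a3.continuous).mem_nhds (by
        show 0 < κ x x
        rw [a5]
        exact one_pos))
  have h1 : ∀ᵐ q ∂ν, ∀ x ∈ t, ∀ j : Fin k, q.1 ∈ {z | z ∈ U ∧ h₀ z = 0} → 0 < κ x q.1 →
      fderiv ℝ (fun z => EuclideanSpace.proj (𝕜 := ℝ) j (h₀ z)) q.1 q.2 = 0 := by
    rw [ae_ball_iff htc]
    intro x hx
    rw [ae_all_iff]
    intro j
    obtain ⟨a1, a2, a3, a4, -⟩ := hκ x (htU hx)
    refine tang_aux hU hA hA2 ?_ hM hYU hYm ?_ hν a3 a2 a1 a4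
    · exact (EuclideanSpace.proj (𝕜 := ℝ) j).contDiff.comp_contDiffOn hh
    · intro z hz
      rw [hz.2, map_zero]
  refine h1.mono fun q hq hqU hq0 => ?_
  obtain ⟨x, hx, hx'⟩ := mem_iUnion₂.1 (htcov hqU)
  have hd : DifferentiableAt ℝ h₀ q.1 := (hh.contDiffAt (hU.mem_nhds hqU)).differentiableAt (by simp)
  ext j
  have h2 := hq x hx j ⟨hqU, hq0⟩ hx'
  have h3 : HasFDerivAt (fun z => EuclideanSpace.proj (𝕜 := ℝ) j (h₀ z))
      ((EuclideanSpace.proj (𝕜 := ℝ) j : E k →L[ℝ] ℝ).comp (fderiv ℝ h₀ q.1)) q.1 :=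
    (EuclideanSpace.proj (𝕜 := ℝ) j : E k →L[ℝ] ℝ).hasFDerivAt.comp q.1 hd.hasFDerivAt
  rw [h3.fderiv] at h2
  exact h2

end Pool.Agent.H819.EM

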