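import Mathlib
import Pool.Agent.H819.EM.Adapt
import Pool.Agent.H819.EM.LogE
import Pool.Agent.H819.EM.ElMir
import Pool.Agent.H819.EM.ElExt
import Pool.Agent.H819.EM.Tang

/-!
# Restriction of closed structure measures to pseudoholomorphic submanifolds, local version
-/

set_option autoImplicit false

open Set Filter Topology MeasureTheory Metric
open scoped ContDiff ENNReal NNReal

noncomputable section

namespace Pool.Agent.H819.EM

open Pool.Agent.Y501.SY (E)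

variable {d k : ℕ}

theorem ClosedOn.mono {U V : Set (E d)} {A : E d → E d →L[ℝ] E d} {ν : Measure (E d × E d)}
    {Y : Set (E d)} (h : ClosedOn U A ν Y) (hVU : V ⊆ U) : ClosedOn V A ν Y :=
  fun b hb => h b ⟨hb.smooth, hb.comp, hb.supp.trans hVU⟩

/-- a set can be changed outside `U` -/
theorem ClosedOn.congr {U : Set (E d)} {A : E d → E d →L[ℝ] E d} {ν : Measure (E d × E d)}
    {Y Y' : Set (E d)} (hY : MeasurableSet Y) (hY' : MeasurableSet Y')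
    (h : ClosedOn U A ν Y) (he : ∀ z ∈ U, z ∈ Y ↔ z ∈ Y') : ClosedOn U A ν Y' := by
  intro b hb
  rw [← h b hb]
  have hm : MeasurableSet {q : E d × E d | q.1 ∈ Y} := measurable_fst hY
  have hm' : MeasurableSet {q : E d × E d | q.1 ∈ Y'} := measurable_fst hY'
  rw [← integral_indicator hm, ← integral_indicator hm']
  congr 1
  funext q
  by_cases hq : q.1 ∈ U
  · have h1 : q ∈ {q : E d × E d | q.1 ∈ Y} ↔ q ∈ {q : E d × E d | q.1 ∈ Y'} := he q.1 hq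
    by_cases h2 : q ∈ {q : E d × E d | q.1 ∈ Y}
    · rw [indicator_of_mem h2, indicator_of_mem (h1.1 h2)]
    · rw [indicator_of_notMem h2, indicator_of_notMem (fun h3 => h2 (h1.2 h3))]
  · have h0 : extDeriv b q.1 ![q.2, A q.1 q.2] = 0 := by
      have h1 : q.1 ∉ tsupport b := fun h => hq (hb.supp h)
      have h2 : b =ᶠ[𝓝 q.1] fun _ => 0 := by
        filter_upwards [(isClosed_tsupport b).isOpen_compl.mem_nhds h1] with z hz
        exact image_eq_zero_of_notMem_tsupport hz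
      have h3 : fderiv ℝ b q.1 = 0 := by
        rw [h2.fderiv_eq]
        simp
      rw [extDeriv_eq (hb.smooth.differentiable (by simp)).differentiableAt, h3]
      simp
    by_cases h2 : q ∈ {q : E d × E d | q.1 ∈ Y} <;>
      by_cases h3 : q ∈ {q : E d × E d | q.1 ∈ Y'} <;>
      simp [indicator, h0]

/-- **Restriction, tangentiality and extension**, local version -/
theorem loc_restrict {U : Set (E d)} (hU : IsOpen U) {A : E d → E d →L[ℝ] E d}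
    (hA : ContDiffOn ℝ ∞ A U) (hA2 : ∀ z ∈ U, ∀ u, A z (A z u) = -u) {h₀ : E d → E k}
    (hh : ContDiffOn ℝ ∞ h₀ U) {p : E d} (hp : p ∈ U) (hp0 : h₀ p = 0)
    (hs : Function.Surjective (fderiv ℝ h₀ p))
    (hJ : ∀ z ∈ U, h₀ z = 0 → ∀ u, fderiv ℝ h₀ z u = 0 → fderiv ℝ h₀ z (A z u) = 0) :
    ∃ V : Set (E d), IsOpen V ∧ p ∈ V ∧ V ⊆ U ∧ ∀ W : Set (E d), IsOpen W → W ⊆ V →
      ∀ (ν : Measure (E d × E d)) (M : ℝ), IsFiniteMeasure ν → (∀ᵐ q ∂ν, ‖q.2‖ ≤ M) →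
      (ClosedOn W A ν univ → ClosedOn W A ν {z | z ∈ W ∧ h₀ z = 0} ∧
        ∀ᵐ q ∂ν, q.1 ∈ W → h₀ q.1 = 0 → fderiv ℝ h₀ q.1 q.2 = 0) ∧
      ∀ Y : Set (E d), MeasurableSet Y → ClosedOn (W ∩ {z | h₀ z ≠ 0}) A ν Y →
        ClosedOn W A ν {z | z ∈ Y ∧ z ∈ W ∧ h₀ z ≠ 0} := by
  obtain ⟨V₁, T, h, hV₁, hpV₁, hV₁U, hT, hh1, hz, hs1, hJ1⟩ :=
    exists_adapted hU hA hA2 hh hp hp0 hs hJ
  obtain ⟨V, C₁, hV, hpV, hVV₁, hC₁, hlog⟩ := log_est hV₁ (hA.mono hV₁U)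
    (fun z hz => hA2 z (hV₁U hz)) hT hh1 hpV₁ ((hz p hpV₁).2 hp0) hs1 hJ1
  refine ⟨V, hV, hpV, hVV₁.trans hV₁U, fun W hW hWV ν M hν hM => ?_⟩
  have hWU : W ⊆ U := hWV.trans (hVV₁.trans hV₁U)
  have hrho : ContDiffOn ℝ ∞ (fun z => (‖h z‖ ^ 2 + ‖T (h z)‖ ^ 2) / 2) W := by
    have h1 : ContDiffOn ℝ ∞ h W := hh1.mono (hWV.trans hVV₁)
    have h2 : ContDiffOn ℝ ∞ (fun z => T (h z)) W := T.contDiff.comp_contDiffOn h1
    exact ((h1.norm_sq ℝ).add (h2.norm_sq ℝ)).div_const 2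
  have hiff : ∀ z ∈ W, (‖h z‖ ^ 2 + ‖T (h z)‖ ^ 2) / 2 = 0 ↔ h₀ z = 0 := by
    intro z hzW
    constructor
    · intro h2
      refine (hz z (hVV₁ (hWV hzW))).1 ?_
      have h3 : ‖h z‖ ^ 2 = 0 := by nlinarith [sq_nonneg ‖h z‖, sq_nonneg ‖T (h z)‖]
      exact norm_eq_zero.1 (pow_eq_zero_iff (two_ne_zero)|>.1 h3)
    · intro h2
      rw [(hz z (hVV₁ (hWV hzW))).2 h2]
      simp
  constructor
  · intro hcl
    have h1 := elmir (U := W) hW (hA.mono hWU) (fun z hz => hA2 z (hWU hz)) hrho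
      (fun z _ => by positivity) hC₁ (fun z hz => hlog z (hWV hz)) hM hcl
    have hset : {z | z ∈ W ∧ (‖h z‖ ^ 2 + ‖T (h z)‖ ^ 2) / 2 = 0} = {z | z ∈ W ∧ h₀ z = 0} := by
      ext z
      exact and_congr_right fun hzW => hiff z hzW
    rw [hset] at h1
    exact ⟨h1, tangential hW (hA.mono hWU) (fun z hz => hA2 z (hWU hz)) (hh.mono hWU) hM h1⟩
  · intro Y hY hcl
    have hset : W ∩ {z | (‖h z‖ ^ 2 + ‖T (h z)‖ ^ 2) / 2 ≠ 0} = W ∩ {z | h₀ z ≠ 0} := by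
      ext z
      exact and_congr_right fun hzW => not_congr (hiff z hzW)
    have hset2 : {z | z ∈ Y ∧ z ∈ W ∧ (‖h z‖ ^ 2 + ‖T (h z)‖ ^ 2) / 2 ≠ 0} =
        {z | z ∈ Y ∧ z ∈ W ∧ h₀ z ≠ 0} := by
      ext z
      exact and_congr_right fun _ => and_congr_right fun hzW => not_congr (hiff z hzW)
    rw [← hset] at hcl
    have h1 := elmir_ext (U := W) hW (hA.mono hWU) (fun z hz => hA2 z (hWU hz)) hrho
      (fun z _ => by positivity) hC₁ (fun z hz => hlog z (hWV hz)) hM hY hcl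
    rwa [hset2] at h1

end Pool.Agent.H819.EM
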