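import Mathlib
import Pool.Agent.H819.EM.SLoc
import Pool.Agent.H819.EM.LocR
import Pool.Agent.H819.LG.Inv
import Pool.Agent.H819.LG.Fin

/-!
# Local data at the points of a pseudoholomorphic submanifold
-/

set_option autoImplicit false

open Set Filter Topology MeasureTheory Metric
open scoped Manifold ContDiff ENNReal NNReal

noncomputable section

namespace Pool.Agent.H819.EM

open Pool.Agent.Y501.SY
open Pool.Agent.H819
open Pool.Agent.H819.LG (inChart_sq)

variable {d : ℕ} {X : Type} [TopologicalSpace X] [ChartedSpace (E d) X]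

/-- the points of the closed ball over a closed set -/
theorem isClosed_over {C : Set X} (hC : IsClosed C) {p : X} {r : ℝ}
    (hr : closedBall (chartAt (E d) p p) r ⊆ (chartAt (E d) p).target) :
    IsClosed {z | z ∈ closedBall (chartAt (E d) p p) r ∧ (chartAt (E d) p).symm z ∈ C} :=
  ((chartAt (E d) p).continuousOn_symm.mono hr).preimage_isClosed_of_isClosed
    isClosed_closedBall hC

/-- local data at the points off the closed set `C` -/
theorem loc_off {J : End d X} {C : Set X} (hC : IsClosed C) {p : X} (hp : p ∉ C) :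
    ∃ r : ℝ, 0 < r ∧ closedBall (chartAt (E d) p p) r ⊆ (chartAt (E d) p).target ∧
      ∀ z ∈ closedBall (chartAt (E d) p p) r, (chartAt (E d) p).symm z ∉ C := by
  have h1 : IsOpen ((chartAt (E d) p).target ∩ (chartAt (E d) p).symm ⁻¹' Cᶜ) :=
    (chartAt (E d) p).isOpen_inter_preimage_symm hC.isOpen_compl
  have h2 : chartAt (E d) p p ∈ (chartAt (E d) p).target ∩ (chartAt (E d) p).symm ⁻¹' Cᶜ := by
    refine ⟨mem_chart_target (E d) p, ?_⟩
    show (chartAt (E d) p).symm (chartAt (E d) p p) ∉ C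
    rwa [(chartAt (E d) p).left_inv (mem_chart_source (E d) p)]
  obtain ⟨r, hr, hr2⟩ := Metric.nhds_basis_closedBall.mem_iff.1 (h1.mem_nhds h2)
  exact ⟨r, hr, fun z hz => (hr2 hz).1, fun z hz => (hr2 hz).2⟩

variable [IsManifold (𝓡 d) ∞ X]

theorem loc_data {J : End d X}
    (hJ2 : ∀ (x : X) (v : TangentSpace (𝓡 d) x), J x (J x v) = -v)
    {τ : Form d X 2} {B C : Set X} (hC : IsClosed C) (h : Along J τ B C) {p : X} (hp : p ∉ B) :
    ∃ r, LocR J τ C p r ∧ LocE J C p r := by
  by_cases hpC : p ∈ C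
  · obtain ⟨k, h₀, hs, hev⟩ := h p hpC hp
    set q₀ := chartAt (E d) p p with hq₀
    have hq₀t : q₀ ∈ (chartAt (E d) p).target := mem_chart_target (E d) p
    obtain ⟨U, hU1, hU, hU2⟩ := _root_.eventually_nhds_iff.1
      (hev.and ((chartAt (E d) p).open_target.mem_nhds hq₀t))
    have hUt : U ⊆ (chartAt (E d) p).target := fun z hz => (hU1 z hz).2
    have hp0 : h₀ q₀ = 0 := by
      refine (hU1 q₀ hU2).1.2.2.1.1 ?_
      rwa [hq₀, (chartAt (E d) p).left_inv (mem_chart_source (E d) p)]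
    obtain ⟨V, hV, hpV, hVU, hloc⟩ := loc_restrict hU
      (A := inChart J p) (h₀ := h₀) (p := q₀)
      (fun z hz => (hU1 z hz).1.1.contDiffWithinAt)
      (fun z hz u => inChart_sq hJ2 p (hUt hz) u)
      (fun z hz => (hU1 z hz).1.2.1.contDiffWithinAt) hU2 hp0 hs
      (fun z hz hz0 u hu => ((hU1 z hz).1.2.2.2 hz0 u hu).1)
    obtain ⟨r, hr, hrV⟩ := Metric.nhds_basis_closedBall.mem_iff.1 (hV.mem_nhds hpV)
    have hrt : closedBall q₀ r ⊆ (chartAt (E d) p).target := hrV.trans (hVU.trans hUt)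
    have hbV : ball q₀ r ⊆ V := ball_subset_closedBall.trans hrV
    have hcl : IsClosed {z | z ∈ closedBall q₀ r ∧ (chartAt (E d) p).symm z ∈ C} :=
      isClosed_over hC hrt
    have hiff : ∀ z ∈ ball q₀ r, (chartAt (E d) p).symm z ∈ C ↔ h₀ z = 0 := fun z hz =>
      (hU1 z (hVU (hbV hz))).1.2.2.1
    have hm1 : MeasurableSet {z | z ∈ ball q₀ r ∧ h₀ z = 0} := by
      have h1 : {z | z ∈ ball q₀ r ∧ h₀ z = 0} = ball q₀ r ∩
          {z | z ∈ closedBall q₀ r ∧ (chartAt (E d) p).symm z ∈ C} := by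
        ext z
        constructor
        · rintro ⟨hz, hz0⟩
          exact ⟨hz, ball_subset_closedBall hz, (hiff z hz).2 hz0⟩
        · rintro ⟨hz, -, hz0⟩
          exact ⟨hz, (hiff z hz).1 hz0⟩
      rw [h1]
      exact measurableSet_ball.inter hcl.measurableSet
    refine ⟨r, ⟨hr, hrt, fun μ M hμ hM hc => ?_⟩, ⟨hr, hrt, fun μ M hμ hM Y hY hc => ?_⟩⟩
    · obtain ⟨h1, h2⟩ := (hloc (ball q₀ r) isOpen_ball hbV μ M hμ hM).1 hc
      refine ⟨h1.congr hm1 hcl.measurableSet fun z hz => ?_, ?_⟩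
      · constructor
        · rintro ⟨-, hz0⟩
          exact ⟨ball_subset_closedBall hz, (hiff z hz).2 hz0⟩
        · rintro ⟨-, hz0⟩
          exact ⟨hz, (hiff z hz).1 hz0⟩
      · filter_upwards [h2] with q hq hqb hqC hq0
        have h3 := (hiff q.1 hqb).1 hqC
        exact ((hU1 q.1 (hVU (hbV hqb))).1.2.2.2 h3 q.2 (hq hqb h3)).2 hq0
    · have hset : ball q₀ r ∩ {z | (chartAt (E d) p).symm z ∉ C} = ball q₀ r ∩ {z | h₀ z ≠ 0} := by
        ext z
        exact and_congr_right fun hz => not_congr (hiff z hz)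
      rw [← hq₀, hset] at hc
      have h1 := (hloc (ball q₀ r) isOpen_ball hbV μ M hμ hM).2 Y hY hc
      refine h1.congr ?_ ?_ fun z hz => ?_
      · have h2 : {z | z ∈ Y ∧ z ∈ ball q₀ r ∧ h₀ z ≠ 0} = (Y ∩ ball q₀ r) \
            {z | z ∈ ball q₀ r ∧ h₀ z = 0} := by
          ext z
          constructor
          · rintro ⟨a1, a2, a3⟩
            exact ⟨⟨a1, a2⟩, fun a => a3 a.2⟩
          · rintro ⟨⟨a1, a2⟩, a3⟩
            exact ⟨a1, a2, fun a => a3 ⟨a2, a⟩⟩
        rw [h2]
        exact (hY.inter measurableSet_ball).diff hm1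
      · have h2 : {z | z ∈ Y ∧ z ∈ closedBall q₀ r ∧ (chartAt (E d) p).symm z ∉ C} =
            (Y ∩ closedBall q₀ r) \ {z | z ∈ closedBall q₀ r ∧ (chartAt (E d) p).symm z ∈ C} := by
          ext z
          constructor
          · rintro ⟨a1, a2, a3⟩
            exact ⟨⟨a1, a2⟩, fun a => a3 a.2⟩
          · rintro ⟨⟨a1, a2⟩, a3⟩
            exact ⟨a1, a2, fun a => a3 ⟨a2, a⟩⟩
        rw [h2]
        exact (hY.inter measurableSet_closedBall).diff hcl.measurableSet
      · constructor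
        · rintro ⟨a1, a2, a3⟩
          exact ⟨a1, ball_subset_closedBall hz, fun a => a3 ((hiff z hz).1 a)⟩
        · rintro ⟨a1, a2, a3⟩
          exact ⟨a1, hz, fun a => a3 ((hiff z hz).2 a)⟩
  · obtain ⟨r, hr, hrt, hrC⟩ := loc_off (J := J) hC hpC
    have hem : {z | z ∈ closedBall (chartAt (E d) p p) r ∧ (chartAt (E d) p).symm z ∈ C} = ∅ := by
      ext z
      simp only [mem_setOf_eq, mem_empty_iff_false, iff_false, not_and]
      exact hrC z
    refine ⟨r, ⟨hr, hrt, fun μ M hμ hM hc => ⟨?_, ?_⟩⟩, ⟨hr, hrt, fun μ M hμ hM Y hY hc => ?_⟩⟩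
    · rw [hem]
      intro b hb
      have h1 : {q : E d × E d | q.1 ∈ (∅ : Set (E d))} = ∅ := by
        ext q
        simp
      rw [h1]
      simp
    · refine Eventually.of_forall fun q hq hqC => ?_
      exact absurd hqC (hrC q.1 (ball_subset_closedBall hq))
    · have hset : ball (chartAt (E d) p p) r ∩ {z | (chartAt (E d) p).symm z ∉ C} =
          ball (chartAt (E d) p p) r := by
        refine inter_eq_left.2 fun z hz => hrC z (ball_subset_closedBall hz)
      rw [hset] at hc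
      have h2 : {z | z ∈ Y ∧ z ∈ closedBall (chartAt (E d) p p) r ∧
          (chartAt (E d) p).symm z ∉ C} = Y ∩ closedBall (chartAt (E d) p p) r := by
        ext z
        constructor
        · rintro ⟨a1, a2, -⟩
          exact ⟨a1, a2⟩
        · rintro ⟨a1, a2⟩
          exact ⟨a1, a2, hrC z a2⟩
      rw [h2]
      refine hc.congr hY (hY.inter measurableSet_closedBall) fun z hz => ?_
      exact ⟨fun a => ⟨a, ball_subset_closedBall hz⟩, fun a => a.1⟩

end Pool.Agent.H819.EM
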