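import Mathlib
import Pool.Agent.H819.HN.Fin
import Pool.Agent.H819.EM.ExAvg
import Pool.Agent.H819.EM.LocData
import Pool.Agent.H819.EM.Chain2

/-!
# Positive Lelong numbers along pseudoholomorphic submanifolds
-/

set_option autoImplicit false

open Set Filter Topology MeasureTheory Metric
open scoped Manifold ContDiff ENNReal NNReal

noncomputable section

namespace Pool.Agent.H819.EM

open Pool.Agent.Y501.SY
open Pool.Agent.H819
open Pool.Agent.H819.LN
open Pool.Agent.H819.HN (HN HN.mono null_criterion near)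
open Pool.Agent.H819.LG (GoodAt InClass TamedIn Represents StronglyTames LocHolder)

variable {d : ℕ} {X : Type} [TopologicalSpace X] [ChartedSpace (E d) X]

/-- A chain `∅ = C 0 ⊆ C 1 ⊆ … ⊆ C n` of closed sets such that `C (i + 1) \ C i` is an embedded
`J`-holomorphic submanifold along which some form in the class of `σ₀` is positive. -/
structure PositiveChain (σ₀ : Form d X 2) (J : End d X) (n : ℕ) (C : ℕ → Set X) : Prop where
  bot : C 0 = ∅
  closed : ∀ i, i ≤ n → IsClosed (C i)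
  mono : ∀ i, i < n → C i ⊆ C (i + 1)
  pos : ∀ i, i < n → ∃ τ : Form d X 2, InClass σ₀ τ ∧ Along J τ (C i) (C (i + 1))

variable [IsManifold (𝓡 d) ∞ X]

theorem em_criterion [T2Space X] [CompactSpace X] (hd : 2 ≤ d) {J : End d X}
    (hJ2 : ∀ (x : X) (v : TangentSpace (𝓡 d) x), J x (J x v) = -v)
    (hJ : ∀ x₀, ContinuousOn (inChart J x₀) (chartAt (E d) x₀).target)
    (hJL : LocHolder J 1) {σ₀ : Form d X 2} (hσ : IsSmooth σ₀) (hcl : IsClosedForm σ₀) :
    TamedIn σ₀ J ↔ ∃ θ, Represents σ₀ θ ∧ StronglyTames θ J ∧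
      ∃ S : Set X, IsClosed S ∧ IsTotallyDisconnected S ∧
        (∀ p ∈ S, ContDiffAt ℝ 1 (inChart J p) (chartAt (E d) p p)) ∧
        ∃ (n : ℕ) (C : ℕ → Set X), PositiveChain σ₀ J n C ∧
          HN (d := d) 2 {p | p ∉ S ∧ p ∉ C n ∧ ¬ ZeroLelong θ p} := by
  constructor
  · intro h
    obtain ⟨θ, h1, h2, S, h3, h4, h5, h6⟩ := (null_criterion hd hJ2 hJ hJL hσ hcl).2.1.1 h
    refine ⟨θ, h1, h2, S, h3, h4, h5, 0, fun _ => ∅, ⟨rfl, fun _ _ => isClosed_empty,
      fun _ _ => Subset.rfl, fun i hi => absurd hi (Nat.not_lt_zero i)⟩, h6.mono ?_⟩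
    exact fun p hp => ⟨hp.1, hp.2.2⟩
  · rintro ⟨θ, h1, h2, S, h3, h4, h5, n, C, hC, h0⟩
    obtain ⟨κ, _, x, K, Z, cc, Bb, k1, k2, k3, k4, k5, k6, k7, k8⟩ :=
      exists_avg hd hJ2 hJ hJL hσ hcl h1 h2 h3 h4 h5
    have hτ : ∀ i, ∃ τ : Form d X 2, i < n → InClass σ₀ τ ∧ Along J τ (C i) (C (i + 1)) := by
      intro i
      by_cases hi : i < n
      · obtain ⟨τ, hτ⟩ := hC.pos i hi
        exact ⟨τ, fun _ => hτ⟩
      · exact ⟨0, fun h => absurd h hi⟩
    choose τ hτ using hτ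
    refine tamed_of_chain (near d) hJ2 hJ hJL hσ hcl k1 k2 k3 k4 k6 k7 k8 (C := C) (τ := τ)
      hC.bot hC.closed hC.mono (fun i hi => (hτ i hi).1) ?_ ?_ (n := n) ?_
    · intro i hi p hp
      obtain ⟨r, hr, -⟩ := loc_data hJ2 (hC.closed (i + 1) hi) (hτ i hi).2 hp
      exact ⟨r, hr⟩
    · intro i hi p hp
      obtain ⟨r, -, hr⟩ := loc_data hJ2 (hC.closed (i + 1) hi) (hτ i hi).2 hp
      exact ⟨r, hr⟩
    · exact h0.mono fun p hp => ⟨(k5 p hp.1).1, hp.2, (k5 p hp.1).2⟩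

end Pool.Agent.H819.EM
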