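import Mathlib
import Pool.Agent.H819.HN.Pub

/-!
# Chains of pseudoholomorphic submanifolds: definitions
-/

set_option autoImplicit false

open Set Filter Topology MeasureTheory Metric
open scoped Manifold ContDiff ENNReal NNReal

noncomputable section

namespace Pool.Agent.H819.EMP

open Pool.Agent.Y501.SYP Pool.Agent.H819.LGP Pool.Agent.H819.LNP Pool.Agent.H819.HNP

variable {V : Type} [NormedAddCommGroup V] [NormedSpace ℝ V]
  {X : Type} [TopologicalSpace X] [ChartedSpace V X]

/-- `τ` is a smooth closed form in the class of `σ₀`. -/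
def InClass (σ₀ τ : Form V X 2) : Prop :=
  IsSmooth τ ∧ IsClosedForm τ ∧ ∃ β : Form V X 1, IsSmooth β ∧ IsD β (subF τ σ₀)

/-- Off the set `B`, the set `C` is an embedded `J`-holomorphic submanifold (possibly with components
of different dimensions), `J` is smooth near the points of `C \ B`, and the form `τ` is positive on
the complex lines tangent to `C \ B`: near each point `p` of `C \ B` the set `C` is, in the chart at
`p`, the zero set of a smooth submersion `h`, and `J u` is in the kernel of `dh` and `τ(u, J u) > 0` for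
all nonzero `u` in the kernel of `dh`, at the points of `C`. -/
def PositiveAlong (J : End V X) (τ : Form V X 2) (B C : Set X) : Prop :=
  ∀ p ∈ C, p ∉ B → ∃ (k : ℕ) (h : V → EuclideanSpace ℝ (Fin k)),
    Function.Surjective (fderiv ℝ h (chartAt V p p)) ∧
    ∀ᶠ z in 𝓝 (chartAt V p p), ContDiffAt ℝ ∞ (op J p) z ∧ ContDiffAt ℝ ∞ h z ∧
      ((chartAt V p).symm z ∈ C ↔ h z = 0) ∧
      (h z = 0 → ∀ u : V, fderiv ℝ h z u = 0 → fderiv ℝ h z (op J p z u) = 0 ∧
        (u ≠ 0 → 0 < ev2 (loc p τ z) u (op J p z u)))

/-- A chain `∅ = C 0 ⊆ C 1 ⊆ … ⊆ C n` of closed sets such that `C (i + 1) \ C i` is an embedded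
`J`-holomorphic submanifold of `X \ C i`, near which `J` is smooth, and such that for each `i < n` some
smooth closed form in the class of `σ₀` is positive on the complex lines tangent to
`C (i + 1) \ C i`. -/
structure PositiveChain (σ₀ : Form V X 2) (J : End V X) (n : ℕ) (C : ℕ → Set X) : Prop where
  bot : C 0 = ∅
  closed : ∀ i, i ≤ n → IsClosed (C i)
  mono : ∀ i, i < n → C i ⊆ C (i + 1)
  pos : ∀ i, i < n → ∃ τ : Form V X 2, InClass σ₀ τ ∧ PositiveAlong J τ (C i) (C (i + 1))

end Pool.Agent.H819.EMP
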