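import Mathlib
import Pool.Agent.H819.EM.Pub
import Pool.Agent.H819.EM.Fin
import Pool.Agent.H819.HN.Br

/-!
# Comparison of the definitions
-/

set_option autoImplicit false

open Set Filter Topology MeasureTheory Metric
open scoped Manifold ContDiff ENNReal NNReal

noncomputable section

namespace Pool.Agent.H819.EMP

open Pool.Agent.Y501 (SY.E)
open Pool.Agent.Y501.SYP Pool.Agent.H819.LGP Pool.Agent.H819.LNP Pool.Agent.H819.HNP
open Pool.Agent

variable {d : ℕ} {X : Type} [TopologicalSpace X] [ChartedSpace (ES d) X]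

attribute [local instance] cs

theorem inClass_iff (σ₀ τ : Form (ES d) X 2) :
    InClass σ₀ τ ↔ H819.LG.InClass (d := d) (X := X) σ₀ τ := by
  constructor
  · rintro ⟨h1, h2, β, h3, h4⟩
    exact ⟨(smooth_iff τ).1 h1, (closed_iff τ).1 h2, β, (smooth_iff β).1 h3, (isD_iff β _).1 h4⟩
  · rintro ⟨h1, h2, β, h3, h4⟩
    exact ⟨(smooth_iff τ).2 h1, (closed_iff τ).2 h2, β, (smooth_iff β).2 h3, (isD_iff β _).2 h4⟩

theorem along_iff (J : End (ES d) X) (τ : Form (ES d) X 2) (B C : Set X) :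
    PositiveAlong J τ B C ↔ H819.EM.Along (d := d) (X := X) J τ B C := Iff.rfl

theorem chain_iff (σ₀ : Form (ES d) X 2) (J : End (ES d) X) (n : ℕ) (C : ℕ → Set X) :
    PositiveChain σ₀ J n C ↔ H819.EM.PositiveChain (d := d) (X := X) σ₀ J n C := by
  constructor
  · intro h
    refine ⟨h.bot, h.closed, h.mono, fun i hi => ?_⟩
    obtain ⟨τ, h1, h2⟩ := h.pos i hi
    exact ⟨τ, (inClass_iff σ₀ τ).1 h1, (along_iff J τ _ _).1 h2⟩
  · intro h
    refine ⟨h.bot, h.closed, h.mono, fun i hi => ?_⟩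
    obtain ⟨τ, h1, h2⟩ := h.pos i hi
    exact ⟨τ, (inClass_iff σ₀ τ).2 h1, (along_iff J τ _ _).2 h2⟩

theorem result_aux (hd : 2 ≤ d) [IsManifold 𝓘(ℝ, ES d) ∞ X] [CompactSpace X] [T2Space X]
    {J : End (ES d) X} (hJ : IsAlmostComplex J) (hJL : LocHolder J 1) {σ₀ : Form (ES d) X 2}
    (hσ : IsSmooth σ₀) (hcl : IsClosedForm σ₀) :
    (∀ θ, Represents (leb d) σ₀ θ → StronglyTames (leb d) θ J → BoundedDensity (leb d) d θ ∧
      HausdorffNull (V := ES d) ((d : ℝ) - 2) {p | lelong (leb d) d θ p ≠ 0}) ∧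
    (TamedIn σ₀ J ↔ ∃ θ, Represents (leb d) σ₀ θ ∧ StronglyTames (leb d) θ J ∧
      ∃ S : Set X, IsClosed S ∧ IsTotallyDisconnected S ∧ (∀ p ∈ S, C1At J p) ∧
        ∃ (n : ℕ) (C : ℕ → Set X), PositiveChain σ₀ J n C ∧
          HausdorffNull (V := ES d) 2 {p | p ∉ S ∧ p ∉ C n ∧ lelong (leb d) d θ p ≠ 0}) ∧
    (d ≤ 4 → (TamedIn σ₀ J ↔ ∃ θ, Represents (leb d) σ₀ θ ∧ StronglyTames (leb d) θ J)) := by
  have hm : IsManifold (𝓡 d) ∞ X := (inferInstance : IsManifold 𝓘(ℝ, ES d) ∞ X)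
  obtain ⟨h1, -, h3⟩ := HNP.result_aux hd hJ hJL hσ hcl
  refine ⟨h1, ?_, h3⟩
  have h2 := H819.EM.em_criterion (d := d) (X := X) hd hJ.sq (cont_of hJ)
    ((holder_iff J 1).1 hJL) ((smooth_iff σ₀).1 hσ) ((closed_iff σ₀).1 hcl)
  simp only [tamed_iff, rep_iff, strong_iff, lelong_ne, null_iff, c1at_iff, chain_iff]
  exact h2

end Pool.Agent.H819.EMP
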